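import Pool.Agent.Helper96.GB.Curve

/-! Adapted coordinates at a fixed point (MP_cd5a48_an). -/

set_option autoImplicit false

open Set Filter Metric Topology

namespace Pool.Agent.Helper96.GB

/-- a basis adapted to the kernel of a functional -/
theorem ker_basis (l : E →L[ℂ] ℂ) (hl : l ≠ 0) : ∃ (u w : E) (σ : E →L[ℂ] ℂ),
    l u = 0 ∧ l w = 1 ∧ σ u = 1 ∧ σ w = 0 ∧ ∀ x, x = l x • w + σ x • u := by
  set l₁ : ℂ := l (1, 0) with h₁
  set l₂ : ℂ := l (0, 1) with h₂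
  have hlx : ∀ x : E, l x = l₁ * x.1 + l₂ * x.2 := by
    intro x
    have e : x = x.1 • ((1, 0) : E) + x.2 • ((0, 1) : E) := by
      ext <;> simp
    conv_lhs => rw [e]
    rw [map_add, map_smul, map_smul, smul_eq_mul, smul_eq_mul]
    ring
  set N : ℂ := l₁ * starRingEnd ℂ l₁ + l₂ * starRingEnd ℂ l₂ with hN
  have hN0 : N ≠ 0 := by
    intro h
    have h1 : Complex.normSq l₁ + Complex.normSq l₂ = 0 := by
      have h2 : N = ((Complex.normSq l₁ + Complex.normSq l₂ : ℝ) : ℂ) := by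
        rw [hN, Complex.mul_conj, Complex.mul_conj]
        push_cast
        ring
      rw [h2] at h
      exact_mod_cast h
    have h3 := Complex.normSq_nonneg l₁
    have h4 := Complex.normSq_nonneg l₂
    have h5 : l₁ = 0 := Complex.normSq_eq_zero.1 (by linarith)
    have h6 : l₂ = 0 := Complex.normSq_eq_zero.1 (by linarith)
    apply hl
    refine ContinuousLinearMap.ext fun x => ?_
    rw [hlx, h5, h6]
    simp
  refine ⟨(l₂, -l₁), (starRingEnd ℂ l₁ / N, starRingEnd ℂ l₂ / N),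
    (starRingEnd ℂ l₂ / N) • ContinuousLinearMap.fst ℂ ℂ ℂ -
      (starRingEnd ℂ l₁ / N) • ContinuousLinearMap.snd ℂ ℂ ℂ, ?_, ?_, ?_, ?_, ?_⟩
  · rw [hlx]
    ring
  · rw [hlx]
    field_simp
    exact hN.symm
  · show starRingEnd ℂ l₂ / N * l₂ - starRingEnd ℂ l₁ / N * -l₁ = 1
    field_simp
    rw [hN]
    ring
  · show starRingEnd ℂ l₂ / N * (starRingEnd ℂ l₁ / N) -
      starRingEnd ℂ l₁ / N * (starRingEnd ℂ l₂ / N) = 0
    ring
  · intro x
    rw [hlx]
    refine Prod.ext ?_ ?_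
    · show x.1 = (l₁ * x.1 + l₂ * x.2) * (starRingEnd ℂ l₁ / N) +
        (starRingEnd ℂ l₂ / N * x.1 - starRingEnd ℂ l₁ / N * x.2) * l₂
      field_simp
      rw [hN]
      ring
    · show x.2 = (l₁ * x.1 + l₂ * x.2) * (starRingEnd ℂ l₂ / N) +
        (starRingEnd ℂ l₂ / N * x.1 - starRingEnd ℂ l₁ / N * x.2) * -l₁
      field_simp
      rw [hN]
      ring

/-- the other eigenvalue -/
theorem exists_mu (D : E →L[ℂ] E) (l : E →L[ℂ] ℂ) (hl : l ≠ 0) (c : ℂ)
    (h1 : ∀ x, l (D x) = c * l x) : ∃ μ : ℂ, ∀ u, l u = 0 → D u = μ • u := by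
  obtain ⟨u, w, σ, hu, -, hσu, -, hdec⟩ := ker_basis l hl
  refine ⟨σ (D u), fun x hx => ?_⟩
  have e1 : x = σ x • u := by
    have := hdec x
    rwa [hx, zero_smul, zero_add] at this
  have e2 : D u = σ (D u) • u := by
    have := hdec (D u)
    rwa [h1, hu, mul_zero, zero_smul, zero_add] at this
  calc D x = D (σ x • u) := by rw [← e1]
    _ = σ x • D u := map_smul _ _ _
    _ = σ x • σ (D u) • u := by rw [← e2]
    _ = σ (D u) • σ x • u := smul_comm _ _ _
    _ = σ (D u) • x := by rw [← e1]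

theorem exists_eigvec (D : E →L[ℂ] E) (l : E →L[ℂ] ℂ) (hl : l ≠ 0) (c μ : ℂ)
    (h1 : ∀ x, l (D x) = c * l x) (h2 : ∀ u, l u = 0 → D u = μ • u) (hne : μ ≠ c) :
    ∃ v, l v = 1 ∧ D v = c • v := by
  obtain ⟨u, w, σ, hu, hw, hσu, hσw, hdec⟩ := ker_basis l hl
  have hc : c - μ ≠ 0 := sub_ne_zero.2 (Ne.symm hne)
  refine ⟨w + (σ (D w) / (c - μ)) • u, ?_, ?_⟩
  · rw [map_add, map_smul, hu, hw, smul_zero, add_zero]
  · have e1 : D w = c • w + σ (D w) • u := by
      have := hdec (D w)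
      rwa [h1, hw, mul_one] at this
    set α := σ (D w)
    rw [map_add, map_smul, h2 u hu, e1, smul_add, smul_smul, smul_smul, add_assoc, ← add_smul]
    congr 2
    field_simp
    ring

theorem exists_adapted (D : E →L[ℂ] E) (l : E →L[ℂ] ℂ) (hl : l ≠ 0) (c μ : ℂ)
    (h1 : ∀ x, l (D x) = c * l x) (h2 : ∀ u, l u = 0 → D u = μ • u) (b : ℝ)
    (hb1 : ‖c‖ < b) (hb2 : ‖μ‖ < b) : ∃ T : E ≃L[ℂ] E, ∀ x, ‖T (D x)‖ ≤ b * ‖T x‖ := by
  obtain ⟨u, w, σ, hu, hw, hσu, hσw, hdec⟩ := ker_basis l hl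
  set R : ℝ := ‖σ (D w)‖ / (b - ‖μ‖) + 1 with hR
  have hbμ : 0 < b - ‖μ‖ := by linarith
  have hR0 : 0 < R := by positivity
  have hRc : (R : ℂ) ≠ 0 := by exact_mod_cast hR0.ne'
  have hbR : ‖σ (D w)‖ ≤ (b - ‖μ‖) * R := by
    rw [hR, mul_add, mul_div_cancel₀ _ hbμ.ne']
    linarith
  let T₀ : E ≃ₗ[ℂ] E :=
    { toFun := fun x => ((R : ℂ) * l x, σ x)
      invFun := fun y => (y.1 / R) • w + y.2 • u
      map_add' := fun x y => by
        refine Prod.ext ?_ ?_
        · show (R : ℂ) * l (x + y) = R * l x + R * l y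
          rw [map_add]
          ring
        · exact map_add σ x y
      map_smul' := fun a x => by
        refine Prod.ext ?_ ?_
        · show (R : ℂ) * l (a • x) = a * (R * l x)
          rw [map_smul, smul_eq_mul]
          ring
        · exact map_smul σ a x
      left_inv := fun x => by
        show (((R : ℂ) * l x) / R) • w + σ x • u = x
        rw [mul_div_cancel_left₀ _ hRc]
        exact (hdec x).symm
      right_inv := fun y => by
        refine Prod.ext ?_ ?_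
        · show (R : ℂ) * l ((y.1 / R) • w + y.2 • u) = y.1
          rw [map_add, map_smul, map_smul, hu, hw, smul_zero, add_zero, smul_eq_mul, mul_one,
            mul_div_cancel₀ _ hRc]
        · show σ ((y.1 / R) • w + y.2 • u) = y.2
          rw [map_add, map_smul, map_smul, hσu, hσw, smul_zero, zero_add, smul_eq_mul, mul_one] }
  refine ⟨T₀.toContinuousLinearEquiv, fun x => ?_⟩
  have eT : ∀ x, T₀.toContinuousLinearEquiv x = ((R : ℂ) * l x, σ x) := fun x => rfl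
  have e1 : σ (D x) = σ (D w) * l x + μ * σ x := by
    conv_lhs => rw [hdec x]
    rw [map_add, map_smul, map_smul, h2 u hu, map_add, map_smul, map_smul, map_smul, hσu,
      smul_eq_mul, smul_eq_mul, smul_eq_mul]
    ring
  rw [eT, eT, h1, e1, Prod.norm_def, Prod.norm_def]
  set s : ℂ := (R : ℂ) * l x with hs
  set t : ℂ := σ x
  set P : ℝ := max ‖s‖ ‖t‖
  have hs1 : ‖s‖ ≤ P := le_max_left _ _
  have ht1 : ‖t‖ ≤ P := le_max_right _ _
  have hP : 0 ≤ P := (norm_nonneg _).trans hs1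
  refine max_le ?_ ?_
  · show ‖(R : ℂ) * (c * l x)‖ ≤ b * P
    have e : (R : ℂ) * (c * l x) = c * s := by rw [hs]; ring
    rw [e, norm_mul]
    have := norm_nonneg c
    have := norm_nonneg s
    nlinarith
  · show ‖σ (D w) * l x + μ * t‖ ≤ b * P
    have e : ‖l x‖ * R = ‖s‖ := by
      rw [hs, norm_mul, Complex.norm_real, Real.norm_of_nonneg hR0.le, mul_comm]
    calc ‖σ (D w) * l x + μ * t‖ ≤ ‖σ (D w)‖ * ‖l x‖ + ‖μ‖ * ‖t‖ := by
          refine (norm_add_le _ _).trans ?_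
          rw [norm_mul, norm_mul]
      _ ≤ ((b - ‖μ‖) * R) * ‖l x‖ + ‖μ‖ * P := by gcongr
      _ = (b - ‖μ‖) * ‖s‖ + ‖μ‖ * P := by rw [← e]; ring
      _ ≤ (b - ‖μ‖) * P + ‖μ‖ * P := by gcongr
      _ = b * P := by ring

/-- the map in the coordinates `T` -/
theorem conj_facts (G : E → E) (hG : Differentiable ℂ G) (q : E) (T : E ≃L[ℂ] E) (b : ℝ)
    (hb : 0 ≤ b) (hT : ∀ x, ‖T (fderiv ℂ G q x)‖ ≤ b * ‖T x‖) :
    Differentiable ℂ (fun y => T (G (T.symm y))) ∧
    (∀ y, fderiv ℂ (fun y => T (G (T.symm y))) (T q) y = T (fderiv ℂ G q (T.symm y))) ∧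
    ‖fderiv ℂ (fun y => T (G (T.symm y))) (T q)‖ ≤ b := by
  have hd : Differentiable ℂ (fun y => T (G (T.symm y))) := by
    intro y
    exact T.differentiableAt.comp y ((hG _).comp y T.symm.differentiableAt)
  have h1 : HasFDerivAt (fun y => T (G (T.symm y)))
      ((T : E →L[ℂ] E).comp ((fderiv ℂ G q).comp (T.symm : E →L[ℂ] E))) (T q) := by
    have h2 : HasFDerivAt G (fderiv ℂ G q) (T.symm (T q)) := by
      rw [ContinuousLinearEquiv.symm_apply_apply]
      exact (hG q).hasFDerivAt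
    exact T.hasFDerivAt.comp (T q) (h2.comp (T q) T.symm.hasFDerivAt)
  refine ⟨hd, fun y => by rw [h1.fderiv]; rfl, ?_⟩
  rw [h1.fderiv]
  refine ContinuousLinearMap.opNorm_le_bound _ hb fun y => ?_
  have h2 := hT (T.symm y)
  rw [ContinuousLinearEquiv.apply_symm_apply] at h2
  exact h2

theorem exists_curve' (G : E → E) (hG : Differentiable ℂ G) (q : E) (hq : G q = q)
    (l : E →L[ℂ] ℂ) (hl : l ≠ 0) (c μ : ℂ) (h1 : ∀ x, l (fderiv ℂ G q x) = c * l x)
    (h2 : ∀ u, l u = 0 → fderiv ℂ G q u = μ • u) (hne : μ ≠ c) (hc : 1 < ‖c‖)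
    (hμ : ‖μ‖ < ‖c‖ ^ 2) :
    ∃ Ψ : ℂ → E, Differentiable ℂ Ψ ∧ Ψ 0 = q ∧ (∃ v, l v = 1 ∧ HasDerivAt Ψ v 0) ∧
      ∀ ζ, G (Ψ ζ) = Ψ (c * ζ) := by
  obtain ⟨v, hv1, hv2⟩ := exists_eigvec _ l hl c μ h1 h2 hne
  have hcc : ‖c‖ < ‖c‖ ^ 2 := by nlinarith
  obtain ⟨b, hb1, hb2⟩ := exists_between (max_lt hcc hμ)
  obtain ⟨T, hT⟩ := exists_adapted _ l hl c μ h1 h2 b ((le_max_left _ _).trans_lt hb1)
    ((le_max_right _ _).trans_lt hb1)
  have hb0 : 0 ≤ b := (norm_nonneg c).trans ((le_max_left _ _).trans hb1.le)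
  obtain ⟨f1, f2, f3⟩ := conj_facts G hG q T b hb0 hT
  obtain ⟨Φ, g1, g2, g3, g4⟩ := exists_curve (fun y => T (G (T.symm y))) f1 (T q) (T v)
    (by rw [ContinuousLinearEquiv.symm_apply_apply, hq]) c hc
    (by rw [f2, ContinuousLinearEquiv.symm_apply_apply, hv2, map_smul]) (f3.trans_lt hb2)
  refine ⟨fun ζ => T.symm (Φ ζ), ?_, ?_, ⟨v, hv1, ?_⟩, ?_⟩
  · intro ζ
    exact T.symm.differentiableAt.comp ζ (g1 ζ)
  · show T.symm (Φ 0) = q
    rw [g2, ContinuousLinearEquiv.symm_apply_apply]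
  · have h3 := (T.symm.hasFDerivAt (x := Φ 0)).comp_hasDerivAt (0 : ℂ) g3
    rw [ContinuousLinearEquiv.coe_coe, ContinuousLinearEquiv.symm_apply_apply] at h3
    exact h3
  · intro ζ
    have h3 := congrArg T.symm (g4 ζ)
    rw [ContinuousLinearEquiv.symm_apply_apply] at h3
    exact h3

theorem attr_near (G : E → E) (hG : Differentiable ℂ G) (q : E) (hq : G q = q)
    (l : E →L[ℂ] ℂ) (hl : l ≠ 0) (c μ : ℂ) (h1 : ∀ x, l (fderiv ℂ G q x) = c * l x)
    (h2 : ∀ u, l u = 0 → fderiv ℂ G q u = μ • u) (hc : ‖c‖ < 1) (hμ : ‖μ‖ < 1) :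
    ∀ᶠ x in 𝓝 q, Tendsto (fun k => G^[k] x) atTop (𝓝 q) := by
  obtain ⟨b, hb1, hb2⟩ := exists_between (max_lt hc hμ)
  obtain ⟨T, hT⟩ := exists_adapted _ l hl c μ h1 h2 b ((le_max_left _ _).trans_lt hb1)
    ((le_max_right _ _).trans_lt hb1)
  have hb0 : 0 ≤ b := (norm_nonneg c).trans ((le_max_left _ _).trans hb1.le)
  obtain ⟨f1, f2, f3⟩ := conj_facts G hG q T b hb0 hT
  set G' : E → E := fun y => T (G (T.symm y)) with hG'
  obtain ⟨r, hr, hr1⟩ := rem_lip G' f1 (T q) ((1 - b) / 2) (by linarith)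
  have hq' : G' (T q) = T q := by
    simp only [hG', ContinuousLinearEquiv.symm_apply_apply, hq]
  set L : ℝ := (1 + b) / 2 with hL
  have hL0 : 0 ≤ L := by linarith
  have hL1 : L < 1 := by linarith
  have hstep : ∀ y ∈ ball (T q) r, ‖G' y - T q‖ ≤ L * ‖y - T q‖ := by
    intro y hy
    have h3 := hr1 y hy (T q) (mem_ball_self hr)
    rw [hq'] at h3
    have h4 := (fderiv ℂ G' (T q)).le_opNorm (y - T q)
    have h5 : ‖fderiv ℂ G' (T q)‖ * ‖y - T q‖ ≤ b * ‖y - T q‖ := by gcongr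
    calc ‖G' y - T q‖ = ‖(G' y - T q - fderiv ℂ G' (T q) (y - T q)) +
          fderiv ℂ G' (T q) (y - T q)‖ := by rw [sub_add_cancel]
      _ ≤ ‖G' y - T q - fderiv ℂ G' (T q) (y - T q)‖ + ‖fderiv ℂ G' (T q) (y - T q)‖ :=
        norm_add_le _ _
      _ ≤ (1 - b) / 2 * ‖y - T q‖ + b * ‖y - T q‖ := add_le_add h3 (h4.trans h5)
      _ = L * ‖y - T q‖ := by rw [hL]; ring
  have hiter : ∀ y ∈ ball (T q) r, ∀ k, ‖G'^[k] y - T q‖ ≤ L ^ k * ‖y - T q‖ := by
    intro y hy k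
    induction k with
    | zero => simp
    | succ k ih =>
      rw [Function.iterate_succ_apply']
      have h3 : G'^[k] y ∈ ball (T q) r := by
        rw [mem_ball, dist_eq_norm] at hy ⊢
        refine (ih.trans ?_).trans_lt hy
        have := pow_le_one₀ hL0 hL1.le (n := k)
        have := norm_nonneg (y - T q)
        nlinarith
      refine (hstep _ h3).trans ?_
      rw [pow_succ, mul_comm (L ^ k) L, mul_assoc]
      gcongr
  have hconj : ∀ k x, G'^[k] (T x) = T (G^[k] x) := by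
    intro k x
    induction k with
    | zero => rfl
    | succ k ih =>
      rw [Function.iterate_succ_apply', Function.iterate_succ_apply', ih]
      simp only [hG', ContinuousLinearEquiv.symm_apply_apply]
  have hev : ∀ᶠ x in 𝓝 q, T x ∈ ball (T q) r :=
    T.continuous.continuousAt.eventually (isOpen_ball.mem_nhds (mem_ball_self hr))
  filter_upwards [hev] with x hx
  have h3 : Tendsto (fun k => G'^[k] (T x)) atTop (𝓝 (T q)) := by
    rw [tendsto_iff_norm_sub_tendsto_zero]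
    have h4 : Tendsto (fun k : ℕ => L ^ k * ‖T x - T q‖) atTop (𝓝 0) := by
      have := (tendsto_pow_atTop_nhds_zero_of_lt_one hL0 hL1).mul_const ‖T x - T q‖
      simpa using this
    exact squeeze_zero (fun _ => norm_nonneg _) (hiter _ hx) h4
  have h4 := (T.symm.continuous.tendsto (T q)).comp h3
  rw [ContinuousLinearEquiv.symm_apply_apply] at h4
  refine h4.congr fun k => ?_
  simp only [Function.comp_apply, hconj, ContinuousLinearEquiv.symm_apply_apply]

end Pool.Agent.Helper96.GB
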