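import Pool.Agent.Helper96.GB.Fam

/-! Backward orbits of `(z, w) ↦ (a z exp z + D w, z)` (MP_cd5a48_an). -/

set_option autoImplicit false

open Set Filter Metric Topology

namespace Pool.Agent.Helper96.GB

theorem log_lip {u v : ℂ} (hu : ‖u‖ ≤ 1 / 2) (hv : ‖v‖ ≤ 1 / 2) :
    ‖Complex.log (1 + u) - Complex.log (1 + v)‖ ≤ 2 * ‖u - v‖ := by
  have hs : ∀ x ∈ closedBall (0 : ℂ) (1 / 2), 1 + x ∈ Complex.slitPlane := by
    intro x hx
    rw [mem_closedBall, dist_zero_right] at hx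
    rw [Complex.mem_slitPlane_iff]
    left
    have := (Complex.abs_re_le_norm x).trans hx
    have := neg_abs_le x.re
    rw [Complex.add_re, Complex.one_re]
    linarith
  have hd : ∀ x ∈ closedBall (0 : ℂ) (1 / 2),
      HasDerivAt (fun x => Complex.log (1 + x)) (1 / (1 + x)) x := by
    intro x hx
    exact ((hasDerivAt_id x).const_add 1).clog (hs x hx)
  refine (convex_closedBall (0 : ℂ) (1 / 2)).norm_image_sub_le_of_norm_deriv_le
    (fun x hx => (hd x hx).differentiableAt) (fun x hx => ?_)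
    (by rw [mem_closedBall, dist_zero_right]; exact hv)
    (by rw [mem_closedBall, dist_zero_right]; exact hu)
  rw [(hd x hx).deriv, norm_div, norm_one]
  rw [mem_closedBall, dist_zero_right] at hx
  have h1 : 1 / 2 ≤ ‖1 + x‖ := by
    have := norm_sub_norm_le (1 : ℂ) (-x)
    rw [norm_one, norm_neg, sub_neg_eq_add] at this
    linarith
  rw [div_le_iff₀ (by linarith)]
  linarith

theorem log_small {u : ℂ} (hu : ‖u‖ ≤ 1 / 2) : ‖Complex.log (1 + u)‖ ≤ 2 * ‖u‖ := by
  have := log_lip hu (v := 0) (by rw [norm_zero]; norm_num)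
  simpa using this

/-- the map on the scaled sequences -/
noncomputable def bmap (t lam : ℂ) (D L : ℝ) (x : ℕ → ℂ) : ℕ → ℂ
  | 0 => lam + Complex.log (1 + D * (t + x 1 / 2) / L) - Complex.log (1 + x 0 / t)
  | i + 1 => 2 ^ (i + 1) * (Complex.log (1 + (x i / 2 ^ i - D * (x (i + 2) / 2 ^ (i + 2))) /
      ((1 - D) * t)) - Complex.log (1 + x (i + 1) / 2 ^ (i + 1) / t))

/-- the constants -/
structure BC (t lam : ℂ) (D L R : ℝ) : Prop where
  hD : 0 < D
  hD1 : D < 1
  hT : 16 ≤ (1 - D) * ‖t‖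
  hR : 0 ≤ R
  hRT : 16 * R ≤ (1 - D) * ‖t‖
  hL : 4 * ‖t‖ ≤ L
  hlam : 2 * (‖lam‖ + 1) ≤ R

section

variable {t lam : ℂ} {D L R : ℝ}

theorem BC.pos (h : BC t lam D L R) : 0 < ‖t‖ := by
  obtain ⟨h1, h2, h3, -, -, -, -⟩ := h
  by_contra hcon
  push Not at hcon
  have : ‖t‖ = 0 := le_antisymm hcon (norm_nonneg _)
  rw [this] at h3
  linarith

theorem BC.two (h : BC t lam D L R) : 2 ≤ R := by
  have := h.hlam
  have := norm_nonneg lam
  linarith

theorem BC.T16 (h : BC t lam D L R) : 16 ≤ ‖t‖ := by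
  have h1 := h.hT
  have h2 := h.hD
  have h3 := h.pos
  nlinarith

theorem BC.RT (h : BC t lam D L R) : 16 * R ≤ ‖t‖ := by
  have h1 := h.hRT
  have h2 := h.hD
  have h3 := h.pos
  nlinarith

theorem bmap_est (h : BC t lam D L R) (x y : ℕ → ℂ) (hx : ∀ i, ‖x i‖ ≤ R) (hy : ∀ i, ‖y i‖ ≤ R)
    (d : ℝ) (hd : ∀ i, ‖x i - y i‖ ≤ d) (i : ℕ) :
    ‖bmap t lam D L x i - bmap t lam D L y i‖ ≤ 1 / 2 * d := by
  have hT0 := h.pos
  have hT16 := h.T16
  have hRT' := h.RT
  obtain ⟨hD, hD1, hT, hR, hRT, hL, hlam⟩ := h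
  have hd0 : 0 ≤ d := (norm_nonneg _).trans (hd 0)
  have hL0 : 0 < L := by linarith
  have hDT : ‖((1 - D : ℝ) : ℂ) * t‖ = (1 - D) * ‖t‖ := by
    rw [norm_mul, Complex.norm_real, Real.norm_of_nonneg (by linarith)]
  have hcast : ((1 : ℂ) - D) * t = ((1 - D : ℝ) : ℂ) * t := by push_cast; ring
  have hDn : ‖(D : ℂ)‖ = D := by rw [Complex.norm_real, Real.norm_of_nonneg hD.le]
  have hLn : ‖(L : ℂ)‖ = L := by rw [Complex.norm_real, Real.norm_of_nonneg hL0.le]
  have hsmall : ∀ z : ℕ → ℂ, (∀ i, ‖z i‖ ≤ R) → ∀ i, ‖z i / 2 ^ i / t‖ ≤ 1 / 2 := by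
    intro z hz i
    rw [norm_div, norm_div, norm_pow, Complex.norm_ofNat, div_le_iff₀ hT0]
    have h1 : ‖z i‖ / 2 ^ i ≤ ‖z i‖ := div_le_self (norm_nonneg _) (one_le_pow₀ (by norm_num))
    have := hz i
    linarith
  cases i with
  | zero =>
    have hu : ∀ z : ℕ → ℂ, (∀ i, ‖z i‖ ≤ R) → ‖(D : ℂ) * (t + z 1 / 2) / L‖ ≤ 1 / 2 := by
      intro z hz
      rw [norm_div, norm_mul, hDn, hLn, div_le_iff₀ hL0]
      have h1 : ‖t + z 1 / 2‖ ≤ ‖t‖ + ‖z 1‖ / 2 := by
        refine (norm_add_le _ _).trans ?_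
        rw [norm_div, Complex.norm_ofNat]
      have h2 := hz 1
      have h3 : D * ‖t + z 1 / 2‖ ≤ 1 * ‖t + z 1 / 2‖ := by gcongr
      linarith
    have h0 : ∀ z : ℕ → ℂ, (∀ i, ‖z i‖ ≤ R) → ‖z 0 / t‖ ≤ 1 / 2 := by
      intro z hz
      have := hsmall z hz 0
      simpa using this
    have e1 := log_lip (hu x hx) (hu y hy)
    have e2 := log_lip (h0 x hx) (h0 y hy)
    have e3 : bmap t lam D L x 0 - bmap t lam D L y 0 =
        (Complex.log (1 + D * (t + x 1 / 2) / L) - Complex.log (1 + D * (t + y 1 / 2) / L)) -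
        (Complex.log (1 + x 0 / t) - Complex.log (1 + y 0 / t)) := by
      simp only [bmap]
      ring
    have e4 : ‖(D : ℂ) * (t + x 1 / 2) / L - D * (t + y 1 / 2) / L‖ ≤ d / 64 := by
      have : (D : ℂ) * (t + x 1 / 2) / L - D * (t + y 1 / 2) / L = D * (x 1 - y 1) / (2 * L) := by
        field_simp
        ring
      rw [this, norm_div, norm_mul, norm_mul, hDn, hLn, Complex.norm_ofNat,
        div_le_iff₀ (by positivity)]
      have h1 := hd 1
      have h2 : D * ‖x 1 - y 1‖ ≤ 1 * d := by gcongr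
      nlinarith
    have e5 : ‖x 0 / t - y 0 / t‖ ≤ d / 16 := by
      rw [← sub_div, norm_div, div_le_iff₀ hT0]
      have h1 := hd 0
      nlinarith
    rw [e3]
    refine (norm_sub_le _ _).trans ?_
    linarith
  | succ i =>
    have hpow : (0 : ℝ) < 2 ^ i := by positivity
    have hu : ∀ z : ℕ → ℂ, (∀ i, ‖z i‖ ≤ R) →
        ‖(z i / 2 ^ i - D * (z (i + 2) / 2 ^ (i + 2))) / ((1 - D) * t)‖ ≤ 1 / 2 := by
      intro z hz
      rw [hcast, norm_div, hDT, div_le_iff₀ (by linarith)]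
      have h1 : ‖z i / 2 ^ i‖ ≤ R := by
        rw [norm_div, norm_pow, Complex.norm_ofNat]
        exact (div_le_self (norm_nonneg _) (one_le_pow₀ (by norm_num))).trans (hz i)
      have h2 : ‖(D : ℂ) * (z (i + 2) / 2 ^ (i + 2))‖ ≤ R := by
        rw [norm_mul, hDn, norm_div, norm_pow, Complex.norm_ofNat]
        have h3 : ‖z (i + 2)‖ / 2 ^ (i + 2) ≤ R :=
          (div_le_self (norm_nonneg _) (one_le_pow₀ (by norm_num))).trans (hz (i + 2))
        have h4 : 0 ≤ ‖z (i + 2)‖ / 2 ^ (i + 2) := by positivity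
        nlinarith
      refine (norm_sub_le _ _).trans ?_
      linarith
    have e1 := log_lip (hu x hx) (hu y hy)
    have e2 := log_lip (hsmall x hx (i + 1)) (hsmall y hy (i + 1))
    set Ax := Complex.log (1 + (x i / 2 ^ i - D * (x (i + 2) / 2 ^ (i + 2))) / ((1 - D) * t))
    set Ay := Complex.log (1 + (y i / 2 ^ i - D * (y (i + 2) / 2 ^ (i + 2))) / ((1 - D) * t))
    set Bx := Complex.log (1 + x (i + 1) / 2 ^ (i + 1) / t)
    set By := Complex.log (1 + y (i + 1) / 2 ^ (i + 1) / t)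
    have e3 : bmap t lam D L x (i + 1) - bmap t lam D L y (i + 1) =
        2 ^ (i + 1) * ((Ax - Ay) - (Bx - By)) := by
      show 2 ^ (i + 1) * (Ax - Bx) - 2 ^ (i + 1) * (Ay - By) = _
      ring
    have e4 : ‖(x i / 2 ^ i - D * (x (i + 2) / 2 ^ (i + 2))) / ((1 - D) * t) -
        (y i / 2 ^ i - D * (y (i + 2) / 2 ^ (i + 2))) / ((1 - D) * t)‖ ≤ (5 / 64) * d / 2 ^ i := by
      rw [← sub_div, hcast, norm_div, hDT, div_le_iff₀ (by linarith)]
      have e6 : (x i / 2 ^ i - D * (x (i + 2) / 2 ^ (i + 2)) -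
          (y i / 2 ^ i - D * (y (i + 2) / 2 ^ (i + 2))) : ℂ) =
          (x i - y i) / 2 ^ i - D * ((x (i + 2) - y (i + 2)) / 2 ^ (i + 2)) := by
        ring
      rw [e6]
      have h1 : ‖(x i - y i) / 2 ^ i‖ ≤ d / 2 ^ i := by
        rw [norm_div, norm_pow, Complex.norm_ofNat]
        gcongr
        exact hd i
      have h2 : ‖(D : ℂ) * ((x (i + 2) - y (i + 2)) / 2 ^ (i + 2))‖ ≤ d / 2 ^ i / 4 := by
        rw [norm_mul, hDn, norm_div, norm_pow, Complex.norm_ofNat]
        have h3 : ‖x (i + 2) - y (i + 2)‖ / 2 ^ (i + 2) ≤ d / 2 ^ (i + 2) := by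
          gcongr
          exact hd (i + 2)
        have h4 : 0 ≤ ‖x (i + 2) - y (i + 2)‖ / 2 ^ (i + 2) := by positivity
        have h5 : d / 2 ^ (i + 2) = d / 2 ^ i / 4 := by
          rw [pow_add]
          field_simp
          norm_num
        rw [h5] at h3
        nlinarith
      refine (norm_sub_le _ _).trans ?_
      have h3 : 0 ≤ d / 2 ^ i := by positivity
      have h4 : (5 / 64) * d / 2 ^ i * ((1 - D) * ‖t‖) = (5 / 64) * ((1 - D) * ‖t‖) * (d / 2 ^ i) := by
        ring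
      rw [h4]
      nlinarith
    have e5 : ‖x (i + 1) / 2 ^ (i + 1) / t - y (i + 1) / 2 ^ (i + 1) / t‖ ≤
        (1 / 32) * d / 2 ^ i := by
      rw [← sub_div, ← sub_div, norm_div, norm_div, norm_pow, Complex.norm_ofNat,
        div_le_iff₀ hT0]
      have h1 : ‖x (i + 1) - y (i + 1)‖ / 2 ^ (i + 1) ≤ d / 2 ^ (i + 1) := by
        gcongr
        exact hd (i + 1)
      have h2 : d / 2 ^ (i + 1) = d / 2 ^ i / 2 := by
        rw [pow_succ]
        field_simp
      have h3 : 0 ≤ d / 2 ^ i := by positivity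
      have h4 : (1 / 32) * d / 2 ^ i * ‖t‖ = (1 / 32) * ‖t‖ * (d / 2 ^ i) := by ring
      rw [h4]
      nlinarith
    rw [e3, norm_mul, norm_pow, Complex.norm_ofNat]
    have e6 : ‖(Ax - Ay) - (Bx - By)‖ ≤ (7 / 32) * (d / 2 ^ i) := by
      refine (norm_sub_le _ _).trans ?_
      have h3 : 0 ≤ d / 2 ^ i := by positivity
      have h4 : (5 / 64) * d / 2 ^ i = (5 / 64) * (d / 2 ^ i) := by ring
      have h5 : (1 / 32) * d / 2 ^ i = (1 / 32) * (d / 2 ^ i) := by ring
      rw [h4] at e4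
      rw [h5] at e5
      linarith
    calc (2 : ℝ) ^ (i + 1) * ‖(Ax - Ay) - (Bx - By)‖
        ≤ 2 ^ (i + 1) * ((7 / 32) * (d / 2 ^ i)) := by gcongr
      _ = 7 / 16 * d := by
        rw [pow_succ]
        field_simp
        ring
      _ ≤ 1 / 2 * d := by linarith

theorem bmap_bound (h : BC t lam D L R) (x : ℕ → ℂ) (hx : ∀ i, ‖x i‖ ≤ R) (i : ℕ) :
    ‖bmap t lam D L x i‖ ≤ R := by
  have hT0 := h.pos
  have h1 := bmap_est h x (fun _ => 0) hx (fun _ => by simpa using h.hR) R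
    (fun i => by simpa using hx i) i
  have h2 : ‖bmap t lam D L (fun _ => 0) i‖ ≤ R / 2 := by
    obtain ⟨hD, hD1, hT, hR, hRT, hL, hlam⟩ := h
    have hL0 : 0 < L := by linarith
    cases i with
    | zero =>
      simp only [bmap, zero_div, add_zero, Complex.log_one, sub_zero]
      have h3 : ‖(D : ℂ) * t / L‖ ≤ 1 / 4 := by
        rw [norm_div, norm_mul, Complex.norm_real, Real.norm_of_nonneg hD.le, Complex.norm_real,
          Real.norm_of_nonneg hL0.le, div_le_iff₀ hL0]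
        nlinarith
      have h4 := log_small (u := (D : ℂ) * t / L) (by linarith)
      refine (norm_add_le _ _).trans ?_
      linarith
    | succ i =>
      simp only [bmap, zero_div, mul_zero, sub_zero, add_zero, Complex.log_one, norm_zero]
      linarith
  have h3 := norm_add_le (bmap t lam D L x i - bmap t lam D L (fun _ => 0) i)
    (bmap t lam D L (fun _ => 0) i)
  rw [sub_add_cancel] at h3
  linarith

theorem exists_seq (h : BC t lam D L R) :
    ∃ x : ℕ → ℂ, (∀ i, ‖x i‖ ≤ R) ∧ bmap t lam D L x = x := by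
  classical
  let Φ : BoundedContinuousFunction ℕ ℂ → BoundedContinuousFunction ℕ ℂ := fun x =>
    if hx : ‖x‖ ≤ R then
      BoundedContinuousFunction.ofNormedAddCommGroupDiscrete (bmap t lam D L x) R
        (bmap_bound h x fun i => (x.norm_coe_le_norm i).trans hx)
    else 0
  have hΦ : ∀ (x : BoundedContinuousFunction ℕ ℂ), ‖x‖ ≤ R → ∀ i, Φ x i = bmap t lam D L x i := by
    intro x hx i
    simp only [Φ, dif_pos hx]
    rfl
  obtain ⟨x, hx, hfix⟩ := contr_fix Φ 0 R h.hR (1 / 2) (by norm_num) (by norm_num)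
    (by
      intro x hx
      rw [mem_closedBall, dist_zero_right] at hx ⊢
      rw [BoundedContinuousFunction.norm_le h.hR]
      intro i
      rw [hΦ x hx]
      exact bmap_bound h x (fun i => (x.norm_coe_le_norm i).trans hx) i)
    (by
      intro x hx y hy
      rw [mem_closedBall, dist_zero_right] at hx hy
      rw [BoundedContinuousFunction.norm_le (by positivity)]
      intro i
      rw [BoundedContinuousFunction.sub_apply, hΦ x hx, hΦ y hy]
      exact bmap_est h x y (fun i => (x.norm_coe_le_norm i).trans hx)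
        (fun i => (y.norm_coe_le_norm i).trans hy) ‖x - y‖
        (fun i => by
          rw [← BoundedContinuousFunction.sub_apply]
          exact (x - y).norm_coe_le_norm i) i)
  rw [mem_closedBall, dist_zero_right] at hx
  refine ⟨x, fun i => (x.norm_coe_le_norm i).trans hx, ?_⟩
  funext i
  rw [← hΦ x hx, hfix]

/-- the backward orbit -/
theorem back_orbit (h : BC t lam D L R) (a : ℂ) (hat : a * Complex.exp t = 1 - D)
    (hlam : Complex.exp lam = -L / ((1 - D) * t)) :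
    ∃ z : ℕ → ℂ, Tendsto z atTop (𝓝 t) ∧ (∀ i, ‖z i - t‖ ≤ R) ∧
      fam a (z 0) = -L - D * z 1 ∧ ∀ i, fam a (z (i + 1)) = z i - D * z (i + 2) := by
  obtain ⟨x, hx, hfix⟩ := exists_seq h
  have hT0 := h.pos
  have hRT' := h.RT
  have hT16 := h.T16
  have ht : t ≠ 0 := norm_pos_iff.1 hT0
  obtain ⟨hD, hD1, hT, hR, hRT, hL, hlam'⟩ := h
  have hL0 : 0 < L := by linarith
  have hLc : (L : ℂ) ≠ 0 := by exact_mod_cast hL0.ne'
  have hDn : ‖(D : ℂ)‖ = D := by rw [Complex.norm_real, Real.norm_of_nonneg hD.le]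
  have hLn : ‖(L : ℂ)‖ = L := by rw [Complex.norm_real, Real.norm_of_nonneg hL0.le]
  have h1D : (1 : ℂ) - D ≠ 0 := by
    have : (1 - D : ℝ) ≠ 0 := by linarith
    exact_mod_cast this
  have hDT : ‖((1 - D : ℝ) : ℂ) * t‖ = (1 - D) * ‖t‖ := by
    rw [norm_mul, Complex.norm_real, Real.norm_of_nonneg (by linarith)]
  have hcast : ((1 : ℂ) - D) * t = ((1 - D : ℝ) : ℂ) * t := by push_cast; ring
  have hpn : ∀ i, ‖x i / 2 ^ i‖ ≤ R / 2 ^ i := by
    intro i
    rw [norm_div, norm_pow, Complex.norm_ofNat]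
    gcongr
    exact hx i
  have hpn' : ∀ i, ‖x i / 2 ^ i‖ ≤ R := fun i =>
    (hpn i).trans (div_le_self hR (one_le_pow₀ (by norm_num)))
  have hne : ∀ u : ℂ, ‖u‖ ≤ 1 / 2 → 1 + u ≠ 0 := by
    intro u hu h0
    have h1 : u = -1 := by linear_combination h0
    rw [h1, norm_neg, norm_one] at hu
    norm_num at hu
  have hsm : ∀ i, ‖x i / 2 ^ i / t‖ ≤ 1 / 2 := by
    intro i
    rw [norm_div, div_le_iff₀ hT0]
    have := hpn' i
    linarith
  have hfam : ∀ ζ : ℂ, fam a (t + ζ) = (1 - D) * t * (1 + ζ / t) * Complex.exp ζ := by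
    intro ζ
    rw [fam, Complex.exp_add]
    have e : (1 - (D : ℂ)) * t * (1 + ζ / t) = (1 - D) * (t + ζ) := by
      field_simp
    rw [e, ← hat]
    ring
  refine ⟨fun i => t + x i / 2 ^ i, ?_, ?_, ?_, ?_⟩
  · have h1 : Tendsto (fun i => x i / 2 ^ i) atTop (𝓝 0) := by
      refine squeeze_zero_norm hpn ?_
      have h2 : Tendsto (fun i : ℕ => R * (1 / 2) ^ i) atTop (𝓝 0) := by
        have := (tendsto_pow_atTop_nhds_zero_of_lt_one (r := (1 / 2 : ℝ)) (by norm_num)
          (by norm_num)).const_mul R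
        simpa using this
      refine h2.congr fun i => ?_
      rw [one_div, inv_pow]
      rfl
    have := h1.const_add t
    simpa using this
  · intro i
    rw [add_sub_cancel_left]
    exact hpn' i
  · have hf0 := congrFun hfix 0
    simp only [bmap] at hf0
    have hu : ‖(D : ℂ) * (t + x 1 / 2) / L‖ ≤ 1 / 2 := by
      rw [norm_div, norm_mul, hDn, hLn, div_le_iff₀ hL0]
      have h1 : ‖t + x 1 / 2‖ ≤ ‖t‖ + ‖x 1‖ / 2 := by
        refine (norm_add_le _ _).trans ?_
        rw [norm_div, Complex.norm_ofNat]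
      have h2 := hx 1
      have h3 : D * ‖t + x 1 / 2‖ ≤ 1 * ‖t + x 1 / 2‖ := by gcongr
      linarith
    have hs0 : ‖x 0 / t‖ ≤ 1 / 2 := by
      have := hsm 0
      simpa using this
    have e1 : Complex.exp (x 0) = -L / ((1 - D) * t) * (1 + D * (t + x 1 / 2) / L) /
        (1 + x 0 / t) := by
      conv_lhs => rw [← hf0]
      rw [Complex.exp_sub, Complex.exp_add, Complex.exp_log (hne _ hu),
        Complex.exp_log (hne _ hs0), hlam]
    have e2 : (1 : ℂ) + x 0 / t ≠ 0 := hne _ hs0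
    show fam a (t + x 0 / 2 ^ 0) = -L - D * (t + x 1 / 2 ^ 1)
    rw [pow_zero, div_one, hfam, e1, pow_one]
    generalize (1 : ℂ) + x 0 / t = w at e2 ⊢
    field_simp
    ring
  · intro i
    have hfi := congrFun hfix (i + 1)
    simp only [bmap] at hfi
    have hu : ‖(x i / 2 ^ i - D * (x (i + 2) / 2 ^ (i + 2))) / ((1 - D) * t)‖ ≤ 1 / 2 := by
      rw [hcast, norm_div, hDT, div_le_iff₀ (by linarith)]
      have h2 : ‖(D : ℂ) * (x (i + 2) / 2 ^ (i + 2))‖ ≤ R := by
        rw [norm_mul, hDn]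
        have h4 := norm_nonneg (x (i + 2) / 2 ^ (i + 2))
        have h5 := hpn' (i + 2)
        nlinarith
      refine (norm_sub_le _ _).trans ?_
      have := hpn' i
      linarith
    have hp : (2 : ℂ) ^ (i + 1) ≠ 0 := pow_ne_zero _ (by norm_num)
    have e1 : Complex.exp (x (i + 1) / 2 ^ (i + 1)) =
        (1 + (x i / 2 ^ i - D * (x (i + 2) / 2 ^ (i + 2))) / ((1 - D) * t)) /
        (1 + x (i + 1) / 2 ^ (i + 1) / t) := by
      have e3 : x (i + 1) / 2 ^ (i + 1) =
          Complex.log (1 + (x i / 2 ^ i - D * (x (i + 2) / 2 ^ (i + 2))) / ((1 - D) * t)) -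
          Complex.log (1 + x (i + 1) / 2 ^ (i + 1) / t) := by
        rw [div_eq_iff hp]
        rw [mul_comm] at hfi
        exact hfi.symm
      conv_lhs => rw [e3]
      rw [Complex.exp_sub, Complex.exp_log (hne _ hu), Complex.exp_log (hne _ (hsm _))]
    have e2 : (1 : ℂ) + x (i + 1) / 2 ^ (i + 1) / t ≠ 0 := hne _ (hsm _)
    show fam a (t + x (i + 1) / 2 ^ (i + 1)) =
      t + x i / 2 ^ i - D * (t + x (i + 2) / 2 ^ (i + 2))
    rw [hfam, e1, mul_div_assoc', mul_assoc ((1 - (D : ℂ)) * t), mul_div_assoc,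
      mul_div_cancel_left₀ _ e2]
    generalize x i / 2 ^ i = p
    generalize x (i + 2) / 2 ^ (i + 2) = r
    field_simp
    ring

end

end Pool.Agent.Helper96.GB
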