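import Pool.Agent.Helper96.GB.Route

/-! Creation of a trap far away (MP_cd5a48_an). -/

set_option autoImplicit false

open Set Filter Metric Topology

namespace Pool.Agent.Helper96.GB

theorem exists_deriv_ne {h : ℂ → ℂ} (hd : Differentiable ℂ h)
    (hunb : ∀ M : ℝ, ∃ s : ℂ, M < ‖h s‖) (r : ℝ) : ∃ s : ℂ, r < ‖h s‖ ∧ deriv h s ≠ 0 := by
  by_contra hcon
  push Not at hcon
  obtain ⟨s₀, hs₀⟩ := hunb r
  have hopen : IsOpen {s : ℂ | r < ‖h s‖} := isOpen_lt continuous_const hd.continuous.norm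
  have hev : deriv h =ᶠ[𝓝 s₀] 0 := by
    filter_upwards [hopen.mem_nhds hs₀] with s hs
    simpa using hcon s hs
  have han : AnalyticOnNhd ℂ (deriv h) univ := by
    have := (hd.differentiableOn (s := univ)).analyticOnNhd isOpen_univ
    exact this.deriv
  have hz : AnalyticOnNhd ℂ (fun _ : ℂ => (0 : ℂ)) univ := analyticOnNhd_const
  have heq := han.eq_of_eventuallyEq hz (z₀ := s₀) hev
  have hconst : ∀ s, h s = h s₀ := fun s =>
    is_const_of_deriv_eq_zero hd (fun x => by simpa using congrFun heq x) s s₀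
  obtain ⟨s, hs⟩ := hunb ‖h s₀‖
  rw [hconst s] at hs
  exact lt_irrefl _ hs

/-- the derivative of an overshear -/
theorem osh_hasFDerivAt (α β : E →L[ℂ] ℂ) (e : E) (χ φ : ℂ → ℂ) (hχ : Differentiable ℂ χ)
    (hφ : Differentiable ℂ φ) (x : E) (hχ0 : deriv χ (α x) = 0) :
    HasFDerivAt (osh α β e χ φ) (ContinuousLinearMap.id ℂ E +
      ((Complex.exp (χ (α x)) - 1) • β + deriv φ (α x) • α).smulRight e) x := by
  have h1 : HasFDerivAt (fun x : E => Complex.exp (χ (α x)) - 1) (0 : E →L[ℂ] ℂ) x := by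
    have h := ((Complex.hasDerivAt_exp (χ (α x))).comp (α x) (hχ (α x)).hasDerivAt)
    rw [hχ0, mul_zero] at h
    have h' := h.comp_hasFDerivAt x α.hasFDerivAt
    have h'' : HasFDerivAt ((Complex.exp ∘ χ) ∘ α) (0 : E →L[ℂ] ℂ) x :=
      h'.congr_fderiv (by ext <;> simp)
    exact h''.sub_const 1
  have h2 : HasFDerivAt (fun x : E => β x) β x := β.hasFDerivAt
  have h3 : HasFDerivAt (fun x : E => φ (α x)) (deriv φ (α x) • α) x :=
    (hφ (α x)).hasDerivAt.comp_hasFDerivAt x α.hasFDerivAt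
  have h4 := (h1.mul h2).add h3
  have h5 := h4.smul_const e
  have h6 := (hasFDerivAt_id x).add h5
  refine h6.congr_fderiv ?_
  ext <;> simp

theorem s_Create (hS : S_Sand) (hI : S_IntD) : S_Create := by
  intro A V hV hA M
  set lam : E →L[ℂ] ℂ := ContinuousLinearMap.fst ℂ ℂ ℂ with hlam
  set lam' : E →L[ℂ] ℂ := ContinuousLinearMap.snd ℂ ℂ ℂ with hlam'
  set v : E := (0, 1) with hv
  set u₀ : E := (1, 0) with hu₀
  have h1 : lam v = 0 := by simp [hlam, hv]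
  have h2 : lam' v = 1 := by simp [hlam', hv]
  have h3 : lam u₀ = 1 := by simp [hlam, hu₀]
  have h4 : lam' u₀ = 0 := by simp [hlam', hu₀]
  have hdec : ∀ x : E, x = lam x • u₀ + lam' x • v := fun x => by ext <;> simp [hlam, hlam', hv, hu₀]
  have hmu : ∀ κ : ℂ, (lam' + κ • lam) (u₀ - κ • v) = 0 := by
    intro κ
    simp [h1, h2, h3, h4]
  have hlu : ∀ κ : ℂ, lam (u₀ - κ • v) = 1 := by
    intro κ
    simp [h1, h3]
  obtain ⟨Ra, hRa0, hRa⟩ := hS A V hV hA lam lam' (lam' + (0 : ℂ) • lam) lam v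
    (u₀ - (0 : ℂ) • v) h1 h2 (hmu 0) (hlu 0)
  obtain ⟨Rb, hRb0, hRb⟩ := hS A V hV hA lam lam' (lam' + (1 : ℂ) • lam) lam v
    (u₀ - (1 : ℂ) • v) h1 h2 (hmu 1) (hlu 1)
  set R : ℝ := max (max Ra Rb) |M| with hR
  have hRa' : Ra ≤ R := (le_max_left _ _).trans (le_max_left _ _)
  have hRb' : Rb ≤ R := (le_max_right _ _).trans (le_max_left _ _)
  have hRM : |M| ≤ R := le_max_right _ _
  have hR0 : 0 ≤ R := hRa0.le.trans hRa'
  set a : ℂ := ((R + 2 : ℝ) : ℂ) with ha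
  have hna : ‖a‖ = R + 2 := by
    rw [ha, Complex.norm_real, Real.norm_of_nonneg (by linarith)]
  obtain ⟨κ, hκ, hfar⟩ := exists_far A lam lam' v u₀ h2 hdec (a • u₀)
  set mu : E →L[ℂ] ℂ := lam' + κ • lam with hmudef
  set u : E := u₀ - κ • v with hudef
  have hmu' : mu u = 0 := hmu κ
  have hlu' : lam u = 1 := hlu κ
  have hκn : ‖κ‖ ≤ 1 := by rcases hκ with rfl | rfl <;> simp
  have hhd : Differentiable ℂ (fun s : ℂ => mu (A.F (a • u₀ + s • v))) := by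
    have h1 : Differentiable ℂ (fun s : ℂ => a • u₀ + s • v) := by fun_prop
    exact mu.differentiable.comp (A.diff.comp h1)
  obtain ⟨s, hs, hs'⟩ := exists_deriv_ne hhd hfar R
  set p₁ : E := a • u₀ + s • v with hp₁
  set g : E := A.F p₁ with hg
  set D₀ : E →L[ℂ] E := fderiv ℂ A.F p₁ with hD₀
  have hderiv : deriv (fun s : ℂ => mu (A.F (a • u₀ + s • v))) s = mu (D₀ v) := by
    have h5 : HasDerivAt (fun s : ℂ => a • u₀ + s • v) v s := by
      simpa using ((hasDerivAt_id s).smul_const v).const_add (a • u₀)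
    have h6 := (A.diff p₁).hasFDerivAt.comp_hasDerivAt s h5
    have h7 := mu.hasFDerivAt.comp_hasDerivAt s h6
    exact h7.deriv
  rw [hderiv] at hs'
  set q : E := g + (a - lam g) • u with hq
  have hlq : lam q = a := by
    rw [hq, map_add, map_smul, hlu', smul_eq_mul, mul_one]
    ring
  set s' : ℂ := -(mu (D₀ u₀)) / mu (D₀ v) with hs'def
  have hs'c : s' * mu (D₀ v) = -(mu (D₀ u₀)) := by
    rw [hs'def]; field_simp
  -- the constant of the sandwich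
  have hsand : ∃ ε : ℝ, 0 < ε ∧ ∀ χ φ χ' φ' : ℂ → ℂ, Differentiable ℂ χ → Differentiable ℂ φ →
      Differentiable ℂ χ' → Differentiable ℂ φ' → (∀ z, ‖z‖ ≤ R → ‖χ z‖ < ε ∧ ‖φ z‖ < ε) →
      (∀ z, ‖z‖ ≤ R → ‖χ' z‖ < ε ∧ ‖φ' z‖ < ε) →
      ∃ B ∈ V, ∀ x, B.F x = osh mu lam u χ' φ' (A.F (osh lam lam' v χ φ x)) := by
    rcases hκ with rfl | rfl
    · exact hRa R R hRa' hRa'
    · exact hRb R R hRb' hRb'
  obtain ⟨ε, hε, hsand⟩ := hsand
  -- the contraction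
  set C : ℝ := ‖mu (D₀ v)‖ + ‖D₀‖ * (2 + ‖s'‖) with hC
  have hC0 : 0 ≤ C := by positivity
  obtain ⟨T, hT⟩ : ∃ T : ℝ, 0 ≤ T ∧ Real.exp (-T) * C ≤ 1 / 16 := by
    have ht : Tendsto (fun T : ℝ => Real.exp (-T) * C) atTop (𝓝 0) := by
      simpa using (Real.tendsto_exp_neg_atTop_nhds_zero).mul_const C
    have h8 := (ht.eventually (gt_mem_nhds (show (0 : ℝ) < 1 / 16 by norm_num))).and
      (eventually_ge_atTop (0 : ℝ))
    obtain ⟨T, hT1, hT2⟩ := h8.exists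
    exact ⟨T, hT2, hT1.le⟩
  obtain ⟨hT0, hT⟩ := hT
  set k : ℂ := Complex.exp ((-T : ℝ) : ℂ) with hk
  have hkn : ‖k‖ = Real.exp (-T) := by
    rw [hk, Complex.norm_exp, Complex.ofReal_re]
  have hk1 : ‖k‖ ≤ 1 := by
    rw [hkn]
    exact Real.exp_le_one_iff.2 (by linarith)
  have hRa2 : R < ‖a‖ := by rw [hna]; linarith
  obtain ⟨χ, hχd, hχa, hχ'a, hχs⟩ := hI R ε a ((-T : ℝ) : ℂ) 0 hR0 hε hRa2
  obtain ⟨φ, hφd, hφa, hφ'a, hφs⟩ := hI R ε a (s - k * lam' q) s' hR0 hε hRa2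
  obtain ⟨χ₂, hχ₂d, hχ₂a, hχ₂'a, hχ₂s⟩ := hI R ε (mu g) ((-T : ℝ) : ℂ) 0 hR0 hε hs
  obtain ⟨φ₂, hφ₂d, hφ₂a, hφ₂'a, hφ₂s⟩ := hI R ε (mu g) (a - k * lam g) 0 hR0 hε hs
  obtain ⟨B, hB, hBx⟩ := hsand χ φ χ₂ φ₂ hχd hφd hχ₂d hφ₂d (fun z hz => ⟨hχs z hz, hφs z hz⟩)
    (fun z hz => ⟨hχ₂s z hz, hφ₂s z hz⟩)
  have e1 : osh lam lam' v χ φ q = p₁ := by
    rw [osh, hlq, hχa, hφa, ← hk]
    have h9 := hdec q
    rw [hlq] at h9
    have h9' : (k - 1) * lam' q + (s - k * lam' q) = s - lam' q := by ring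
    rw [h9', hp₁]
    generalize lam' q = y at h9
    rw [h9]
    module
  have e2 : osh mu lam u χ₂ φ₂ g = q := by
    rw [osh, hχ₂a, hφ₂a, ← hk, hq]
    congr 2
    ring
  have hBq : B.F q = q := by rw [hBx, e1, ← hg, e2]
  set L₁ : E →L[ℂ] E := ContinuousLinearMap.id ℂ E +
      ((k - 1) • lam' + s' • lam).smulRight v with hL₁
  set L₂ : E →L[ℂ] E := ContinuousLinearMap.id ℂ E + ((k - 1) • lam).smulRight u with hL₂
  have hd1 : HasFDerivAt (osh lam lam' v χ φ) L₁ q := by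
    have := osh_hasFDerivAt lam lam' v χ φ hχd hφd q (by rw [hlq, hχ'a])
    rw [hlq, hχa, hφ'a, ← hk] at this
    exact this
  have hd2 : HasFDerivAt (osh mu lam u χ₂ φ₂) L₂ g := by
    have := osh_hasFDerivAt mu lam u χ₂ φ₂ hχ₂d hφ₂d g hχ₂'a
    rw [hχ₂a, hφ₂'a, ← hk] at this
    have h0 : (0 : ℂ) • mu = 0 := by ext <;> simp
    exact this.congr_fderiv (by rw [hL₂, h0, add_zero])
  set D : E →L[ℂ] E := L₂.comp (D₀.comp L₁) with hD
  have hdB : HasFDerivAt B.F D q := by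
    have h10 : HasFDerivAt A.F D₀ (osh lam lam' v χ φ q) := by
      rw [e1]; exact (A.diff p₁).hasFDerivAt
    have h11 := h10.comp q hd1
    have h12 : HasFDerivAt (osh mu lam u χ₂ φ₂) L₂ ((A.F ∘ osh lam lam' v χ φ) q) := by
      rw [Function.comp_apply, e1]; exact hd2
    have h13 := h12.comp q h11
    have h14 : (B.F : E → E) = osh mu lam u χ₂ φ₂ ∘ A.F ∘ osh lam lam' v χ φ := by
      funext x
      exact hBx x
    rw [h14]
    exact h13
  have hL₁x : ∀ x, L₁ x = lam x • u₀ + (s' * lam x + k * lam' x) • v := by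
    intro x
    rw [hL₁]
    simp only [ContinuousLinearMap.add_apply, ContinuousLinearMap.id_apply,
      ContinuousLinearMap.smulRight_apply, ContinuousLinearMap.smul_apply, smul_eq_mul]
    conv_lhs => rw [hdec x]
    simp only [map_add, map_smul, h1, h2, h3, h4, smul_eq_mul, mul_zero, mul_one, add_zero,
      zero_add]
    module
  have hlamn : ∀ x : E, ‖lam x‖ ≤ ‖x‖ := fun x => by
    rw [hlam]; exact norm_fst_le x
  have hlamn' : ∀ x : E, ‖lam' x‖ ≤ ‖x‖ := fun x => by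
    rw [hlam']; exact norm_snd_le x
  have hL₁n : ∀ x, ‖L₁ x‖ ≤ (2 + ‖s'‖) * ‖x‖ := by
    intro x
    rw [hL₁x]
    have hu1 : ‖u₀‖ = 1 := by simp [hu₀, Prod.norm_def]
    have hv1 : ‖v‖ = 1 := by simp [hv, Prod.norm_def]
    calc ‖lam x • u₀ + (s' * lam x + k * lam' x) • v‖
        ≤ ‖lam x • u₀‖ + ‖(s' * lam x + k * lam' x) • v‖ := norm_add_le _ _
      _ = ‖lam x‖ + ‖s' * lam x + k * lam' x‖ := by rw [norm_smul, norm_smul, hu1, hv1]; ring
      _ ≤ ‖lam x‖ + (‖s'‖ * ‖lam x‖ + ‖k‖ * ‖lam' x‖) := by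
          gcongr
          refine (norm_add_le _ _).trans ?_
          rw [norm_mul, norm_mul]
      _ ≤ ‖x‖ + (‖s'‖ * ‖x‖ + 1 * ‖x‖) := by
          gcongr
          · exact hlamn x
          · exact hlamn x
          · exact hlamn' x
      _ = (2 + ‖s'‖) * ‖x‖ := by ring
  have hmuD : ∀ x, mu (D x) = k * lam' x * mu (D₀ v) := by
    intro x
    have h15 : D x = D₀ (L₁ x) + ((k - 1) * lam (D₀ (L₁ x))) • u := by
      rw [hD, hL₂]
      simp
    rw [h15, map_add, map_smul, hmu', smul_zero, add_zero, hL₁x, map_add, map_smul, map_smul,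
      map_add, map_smul, map_smul]
    simp only [smul_eq_mul]
    linear_combination lam x * hs'c
  have hlamD : ∀ x, lam (D x) = k * lam (D₀ (L₁ x)) := by
    intro x
    have h15 : D x = D₀ (L₁ x) + ((k - 1) * lam (D₀ (L₁ x))) • u := by
      rw [hD, hL₂]
      simp
    rw [h15, map_add, map_smul, hlu']
    simp only [smul_eq_mul]
    ring
  have hnorm : ∀ y : E, ‖y‖ ≤ ‖mu y‖ + ‖lam y‖ := by
    intro y
    have e3 : lam' y = mu y - κ * lam y := by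
      rw [hmudef]; simp
    rw [Prod.norm_def]
    refine max_le ?_ ?_
    · have : ‖lam y‖ = ‖y.1‖ := by rw [hlam]; rfl
      rw [← this]
      linarith [norm_nonneg (mu y)]
    · have : ‖lam' y‖ = ‖y.2‖ := by rw [hlam']; rfl
      rw [← this, e3]
      refine (norm_sub_le _ _).trans ?_
      rw [norm_mul]
      have := mul_le_mul_of_nonneg_right hκn (norm_nonneg (lam y))
      linarith
  have hDn : ∀ x, ‖D x‖ ≤ 1 / 16 * ‖x‖ := by
    intro x
    refine (hnorm (D x)).trans ?_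
    rw [hmuD, hlamD, norm_mul, norm_mul, norm_mul]
    have h16 : ‖lam (D₀ (L₁ x))‖ ≤ ‖D₀‖ * ((2 + ‖s'‖) * ‖x‖) :=
      (hlamn _).trans ((D₀.le_opNorm _).trans (by gcongr; exact hL₁n x))
    calc ‖k‖ * ‖lam' x‖ * ‖mu (D₀ v)‖ + ‖k‖ * ‖lam (D₀ (L₁ x))‖
        ≤ ‖k‖ * ‖x‖ * ‖mu (D₀ v)‖ + ‖k‖ * (‖D₀‖ * ((2 + ‖s'‖) * ‖x‖)) := by
          gcongr
          exact hlamn' x
      _ = (‖k‖ * C) * ‖x‖ := by rw [hC]; ring
      _ ≤ 1 / 16 * ‖x‖ := by
          gcongr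
          rw [hkn]; exact hT
  -- the trap
  have hsmall := (hasFDerivAt_iff_isLittleO_nhds_zero.1 hdB).def (show (0 : ℝ) < 1 / 16 by norm_num)
  obtain ⟨δ, hδ, hδs⟩ := Metric.eventually_nhds_iff.1 hsmall
  set ρ : ℝ := min (δ / 8) (1 / 8) with hρ
  have hρ0 : 0 < ρ := lt_min (by linarith) (by norm_num)
  have hρδ : ρ ≤ δ / 8 := min_le_left _ _
  have hρ1 : ρ ≤ 1 / 8 := min_le_right _ _
  refine ⟨B, hB, q, ρ, ⟨hρ0, one_pos, ?_⟩, ?_⟩
  · intro x hx
    rw [Function.iterate_one]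
    rw [mem_closedBall, dist_eq_norm] at hx
    have h17 := hδs (y := x - q) (by rw [dist_zero_right]; linarith)
    rw [add_sub_cancel, hBq] at h17
    rw [mem_ball, dist_eq_norm]
    have h18 : ‖B.F x - q‖ ≤ ‖B.F x - q - D (x - q)‖ + ‖D (x - q)‖ := by
      have := norm_add_le (B.F x - q - D (x - q)) (D (x - q))
      simpa using this
    have h19 := hDn (x - q)
    linarith
  · have h20 : ‖a‖ ≤ ‖q‖ := by rw [← hlq]; exact hlamn q
    have h21 := le_abs_self M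
    rw [hna] at h20
    linarith

end Pool.Agent.Helper96.GB
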