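import Pool.Agent.Helper96.GB.HenThm

/-! A criterion for basins whose boundary is irregular (MP_cd5a48_an). -/

set_option autoImplicit false

open Set Filter Metric Topology

namespace Pool.Agent.Helper96.GB

/-- Near its point `q` the set `B` contains a cone with vertex `q`, and its complement contains the
opposite cone. The number `η` is the aperture of the cone. -/
def ConeAt (η : ℝ) (B : Set E) (q : E) : Prop :=
  ∃ v : E, ‖v‖ = 1 ∧ ∀ᶠ s in 𝓝[>] (0 : ℝ), ∀ w : E, ‖w - v‖ < η →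
    q + s • w ∈ B ∧ q - s • w ∉ B

/-- `q` is a repelling fixed point of `F`, some orbit leads from `q` to `p`, and the derivative of
`F` at `q` is close to multiplication by `-64`. -/
def Crit (η : ℝ) (A : Aut2) (p q : E) : Prop :=
  IsAttr A.F.symm q ∧ (basin A.F p ∩ basin A.F.symm q).Nonempty ∧
    ∀ x : E, ‖fderiv ℂ A.F q x + (64 : ℂ) • x‖ ≤ 32 * η * ‖x‖

/-- The pairs of an automorphism and one of its attracting fixed points. -/
abbrev Pairs := {z : Aut2 × E // IsAttr z.1.F z.2}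

theorem basin_step (F : E → E) (p x : E) : F x ∈ basin F p ↔ x ∈ basin F p := by
  have h := tendsto_add_atTop_iff_nat (f := fun n => F^[n] x) (l := 𝓝 p) 1
  simp only [Function.iterate_succ, Function.comp_apply] at h
  exact h

theorem basin_symm (A : Aut2) (p x : E) : A.F.symm x ∈ basin A.F p ↔ x ∈ basin A.F p := by
  rw [← basin_step A.F p (A.F.symm x), Equiv.apply_symm_apply]

theorem basin_symm_iter (A : Aut2) (p x : E) (n : ℕ) :
    (A.F.symm)^[n] x ∈ basin A.F p ↔ x ∈ basin A.F p := by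
  induction n generalizing x with
  | zero => rfl
  | succ n ih => rw [Function.iterate_succ_apply, ih, basin_symm]

theorem comp_deriv (A : Aut2) (q : E) :
    (fderiv ℂ A.F q).comp (fderiv ℂ A.F.symm (A.F q)) = ContinuousLinearMap.id ℂ E ∧
    (fderiv ℂ A.F.symm (A.F q)).comp (fderiv ℂ A.F q) = ContinuousLinearMap.id ℂ E := by
  constructor
  · have h1 : HasFDerivAt A.F (fderiv ℂ A.F q) (A.F.symm (A.F q)) := by
      rw [Equiv.symm_apply_apply]
      exact (A.diff q).hasFDerivAt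
    have h2 := h1.comp (A.F q) (A.diff_symm (A.F q)).hasFDerivAt
    have h3 : (A.F : E → E) ∘ A.F.symm = id := by
      funext x
      simp
    rw [h3] at h2
    exact h2.unique (hasFDerivAt_id _)
  · have h2 := (A.diff_symm (A.F q)).hasFDerivAt.comp q (A.diff q).hasFDerivAt
    have h3 : (A.F.symm : E → E) ∘ A.F = id := by
      funext x
      simp
    rw [h3] at h2
    exact h2.unique (hasFDerivAt_id _)

theorem not_both (A : Aut2) (q : E) (h1 : IsAttr A.F q) (h2 : IsAttr A.F.symm q) : False := by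
  obtain ⟨hf, n, hn⟩ := h1
  obtain ⟨-, m, hm⟩ := h2
  obtain ⟨e1, e2⟩ := comp_deriv A q
  rw [hf] at e1 e2
  set D := fderiv ℂ A.F q
  set D' := fderiv ℂ A.F.symm q
  have hn0 : n ≠ 0 := by
    rintro rfl
    rw [pow_zero, norm_one] at hn
    exact lt_irrefl _ hn
  have hc : Commute D D' := by
    change D * D' = D' * D
    change D.comp D' = D'.comp D
    rw [e1, e2]
  have h3 : (D ^ n) ^ m * (D' ^ m) ^ n = 1 := by
    rw [← pow_mul, ← pow_mul, mul_comm m n, ← hc.mul_pow]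
    have : D * D' = 1 := e1
    rw [this, one_pow]
  have h4 : ‖(D ^ n) ^ m * (D' ^ m) ^ n‖ ≤ ‖D ^ n‖ ^ m * ‖D' ^ m‖ ^ n :=
    (norm_mul_le _ _).trans (mul_le_mul (norm_pow_le _ _) (norm_pow_le _ _) (norm_nonneg _)
      (pow_nonneg (norm_nonneg _) _))
  rw [h3, norm_one] at h4
  have h5 : ‖D ^ n‖ ^ m ≤ 1 := pow_le_one₀ (norm_nonneg _) hn.le
  have h6 : ‖D' ^ m‖ ^ n < 1 := pow_lt_one₀ (norm_nonneg _) hm hn0
  have h7 : 0 ≤ ‖D' ^ m‖ ^ n := pow_nonneg (norm_nonneg _) _
  nlinarith [mul_le_mul_of_nonneg_right h5 h7]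

theorem mem_frontier_of_crit (A : Aut2) (p q : E) (hp : IsAttr A.F p) (hq : IsAttr A.F.symm q)
    (hne : (basin A.F p ∩ basin A.F.symm q).Nonempty) :
    q ∉ basin A.F p ∧ q ∈ closure (basin A.F p) := by
  have hFq : A.F q = q := by
    have := congrArg A.F hq.1
    rw [Equiv.apply_symm_apply] at this
    exact this.symm
  constructor
  · intro h
    have h1 : ∀ n, A.F^[n] q = q := fun n => Function.iterate_fixed hFq n
    have h2 : p = q := by
      have h3 : Tendsto (fun n : ℕ => A.F^[n] q) atTop (𝓝 p) := h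
      simp only [h1] at h3
      exact tendsto_nhds_unique h3 tendsto_const_nhds
    rw [h2] at hp
    exact not_both A q hp hq
  · obtain ⟨y, hy1, hy2⟩ := hne
    have hy3 : Tendsto (fun n : ℕ => (A.F.symm)^[n] y) atTop (𝓝 q) := hy2
    exact mem_closure_of_tendsto hy3
      (Eventually.of_forall fun n => (basin_symm_iter A p y n).2 hy1)

theorem no_cone (A : Aut2) (B : Set E) (hB : ∀ x, A.F x ∈ B ↔ x ∈ B) (q : E) (hFq : A.F q = q)
    (η : ℝ) (hη : 0 < η) (hD : ∀ x : E, ‖fderiv ℂ A.F q x + (64 : ℂ) • x‖ ≤ 32 * η * ‖x‖) :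
    ¬ ConeAt η B q := by
  rintro ⟨v, hv, hc⟩
  have hdA : HasFDerivAt A.F (fderiv ℂ A.F q) q := (A.diff q).hasFDerivAt
  have hsmall := (hasFDerivAt_iff_isLittleO_nhds_zero.1 hdA).def
    (show (0 : ℝ) < 16 * η by positivity)
  have t1 : Tendsto (fun s : ℝ => s • v) (𝓝[>] (0 : ℝ)) (𝓝 0) := by
    have : Tendsto (fun s : ℝ => s • v) (𝓝 (0 : ℝ)) (𝓝 ((0 : ℝ) • v)) :=
      (continuous_id.smul continuous_const).tendsto 0
    rw [zero_smul] at this
    exact this.mono_left nhdsWithin_le_nhds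
  have t2 : Tendsto (fun s : ℝ => 64 * s) (𝓝[>] (0 : ℝ)) (𝓝[>] (0 : ℝ)) := by
    refine tendsto_nhdsWithin_iff.2 ⟨?_, ?_⟩
    · have : Tendsto (fun s : ℝ => 64 * s) (𝓝 (0 : ℝ)) (𝓝 (64 * 0)) :=
        (continuous_const.mul continuous_id).tendsto 0
      rw [mul_zero] at this
      exact this.mono_left nhdsWithin_le_nhds
    · filter_upwards [self_mem_nhdsWithin] with s hs
      have h1 : 0 < s := hs
      show (0 : ℝ) < 64 * s
      linarith
  obtain ⟨s, h1, h2, h3, h4⟩ := (hc.and ((t2.eventually hc).and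
    ((t1.eventually hsmall).and self_mem_nhdsWithin))).exists
  have hs : 0 < s := h4
  have m1 : q + s • v ∈ B := (h1 v (by rw [sub_self, norm_zero]; exact hη)).1
  have m2 : A.F (q + s • v) ∈ B := (hB _).2 m1
  set w : E := (64 * s)⁻¹ • (q - A.F (q + s • v)) with hw
  have h64 : 64 * s ≠ 0 := by positivity
  have e1 : q - (64 * s) • w = A.F (q + s • v) := by
    rw [hw, smul_smul, mul_inv_cancel₀ h64, one_smul]
    abel
  have hwv : ‖w - v‖ < η := by
    rw [hFq] at h3
    set D := fderiv ℂ A.F q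
    have e2 : w - v = -((64 * s)⁻¹ • ((A.F (q + s • v) - q - D (s • v)) +
        (D (s • v) + (64 : ℂ) • (s • v)))) := by
      have e3 : (64 : ℂ) • (s • v) = (64 * s) • v := by
        ext <;> simp <;> ring
      have e4 : v = (64 * s)⁻¹ • ((64 * s) • v) := by
        rw [smul_smul, inv_mul_cancel₀ h64, one_smul]
      conv_lhs => rw [e4]
      rw [e3, hw, ← smul_sub, ← smul_neg]
      congr 1
      abel
    rw [e2, norm_neg, norm_smul, Real.norm_of_nonneg (by positivity)]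
    have h5 := hD (s • v)
    have h6 : ‖s • v‖ = s := by rw [norm_smul, hv, mul_one, Real.norm_of_nonneg hs.le]
    rw [h6] at h5 h3
    have h7 := norm_add_le (A.F (q + s • v) - q - D (s • v)) (D (s • v) + (64 : ℂ) • (s • v))
    have h8 : ‖(A.F (q + s • v) - q - D (s • v)) + (D (s • v) + (64 : ℂ) • (s • v))‖ ≤
        48 * η * s := by linarith
    rw [inv_mul_lt_iff₀ (by positivity)]
    have h9 : 0 < η * s := by positivity
    nlinarith
  have m3 := (h2 w hwv).2
  rw [e1] at m3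
  exact m3 m2

/-- Sets bounded by a `C^1` hypersurface have cones of every aperture `η < 1`. -/
theorem cone_of_c1 (B : Set E) (q : E) (hq : q ∈ frontier B) (hC : IsC1At B q) (η : ℝ)
    (hη : η < 1) : ConeAt η B q := by
  obtain ⟨U, hU, hqU, ρ, hρ, hd, hBU⟩ := hC
  have hiff : ∀ y ∈ U, (y ∈ B ↔ ρ y < 0) := by
    intro y hy
    constructor
    · intro h1
      have : y ∈ B ∩ U := ⟨h1, hy⟩
      rw [hBU] at this
      exact this.2
    · intro h1
      have : y ∈ {y | y ∈ U ∧ ρ y < 0} := ⟨hy, h1⟩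
      rw [← hBU] at this
      exact this.1
  have hq1 : q ∉ B := by
    intro hqB
    have hopen : IsOpen (B ∩ U) := by
      rw [hBU]
      exact hρ.continuousOn.isOpen_inter_preimage hU isOpen_Iio
    have hmem : q ∈ B ∩ U := ⟨hqB, hqU⟩
    exact hq.2 (interior_maximal inter_subset_left hopen hmem)
  have hρd : HasFDerivAt ρ (fderiv ℝ ρ q) q :=
    ((hρ.contDiffAt (hU.mem_nhds hqU)).differentiableAt (by norm_num)).hasFDerivAt
  have hρ0 : ρ q = 0 := by
    apply le_antisymm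
    · have hc : ContinuousAt ρ q := hρd.continuousAt
      by_contra hcon
      push Not at hcon
      have h1 : ∀ᶠ y in 𝓝 q, 0 < ρ y ∧ y ∈ U :=
        (hc.eventually (lt_mem_nhds hcon)).and (hU.mem_nhds hqU)
      obtain ⟨y, ⟨hy1, hy2⟩, hy3⟩ := mem_closure_iff_nhds.1 hq.1 _ h1
      exact absurd ((hiff y hy2).1 hy3) (not_lt.2 hy1.le)
    · by_contra hcon
      push Not at hcon
      exact hq1 ((hiff q hqU).2 hcon)
  set ℓ : E →L[ℝ] ℝ := fderiv ℝ ρ q with hℓ
  have hℓ0 : 0 < ‖ℓ‖ := norm_pos_iff.2 hd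
  set η' : ℝ := max η 0 with hη'
  have hη'1 : η' < 1 := max_lt hη one_pos
  have hη'0 : 0 ≤ η' := le_max_right _ _
  -- the axis of the cone
  obtain ⟨v, hv, hvl⟩ : ∃ v : E, ‖v‖ = 1 ∧ ℓ v < -((1 + η') / 2 * ‖ℓ‖) := by
    have h1 : (1 + η') / 2 * ‖ℓ‖ < ‖ℓ‖ := by nlinarith
    obtain ⟨x, hx⟩ : ∃ x : E, (1 + η') / 2 * ‖ℓ‖ * ‖x‖ < ‖ℓ x‖ := by
      by_contra hcon
      push Not at hcon
      exact absurd (ℓ.opNorm_le_bound (by positivity) hcon) (not_le.2 h1)
    have hx0 : 0 < ‖x‖ := by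
      rw [norm_pos_iff]
      rintro rfl
      simp at hx
    have h2 : ∃ y : E, ‖y‖ = ‖x‖ ∧ ℓ y = -‖ℓ x‖ := by
      rcases le_total 0 (ℓ x) with h | h
      · refine ⟨-x, norm_neg x, ?_⟩
        rw [map_neg, Real.norm_of_nonneg h]
      · refine ⟨x, rfl, ?_⟩
        rw [Real.norm_of_nonpos h, neg_neg]
    obtain ⟨y, hy1, hy2⟩ := h2
    refine ⟨‖x‖⁻¹ • y, ?_, ?_⟩
    · rw [norm_smul, hy1, norm_inv, norm_norm, inv_mul_cancel₀ hx0.ne']
    · rw [map_smul, hy2, smul_eq_mul, mul_neg, neg_lt_neg_iff, lt_inv_mul_iff₀ hx0]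
      linarith
  refine ⟨v, hv, ?_⟩
  set c : ℝ := (1 - η') / 2 * ‖ℓ‖ with hc
  have hc0 : 0 < c := by
    have : 0 < 1 - η' := by linarith
    positivity
  have hsmall := (hasFDerivAt_iff_isLittleO_nhds_zero.1 hρd).def (show (0 : ℝ) < c / 4 by positivity)
  have hU1 : ∀ᶠ h in 𝓝 (0 : E), q + h ∈ U := by
    have : Tendsto (fun h : E => q + h) (𝓝 0) (𝓝 q) := by
      have h0 : Continuous fun h : E => q + h := by fun_prop
      exact h0.tendsto' 0 q (add_zero q)
    exact this.eventually (hU.mem_nhds hqU)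
  obtain ⟨δ, hδ, hδs⟩ := Metric.eventually_nhds_iff.1 (hsmall.and hU1)
  have hev : ∀ᶠ s in 𝓝[>] (0 : ℝ), s < δ / 2 :=
    (gt_mem_nhds (show (0 : ℝ) < δ / 2 by positivity)).filter_mono nhdsWithin_le_nhds
  filter_upwards [hev, self_mem_nhdsWithin] with s hs1 hs2
  have hs : 0 < s := hs2
  intro w hw
  have hw' : ‖w - v‖ < η' ∨ w = v := by
    rcases lt_or_ge 0 η with h | h
    · left
      exact hw.trans_le (le_max_left _ _)
    · exfalso
      linarith [norm_nonneg (w - v)]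
  have hwv : ‖w - v‖ ≤ η' := by
    rcases hw' with h | h
    · exact h.le
    · rw [h, sub_self, norm_zero]
      exact hη'0
  have hwn : ‖w‖ < 2 := by
    have := norm_add_le (w - v) v
    rw [sub_add_cancel, hv] at this
    linarith
  have hℓw : ℓ w < -c := by
    have e : w = v + (w - v) := by abel
    have h1 : ‖ℓ (w - v)‖ ≤ ‖ℓ‖ * η' :=
      (ℓ.le_opNorm _).trans (mul_le_mul_of_nonneg_left hwv (norm_nonneg _))
    have h2 := le_abs_self (ℓ (w - v))
    rw [Real.norm_eq_abs] at h1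
    rw [e, map_add, hc]
    nlinarith
  have hsw : ‖s • w‖ < δ := by
    rw [norm_smul, Real.norm_of_nonneg hs.le]
    nlinarith
  have hsw2 : ‖s • w‖ ≤ 2 * s := by
    rw [norm_smul, Real.norm_of_nonneg hs.le]
    nlinarith
  constructor
  · obtain ⟨h1, h2⟩ := hδs (y := s • w) (by rw [dist_zero_right]; exact hsw)
    rw [hiff _ h2]
    rw [hρ0, sub_zero, map_smul, smul_eq_mul, Real.norm_eq_abs] at h1
    have h3 := le_abs_self (ρ (q + s • w) - s * ℓ w)
    have h4 : c / 4 * ‖s • w‖ ≤ c / 4 * (2 * s) :=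
      mul_le_mul_of_nonneg_left hsw2 (by positivity)
    have h5 : s * ℓ w < s * -c := mul_lt_mul_of_pos_left hℓw hs
    nlinarith [mul_pos hs hc0]
  · obtain ⟨h1, h2⟩ := hδs (y := -(s • w)) (by rw [dist_zero_right, norm_neg]; exact hsw)
    rw [sub_eq_add_neg, hiff _ h2, not_lt]
    rw [hρ0, sub_zero, map_neg, map_smul, smul_eq_mul, Real.norm_eq_abs, norm_neg] at h1
    have h3 := neg_abs_le (ρ (q + -(s • w)) - -(s * ℓ w))
    have h4 : c / 4 * ‖s • w‖ ≤ c / 4 * (2 * s) :=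
      mul_le_mul_of_nonneg_left hsw2 (by positivity)
    have h5 : s * ℓ w < s * -c := mul_lt_mul_of_pos_left hℓw hs
    nlinarith [mul_pos hs hc0]

theorem crit_main (η : ℝ) (hη : 0 < η) (A : Aut2) (p q : E) (hp : IsAttr A.F p)
    (h : Crit η A p q) : q ∈ frontier (basin A.F p) ∧ ¬ ConeAt η (basin A.F p) q := by
  obtain ⟨hq, hne, hD⟩ := h
  obtain ⟨hq1, hq2⟩ := mem_frontier_of_crit A p q hp hq hne
  have hFq : A.F q = q := by
    have := congrArg A.F hq.1
    rw [Equiv.apply_symm_apply] at this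
    exact this.symm
  exact ⟨⟨hq2, fun hi => hq1 (interior_subset hi)⟩,
    no_cone A _ (basin_step A.F p) q hFq η hη hD⟩

end Pool.Agent.Helper96.GB
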