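import Pool.Agent.Helper96.GB.Half

/-! Linearized invariant curves of holomorphic maps of `ℂ²` at a fixed point (MP_cd5a48_an). -/

set_option autoImplicit false

open Set Filter Metric Topology

namespace Pool.Agent.Helper96.GB

/-- the remainder of first order has a small Lipschitz constant near the point -/
theorem rem_lip (G : E → E) (hG : Differentiable ℂ G) (q : E) (ε : ℝ) (hε : 0 < ε) :
    ∃ r > 0, ∀ x ∈ ball q r, ∀ y ∈ ball q r,
      ‖G x - G y - fderiv ℂ G q (x - y)‖ ≤ ε * ‖x - y‖ := by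
  set D := fderiv ℂ G q with hDdef
  have hD : HasFDerivAt G D q := (hG q).hasFDerivAt
  obtain ⟨δ, hδ, hδs⟩ := Metric.eventually_nhds_iff.1
    (hD.isLittleO.def (show 0 < ε / 2 by positivity))
  set R : E → E := fun x => G x - G q - D (x - q) with hR
  have hRd : Differentiable ℂ R := by
    intro x
    exact ((hG x).sub_const _).sub
      ((D.differentiableAt).comp x (differentiableAt_id.sub_const q))
  have hRb : ∀ x : E, ‖x - q‖ < δ → ‖R x‖ ≤ ε / 2 * δ := by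
    intro x hx
    have h1 : ‖R x‖ ≤ ε / 2 * ‖x - q‖ := hδs (y := x) (by rw [dist_eq_norm]; exact hx)
    refine h1.trans ?_
    gcongr
  refine ⟨δ / 2, by positivity, fun x hx y hy => ?_⟩
  have hfd : ∀ z ∈ ball q (δ / 2), ‖fderiv ℂ R z‖ ≤ ε := by
    intro z hz
    refine ContinuousLinearMap.opNorm_le_bound _ hε.le fun w => ?_
    by_cases hw : w = 0
    · rw [hw, map_zero, norm_zero, mul_zero]
    have hw0 : 0 < ‖w‖ := norm_pos_iff.2 hw
    have hρ : 0 < δ / 2 / ‖w‖ := by positivity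
    have h0 : HasDerivAt (fun ζ : ℂ => z + ζ • w) w 0 := by
      simpa using ((hasDerivAt_id (0 : ℂ)).smul_const w).const_add z
    have h1 : HasDerivAt (fun ζ : ℂ => R (z + ζ • w)) (fderiv ℂ R z w) 0 := by
      have h2 : HasFDerivAt R (fderiv ℂ R z) (z + (0 : ℂ) • w) := by
        rw [zero_smul, add_zero]
        exact (hRd z).hasFDerivAt
      exact h2.comp_hasDerivAt (0 : ℂ) h0
    have hdiff : Differentiable ℂ (fun ζ : ℂ => R (z + ζ • w)) := by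
      intro ζ
      exact (hRd _).comp ζ ((differentiableAt_id.smul_const w).const_add z)
    have h3 := Complex.norm_deriv_le_of_forall_mem_sphere_norm_le (c := 0)
      (f := fun ζ : ℂ => R (z + ζ • w)) (C := ε / 2 * δ) hρ hdiff.diffContOnCl (by
        intro ζ hζ
        apply hRb
        have h4 : ‖ζ‖ = δ / 2 / ‖w‖ := by simpa using hζ
        have h5 : ‖z - q‖ < δ / 2 := by rw [← dist_eq_norm]; exact hz
        have e : z + ζ • w - q = (z - q) + ζ • w := by abel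
        rw [e]
        refine (norm_add_le _ _).trans_lt ?_
        rw [norm_smul, h4, div_mul_cancel₀ _ hw0.ne']
        linarith)
    rw [h1.deriv] at h3
    refine h3.trans (le_of_eq ?_)
    field_simp
  have h1 := (convex_ball q (δ / 2)).norm_image_sub_le_of_norm_fderiv_le (𝕜 := ℂ)
    (fun z _ => hRd z) hfd hy hx
  have e : R x - R y = G x - G y - D (x - y) := by
    simp only [hR, map_sub]
    abel
  rwa [e] at h1

theorem quad_est (h : ℂ → E) (hh : Differentiable ℂ h) :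
    ∃ M > 0, ∃ δ > 0, ∀ ζ : ℂ, ‖ζ‖ ≤ δ → ‖h ζ - h 0 - ζ • deriv h 0‖ ≤ M * ‖ζ‖ ^ 2 := by
  have h1 : DifferentiableOn ℂ (dslope h 0) univ :=
    (Complex.differentiableOn_dslope univ_mem).2 hh.differentiableOn
  have h2 : DifferentiableAt ℂ (dslope h 0) 0 :=
    (h1 0 (mem_univ _)).differentiableAt univ_mem
  obtain ⟨M, hM, h4⟩ := h2.hasFDerivAt.isBigO_sub.exists_pos
  obtain ⟨δ, hδ, h5⟩ := Metric.eventually_nhds_iff.1 h4.bound
  refine ⟨M, hM, δ / 2, by positivity, fun ζ hζ => ?_⟩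
  have h6 := h5 (y := ζ) (by rw [dist_zero_right]; linarith)
  have e : h ζ - h 0 - ζ • deriv h 0 = ζ • (dslope h 0 ζ - dslope h 0 0) := by
    rw [smul_sub, dslope_same]
    have h7 := sub_smul_dslope h 0 ζ
    rw [sub_zero] at h7
    rw [h7]
  rw [e, norm_smul]
  rw [sub_zero] at h6
  calc ‖ζ‖ * ‖dslope h 0 ζ - dslope h 0 0‖ ≤ ‖ζ‖ * (M * ‖ζ‖) := by gcongr
    _ = M * ‖ζ‖ ^ 2 := by ring

/-- the curve through `q` which linearizes `G` in the direction of the eigenvector `v` -/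
theorem exists_curve (G : E → E) (hG : Differentiable ℂ G) (q v : E) (hq : G q = q) (κ : ℂ)
    (hκ : 1 < ‖κ‖) (hv : fderiv ℂ G q v = κ • v) (hL : ‖fderiv ℂ G q‖ < ‖κ‖ ^ 2) :
    ∃ Ψ : ℂ → E, Differentiable ℂ Ψ ∧ Ψ 0 = q ∧ HasDerivAt Ψ v 0 ∧
      ∀ ζ, G (Ψ ζ) = Ψ (κ * ζ) := by
  have hκp : 0 < ‖κ‖ := by linarith
  have hκ0 : κ ≠ 0 := norm_pos_iff.1 hκp
  obtain ⟨L, hL1, hL2⟩ := exists_between hL
  have hL0 : 0 < L := (norm_nonneg _).trans_lt hL1
  obtain ⟨r, hr, hr1⟩ := rem_lip G hG q (L - ‖fderiv ℂ G q‖) (by linarith)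
  have hlip : ∀ x ∈ ball q r, ∀ y ∈ ball q r, ‖G x - G y‖ ≤ L * ‖x - y‖ := by
    intro x hx y hy
    have h1 := hr1 x hx y hy
    have h2 := (fderiv ℂ G q).le_opNorm (x - y)
    calc ‖G x - G y‖ = ‖(G x - G y - fderiv ℂ G q (x - y)) + fderiv ℂ G q (x - y)‖ := by
          rw [sub_add_cancel]
      _ ≤ ‖G x - G y - fderiv ℂ G q (x - y)‖ + ‖fderiv ℂ G q (x - y)‖ := norm_add_le _ _
      _ ≤ (L - ‖fderiv ℂ G q‖) * ‖x - y‖ + ‖fderiv ℂ G q‖ * ‖x - y‖ := add_le_add h1 h2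
      _ = L * ‖x - y‖ := by ring
  have h0 : HasDerivAt (fun ζ : ℂ => q + ζ • v) v 0 := by
    simpa using ((hasDerivAt_id (0 : ℂ)).smul_const v).const_add q
  have hh : Differentiable ℂ (fun ζ : ℂ => G (q + ζ • v)) := by
    intro ζ
    exact (hG _).comp ζ ((differentiableAt_id.smul_const v).const_add q)
  have hh' : deriv (fun ζ : ℂ => G (q + ζ • v)) 0 = κ • v := by
    have h2 : HasFDerivAt G (fderiv ℂ G q) (q + (0 : ℂ) • v) := by
      rw [zero_smul, add_zero]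
      exact (hG q).hasFDerivAt
    have h3 := (h2.comp_hasDerivAt (0 : ℂ) h0).deriv
    rw [hv] at h3
    exact h3
  obtain ⟨M, hM, δ, hδ, hquad⟩ := quad_est _ hh
  rw [hh'] at hquad
  simp only [zero_smul, add_zero, hq] at hquad
  set Ψ : ℕ → ℂ → E := fun k ζ => G^[k] (q + (ζ / κ ^ k) • v) with hΨ
  have hadd : ∀ m k ζ, Ψ (k + m) ζ = G^[m] (Ψ k (ζ / κ ^ m)) := by
    intro m k ζ
    simp only [hΨ]
    rw [← Function.iterate_add_apply, add_comm m k, pow_add, div_div, mul_comm (κ ^ k)]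
  have hs : ∀ k ζ, Ψ (k + 1) ζ = G (Ψ k (ζ / κ)) := by
    intro k ζ
    have := hadd 1 k ζ
    rwa [pow_one, Function.iterate_one] at this
  have hΨ0 : ∀ ζ, Ψ 0 ζ = q + ζ • v := by
    intro ζ
    simp [hΨ]
  set θ : ℝ := L / ‖κ‖ ^ 2 with hθ
  have hθ0 : 0 < θ := by positivity
  have hθ1 : θ < 1 := by
    rw [hθ, div_lt_one (by positivity)]
    exact hL2
  set M' : ℝ := M / ‖κ‖ ^ 2 with hM'
  have hM'0 : 0 < M' := by positivity
  have h1θ : 0 < 1 - θ := by linarith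
  set W : ℝ := ‖v‖ + M' / (1 - θ) + 1 with hW
  have hW0 : 0 < W := by positivity
  set ρ : ℝ := min δ (min 1 (r / (2 * W))) with hρ
  have hρ0 : 0 < ρ := by positivity
  have hρδ : ρ ≤ δ := min_le_left _ _
  have hρ1 : ρ ≤ 1 := (min_le_right _ _).trans (min_le_left _ _)
  have hρr : ρ * W < r := by
    have h1 : ρ ≤ r / (2 * W) := (min_le_right _ _).trans (min_le_right _ _)
    have h2 : ρ * W ≤ r / (2 * W) * W := by gcongr
    have h3 : r / (2 * W) * W = r / 2 := by field_simp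
    linarith
  have hdiv : ∀ ζ : ℂ, ‖ζ‖ ≤ ρ → ‖ζ / κ‖ ≤ ρ := by
    intro ζ hζ
    rw [norm_div]
    exact (div_le_self (norm_nonneg _) hκ.le).trans hζ
  -- the sums
  have hSn : ∀ k : ℕ, (1 - θ ^ k) / (1 - θ) ≤ 1 / (1 - θ) := by
    intro k
    have : 0 ≤ θ ^ k := by positivity
    gcongr
    linarith
  have hball : ∀ k ζ, ‖ζ‖ ≤ ρ →
      ‖Ψ k ζ - q - ζ • v‖ ≤ M' * ((1 - θ ^ k) / (1 - θ)) * ‖ζ‖ ^ 2 → Ψ k ζ ∈ ball q r := by
    intro k ζ hζ h
    rw [mem_ball, dist_eq_norm]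
    have h1 : ‖Ψ k ζ - q‖ ≤ ‖Ψ k ζ - q - ζ • v‖ + ‖ζ • v‖ := by
      have := norm_add_le (Ψ k ζ - q - ζ • v) (ζ • v)
      rwa [sub_add_cancel] at this
    have h2 : M' * ((1 - θ ^ k) / (1 - θ)) * ‖ζ‖ ^ 2 ≤ M' / (1 - θ) * ρ := by
      have h3 : ‖ζ‖ ^ 2 ≤ ρ := by
        have h4 : ‖ζ‖ ^ 2 ≤ ρ ^ 2 := by gcongr
        nlinarith
      calc M' * ((1 - θ ^ k) / (1 - θ)) * ‖ζ‖ ^ 2 ≤ M' * (1 / (1 - θ)) * ρ := by
            have h5 := hSn k
            have h6 : 0 ≤ (1 - θ ^ k) / (1 - θ) := by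
              have := pow_le_one₀ hθ0.le hθ1.le (n := k)
              exact div_nonneg (by linarith) h1θ.le
            gcongr
        _ = M' / (1 - θ) * ρ := by ring
    have h3 : ‖ζ • v‖ ≤ ρ * ‖v‖ := by
      rw [norm_smul]
      gcongr
    have h4 : ρ * W = ρ * ‖v‖ + M' / (1 - θ) * ρ + ρ := by
      rw [hW]
      ring
    linarith
  have key : ∀ k : ℕ, (∀ ζ, ‖ζ‖ ≤ ρ →
      ‖Ψ k ζ - q - ζ • v‖ ≤ M' * ((1 - θ ^ k) / (1 - θ)) * ‖ζ‖ ^ 2) ∧
      ∀ ζ, ‖ζ‖ ≤ ρ → ‖Ψ (k + 1) ζ - Ψ k ζ‖ ≤ M' * θ ^ k * ‖ζ‖ ^ 2 := by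
    intro k
    induction k with
    | zero =>
      refine ⟨fun ζ _ => ?_, fun ζ hζ => ?_⟩
      · rw [hΨ0]
        simp
      · rw [hs, hΨ0, hΨ0]
        have h1 := hquad (ζ / κ) ((hdiv ζ hζ).trans hρδ)
        have e : (ζ / κ) • κ • v = ζ • v := by
          rw [smul_smul, div_mul_cancel₀ _ hκ0]
        rw [e] at h1
        rw [sub_add_eq_sub_sub]
        refine h1.trans (le_of_eq ?_)
        rw [norm_div, hM']
        field_simp
    | succ k ih =>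
      obtain ⟨ih1, ih2⟩ := ih
      have hfirst : ∀ ζ, ‖ζ‖ ≤ ρ →
          ‖Ψ (k + 1) ζ - q - ζ • v‖ ≤ M' * ((1 - θ ^ (k + 1)) / (1 - θ)) * ‖ζ‖ ^ 2 := by
        intro ζ hζ
        have e : Ψ (k + 1) ζ - q - ζ • v = (Ψ (k + 1) ζ - Ψ k ζ) + (Ψ k ζ - q - ζ • v) := by
          abel
        rw [e]
        refine (norm_add_le _ _).trans ((add_le_add (ih2 ζ hζ) (ih1 ζ hζ)).trans (le_of_eq ?_))
        field_simp
        ring
      refine ⟨hfirst, fun ζ hζ => ?_⟩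
      rw [hs (k + 1) ζ, hs k ζ]
      have hd := hdiv ζ hζ
      have h1 := hlip _ (hball (k + 1) _ hd (hfirst _ hd)) _ (hball k _ hd (ih1 _ hd))
      refine h1.trans ?_
      have h2 := ih2 _ hd
      calc L * ‖Ψ (k + 1) (ζ / κ) - Ψ k (ζ / κ)‖ ≤ L * (M' * θ ^ k * ‖ζ / κ‖ ^ 2) := by gcongr
        _ = M' * θ ^ (k + 1) * ‖ζ‖ ^ 2 := by
          have e1 : L = θ * ‖κ‖ ^ 2 := by
            rw [hθ, div_mul_cancel₀ _ (by positivity)]
          have e2 : ‖ζ / κ‖ ^ 2 * ‖κ‖ ^ 2 = ‖ζ‖ ^ 2 := by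
            rw [← mul_pow, ← norm_mul, div_mul_cancel₀ _ hκ0]
          rw [e1, pow_succ]
          linear_combination (M' * θ ^ k * θ) * e2
  -- convergence on the small disc
  have hgeo : ∀ ζ, ‖ζ‖ ≤ ρ → ∀ k, dist (Ψ k ζ) (Ψ (k + 1) ζ) ≤ M' * θ ^ k := by
    intro ζ hζ k
    rw [dist_comm, dist_eq_norm]
    refine ((key k).2 ζ hζ).trans ?_
    have h1 : ‖ζ‖ ^ 2 ≤ 1 := by
      have : ‖ζ‖ ≤ 1 := hζ.trans hρ1
      exact pow_le_one₀ (norm_nonneg _) this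
    have h2 : 0 ≤ M' * θ ^ k := by positivity
    nlinarith
  have hex1 : ∀ ζ, ‖ζ‖ ≤ ρ → ∃ y, Tendsto (fun k => Ψ k ζ) atTop (𝓝 y) := fun ζ hζ =>
    cauchySeq_tendsto_of_complete (cauchySeq_of_le_geometric θ M' hθ1 (hgeo ζ hζ))
  have hsmall : ∀ ζ : ℂ, ∃ m : ℕ, ‖ζ / κ ^ m‖ < ρ := by
    intro ζ
    obtain ⟨m, hm⟩ := pow_unbounded_of_one_lt (‖ζ‖ / ρ) hκ
    refine ⟨m, ?_⟩
    rw [norm_div, norm_pow, div_lt_iff₀ (by positivity)]
    rw [div_lt_iff₀ hρ0] at hm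
    linarith
  have hex : ∀ ζ, ∃ y, Tendsto (fun k => Ψ k ζ) atTop (𝓝 y) := by
    intro ζ
    obtain ⟨m, hm⟩ := hsmall ζ
    obtain ⟨y, hy⟩ := hex1 _ hm.le
    refine ⟨G^[m] y, ?_⟩
    rw [← tendsto_add_atTop_iff_nat m]
    have : (fun k => Ψ (k + m) ζ) = fun k => G^[m] (Ψ k (ζ / κ ^ m)) := by
      funext k
      exact hadd m k ζ
    rw [this]
    exact ((hG.continuous.iterate m).tendsto y).comp hy
  choose Φ hΦ using hex
  have hΦm : ∀ (m : ℕ) ζ, Φ ζ = G^[m] (Φ (ζ / κ ^ m)) := by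
    intro m ζ
    refine tendsto_nhds_unique ((tendsto_add_atTop_iff_nat m).2 (hΦ ζ)) ?_
    have : (fun k => Ψ (k + m) ζ) = fun k => G^[m] (Ψ k (ζ / κ ^ m)) := by
      funext k
      exact hadd m k ζ
    rw [this]
    exact ((hG.continuous.iterate m).tendsto _).comp (hΦ _)
  have hΨd : ∀ k, Differentiable ℂ (Ψ k) := by
    intro k ζ
    exact (hG.iterate k _).comp ζ
      (((differentiableAt_id.div_const _).smul_const v).const_add q)
  have hunif : TendstoUniformlyOn Ψ Φ atTop (ball 0 ρ) := by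
    rw [Metric.tendstoUniformlyOn_iff]
    intro ε hε
    have h1 : Tendsto (fun k : ℕ => M' * θ ^ k / (1 - θ)) atTop (𝓝 0) := by
      have := ((tendsto_pow_atTop_nhds_zero_of_lt_one hθ0.le hθ1).const_mul M').div_const (1 - θ)
      simpa using this
    filter_upwards [h1.eventually (gt_mem_nhds hε)] with k hk ζ hζ
    have hζ' : ‖ζ‖ ≤ ρ := by
      rw [mem_ball, dist_zero_right] at hζ
      exact hζ.le
    rw [dist_comm]
    exact (dist_le_of_le_geometric_of_tendsto θ M' hθ1 (hgeo ζ hζ') (hΦ ζ) k).trans_lt hk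
  have hloc : DifferentiableOn ℂ Φ (ball 0 ρ) :=
    hunif.tendstoLocallyUniformlyOn.differentiableOn
      (Eventually.of_forall fun k => (hΨd k).differentiableOn) isOpen_ball
  refine ⟨Φ, ?_, ?_, ?_, ?_⟩
  · intro ζ
    obtain ⟨m, hm⟩ := hsmall ζ
    have h1 : Φ = fun ζ => G^[m] (Φ (ζ / κ ^ m)) := by
      funext ζ
      exact hΦm m ζ
    rw [h1]
    have h2 : DifferentiableAt ℂ Φ (ζ / κ ^ m) :=
      (hloc _ (by rw [mem_ball, dist_zero_right]; exact hm)).differentiableAt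
        (isOpen_ball.mem_nhds (by rw [mem_ball, dist_zero_right]; exact hm))
    have h3 : DifferentiableAt ℂ (fun ζ => Φ (ζ / κ ^ m)) ζ :=
      h2.comp ζ (differentiableAt_id.div_const _)
    exact (hG.iterate m _).comp ζ h3
  · refine tendsto_nhds_unique (hΦ 0) ?_
    have : (fun k => Ψ k 0) = fun _ => q := by
      funext k
      simp only [hΨ, zero_div, zero_smul, add_zero]
      exact Function.iterate_fixed hq k
    rw [this]
    exact tendsto_const_nhds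
  · have hb : ∀ ζ, ‖ζ‖ ≤ ρ → ‖Φ ζ - q - ζ • v‖ ≤ M' / (1 - θ) * ‖ζ‖ ^ 2 := by
      intro ζ hζ
      have h1 : Tendsto (fun k => ‖Ψ k ζ - q - ζ • v‖) atTop (𝓝 ‖Φ ζ - q - ζ • v‖) :=
        (((hΦ ζ).sub_const q).sub_const (ζ • v)).norm
      refine le_of_tendsto h1 (Eventually.of_forall fun k => ((key k).1 ζ hζ).trans ?_)
      have h5 := hSn k
      calc M' * ((1 - θ ^ k) / (1 - θ)) * ‖ζ‖ ^ 2 ≤ M' * (1 / (1 - θ)) * ‖ζ‖ ^ 2 := by gcongr
        _ = M' / (1 - θ) * ‖ζ‖ ^ 2 := by ring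
    have hΦ0 : Φ 0 = q := by
      have := hb 0 (by rw [norm_zero]; exact hρ0.le)
      simp only [norm_zero, zero_smul, sub_zero] at this
      have h2 : ‖Φ 0 - q‖ ≤ 0 := by simpa using this
      exact sub_eq_zero.1 (norm_le_zero_iff.1 h2)
    rw [hasDerivAt_iff_isLittleO, Asymptotics.isLittleO_iff]
    intro c hc
    set W' : ℝ := M' / (1 - θ) with hW'
    have hW'0 : 0 < W' := by positivity
    have h1 : ∀ᶠ ζ in 𝓝 (0 : ℂ), ‖ζ‖ < min ρ (c / W') := by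
      have : Tendsto (fun ζ : ℂ => ‖ζ‖) (𝓝 0) (𝓝 0) := by
        simpa using (continuous_norm (E := ℂ)).tendsto 0
      exact this.eventually (gt_mem_nhds (by positivity))
    filter_upwards [h1] with ζ hζ
    rw [hΦ0, sub_zero]
    refine (hb ζ (hζ.le.trans (min_le_left _ _))).trans ?_
    have h2 : W' * ‖ζ‖ ≤ c := by
      have h3 : ‖ζ‖ ≤ c / W' := hζ.le.trans (min_le_right _ _)
      rw [le_div_iff₀ hW'0] at h3
      linarith
    nlinarith [norm_nonneg ζ]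
  · intro ζ
    have h1 := hΦm 1 (κ * ζ)
    rw [pow_one, Function.iterate_one, mul_div_cancel_left₀ _ hκ0] at h1
    exact h1.symm

end Pool.Agent.Helper96.GB
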