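import Mathlib

/-!
# Automorphisms of `ℂ²`: the space, traps, basins (MP_cd5a48_an)

Definitions only.
-/

set_option autoImplicit false

open Set Filter Metric Topology

namespace Pool.Agent.Helper96.GB

/-- The plane `ℂ²` (with the maximum norm). -/
abbrev E := ℂ × ℂ

/-- The holomorphic automorphisms of `ℂ²`. -/
structure Aut2 where
  /-- the bijection -/
  F : E ≃ E
  diff : Differentiable ℂ F
  diff_symm : Differentiable ℂ F.symm

/-- An automorphism together with its inverse, as a pair of continuous maps. -/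
noncomputable def Aut2.pair (A : Aut2) : C(E, E) × C(E, E) :=
  (⟨A.F, A.diff.continuous⟩, ⟨A.F.symm, A.diff_symm.continuous⟩)

/-- The topology of the space of automorphisms: uniform convergence on compact sets of the
automorphisms and of their inverses. -/
noncomputable instance : TopologicalSpace Aut2 := TopologicalSpace.induced Aut2.pair inferInstance

/-- The basin of attraction of `p`. -/
def basin (F : E → E) (p : E) : Set E :=
  {x | Tendsto (fun n : ℕ => F^[n] x) atTop (𝓝 p)}

/-- `p` is an attracting fixed point of `F`: all eigenvalues of the derivative of `F` at `p` have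
modulus less than one, that is, some power of the derivative has norm less than one. -/
def IsAttr (F : E → E) (p : E) : Prop :=
  F p = p ∧ ∃ n : ℕ, ‖(fderiv ℂ F p) ^ n‖ < 1

/-- The open set `B` is bounded by a `C^1` hypersurface near the point `x`. -/
def IsC1At (B : Set E) (x : E) : Prop :=
  ∃ U : Set E, IsOpen U ∧ x ∈ U ∧ ∃ ρ : E → ℝ, ContDiffOn ℝ 1 ρ U ∧ fderiv ℝ ρ x ≠ 0 ∧
    B ∩ U = {y | y ∈ U ∧ ρ y < 0}

/-- `F` is given by two polynomials. -/
def IsPoly (F : E → E) : Prop :=
  ∃ P Q : MvPolynomial (Fin 2) ℂ, ∀ z : E,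
    F z = (MvPolynomial.eval ![z.1, z.2] P, MvPolynomial.eval ![z.1, z.2] Q)

/-- The ball with centre `t` and radius `4 r` is a trap for the `n`-th iterate. -/
def Trap (F : E → E) (t : E) (r : ℝ) (n : ℕ) : Prop :=
  0 < r ∧ 0 < n ∧ ∀ x ∈ closedBall t (4 * r), F^[n] x ∈ ball t r

/-- The points which enter the trap. -/
def Om (F : E → E) (t : E) (r : ℝ) : Set E :=
  {x | ∃ k : ℕ, F^[k] x ∈ ball t (4 * r)}

/-- The overshear `x ↦ x + ((exp (χ (α x)) - 1) β x + φ (α x)) e`. -/
noncomputable def osh (α β : E →L[ℂ] ℂ) (e : E) (χ φ : ℂ → ℂ) (x : E) : E :=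
  x + ((Complex.exp (χ (α x)) - 1) * β x + φ (α x)) • e

end Pool.Agent.Helper96.GB
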