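import Pool.Agent.Helper96.GB.Near

/-! Automorphisms close to `(z, w) ↦ (f z, z)` (MP_cd5a48_an). -/

set_option autoImplicit false

open Set Filter Metric Topology

namespace Pool.Agent.Helper96.GB

/-- the degenerate map -/
def degm (f : ℂ → ℂ) (x : E) : E := (f x.1, x.1)

theorem degm_iter (f : ℂ → ℂ) (n : ℕ) (x : E) :
    (degm f)^[n + 1] x = (f^[n + 1] x.1, f^[n] x.1) := by
  induction n with
  | zero => rfl
  | succ n ih =>
    rw [Function.iterate_succ_apply', ih, degm, Function.iterate_succ_apply' f (n + 1)]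

theorem degm_diff {f : ℂ → ℂ} (hf : Differentiable ℂ f) : Differentiable ℂ (degm f) :=
  (hf.comp differentiable_fst).prodMk differentiable_fst

theorem degm_attr {f : ℂ → ℂ} (hf : Differentiable ℂ f) {z₀ : ℂ} (h0 : f z₀ = z₀)
    (h1 : ‖deriv f z₀‖ < 1) : IsAttr (degm f) (z₀, z₀) := by
  refine ⟨by rw [degm, h0], 2, ?_⟩
  set a := deriv f z₀ with ha
  have hd : HasFDerivAt (degm f)
      (((ContinuousLinearMap.toSpanSingleton ℂ a).comp (ContinuousLinearMap.fst ℂ ℂ ℂ)).prod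
        (ContinuousLinearMap.fst ℂ ℂ ℂ)) ((z₀, z₀) : E) := by
    have h2 : HasFDerivAt (fun x : E => x.1) (ContinuousLinearMap.fst ℂ ℂ ℂ) ((z₀, z₀) : E) :=
      hasFDerivAt_fst
    have h3 : HasFDerivAt f (ContinuousLinearMap.toSpanSingleton ℂ a) ((z₀, z₀) : E).1 :=
      (hf z₀).hasDerivAt.hasFDerivAt
    exact (h3.comp _ h2).prodMk h2
  rw [hd.fderiv]
  refine lt_of_le_of_lt (ContinuousLinearMap.opNorm_le_bound _ (norm_nonneg a) ?_) h1
  intro x
  rw [pow_two]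
  have e : ((((ContinuousLinearMap.toSpanSingleton ℂ a).comp (ContinuousLinearMap.fst ℂ ℂ ℂ)).prod
        (ContinuousLinearMap.fst ℂ ℂ ℂ)) * (((ContinuousLinearMap.toSpanSingleton ℂ a).comp
        (ContinuousLinearMap.fst ℂ ℂ ℂ)).prod (ContinuousLinearMap.fst ℂ ℂ ℂ)) : E →L[ℂ] E) x =
        (x.1 * a * a, x.1 * a) := by
    ext <;> simp [ContinuousLinearMap.toSpanSingleton_apply]
  rw [e, Prod.norm_def]
  have n1 := norm_fst_le x
  have n2 := norm_nonneg x.1
  have n3 := norm_nonneg a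
  refine max_le ?_ ?_
  · show ‖x.1 * a * a‖ ≤ ‖a‖ * ‖x‖
    rw [norm_mul, norm_mul]
    calc ‖x.1‖ * ‖a‖ * ‖a‖ ≤ ‖x.1‖ * ‖a‖ * 1 := by gcongr
      _ ≤ ‖x‖ * ‖a‖ * 1 := by gcongr
      _ = ‖a‖ * ‖x‖ := by ring
  · show ‖x.1 * a‖ ≤ ‖a‖ * ‖x‖
    rw [norm_mul, mul_comm]
    gcongr

/-- the iterates of a continuous map -/
noncomputable def pw (g : C(E, E)) : ℕ → C(E, E)
  | 0 => ContinuousMap.id E
  | n + 1 => g.comp (pw g n)

theorem pw_apply (g : C(E, E)) (n : ℕ) (x : E) : pw g n x = g^[n] x := by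
  induction n with
  | zero => rfl
  | succ n ih =>
    rw [Function.iterate_succ_apply', ← ih]
    rfl

theorem continuous_pw (n : ℕ) : Continuous fun g : C(E, E) => pw g n := by
  induction n with
  | zero => exact continuous_const
  | succ n ih => exact continuous_id.compCM ih

theorem nbhd_ball (g₀ : C(E, E)) (V : Set C(E, E)) (hV : IsOpen V) (h0 : g₀ ∈ V) :
    ∃ R ε : ℝ, 0 < R ∧ 0 < ε ∧ ∀ g : C(E, E), (∀ x, ‖x‖ ≤ R → ‖g x - g₀ x‖ < ε) → g ∈ V := by
  by_contra hcon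
  push Not at hcon
  have hB : ∀ n : ℕ, ∃ g : C(E, E), (∀ x, ‖x‖ ≤ (n + 1 : ℝ) → ‖g x - g₀ x‖ < 1 / (n + 1 : ℝ)) ∧
      g ∉ V := fun n => hcon (n + 1 : ℝ) (1 / (n + 1 : ℝ)) (by positivity) (by positivity)
  choose B hB hBV using hB
  have ht : Tendsto B atTop (𝓝 g₀) := by
    rw [ContinuousMap.tendsto_iff_forall_isCompact_tendstoUniformlyOn]
    intro K hK
    rw [Metric.tendstoUniformlyOn_iff]
    intro ε hε
    obtain ⟨R, hR⟩ := hK.isBounded.exists_norm_le
    obtain ⟨N, hN⟩ := exists_nat_gt R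
    obtain ⟨N', hN'⟩ := exists_nat_one_div_lt hε
    filter_upwards [eventually_ge_atTop (max N N')] with n hn x hx
    have hn1 : (N : ℝ) ≤ n := by exact_mod_cast (le_max_left _ _).trans hn
    have hn2 : (N' : ℝ) ≤ n := by exact_mod_cast (le_max_right _ _).trans hn
    have h1 := hB n x ((hR x hx).trans (by linarith))
    have h2 : 1 / ((n : ℝ) + 1) ≤ 1 / ((N' : ℝ) + 1) := by
      apply one_div_le_one_div_of_le (by positivity) (by linarith)
    rw [dist_comm, dist_eq_norm]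
    exact h1.trans (h2.trans_lt hN')
  obtain ⟨n, hn⟩ := (ht.eventually (hV.mem_nhds h0)).exists
  exact hBV n hn

theorem basin_iter (F : E → E) (p x : E) (n : ℕ) : F^[n] x ∈ basin F p ↔ x ∈ basin F p := by
  induction n generalizing x with
  | zero => rfl
  | succ n ih => rw [Function.iterate_succ_apply, ih, basin_step]

theorem exists_dist (lam : ℂ) (h1 : 1 < ‖lam‖) (h2 : ∀ κ : ℝ, 0 < κ → lam ≠ κ) :
    ∃ d : ℝ, 0 < d ∧ ∀ κ : ℝ, 0 < κ → d ≤ ‖lam - κ‖ := by
  by_cases him : lam.im = 0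
  · have hre : lam.re ≤ 0 := by
      by_contra hcon
      push Not at hcon
      exact h2 lam.re hcon (Complex.ext (by simp) (by simp [him]))
    have hn : ‖lam‖ = -lam.re := by
      have e : lam = (lam.re : ℂ) := Complex.ext (by simp) (by simp [him])
      rw [e, Complex.norm_real, Real.norm_of_nonpos hre, Complex.ofReal_re]
    refine ⟨1, one_pos, fun κ hκ => ?_⟩
    have h3 := Complex.abs_re_le_norm (lam - κ)
    rw [Complex.sub_re, Complex.ofReal_re, abs_of_nonpos (by linarith)] at h3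
    linarith
  · refine ⟨|lam.im|, abs_pos.2 him, fun κ _ => ?_⟩
    have h3 := Complex.abs_im_le_norm (lam - κ)
    rwa [Complex.sub_im, Complex.ofReal_im, sub_zero] at h3

theorem exists_sm (lam : ℂ) (K d : ℝ) (h1 : 1 < ‖lam‖) (hK : 0 ≤ K) (hd : 0 < d) :
    ∃ η, Sm lam η K d := by
  have hl : 0 < ‖lam‖ - 1 := by linarith
  set M : ℝ := 32 * (K + 1) with hM
  have hM0 : 0 < M := by positivity
  set m : ℝ := min (‖lam‖ - 1) (min 1 d) with hm
  have hm0 : 0 < m := lt_min hl (lt_min one_pos hd)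
  have m1 : m ≤ ‖lam‖ - 1 := min_le_left _ _
  have m2 : m ≤ 1 := (min_le_right _ _).trans (min_le_left _ _)
  have m3 : m ≤ d := (min_le_right _ _).trans (min_le_right _ _)
  have e : M * (m / M) = m := by field_simp
  have hp : 0 < m / M := by positivity
  refine ⟨m / M, hp, hK, h1, ?_, ?_, ?_⟩
  · rw [← hM, e]
    exact m1
  · have h5 : 4 * (K + 1) * (m / M) ≤ M * (m / M) := by
      gcongr
      rw [hM]; linarith
    rw [e] at h5
    linarith
  · have h5 : (4 * K + 1) * (m / M) < M * (m / M) := by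
      gcongr
      rw [hM]; linarith
    rw [e] at h5
    linarith

theorem deg_main (f : ℂ → ℂ) (hf : Differentiable ℂ f) (z₀ : ℂ) (hz₀ : f z₀ = z₀)
    (hz : ‖deriv f z₀‖ < 1) (x₀ : ℂ) (M : ℕ) (hx : f^[M + 1] x₀ = x₀)
    (h1 : 1 < ‖deriv f^[M + 1] x₀‖) (hκ : ∀ κ : ℝ, 0 < κ → deriv f^[M + 1] x₀ ≠ κ)
    (hcl : x₀ ∈ closure {z | Tendsto (fun n => f^[n] z) atTop (𝓝 z₀)}) (σ : ℝ) (hσ : 0 < σ) :
    ∃ ρ R ε : ℝ, 0 < ρ ∧ ρ < σ ∧ 0 < ε ∧
      ∀ A : Aut2, (∀ x, ‖x‖ ≤ R → ‖A.F x - (f x.1, x.1)‖ < ε) →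
        ∃ p q : E, ‖p - (z₀, z₀)‖ < ρ ∧ IsAttr A.F p ∧
          (∀ p', ‖p' - (z₀, z₀)‖ < ρ → A.F p' = p' → p' = p) ∧
          ‖q - (x₀, f^[M] x₀)‖ < σ ∧ A.F^[M + 1] q = q ∧ q ∈ frontier (basin A.F p) ∧
          ¬ IsC1At (basin A.F p) q := by
  set g := f^[M + 1] with hgdef
  set h := f^[M] with hhdef
  have hg : Differentiable ℂ g := hf.iterate _
  have hh : Differentiable ℂ h := hf.iterate _
  set lam := deriv g x₀ with hlam
  set F0 : C(E, E) := ⟨degm f, (degm_diff hf).continuous⟩ with hF0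
  set p₀ : E := (z₀, z₀) with hp₀
  set q₀ : E := (x₀, h x₀) with hq₀
  -- the two points are different
  have hne : x₀ ≠ z₀ := by
    rintro rfl
    have h2 : HasDerivAt g (deriv f x₀ ^ (M + 1)) x₀ := (hf x₀).hasDerivAt.iterate _ hz₀ (M + 1)
    rw [hlam, h2.deriv, norm_pow] at h1
    have := pow_le_one₀ (n := M + 1) (norm_nonneg _) hz.le
    linarith
  set Δ : ℝ := ‖x₀ - z₀‖ with hΔ
  have hΔ0 : 0 < Δ := norm_pos_iff.2 (sub_ne_zero.2 hne)
  set m : ℝ := min σ Δ with hm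
  have hm0 : 0 < m := lt_min hσ hΔ0
  have m1 : m ≤ σ := min_le_left _ _
  have m2 : m ≤ Δ := min_le_right _ _
  -- the trap
  obtain ⟨rp, rp', np, hDT, hrp⟩ := exists_dtrap (degm f) p₀ (degm_diff hf)
    (degm_attr hf hz₀ hz) (m / 16) (by positivity)
  have hrp'0 : 0 < rp' := hDT.1
  have hrp'r : rp' ≤ rp := hDT.2.1
  have hrp0 : 0 < rp := by linarith
  -- the constants
  obtain ⟨d, hd0, hd⟩ := exists_dist lam h1 hκ
  set K : ℝ := ‖deriv h x₀‖ + 2 with hK
  have hK0 : 0 ≤ K := by positivity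
  obtain ⟨η, hS⟩ := exists_sm lam K d h1 hK0 hd0
  obtain ⟨r, hr0, hrσ, hnear⟩ := near_sad g h hg hh x₀ hx K η d hK hS (m / 8) (by positivity)
  set s : ℝ := r / (4 * (K + 1)) with hs
  have hs0 : 0 < s := by positivity
  have hsr : s ≤ r := by
    rw [hs, div_le_iff₀ (by positivity)]
    nlinarith
  obtain ⟨δ', hδ', hnear⟩ := hnear s hs0 hsr
  -- the point in the basin
  obtain ⟨z₁, hz₁B, hz₁⟩ := Metric.mem_closure_iff.1 hcl s hs0
  obtain ⟨k₀, hk₀⟩ : ∃ k₀ : ℕ, ∀ n ≥ k₀, f^[n] z₁ ∈ ball z₀ (4 * rp) := by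
    have h2 : Tendsto (fun n => f^[n] z₁) atTop (𝓝 z₀) := hz₁B
    exact eventually_atTop.1 (h2.eventually (ball_mem_nhds z₀ (by positivity)))
  have hk1 : ∀ w : ℂ, (degm f)^[k₀ + 1] (z₁, w) ∈ ball p₀ (4 * rp) := by
    intro w
    rw [degm_iter, mem_ball, Prod.dist_eq]
    refine max_lt ?_ ?_
    · exact hk₀ (k₀ + 1) (by omega)
    · exact hk₀ k₀ le_rfl
  -- the neighbourhood
  set U : Set C(E, E) :=
    ((fun g : C(E, E) => pw g np) ⁻¹' {φ | MapsTo φ (closedBall p₀ (4 * rp)) (ball p₀ rp')} ∩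
      {φ | MapsTo φ (closedBall p₀ rp') (ball p₀ (4 * rp))}) ∩
    ((fun g : C(E, E) => pw g (k₀ + 1)) ⁻¹'
      {φ | MapsTo φ ({z₁} ×ˢ closedBall (h x₀) (2 * r)) (ball p₀ (4 * rp))} ∩
    (fun g : C(E, E) => pw g (M + 1) - pw F0 (M + 1)) ⁻¹'
      {φ | MapsTo φ (closedBall q₀ (2 * r + 1)) (ball 0 δ')}) with hU
  have hUo : IsOpen U := by
    refine IsOpen.inter (IsOpen.inter ?_ ?_) (IsOpen.inter ?_ ?_)
    · exact (ContinuousMap.isOpen_setOfPred_mapsTo (isCompact_closedBall _ _)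
        isOpen_ball).preimage (continuous_pw np)
    · exact ContinuousMap.isOpen_setOfPred_mapsTo (isCompact_closedBall _ _) isOpen_ball
    · exact (ContinuousMap.isOpen_setOfPred_mapsTo
        (isCompact_singleton.prod (isCompact_closedBall _ _))
        isOpen_ball).preimage (continuous_pw (k₀ + 1))
    · exact (ContinuousMap.isOpen_setOfPred_mapsTo (isCompact_closedBall _ _)
        isOpen_ball).preimage ((continuous_pw (M + 1)).sub continuous_const)
  have hF0U : F0 ∈ U := by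
    refine ⟨⟨?_, ?_⟩, ⟨?_, ?_⟩⟩
    · intro x hx
      show pw F0 np x ∈ _
      rw [pw_apply]
      exact hDT.2.2.2.1 x hx
    · intro x hx
      exact hDT.2.2.2.2 x hx
    · rintro ⟨z, w⟩ ⟨hx1, -⟩
      show pw F0 (k₀ + 1) (z, w) ∈ _
      have hz1 : z = z₁ := hx1
      rw [pw_apply, hz1]
      exact hk1 w
    · intro x _
      show pw F0 (M + 1) x - pw F0 (M + 1) x ∈ _
      rw [sub_self]
      exact mem_ball_self hδ'
  obtain ⟨R, ε, hR, hε, hUb⟩ := nbhd_ball F0 U hUo hF0U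
  refine ⟨4 * rp, R, ε, by positivity, by linarith, hε, fun A hA => ?_⟩
  have hAU : (⟨A.F, A.diff.continuous⟩ : C(E, E)) ∈ U := hUb _ hA
  obtain ⟨⟨u1, u2⟩, ⟨u3, u4⟩⟩ := hAU
  have hDA : DTrap A.F p₀ rp rp' np := by
    refine ⟨hrp'0, hrp'r, hDT.2.2.1, fun x hx => ?_, fun x hx => u2 hx⟩
    have := u1 hx
    rw [pw_apply] at this
    exact this
  obtain ⟨-, p, hp, hpA, hOm, huniq⟩ := dtrap_fix A.F p₀ rp rp' np A.diff hDA
  have hp' : ‖p - p₀‖ < m / 16 := by
    rw [mem_ball, dist_eq_norm] at hp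
    linarith
  -- the saddle point
  set G : E → E := A.F^[M + 1] with hG
  have hGd : Differentiable ℂ G := A.diff.iterate _
  obtain ⟨q, hqs, hSad⟩ := hnear G hGd (by
    intro x hx
    have h2 := u4 hx
    rw [mem_ball_zero_iff] at h2
    have e1 : (pw (⟨A.F, A.diff.continuous⟩ : C(E, E)) (M + 1) - pw F0 (M + 1)) x =
        G x - (g x.1, h x.1) := by
      show pw (⟨A.F, A.diff.continuous⟩ : C(E, E)) (M + 1) x - pw F0 (M + 1) x = _
      rw [pw_apply, pw_apply]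
      have e2 : (F0 : E → E)^[M + 1] x = (g x.1, h x.1) := degm_iter f M x
      rw [e2]
      rfl
    have h3 : ‖G x - (g x.1, h x.1)‖ < δ' := by
      rw [← e1]
      exact h2
    exact h3.le)
  have hpq : p ∉ closedBall q r := by
    intro hcon
    rw [mem_closedBall, dist_eq_norm] at hcon
    have g1 : Δ ≤ ‖q₀ - p₀‖ := norm_fst_le (q₀ - p₀)
    have g2 : q₀ - p₀ = -(q - q₀) + (p - p₀) - (p - q) := by abel
    have g3 := norm_sub_le (-(q - q₀) + (p - p₀)) (p - q)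
    have g4 := norm_add_le (-(q - q₀)) (p - p₀)
    rw [norm_neg] at g4
    rw [← g2] at g3
    linarith
  have hGB : ∀ x, G x ∈ basin A.F p ↔ x ∈ basin A.F p := fun x => basin_iter _ _ _ _
  have hGB' : ∀ n x, G^[n] x ∈ basin A.F p ↔ x ∈ basin A.F p := by
    intro n x
    rw [hG, ← Function.iterate_mul]
    exact basin_iter _ _ _ _
  have hBp : ∀ x ∈ basin A.F p, Tendsto (fun n => G^[n] x) atTop (𝓝 p) := by
    intro x hx
    have hx' : Tendsto (fun n : ℕ => A.F^[n] x) atTop (𝓝 p) := hx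
    have h2 : Tendsto (fun n : ℕ => (M + 1) * n) atTop atTop :=
      tendsto_id.const_mul_atTop' (Nat.succ_pos M)
    have h3 := hx'.comp h2
    refine h3.congr fun n => ?_
    show A.F^[(M + 1) * n] x = G^[n] x
    rw [hG, ← Function.iterate_mul]
  have hC := hS.const hr0
  have hqcl : q ∈ closure (basin A.F p) := by
    rw [Metric.mem_closure_iff]
    intro ρ hρ
    obtain ⟨n, hn⟩ := graph_small hSad hC (ρ / 2) (by positivity)
    have hq1 : ‖q.1 - x₀‖ ≤ s := (norm_fst_le (q - q₀)).trans hqs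
    have hq2 : ‖q.2 - h x₀‖ ≤ s := (norm_snd_le (q - q₀)).trans hqs
    obtain ⟨z, hz, w, hw, hzw⟩ := hn z₁ (by
      rw [mem_closedBall, dist_eq_norm]
      rw [dist_eq_norm] at hz₁
      have g1 : z₁ - q.1 = -(x₀ - z₁) - (q.1 - x₀) := by ring
      have g2 := norm_sub_le (-(x₀ - z₁)) (q.1 - x₀)
      rw [norm_neg] at g2
      rw [g1]
      have g3 : r / (2 * (K + 1)) = 2 * s := by
        rw [hs]; field_simp; ring
      rw [g3]
      linarith)
    have hwm : ((z₁, w) : E) ∈ ({z₁} : Set ℂ) ×ˢ closedBall (h x₀) (2 * r) := by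
      refine ⟨rfl, ?_⟩
      show w ∈ closedBall (h x₀) (2 * r)
      rw [mem_closedBall, dist_eq_norm]
      have g1 : w - h x₀ = (w - q.2) + (q.2 - h x₀) := by ring
      rw [g1]
      have := norm_add_le (w - q.2) (q.2 - h x₀)
      linarith
    have hk2 := u3 hwm
    rw [pw_apply] at hk2
    have hb1 : ((z₁, w) : E) ∈ basin A.F p := by
      rw [← hOm]
      exact ⟨k₀ + 1, hk2⟩
    rw [← hzw] at hb1
    refine ⟨(z, q.2), (hGB' n _).1 hb1, ?_⟩
    rw [Prod.dist_eq, dist_self, max_eq_left dist_nonneg, dist_comm]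
    rw [mem_closedBall] at hz
    linarith
  have hqn : q ∉ basin A.F p := by
    intro hcon
    have h2 := hBp q hcon
    have h3 : ∀ n, G^[n] q = q := fun n => Function.iterate_fixed hSad.1 n
    simp only [h3] at h2
    have h4 : p = q := tendsto_nhds_unique h2 tendsto_const_nhds |>.symm ▸ rfl
    exact hpq (h4 ▸ mem_closedBall_self hr0.le)
  have hqf : q ∈ frontier (basin A.F p) := ⟨hqcl, fun hi => hqn (interior_subset hi)⟩
  refine ⟨p, q, ?_, hpA, fun p' h2 h3 => huniq p' ?_ h3, by linarith, hSad.1, hqf, ?_⟩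
  · rw [mem_ball, dist_eq_norm] at hp
    linarith
  · rw [mem_ball, dist_eq_norm]
    exact h2
  exact sad_not_c1 hSad hr0 hS hd hGd (basin A.F p) hGB p hpq hBp hqf

end Pool.Agent.Helper96.GB
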