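import Pool.Agent.Helper96.GB.OpenDense

/-! The theorem on open and dense sets of pairs (MP_cd5a48_an). -/

set_option autoImplicit false

open Set Filter Metric Topology

namespace Pool.Agent.Helper96.GB

theorem deriv_near (B₁ : Aut2) (q : E) (c : ℝ) (hc : 0 < c) :
    ∃ ρ₁ : ℝ, 0 < ρ₁ ∧ ∀ q' ∈ ball q ρ₁, ∀ B : Aut2,
    (∀ x ∈ closedBall q 2, ‖B.F x - B₁.F x‖ < c / 4) →
    ‖fderiv ℂ B.F q' - fderiv ℂ B₁.F q‖ ≤ c := by
  have huc := (isCompact_closedBall q 2).uniformContinuousOn_of_continuous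
    (B₁.diff.continuous.continuousOn)
  rw [Metric.uniformContinuousOn_iff] at huc
  obtain ⟨ρ, hρ, huc⟩ := huc (c / 4) (by positivity)
  refine ⟨min ρ 1, lt_min hρ one_pos, fun q' hq' B hB => ?_⟩
  rw [mem_ball, dist_eq_norm] at hq'
  have hq1 : ‖q' - q‖ < ρ := hq'.trans_le (min_le_left _ _)
  have hq2 : ‖q' - q‖ < 1 := hq'.trans_le (min_le_right _ _)
  set G : E → E := fun x => B.F (x + (q' - q)) - B₁.F x with hG
  have hx : ∀ x ∈ ball q 1, ‖G x‖ < c / 2 := by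
    intro x hx
    rw [mem_ball, dist_eq_norm] at hx
    have m1 : x + (q' - q) ∈ closedBall q 2 := by
      rw [mem_closedBall, dist_eq_norm]
      have e : x + (q' - q) - q = (x - q) + (q' - q) := by abel
      rw [e]
      have := norm_add_le (x - q) (q' - q)
      linarith
    have m2 : x ∈ closedBall q 2 := by
      rw [mem_closedBall, dist_eq_norm]
      linarith
    have h1 := hB _ m1
    have h2 := huc _ m1 _ m2 (by
      rw [dist_eq_norm]
      have e : x + (q' - q) - x = q' - q := by abel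
      rw [e]
      exact hq1)
    rw [dist_eq_norm] at h2
    have e : G x = (B.F (x + (q' - q)) - B₁.F (x + (q' - q))) +
        (B₁.F (x + (q' - q)) - B₁.F x) := by
      rw [hG]; abel
    rw [e]
    have := norm_add_le (B.F (x + (q' - q)) - B₁.F (x + (q' - q)))
      (B₁.F (x + (q' - q)) - B₁.F x)
    linarith
  have hmaps : MapsTo G (ball q 1) (closedBall (G q) c) := by
    intro x hx'
    have h1 := hx x hx'
    have h2 := hx q (mem_ball_self one_pos)
    rw [mem_closedBall, dist_eq_norm]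
    have := norm_sub_le (G x) (G q)
    linarith
  have hd : HasFDerivAt G (fderiv ℂ B.F q' - fderiv ℂ B₁.F q) q := by
    have h1 : HasFDerivAt (fun x : E => x + (q' - q)) (ContinuousLinearMap.id ℂ E) q :=
      (hasFDerivAt_id q).add_const _
    have h2 : HasFDerivAt B.F (fderiv ℂ B.F q') (q + (q' - q)) := by
      rw [add_sub_cancel]
      exact (B.diff q').hasFDerivAt
    have h3 := h2.comp q h1
    rw [ContinuousLinearMap.comp_id] at h3
    exact h3.sub (B₁.diff q).hasFDerivAt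
  have hG' : Differentiable ℂ G := by
    have h1 : Differentiable ℂ (fun x : E => x + (q' - q)) := by fun_prop
    exact (B.diff.comp h1).sub B₁.diff
  have h := Complex.norm_fderiv_le_div_of_mapsTo_ball hG'.differentiableOn hmaps one_pos
  rw [hd.fderiv, div_one] at h
  exact h

theorem symm_trap (B : Aut2) (q : E) (hBq : B.F q = q)
    (hD : ∀ x, fderiv ℂ B.F q x = (-64 : ℂ) • x) (δ : ℝ) (hδ : 0 < δ) :
    ∃ ρ : ℝ, ρ < δ ∧ Trap B.F.symm q ρ 1 := by
  have hq : B.F.symm q = q := by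
    rw [Equiv.symm_apply_eq]
    exact hBq.symm
  have hn : ∀ y, ‖fderiv ℂ B.F.symm q y‖ ≤ 1 / 32 * ‖y‖ := by
    intro y
    have h7 := congrArg (fun f : E →L[ℂ] E => f y) (comp_deriv B q).1
    simp only [ContinuousLinearMap.comp_apply, ContinuousLinearMap.id_apply] at h7
    rw [hBq, hD] at h7
    set x := fderiv ℂ B.F.symm q y
    have h8 : 64 * ‖x‖ = ‖y‖ := by
      rw [← h7, norm_smul, norm_neg]
      simp
    linarith [norm_nonneg y]
  have hdB : HasFDerivAt B.F.symm (fderiv ℂ B.F.symm q) q := (B.diff_symm q).hasFDerivAt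
  have hsmall := (hasFDerivAt_iff_isLittleO_nhds_zero.1 hdB).def
    (show (0 : ℝ) < 1 / 32 by norm_num)
  obtain ⟨η, hη, hηs⟩ := Metric.eventually_nhds_iff.1 hsmall
  set ρ : ℝ := min δ η / 8 with hρ
  have hmin : 0 < min δ η := lt_min hδ hη
  have hρ0 : 0 < ρ := by positivity
  have h1 := min_le_left δ η
  have h2 := min_le_right δ η
  refine ⟨ρ, by rw [hρ]; linarith, hρ0, one_pos, ?_⟩
  intro x hx
  rw [Function.iterate_one]
  rw [mem_closedBall, dist_eq_norm] at hx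
  have h17 := hηs (y := x - q) (by rw [dist_zero_right]; linarith)
  rw [add_sub_cancel, hq] at h17
  rw [mem_ball, dist_eq_norm]
  have h18 : ‖B.F.symm x - q‖ ≤ ‖B.F.symm x - q - fderiv ℂ B.F.symm q (x - q)‖ +
      ‖fderiv ℂ B.F.symm q (x - q)‖ := by
    have := norm_add_le (B.F.symm x - q - fderiv ℂ B.F.symm q (x - q))
      (fderiv ℂ B.F.symm q (x - q))
    simpa using this
  have h19 := hn (x - q)
  linarith

theorem iter_symm (A : Aut2) (x : E) (k : ℕ) : A.F^[k] ((A.F.symm)^[k] x) = x := by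
  induction k generalizing x with
  | zero => rfl
  | succ k ih =>
    rw [Function.iterate_succ_apply' A.F.symm, Function.iterate_succ_apply A.F,
      Equiv.apply_symm_apply, ih]

theorem dense_crit (hRt : S_Route) (hU : S_Unb) (hS : S_Sand) (hI : S_IntD) (M η : ℝ)
    (hη : 0 < η) :
    Dense (interior {z : Pairs | ∃ q, M < ‖q‖ ∧ Crit η z.1.1 z.1.2 q}) := by
  rw [dense_iff_inter_open]
  rintro O hO ⟨⟨⟨A, p⟩, hAp⟩, hz₀⟩
  obtain ⟨O', hO', rfl⟩ := isOpen_induced_iff.1 hO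
  obtain ⟨V, W, hV, hW, hAV, hpW, hVW⟩ := isOpen_prod_iff.1 hO' A p hz₀
  obtain ⟨δ, hδ, hδW⟩ := Metric.isOpen_iff.1 hW p hpW
  obtain ⟨r, r', n, hDT, hrδ⟩ := exists_dtrap A.F p A.diff hAp δ hδ
  -- the repelling point
  obtain ⟨B₁, hB₁, q, hMq, hBq, hD⟩ := create_rep hS hI A (V ∩ {B | DTrap B.F p r r' n})
    (hV.inter (isOpen_dtrap p r r' n)) ⟨hAV, hDT⟩ (M + 1)
  obtain ⟨ρ₁, hρ₁, hnear⟩ := deriv_near B₁ q (32 * η) (by positivity)
  obtain ⟨ρ, hρ, hTq⟩ := symm_trap B₁ q hBq hD (min ρ₁ 1) (lt_min hρ₁ one_pos)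
  have hρ1 : ρ < ρ₁ := hρ.trans_le (min_le_left _ _)
  have hρ2 : ρ < 1 := hρ.trans_le (min_le_right _ _)
  set N : Set Aut2 := {B | ∀ x ∈ closedBall q 2, ‖B.F x - B₁.F x‖ < 32 * η / 4} with hN
  have hNo : IsOpen N := by
    have h2 : N = (fun A : Aut2 => A.pair.1 - B₁.pair.1) ⁻¹'
        {f : C(E, E) | MapsTo f (closedBall q 2) (ball 0 (32 * η / 4))} := by
      ext B
      constructor
      · intro h x hx
        rw [mem_ball_zero_iff]
        exact h x hx
      · intro h x hx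
        have h3 := h hx
        rw [mem_ball_zero_iff] at h3
        exact h3
    rw [h2]
    exact (ContinuousMap.isOpen_setOfPred_mapsTo (isCompact_closedBall q 2)
      isOpen_ball).preimage
      ((continuous_fst.comp Pool.Agent.Helper33.GB.continuous_pair).sub continuous_const)
  have hB₁N : B₁ ∈ N := by
    intro x _
    rw [sub_self, norm_zero]
    positivity
  set V₂ : Set Aut2 := (V ∩ {B | DTrap B.F p r r' n}) ∩ ({B | Trap B.F.symm q ρ 1} ∩ N) with hV₂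
  have hV₂o : IsOpen V₂ := (hV.inter (isOpen_dtrap p r r' n)).inter
    ((isOpen_trap_symm q ρ).inter hNo)
  -- the orbits starting near `q` are unbounded
  have hunb : ∀ M' : ℝ, ∃ y ∈ ball q (4 * ρ), ∃ k : ℕ, M' < ‖B₁.F^[k] y‖ := by
    intro M'
    obtain ⟨x, ⟨k, hk⟩, hx⟩ := hU B₁.inv q ρ 1 (ContinuousLinearMap.fst ℂ ℂ ℂ) (by
      intro h
      have := congrArg (fun f : E →L[ℂ] ℂ => f (1, 0)) h
      simp at this) hTq M'
    refine ⟨(B₁.F.symm)^[k] x, hk, k, ?_⟩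
    rw [iter_symm]
    exact hx.trans_le (norm_fst_le x)
  obtain ⟨B₂, hB₂, y, hy, k, hk⟩ := hRt B₁ V₂ hV₂o ⟨hB₁, hTq, hB₁N⟩ p r n
    (dtrap_fix B₁.F p r r' n B₁.diff hB₁.2).1 (ball q (4 * ρ)) isOpen_ball hunb
  obtain ⟨-, p₂, hp₂, hatt₂, -, -⟩ := dtrap_fix B₂.F p r r' n B₂.diff hB₂.1.2
  have hr'r : r' ≤ r := hDT.2.1
  have hr0 : 0 < r := hDT.1.trans_le hr'r
  have hp₂4 : p₂ ∈ ball p (4 * r) := ball_subset_ball (by linarith) hp₂
  have hp₂W : p₂ ∈ W := hδW (ball_subset_ball (by linarith) hp₂)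
  refine ⟨⟨(B₂, p₂), hatt₂⟩, hVW ⟨hB₂.1.1, hp₂W⟩, ?_⟩
  rw [mem_interior]
  refine ⟨{z : Pairs | z.1.1 ∈ V₂ ∧ z.1.2 ∈ ball p (4 * r) ∧ z.1.1.F^[k] y ∈ ball p (4 * r)},
    ?_, ?_, ⟨hB₂, hp₂4, hk⟩⟩
  · rintro ⟨⟨B, p'⟩, hBp'⟩ ⟨hB, hp', hy'⟩
    obtain ⟨-, p₃, hp₃, hatt₃, hOm, huniq⟩ := dtrap_fix B.F p r r' n B.diff hB.1.2
    have hp3 : p' = p₃ := huniq p' hp' hBp'.1
    subst hp3
    have hTB : Trap B.F.symm q ρ 1 := hB.2.1
    obtain ⟨q', hq', hqf, hqc, hqd⟩ := Pool.Agent.Helper98.GB.s_TrapFix B.F.symm q ρ 1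
      B.diff_symm hTB
    rw [Function.iterate_one] at hqf
    have hatq : IsAttr B.F.symm q' := ⟨hqf, 1, by simpa using hqd rfl⟩
    have hOmq := Pool.Agent.Helper98.GB.s_BasinOm B.F.symm q' q ρ 1 B.diff_symm hqf hTB hq'
    refine ⟨q', ?_, hatq, ⟨y, ?_, ?_⟩, ?_⟩
    · rw [mem_ball, dist_eq_norm] at hq'
      have h4 : ‖q‖ ≤ ‖q'‖ + ‖q' - q‖ := by
        have := norm_sub_le q' (q' - q)
        simpa using this
      linarith
    · show y ∈ basin B.F p'
      rw [← hOm]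
      exact ⟨k, hy'⟩
    · show y ∈ basin B.F.symm q'
      rw [← hOmq]
      exact ⟨0, hy⟩
    · intro x
      have h5 := hnear q' (ball_subset_ball hρ1.le hq') B hB.2.2
      have h6 : fderiv ℂ B.F q' x + (64 : ℂ) • x = (fderiv ℂ B.F q' - fderiv ℂ B₁.F q) x := by
        rw [_root_.sub_apply, hD, neg_smul, sub_neg_eq_add]
      rw [h6]
      exact ((fderiv ℂ B.F q' - fderiv ℂ B₁.F q).le_opNorm x).trans
        (mul_le_mul_of_nonneg_right h5 (norm_nonneg _))
  · have c1 : Continuous fun z : Pairs => z.1.1 := continuous_fst.comp continuous_subtype_val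
    have c2 : Continuous fun z : Pairs => z.1.2 := continuous_snd.comp continuous_subtype_val
    exact (hV₂o.preimage c1).inter ((isOpen_ball.preimage c2).inter
      (isOpen_ball.preimage ((Pool.Agent.Helper33.GB.continuous_iter y k).comp c1)))

theorem dense_pairs (M η : ℝ) (hη : 0 < η) : Dense (interior {z : Pairs | ∃ q, M < ‖q‖ ∧
    IsAttr z.1.1.F.symm q ∧ q ∈ frontier (basin z.1.1.F z.1.2) ∧
    ¬ IsC1At (basin z.1.1.F z.1.2) q ∧ ¬ ConeAt η (basin z.1.1.F z.1.2) q}) := by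
  have h0 : 0 < min η (1 / 2) := lt_min hη (by norm_num)
  refine (dense_crit (s_Route sand Pool.Agent.Helper78.GB.s_Int unb) unb sand
    Pool.Agent.Helper78.GB.s_IntD M (min η (1 / 2)) h0).mono (interior_mono ?_)
  rintro z ⟨q, hM, hc⟩
  obtain ⟨h1, h2⟩ := crit_main (min η (1 / 2)) h0 z.1.1 z.1.2 q z.2 hc
  refine ⟨q, hM, hc.1, h1, fun h3 => h2 ?_, fun h3 => h2 ?_⟩
  · exact cone_of_c1 _ _ h1 h3 _ ((min_le_right _ _).trans_lt (by norm_num))
  · obtain ⟨v, hv, h4⟩ := h3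
    refine ⟨v, hv, ?_⟩
    filter_upwards [h4] with s hs w hw
    exact hs w (hw.trans_le (min_le_left _ _))

end Pool.Agent.Helper96.GB
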