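import Pool.Agent.Helper96.GB.DegThm

/-! The family `(z, w) ↦ (a z exp z - δ w, z)` (MP_cd5a48_an). -/

set_option autoImplicit false

open Set Filter Metric Topology

namespace Pool.Agent.Helper96.GB

/-- images of discs under expanding maps -/
theorem expand {f : ℂ → ℂ} (hf : Differentiable ℂ f) {x₀ lam : ℂ} (hx : f x₀ = x₀) {r c μ : ℝ}
    (hc : ∀ z ∈ closedBall x₀ r, ‖deriv f z - lam‖ ≤ c) (hc0 : 0 ≤ c) (hμ : μ + c = ‖lam‖)
    (hμ1 : 1 < μ) (ρ : ℝ) (hρ : 0 ≤ ρ) (hρr : ρ ≤ r) (ζ : ℂ) (hζ : ‖ζ - x₀‖ ≤ μ * ρ) :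
    ∃ z ∈ closedBall x₀ ρ, f z = ζ := by
  have hlam : 0 < ‖lam‖ := by linarith
  have hlam0 : lam ≠ 0 := norm_pos_iff.1 hlam
  have hest : ∀ z ∈ closedBall x₀ ρ, ∀ z' ∈ closedBall x₀ ρ,
      ‖f z - f z' - lam * (z - z')‖ ≤ c * ‖z - z'‖ := by
    intro z hz z' hz'
    have h1 : Differentiable ℂ (fun z => f z - lam * z) :=
      hf.sub (differentiable_id.const_mul lam)
    have h2 : ∀ z ∈ closedBall x₀ ρ, ‖deriv (fun z => f z - lam * z) z‖ ≤ c := by
      intro z hz
      have h3 : HasDerivAt (fun z => f z - lam * z) (deriv f z - lam * 1) z :=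
        (hf z).hasDerivAt.sub ((hasDerivAt_id z).const_mul lam)
      rw [h3.deriv, mul_one]
      exact hc z (closedBall_subset_closedBall hρr hz)
    have h4 := (convex_closedBall x₀ ρ).norm_image_sub_le_of_norm_deriv_le
      (fun z _ => h1 z) h2 hz' hz
    have e : f z - f z' - lam * (z - z') = (f z - lam * z) - (f z' - lam * z') := by ring
    rw [e]
    exact h4
  have hx0 : x₀ ∈ closedBall x₀ ρ := mem_closedBall_self hρ
  obtain ⟨z, hz, hz'⟩ := contr_fix (fun z => z + (ζ - f z) / lam) x₀ ρ hρ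
    (c / ‖lam‖) (by positivity) (by
      rw [div_lt_one hlam]; linarith) (by
      intro z hz
      have h4 := hest z hz x₀ hx0
      rw [hx] at h4
      have h5 := hz
      rw [mem_closedBall, dist_eq_norm] at h5
      rw [mem_closedBall, dist_eq_norm]
      have e : z + (ζ - f z) / lam - x₀ = ((ζ - x₀) - (f z - x₀ - lam * (z - x₀))) / lam := by
        field_simp
        ring
      rw [e, norm_div, div_le_iff₀ hlam]
      have h6 := norm_sub_le (ζ - x₀) (f z - x₀ - lam * (z - x₀))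
      have h7 : c * ‖z - x₀‖ ≤ c * ρ := by gcongr
      nlinarith) (by
      intro z hz z' hz'
      have h4 := hest z hz z' hz'
      have e : z + (ζ - f z) / lam - (z' + (ζ - f z') / lam) =
          -(f z - f z' - lam * (z - z')) / lam := by
        field_simp
        ring
      rw [e, norm_div, norm_neg, div_mul_eq_mul_div]
      gcongr)
  refine ⟨z, hz, ?_⟩
  have h8 : (ζ - f z) / lam = 0 := by
    have := hz'
    simpa using this
  rw [div_eq_zero_iff] at h8
  rcases h8 with h8 | h8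
  · exact (sub_eq_zero.1 h8).symm
  · exact absurd h8 hlam0

theorem mem_closure_basin {f : ℂ → ℂ} (hf : Differentiable ℂ f) {x₀ lam : ℂ} (hx : f x₀ = x₀)
    {r c μ : ℝ} (hr : 0 < r) (hc : ∀ z ∈ closedBall x₀ r, ‖deriv f z - lam‖ ≤ c) (hc0 : 0 ≤ c)
    (hμ : μ + c = ‖lam‖) (hμ1 : 1 < μ) (z₀ y : ℂ) (hy : ‖y - x₀‖ ≤ μ * r)
    (hyB : Tendsto (fun n => f^[n] y) atTop (𝓝 z₀)) :
    x₀ ∈ closure {z | Tendsto (fun n => f^[n] z) atTop (𝓝 z₀)} := by
  rw [Metric.mem_closure_iff]
  intro ρ hρ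
  have key : ∀ n : ℕ, ∀ ζ ∈ closedBall x₀ (min r (μ ^ n * (ρ / 2))),
      ∃ z ∈ closedBall x₀ (ρ / 2), f^[n] z = ζ := by
    intro n
    induction n with
    | zero =>
      intro ζ hζ
      refine ⟨ζ, closedBall_subset_closedBall ?_ hζ, rfl⟩
      rw [pow_zero, one_mul]
      exact min_le_right _ _
    | succ n ih =>
      intro ζ hζ
      have hp : 0 < μ ^ n * (ρ / 2) := by positivity
      have hm : 0 < min r (μ ^ n * (ρ / 2)) := lt_min hr hp
      have hle : min r (μ ^ (n + 1) * (ρ / 2)) ≤ μ * min r (μ ^ n * (ρ / 2)) := by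
        rcases le_total r (μ ^ n * (ρ / 2)) with h | h
        · rw [min_eq_left h]
          refine (min_le_left _ _).trans ?_
          nlinarith
        · rw [min_eq_right h]
          refine (min_le_right _ _).trans ?_
          rw [pow_succ]
          apply le_of_eq
          ring
      rw [mem_closedBall, dist_eq_norm] at hζ
      obtain ⟨z, hz, hz'⟩ := expand hf hx hc hc0 hμ hμ1 _ hm.le (min_le_left _ _) ζ
        (hζ.trans hle)
      obtain ⟨z₂, hz₂, hz₂'⟩ := ih z hz
      exact ⟨z₂, hz₂, by rw [Function.iterate_succ_apply', hz₂', hz']⟩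
  obtain ⟨n, hn⟩ := pow_unbounded_of_one_lt (r / (ρ / 2)) hμ1
  have hle : r ≤ μ ^ n * (ρ / 2) := by
    rw [div_lt_iff₀ (by positivity)] at hn
    exact hn.le
  have h1 := key n
  rw [min_eq_left hle] at h1
  obtain ⟨z, hz, hz'⟩ := expand hf hx hc hc0 hμ hμ1 r hr.le le_rfl y hy
  obtain ⟨z₂, hz₂, hz₂'⟩ := h1 z hz
  refine ⟨z₂, ?_, ?_⟩
  · show Tendsto (fun n => f^[n] z₂) atTop (𝓝 z₀)
    rw [← tendsto_add_atTop_iff_nat (n + 1)]
    refine hyB.congr fun m => ?_
    rw [Function.iterate_add_apply, Function.iterate_succ_apply' f n, hz₂', hz']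
  · rw [dist_comm]
    rw [mem_closedBall] at hz₂
    linarith

/-- the function `a z exp z` -/
noncomputable def fam (a : ℂ) (z : ℂ) : ℂ := a * z * Complex.exp z

theorem fam_diff (a : ℂ) : Differentiable ℂ (fam a) :=
  ((differentiable_id.const_mul a)).mul Complex.differentiable_exp

theorem fam_deriv (a z : ℂ) : deriv (fam a) z = a * (1 + z) * Complex.exp z := by
  have h : HasDerivAt (fam a) (a * 1 * Complex.exp z + a * z * Complex.exp z) z :=
    ((hasDerivAt_id z).const_mul a).mul (Complex.hasDerivAt_exp z)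
  rw [h.deriv]
  ring

theorem fam_basin (a : ℂ) (ha : ‖a‖ < 1) : ∃ ρ : ℝ, 0 < ρ ∧ ∀ z, ‖z‖ ≤ ρ →
    Tendsto (fun n => (fam a)^[n] z) atTop (𝓝 0) := by
  have ht : Tendsto (fun ρ : ℝ => ‖a‖ * Real.exp ρ) (𝓝[>] 0) (𝓝 (‖a‖ * Real.exp 0)) :=
    ((Real.continuous_exp.tendsto 0).const_mul ‖a‖).mono_left nhdsWithin_le_nhds
  rw [Real.exp_zero, mul_one] at ht
  obtain ⟨ρ, h1, h2⟩ := ((ht.eventually (gt_mem_nhds ha)).and self_mem_nhdsWithin).exists
  have hρ : 0 < ρ := h2
  refine ⟨ρ, hρ, fun z hz => ?_⟩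
  set κ : ℝ := ‖a‖ * Real.exp ρ with hκ
  have hκ0 : 0 ≤ κ := by positivity
  have key : ∀ n : ℕ, ‖(fam a)^[n] z‖ ≤ κ ^ n * ‖z‖ := by
    intro n
    induction n with
    | zero => simp
    | succ n ih =>
      rw [Function.iterate_succ_apply']
      set w := (fam a)^[n] z with hw
      have h3 : ‖w‖ ≤ ρ := by
        have := pow_le_one₀ (n := n) hκ0 h1.le
        have h4 : κ ^ n * ‖z‖ ≤ 1 * ‖z‖ := by gcongr
        linarith
      have h5 : Real.exp w.re ≤ Real.exp ρ :=
        Real.exp_le_exp.2 ((Complex.re_le_norm w).trans h3)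
      calc ‖fam a w‖ = ‖a‖ * ‖w‖ * Real.exp w.re := by
            rw [fam, norm_mul, norm_mul, Complex.norm_exp]
        _ ≤ ‖a‖ * ‖w‖ * Real.exp ρ := by gcongr
        _ = κ * ‖w‖ := by rw [hκ]; ring
        _ ≤ κ * (κ ^ n * ‖z‖) := by gcongr
        _ = κ ^ (n + 1) * ‖z‖ := by ring
  rw [tendsto_zero_iff_norm_tendsto_zero]
  have hlim : Tendsto (fun n : ℕ => κ ^ n * ‖z‖) atTop (𝓝 0) := by
    simpa using (tendsto_pow_atTop_nhds_zero_of_lt_one hκ0 h1).mul_const ‖z‖
  exact squeeze_zero (fun n => norm_nonneg _) key hlim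

/-- the repelling fixed points -/
theorem fam_rep (a : ℂ) (ha0 : a ≠ 0) (ha : ‖a‖ < 1) : ∃ x₀ : ℂ, fam a x₀ = x₀ ∧
    1 < ‖deriv (fam a) x₀‖ ∧ (∀ κ : ℝ, 0 < κ → deriv (fam a) x₀ ≠ κ) ∧
    x₀ ∈ closure {z | Tendsto (fun n => (fam a)^[n] z) atTop (𝓝 0)} := by
  obtain ⟨ρ, hρ, hB⟩ := fam_basin a ha
  -- a large number
  have hlim : Tendsto (fun L : ℝ => (2 * L + 1) * Real.exp (-((L - 1) / 8))) atTop (𝓝 0) := by
    have h1 : Tendsto (fun s : ℝ => (16 * s + 3) * Real.exp (-s)) atTop (𝓝 0) := by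
      have h2 : Tendsto (fun s : ℝ => s ^ 1 * Real.exp (-s)) atTop (𝓝 0) :=
        Real.tendsto_pow_mul_exp_neg_atTop_nhds_zero 1
      have h3 := (h2.const_mul 16).add (Real.tendsto_exp_neg_atTop_nhds_zero.const_mul 3)
      simp only [mul_zero, add_zero, pow_one] at h3
      refine h3.congr fun s => ?_
      ring
    have h4 : Tendsto (fun L : ℝ => (L - 1) / 8) atTop atTop :=
      (tendsto_atTop_add_const_right _ (-1) tendsto_id).atTop_div_const (by norm_num)
    refine (h1.comp h4).congr fun L => ?_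
    show (16 * ((L - 1) / 8) + 3) * Real.exp (-((L - 1) / 8)) = _
    congr 1
    ring
  obtain ⟨L₀, hL₀⟩ := eventually_atTop.1 (hlim.eventually (gt_mem_nhds hρ))
  obtain ⟨k, hk⟩ := exists_nat_gt (max L₀ 9)
  set x₀ : ℂ := -Complex.log a + ((k + 1 : ℕ) : ℂ) * (2 * Real.pi * Complex.I) with hx₀
  have hexp : a * Complex.exp x₀ = 1 := by
    rw [hx₀, Complex.exp_add, Complex.exp_nat_mul_two_pi_mul_I, mul_one, Complex.exp_neg,
      Complex.exp_log ha0, mul_inv_cancel₀ ha0]
  have hfix : fam a x₀ = x₀ := by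
    rw [fam]
    linear_combination x₀ * hexp
  have hder : deriv (fam a) x₀ = 1 + x₀ := by
    rw [fam_deriv]
    linear_combination (1 + x₀) * hexp
  have him : (k : ℝ) < x₀.im := by
    rw [hx₀]
    simp only [Complex.add_im, Complex.neg_im, Complex.log_im]
    have h1 : (((k + 1 : ℕ) : ℂ) * (2 * Real.pi * Complex.I)).im = (k + 1) * (2 * Real.pi) := by
      simp [Complex.mul_im]
    rw [h1]
    have h2 := Complex.arg_le_pi a
    have h3 := Real.pi_gt_three
    nlinarith [(Nat.cast_nonneg k : (0 : ℝ) ≤ k)]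
  set lam : ℂ := 1 + x₀ with hlam
  have hlim' : (k : ℝ) < ‖lam‖ := by
    have h1 := Complex.abs_im_le_norm lam
    have h2 : lam.im = x₀.im := by simp [hlam]
    rw [h2] at h1
    exact him.trans_le ((le_abs_self _).trans h1)
  have hk1 : L₀ < k := (le_max_left _ _).trans_lt hk
  have hk2 : (9 : ℝ) < k := (le_max_right _ _).trans_lt hk
  refine ⟨x₀, hfix, by rw [hder]; linarith, ?_, ?_⟩
  · intro κ hκ h1
    rw [hder] at h1
    have h2 := congrArg Complex.im h1
    have h3 : lam.im = x₀.im := by simp [hlam]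
    rw [h3, Complex.ofReal_im] at h2
    linarith
  · set t : ℝ := (‖lam‖ - 1) / 8 with ht
    have ht0 : 0 < t := by rw [ht]; linarith
    refine mem_closure_basin (fam_diff a) hfix (r := 1 / 4) (c := ‖lam‖ / 2 + 1 / 2)
      (μ := ‖lam‖ / 2 - 1 / 2) (lam := lam) (by norm_num) ?_ (by positivity) (by ring)
      (by linarith) 0 (x₀ - t) ?_ ?_
    · intro z hz
      rw [mem_closedBall, dist_eq_norm] at hz
      rw [fam_deriv]
      have e : a * (1 + z) * Complex.exp z - lam =
          lam * (Complex.exp (z - x₀) - 1) + (z - x₀) * (Complex.exp (z - x₀) - 1) + (z - x₀) := by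
        have h1 : Complex.exp z = Complex.exp x₀ * Complex.exp (z - x₀) := by
          rw [← Complex.exp_add, add_sub_cancel]
        rw [h1, hlam]
        linear_combination (1 + z) * Complex.exp (z - x₀) * hexp
      rw [e]
      have h2 := Complex.norm_exp_sub_one_le (x := z - x₀) (by linarith)
      have h3 : ‖Complex.exp (z - x₀) - 1‖ ≤ 1 / 2 := by linarith
      have n1 := norm_add_le (lam * (Complex.exp (z - x₀) - 1) +
        (z - x₀) * (Complex.exp (z - x₀) - 1)) (z - x₀)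
      have n2 := norm_add_le (lam * (Complex.exp (z - x₀) - 1))
        ((z - x₀) * (Complex.exp (z - x₀) - 1))
      rw [norm_mul, norm_mul] at n2
      have n3 : ‖lam‖ * ‖Complex.exp (z - x₀) - 1‖ ≤ ‖lam‖ * (1 / 2) := by gcongr
      have n4 : ‖z - x₀‖ * ‖Complex.exp (z - x₀) - 1‖ ≤ 1 / 4 * (1 / 2) := by gcongr
      linarith
    · rw [sub_sub_cancel_left, norm_neg, Complex.norm_real, Real.norm_of_nonneg ht0.le, ht]
      linarith
    · have hfy : fam a (x₀ - t) = (x₀ - t) * Complex.exp (-(t : ℂ)) := by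
        rw [fam, sub_eq_add_neg, Complex.exp_add]
        linear_combination (x₀ + -(t : ℂ)) * Complex.exp (-(t : ℂ)) * hexp
      have hny : ‖fam a (x₀ - t)‖ ≤ ρ := by
        rw [hfy, norm_mul, Complex.norm_exp]
        have h1 : (-(t : ℂ)).re = -t := by simp
        rw [h1]
        have h2 : ‖x₀ - t‖ ≤ 2 * ‖lam‖ + 1 := by
          have h3 := norm_sub_le x₀ (t : ℂ)
          rw [Complex.norm_real, Real.norm_of_nonneg ht0.le] at h3
          have h4 : ‖x₀‖ ≤ ‖lam‖ + 1 := by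
            have := norm_sub_le lam 1
            rw [hlam, add_sub_cancel_left, norm_one] at this
            rw [hlam]
            exact this
          rw [ht] at h3
          linarith
        have h5 := hL₀ ‖lam‖ (by linarith)
        calc ‖x₀ - t‖ * Real.exp (-t) ≤ (2 * ‖lam‖ + 1) * Real.exp (-t) := by gcongr
          _ ≤ ρ := h5.le
      have h6 := hB _ hny
      rw [← tendsto_add_atTop_iff_nat 1]
      exact h6.congr fun n => by rw [Function.iterate_succ_apply]

end Pool.Agent.Helper96.GB
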