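import Pool.Agent.Helper96.GB.Fam


/-! The theorem on the family `(z, w) ↦ (a z exp z - δ w, z)` (MP_cd5a48_an). -/

set_option autoImplicit false

open Set Filter Metric Topology

namespace Pool.Agent.Helper96.GB

theorem fam_not_poly (a : ℂ) (ha0 : a ≠ 0) (δ : ℂ) : ¬ IsPoly (hmap δ (fam a)) := by
  intro h
  obtain ⟨j, hj⟩ := Pool.Agent.Helper47.GB.polyGrow _ h
  have h1 : ∀ t : ℝ, 1 ≤ t → ‖a‖ * Real.exp t ≤ j * (1 + t) ^ j := by
    intro t ht
    have h2 := hj ((t : ℂ), 0)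
    have h3 : ‖(((t : ℂ), (0 : ℂ)) : E)‖ = t := by
      rw [Prod.norm_def]
      simp [abs_of_nonneg (show (0 : ℝ) ≤ t by linarith)]
      linarith
    rw [h3] at h2
    refine le_trans ?_ h2
    have h4 := norm_fst_le (hmap δ (fam a) ((t : ℂ), 0))
    refine le_trans ?_ h4
    have h5 : (hmap δ (fam a) ((t : ℂ), 0)).1 = a * t * Complex.exp t := by
      simp [hmap, fam]
    rw [h5, norm_mul, norm_mul, Complex.norm_exp, Complex.ofReal_re, Complex.norm_real,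
      Real.norm_of_nonneg (by linarith)]
    have h6 : 0 ≤ ‖a‖ * Real.exp t := by positivity
    nlinarith
  have h7 : Tendsto (fun t : ℝ => (1 + t) ^ j * Real.exp (-(1 + t))) atTop (𝓝 0) :=
    (Real.tendsto_pow_mul_exp_neg_atTop_nhds_zero j).comp
      (tendsto_atTop_add_const_left _ 1 tendsto_id)
  have h8 : Tendsto (fun t : ℝ => (j : ℝ) * Real.exp 1 * ((1 + t) ^ j * Real.exp (-(1 + t)))) atTop
      (𝓝 0) := by
    simpa using h7.const_mul ((j : ℝ) * Real.exp 1)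
  have ha : 0 < ‖a‖ := norm_pos_iff.2 ha0
  obtain ⟨t, h9, h10⟩ := ((h8.eventually (gt_mem_nhds ha)).and (eventually_ge_atTop 1)).exists
  have h11 := h1 t h10
  have h12 : (j : ℝ) * Real.exp 1 * ((1 + t) ^ j * Real.exp (-(1 + t))) =
      (j * (1 + t) ^ j) * Real.exp (-t) := by
    rw [neg_add, Real.exp_add, Real.exp_neg 1]
    field_simp
  rw [h12] at h9
  have h13 : ‖a‖ * Real.exp t * Real.exp (-t) ≤ j * (1 + t) ^ j * Real.exp (-t) := by gcongr
  rw [mul_assoc, ← Real.exp_add, add_neg_cancel, Real.exp_zero, mul_one] at h13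
  linarith

theorem fam_thm (a : ℂ) (ha0 : a ≠ 0) (ha : ‖a‖ < 1) : ∃ ε : ℝ, 0 < ε ∧ ∀ δ : ℂ, δ ≠ 0 →
    ‖δ‖ < ε → ¬ IsPoly (hmap δ (fam a)) ∧ IsAttr (hmap δ (fam a)) 0 ∧
      ∃ q ∈ frontier (basin (hmap δ (fam a)) 0), ¬ IsC1At (basin (hmap δ (fam a)) 0) q := by
  obtain ⟨x₀, h1, h2, h3, h4⟩ := fam_rep a ha0 ha
  have h0 : fam a 0 = 0 := by simp [fam]
  have hd : ‖deriv (fam a) 0‖ < 1 := by
    rw [fam_deriv]
    simpa using ha
  obtain ⟨ρ, R, ε, hρ, -, hε, hA⟩ := deg_main (fam a) (fam_diff a) 0 h0 hd x₀ 0 h1 h2 h3 h4 1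
    one_pos
  set R' : ℝ := |R| + 1 with hR'
  have hR'0 : 0 < R' := by positivity
  refine ⟨ε / R', by positivity, fun δ hδ0 hδ => ?_⟩
  set A : Aut2 := henAut δ hδ0 ⟨⟨fam a, (fam_diff a).continuous⟩,
    fam_diff a⟩ with hAdef
  have hAF : (A.F : E → E) = hmap δ (fam a) := rfl
  obtain ⟨p, q, hp, hpA, huniq, -, -, hq, hqC⟩ := hA A (by
    intro x hx
    have e : A.F x - (fam a x.1, x.1) = (-(δ * x.2), 0) := by
      rw [hAF, hmap]
      ext
      · show fam a x.1 - δ * x.2 - fam a x.1 = -(δ * x.2)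
        ring
      · show x.1 - x.1 = 0
        ring
    rw [e, Prod.norm_def]
    refine max_lt ?_ ?_
    · show ‖-(δ * x.2)‖ < ε
      rw [norm_neg, norm_mul]
      have h5 : ‖x.2‖ ≤ R' := by
        have := norm_snd_le x
        have := le_abs_self R
        rw [hR']; linarith
      calc ‖δ‖ * ‖x.2‖ ≤ ‖δ‖ * R' := by gcongr
        _ < ε / R' * R' := by gcongr
        _ = ε := by field_simp
    · show ‖(0 : ℂ)‖ < ε
      rw [norm_zero]
      exact hε)
  have hp0 : (0 : E) = p := by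
    apply huniq 0
    · have e : (0 : E) - (0, 0) = 0 := by simp
      rw [e, norm_zero]
      exact hρ
    · rw [hAF, hmap]
      simp [fam]
  rw [← hp0] at hpA hq hqC
  rw [hAF] at hpA hq hqC
  exact ⟨fam_not_poly a ha0 δ, hpA, q, hq, hqC⟩

end Pool.Agent.Helper96.GB
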