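import Pool.Agent.Helper96.GB.Slice
import Pool.Agent.Helper98.GB.X

/-! Limits of the linearized curves in sectors, and the statement for periodic points
(MP_cd5a48_an). -/

set_option autoImplicit false

open Set Filter Metric Topology

namespace Pool.Agent.Helper96.GB

/-- attracting fixed points are stable -/
theorem stable_nhds (F : E → E) (hF : Differentiable ℂ F) (p : E) (hp : IsAttr F p) (U : Set E)
    (hU : U ∈ 𝓝 p) : ∃ V ∈ 𝓝 p, ∀ x ∈ V, ∀ k, F^[k] x ∈ U := by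
  obtain ⟨hfix, m, hm⟩ := hp
  have hm0 : 0 < m := by
    rcases Nat.eq_zero_or_pos m with rfl | h
    · rw [pow_zero, norm_one] at hm
      exact absurd hm (lt_irrefl _)
    · exact h
  have hit : ∀ j, F^[j] p = p := fun j => Function.iterate_fixed hfix j
  have hH : HasFDerivAt F^[m] ((fderiv ℂ F p) ^ m) p := (hF p).hasFDerivAt.iterate hfix m
  have h1 : ∀ᶠ x in 𝓝 p, ‖F^[m] x - p‖ ≤ ‖x - p‖ := by
    have h2 := hH.isLittleO.def (show (0 : ℝ) < 1 - ‖(fderiv ℂ F p) ^ m‖ by linarith)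
    filter_upwards [h2] with x hx
    rw [hit] at hx
    have h3 := ((fderiv ℂ F p) ^ m).le_opNorm (x - p)
    have h4 := norm_add_le (F^[m] x - p - ((fderiv ℂ F p) ^ m) (x - p))
      (((fderiv ℂ F p) ^ m) (x - p))
    rw [sub_add_cancel] at h4
    linarith
  have h2 : ∀ᶠ x in 𝓝 p, ∀ j ∈ Finset.range m, F^[j] x ∈ U := by
    rw [Filter.eventually_all_finset]
    intro j _
    have h3 : Tendsto F^[j] (𝓝 p) (𝓝 p) := by
      have := (hF.continuous.iterate j).tendsto p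
      rwa [hit] at this
    exact h3.eventually hU
  obtain ⟨r, hr, hr1⟩ := Metric.eventually_nhds_iff.1 (h1.and h2)
  refine ⟨ball p r, ball_mem_nhds p hr, fun x hx k => ?_⟩
  have h3 : ∀ i, F^[m * i] x ∈ ball p r := by
    intro i
    induction i with
    | zero => simpa using hx
    | succ i ih =>
      rw [mul_add, mul_one, add_comm, Function.iterate_add_apply]
      have h4 := (hr1 (mem_ball.1 ih)).1
      rw [mem_ball, dist_eq_norm] at ih ⊢
      exact h4.trans_lt ih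
  have h4 := (hr1 (mem_ball.1 (h3 (k / m)))).2 (k % m) (Finset.mem_range.2 (Nat.mod_lt k hm0))
  rw [← Function.iterate_add_apply, Nat.mod_add_div] at h4
  exact h4

theorem unif_basin (F : E → E) (hF : Differentiable ℂ F) (p : E) (hp : IsAttr F p) (U : Set E)
    (hU : U ∈ 𝓝 p) (K : Set E) (hK : IsCompact K) (hKB : K ⊆ basin F p) :
    ∃ k₀, ∀ k, k₀ ≤ k → ∀ x ∈ K, F^[k] x ∈ U := by
  obtain ⟨V, hV, hVU⟩ := stable_nhds F hF p hp U hU
  obtain ⟨t, ht⟩ := hK.elim_finite_subcover (fun k : ℕ => F^[k] ⁻¹' interior V)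
    (fun k => isOpen_interior.preimage (hF.continuous.iterate k)) (by
      intro x hx
      have h1 : Tendsto (fun n : ℕ => F^[n] x) atTop (𝓝 p) := hKB hx
      obtain ⟨k, hk⟩ := (h1.eventually (interior_mem_nhds.2 hV)).exists
      exact mem_iUnion.2 ⟨k, hk⟩)
  refine ⟨t.sup id, fun k hk x hx => ?_⟩
  obtain ⟨j, hj, hjx⟩ := mem_iUnion₂.1 (ht hx)
  have h1 : j ≤ k := (Finset.le_sup (f := id) hj).trans hk
  obtain ⟨i, rfl⟩ := Nat.exists_eq_add_of_le h1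
  rw [add_comm, Function.iterate_add_apply]
  exact hVU _ (interior_subset hjx) i

theorem sector_limit (F : E → E) (hF : Differentiable ℂ F) (p : E) (hp : IsAttr F p) (n : ℕ)
    (hn : 0 < n) (c : ℝ) (hc : 1 < c) (Ψ : ℂ → E) (hΨ : Continuous Ψ)
    (hG : ∀ ζ, F^[n] (Ψ ζ) = Ψ (c * ζ)) (hB : ∀ ζ : ℂ, ζ.re < 0 → Ψ ζ ∈ basin F p) (ε : ℝ)
    (hε : 0 < ε) :
    Tendsto Ψ (cocompact ℂ ⊓ 𝓟 {ζ | ζ.re ≤ -(ε * ‖ζ‖)}) (𝓝 p) := by
  have hc0 : 0 < c := by linarith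
  intro U hU
  set S : Set ℂ := {ζ | ζ.re ≤ -(ε * ‖ζ‖)} with hS
  set K : Set ℂ := closedBall 0 c ∩ {ζ | 1 ≤ ‖ζ‖} ∩ S with hK
  have hKc : IsCompact K := by
    refine ((isCompact_closedBall (0 : ℂ) c).inter_right ?_).inter_right ?_
    · exact isClosed_le continuous_const continuous_norm
    · exact isClosed_le Complex.continuous_re (by fun_prop)
  obtain ⟨k₀, hk₀⟩ := unif_basin F hF p hp U hU (Ψ '' K) (hKc.image hΨ) (by
    rintro x ⟨ζ, ⟨⟨_, h1⟩, h2⟩, rfl⟩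
    apply hB
    have h3 : ζ.re ≤ -(ε * ‖ζ‖) := h2
    have h4 : (1 : ℝ) ≤ ‖ζ‖ := h1
    nlinarith)
  have hGk : ∀ (k : ℕ) ζ, F^[n * k] (Ψ ζ) = Ψ ((c : ℂ) ^ k * ζ) := by
    intro k ζ
    induction k with
    | zero => simp
    | succ k ih =>
      rw [mul_add, mul_one, add_comm, Function.iterate_add_apply, ih, hG, pow_succ', mul_assoc]
  have hlarge : ∀ᶠ ζ in cocompact ℂ, max 1 (c ^ k₀) ≤ ‖ζ‖ :=
    tendsto_norm_cocompact_atTop.eventually (eventually_ge_atTop _)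
  rw [mem_map]
  have : ∀ᶠ ζ in cocompact ℂ ⊓ 𝓟 S, Ψ ζ ∈ U := by
    rw [eventually_inf_principal]
    filter_upwards [hlarge] with ζ hζ hζS
    have hζ1 : 1 ≤ ‖ζ‖ := (le_max_left _ _).trans hζ
    obtain ⟨k, hk1, hk2⟩ := exists_nat_pow_near hζ1 hc
    have hkk : k₀ ≤ k := by
      have h1 : c ^ k₀ < c ^ (k + 1) := ((le_max_right _ _).trans hζ).trans_lt hk2
      have h2 := (pow_lt_pow_iff_right₀ hc).1 h1
      omega
    have hck : 0 < c ^ k := by positivity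
    have hckC : (c : ℂ) ^ k ≠ 0 := by
      have : (c : ℂ) ≠ 0 := by exact_mod_cast hc0.ne'
      exact pow_ne_zero _ this
    have hn' : ‖ζ / (c : ℂ) ^ k‖ = ‖ζ‖ / c ^ k := by
      rw [norm_div, norm_pow, Complex.norm_real, Real.norm_of_nonneg hc0.le]
    have hre : (ζ / (c : ℂ) ^ k).re = ζ.re / c ^ k := by
      rw [← Complex.ofReal_pow, Complex.div_ofReal_re]
    have hmem : ζ / (c : ℂ) ^ k ∈ K := by
      refine ⟨⟨?_, ?_⟩, ?_⟩
      · rw [mem_closedBall, dist_zero_right, hn', div_le_iff₀ hck]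
        rw [pow_succ] at hk2
        linarith
      · show 1 ≤ ‖ζ / (c : ℂ) ^ k‖
        rw [hn', le_div_iff₀ hck, one_mul]
        exact hk1
      · show (ζ / (c : ℂ) ^ k).re ≤ -(ε * ‖ζ / (c : ℂ) ^ k‖)
        rw [hn', hre, ← mul_div_assoc, ← neg_div]
        exact div_le_div_of_nonneg_right hζS hck.le
    have h1 := hk₀ (n * k) (hkk.trans (Nat.le_mul_of_pos_left k hn)) _ (mem_image_of_mem Ψ hmem)
    rw [hGk, mul_div_cancel₀ _ hckC] at h1
    exact h1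
  exact this

/-- the iterates of an automorphism -/
noncomputable def iterA (A : Aut2) : ℕ → Aut2
  | 0 => ⟨Equiv.refl E, differentiable_id, differentiable_id⟩
  | n + 1 => ⟨(iterA A n).F.trans A.F, A.diff.comp (iterA A n).diff,
      (iterA A n).diff_symm.comp A.diff_symm⟩

theorem iterA_apply (A : Aut2) (n : ℕ) : ((iterA A n).F : E → E) = A.F^[n] := by
  induction n with
  | zero => rfl
  | succ n ih =>
    funext x
    rw [Function.iterate_succ_apply', ← ih]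
    rfl

theorem isOpen_basin (A : Aut2) (p : E) (hp : IsAttr A.F p) : IsOpen (basin A.F p) := by
  have h : basin A.F p = ⋃ k : ℕ, A.F^[k] ⁻¹' (interior (basin A.F p)) := by
    obtain ⟨V, hV, hVU⟩ : ∃ V ∈ 𝓝 p, V ⊆ basin A.F p := by
      obtain ⟨r, r', n, ⟨h1, h2, h3, h4, -⟩, -⟩ := exists_dtrap A.F p A.diff hp 1 one_pos
      have hT : Trap A.F p r n :=
        ⟨by linarith, h3, fun x hx => ball_subset_ball h2 (h4 x hx)⟩
      have hr : 0 < r := by linarith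
      have hOm := Pool.Agent.Helper98.GB.s_BasinOm A.F p p r n A.diff hp.1 hT
        (mem_ball_self (by linarith))
      refine ⟨ball p (4 * r), ball_mem_nhds p (by linarith), fun x hx => ?_⟩
      rw [← hOm]
      exact ⟨0, hx⟩
    ext x
    rw [mem_iUnion]
    constructor
    · intro hx
      have h1 : Tendsto (fun n : ℕ => A.F^[n] x) atTop (𝓝 p) := hx
      obtain ⟨k, hk⟩ := (h1.eventually (interior_mem_nhds.2 hV)).exists
      exact ⟨k, interior_mono hVU hk⟩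
    · rintro ⟨k, hk⟩
      exact (basin_iter A.F p x k).1 (interior_subset hk)
  rw [h]
  exact isOpen_iUnion fun k => isOpen_interior.preimage (A.diff.continuous.iterate k)

theorem slices (A : Aut2) (p q : E) (n : ℕ) (hn : 0 < n) (hp : IsAttr A.F p)
    (hq : A.F^[n] q = q) (hqf : q ∈ frontier (basin A.F p)) (ℓ : E →L[ℝ] ℝ) (hℓ : ℓ ≠ 0)
    (hH : Half (basin A.F p) q ℓ) :
    ∃ (c : ℝ) (μ : ℂ) (l : E →L[ℂ] ℂ), (∀ x, ℓ x = (l x).re) ∧ 1 ≤ c ∧
      (∀ v, l (fderiv ℂ A.F^[n] q v) = c * l v) ∧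
      (∀ u, l u = 0 → fderiv ℂ A.F^[n] q u = μ • u) ∧
      (1 < c → μ ≠ c → ‖μ‖ < c ^ 2 → ∃ Ψ : ℂ → E, Differentiable ℂ Ψ ∧
        Function.Injective Ψ ∧ Ψ 0 = q ∧ l (deriv Ψ 0) = 1 ∧
        (∀ ζ, A.F^[n] (Ψ ζ) = Ψ (c * ζ)) ∧
        (∀ ζ, (Ψ ζ ∈ basin A.F p ↔ ζ.re < 0) ∧ (Ψ ζ ∈ frontier (basin A.F p) ↔ ζ.re = 0)) ∧
        ∀ ε : ℝ, 0 < ε →
          Tendsto Ψ (cocompact ℂ ⊓ 𝓟 {ζ | ζ.re ≤ -(ε * ‖ζ‖)}) (𝓝 p)) := by
  have hB : ∀ x, (iterA A n).F x ∈ basin A.F p ↔ x ∈ basin A.F p := by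
    intro x
    rw [iterA_apply]
    exact basin_iter A.F p x n
  have hBp : ∀ x ∈ basin A.F p, Tendsto (fun k => (iterA A n).F^[k] x) atTop (𝓝 p) := by
    intro x hx
    have h1 : Tendsto (fun k : ℕ => A.F^[k] x) atTop (𝓝 p) := hx
    have h2 : Tendsto (fun k : ℕ => n * k) atTop atTop :=
      tendsto_id.const_mul_atTop' hn
    have h3 := h1.comp h2
    refine h3.congr fun k => ?_
    rw [iterA_apply, Function.comp_apply, Function.iterate_mul]
  obtain ⟨c, μ, l, a1, a2, a3, a4, a7⟩ := slice_main (iterA A n) (basin A.F p)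
    (isOpen_basin A p hp) hB p (self_mem_basin hp.1) hBp q (by rw [iterA_apply]; exact hq) hqf
    ℓ hℓ hH
  rw [iterA_apply] at a3 a4 a7
  refine ⟨c, μ, l, a1, a2, a3, a4, fun h1 h2 h3 => ?_⟩
  obtain ⟨Ψ, b1, b2, b3, b4, b5, b6⟩ := a7 h1 h2 h3
  exact ⟨Ψ, b1, b2, b3, b4, b5, b6, fun ε hε => sector_limit A.F A.diff p hp n hn c h1 Ψ
    b1.continuous b5 (fun ζ hζ => (b6 ζ).1.2 hζ) ε hε⟩

end Pool.Agent.Helper96.GB
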