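import Pool.Agent.Helper96.GB.Fwd
import Pool.Agent.Helper96.GB.SliceLim
import Pool.Agent.Helper96.GB.FamThm

/-! The family `(z, w) ↦ (a z exp z + D w, z)`, `0 < D < 1` (MP_cd5a48_an). -/

set_option autoImplicit false

open Set Filter Metric Topology

namespace Pool.Agent.Helper96.GB

theorem hmap_hasFDerivAt (δ : ℂ) {f : ℂ → ℂ} (hf : Differentiable ℂ f) (x : E) :
    HasFDerivAt (hmap δ f)
      (((deriv f x.1) • ContinuousLinearMap.fst ℂ ℂ ℂ - δ • ContinuousLinearMap.snd ℂ ℂ ℂ).prod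
        (ContinuousLinearMap.fst ℂ ℂ ℂ)) x := by
  have h1 : HasFDerivAt (fun y : E => f y.1)
      ((deriv f x.1) • ContinuousLinearMap.fst ℂ ℂ ℂ) x :=
    (hf x.1).hasDerivAt.comp_hasFDerivAt x hasFDerivAt_fst
  have h2 : HasFDerivAt (fun y : E => δ * y.2) (δ • ContinuousLinearMap.snd ℂ ℂ ℂ) x :=
    hasFDerivAt_snd.const_mul δ
  exact (h1.sub h2).prodMk hasFDerivAt_fst

/-- the condition at the fixed points of Hénon maps -/
theorem hen_crit (f : ℂ → ℂ) (hf : Differentiable ℂ f) (δ : ℂ) (hδ : δ ≠ 0) (p : E)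
    (hp : IsAttr (hmap δ f) p) (t : ℂ) (ht : f t = (1 + δ) * t)
    (hq : ((t, t) : E) ∈ frontier (basin (hmap δ f) p))
    (hC : IsC1At (basin (hmap δ f) p) (t, t)) : ∃ c : ℝ, 1 ≤ c ∧ deriv f t = c + δ / c := by
  set A : Aut2 := henAut δ hδ ⟨⟨f, hf.continuous⟩, hf⟩ with hA
  have hAF : (A.F : E → E) = hmap δ f := rfl
  obtain ⟨ℓ, hℓ, hH⟩ := half_of_c1 _ _ hq hC
  have hfix : A.F^[1] ((t, t) : E) = (t, t) := by
    rw [Function.iterate_one, hAF, hmap]
    refine Prod.ext ?_ rfl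
    show f t - δ * t = t
    rw [ht]
    ring
  obtain ⟨c, μ, l, h1, h2, h3, -, -⟩ := slices A p (t, t) 1 one_pos hp hfix hq ℓ hℓ hH
  refine ⟨c, h2, ?_⟩
  have hc0 : (c : ℂ) ≠ 0 := by
    have : c ≠ 0 := by linarith
    exact_mod_cast this
  rw [Function.iterate_one, hAF, (hmap_hasFDerivAt δ hf (t, t)).fderiv] at h3
  have hlx : ∀ x : E, l x = x.1 * l (1, 0) + x.2 * l (0, 1) := by
    intro x
    have e : x = x.1 • ((1, 0) : E) + x.2 • ((0, 1) : E) := by
      ext <;> simp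
    conv_lhs => rw [e]
    rw [map_add, map_smul, map_smul, smul_eq_mul, smul_eq_mul]
  have e1 : deriv f t * l (1, 0) + l (0, 1) = c * l (1, 0) := by
    have h4 := h3 (1, 0)
    rw [hlx] at h4
    simp at h4
    exact h4
  have e2 : -(δ * l (1, 0)) = c * l (0, 1) := by
    have h4 := h3 (0, 1)
    rw [hlx] at h4
    simp at h4
    exact h4
  have hl0 : l (1, 0) ≠ 0 := by
    intro h
    rw [h, mul_zero, neg_zero] at e2
    have h5 : l (0, 1) = 0 := by
      rcases mul_eq_zero.1 e2.symm with h6 | h6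
      · exact absurd h6 hc0
      · exact h6
    apply hℓ
    refine ContinuousLinearMap.ext fun x => ?_
    rw [h1, hlx, h, h5]
    simp
  have e3 : l (0, 1) = -(δ * l (1, 0)) / c := by
    rw [e2]
    field_simp
  rw [e3] at e1
  have e4 : (deriv f t - (c + δ / c)) * l (1, 0) = 0 := by
    have e5 : (deriv f t - (c + δ / c)) * l (1, 0) =
        deriv f t * l (1, 0) + -(δ * l (1, 0)) / c - c * l (1, 0) := by
      field_simp
      ring
    rw [e5, e1, sub_self]
  rcases mul_eq_zero.1 e4 with h6 | h6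
  · exact sub_eq_zero.1 h6
  · exact absurd h6 hl0

/-- the choice of the constants -/
theorem params (a : ℂ) (ha0 : a ≠ 0) (D : ℝ) (hD : 0 < D) (hD1 : D < 1) (M : ℕ) :
    ∃ T₀ : ℝ, ∀ T : ℝ, T₀ ≤ T → 16 ≤ T ∧ 16 ≤ (1 - D) * T ∧ 16 ≤ ‖a‖ * T ∧
      2 * (|Real.log (‖a‖ / (4 * (1 - D)))| + 3 * M * Real.log T + Real.pi + 1) ≤
        (1 - D) * T / 16 ∧
      (⌈T⌉₊ : ℝ) ^ (3 * M + 1) * D ^ ⌈T⌉₊ * (‖a‖ + 2) ≤ 1 / 2 := by
  have ha : 0 < ‖a‖ := norm_pos_iff.2 ha0
  have h1D : 0 < 1 - D := by linarith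
  have e1 : ∀ᶠ T : ℝ in atTop, 16 ≤ T := eventually_ge_atTop _
  have e2 : ∀ᶠ T : ℝ in atTop, 16 ≤ (1 - D) * T :=
    (tendsto_id.const_mul_atTop h1D).eventually_ge_atTop 16
  have e3 : ∀ᶠ T : ℝ in atTop, 16 ≤ ‖a‖ * T :=
    (tendsto_id.const_mul_atTop ha).eventually_ge_atTop 16
  have e4 : ∀ᶠ T : ℝ in atTop,
      2 * (|Real.log (‖a‖ / (4 * (1 - D)))| + 3 * M * Real.log T + Real.pi + 1) ≤
        (1 - D) * T / 16 := by
    set C : ℝ := |Real.log (‖a‖ / (4 * (1 - D)))| + Real.pi + 1 with hC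
    have h1 : (fun T : ℝ => 2 * (C + 3 * M * Real.log T)) =o[atTop] fun T : ℝ => T := by
      have h2 : (fun _ : ℝ => C) =o[atTop] fun T : ℝ => T := by
        refine Asymptotics.isLittleO_const_left.2 (Or.inr ?_)
        exact tendsto_norm_atTop_atTop
      exact ((h2.add (Real.isLittleO_log_id_atTop.const_mul_left (3 * (M : ℝ))))).const_mul_left 2
    filter_upwards [h1.def (show (0 : ℝ) < (1 - D) / 16 by positivity), eventually_ge_atTop 0]
      with T hT hT0
    have h2 := (Real.le_norm_self _).trans hT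
    rw [Real.norm_of_nonneg hT0] at h2
    rw [hC] at h2
    linarith
  have e5 : ∀ᶠ T : ℝ in atTop,
      (⌈T⌉₊ : ℝ) ^ (3 * M + 1) * D ^ ⌈T⌉₊ * (‖a‖ + 2) ≤ 1 / 2 := by
    have h1 : Tendsto (fun n : ℕ => (n : ℝ) ^ (3 * M + 1) * D ^ n * (‖a‖ + 2)) atTop (𝓝 0) := by
      have := (tendsto_pow_const_mul_const_pow_of_abs_lt_one (3 * M + 1)
        (show |D| < 1 by rw [abs_of_pos hD]; exact hD1)).mul_const (‖a‖ + 2)
      simpa using this
    have h2 := h1.eventually (ge_mem_nhds (show (0 : ℝ) < 1 / 2 by norm_num))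
    exact (tendsto_nat_ceil_atTop (α := ℝ)).eventually h2
  obtain ⟨T₀, h⟩ := eventually_atTop.1 (e1.and (e2.and (e3.and (e4.and e5))))
  exact ⟨T₀, fun T hT => h T hT⟩

theorem in_closure (a : ℂ) (ha0 : a ≠ 0) (D : ℝ) (hD : 0 < D)
    (ha : Real.exp 1 * ‖a‖ + D < 1) : ∃ T₀ : ℝ, ∀ t : ℂ, T₀ ≤ ‖t‖ →
      a * Complex.exp t = 1 - D →
      ((t, t) : E) ∈ closure (basin (hmap (-D) (fam a)) 0) := by
  have han : 0 < ‖a‖ := norm_pos_iff.2 ha0
  have hD1 : D < 1 := by
    have : 0 ≤ Real.exp 1 * ‖a‖ := by positivity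
    linarith
  have h1D : 0 < 1 - D := by linarith
  obtain ⟨M, hM⟩ := exists_nat_gt (1 / (1 - D))
  have hM0 : 0 < M := by
    have h1 : (0 : ℝ) < M := lt_trans (by positivity) hM
    exact_mod_cast h1
  have hMD : D * M ≤ M - 1 := by
    rw [div_lt_iff₀ h1D] at hM
    linarith
  obtain ⟨T₀, hT₀⟩ := params a ha0 D hD hD1 M
  refine ⟨T₀, fun t ht hat => ?_⟩
  set T : ℝ := ‖t‖ with hTdef
  obtain ⟨p1, p2, p3, p4, p5⟩ := hT₀ T ht
  have hT0 : 0 < T := by linarith
  have ht0 : t ≠ 0 := norm_pos_iff.1 hT0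
  set s : ℝ := T ^ 3 with hs
  have hs1 : 1 ≤ s := one_le_pow₀ (by linarith)
  have hs0 : 0 < s := by linarith
  set L : ℝ := ‖a‖ * T * s ^ M / 4 with hL
  have hL0 : 0 < L := by positivity
  set R : ℝ := (1 - D) * T / 16 with hR
  set N : ℕ := ⌈T⌉₊ with hN
  have hNT : T ≤ N := Nat.le_ceil T
  have hNT' : (N : ℝ) ≤ 17 / 16 * T := by
    have := Nat.ceil_lt_add_one hT0.le
    rw [← hN] at this
    linarith
  set lam : ℂ := Complex.log (-L / ((1 - D) * t)) with hlam
  have h1Dc : (1 : ℂ) - D ≠ 0 := by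
    have : (1 - D : ℝ) ≠ 0 := by linarith
    exact_mod_cast this
  have hLc : (L : ℂ) ≠ 0 := by exact_mod_cast hL0.ne'
  have hw0 : -(L : ℂ) / ((1 - D) * t) ≠ 0 :=
    div_ne_zero (neg_ne_zero.2 hLc) (mul_ne_zero h1Dc ht0)
  have hexplam : Complex.exp lam = -L / ((1 - D) * t) := Complex.exp_log hw0
  have hwn : ‖-(L : ℂ) / ((1 - D) * t)‖ = ‖a‖ / (4 * (1 - D)) * s ^ M := by
    have e : (1 : ℂ) - D = ((1 - D : ℝ) : ℂ) := by push_cast; ring
    rw [norm_div, norm_neg, norm_mul, e, Complex.norm_real, Complex.norm_real,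
      Real.norm_of_nonneg hL0.le, Real.norm_of_nonneg h1D.le, ← hTdef, hL]
    field_simp
  have hlamn : ‖lam‖ ≤ |Real.log (‖a‖ / (4 * (1 - D)))| + 3 * M * Real.log T + Real.pi := by
    have h1 : ‖lam‖ ≤ |lam.re| + |lam.im| := Complex.norm_le_abs_re_add_abs_im lam
    rw [hlam, Complex.log_re, Complex.log_im, hwn] at h1
    have h2 := Complex.abs_arg_le_pi (-(L : ℂ) / ((1 - D) * t))
    have h3 : Real.log (‖a‖ / (4 * (1 - D)) * s ^ M) =
        Real.log (‖a‖ / (4 * (1 - D))) + 3 * M * Real.log T := by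
      rw [Real.log_mul (by positivity) (by positivity), Real.log_pow, hs, Real.log_pow]
      push_cast
      ring
    rw [h3] at h1
    have h4 := abs_add_le (Real.log (‖a‖ / (4 * (1 - D)))) (3 * M * Real.log T)
    have h5 : 0 ≤ Real.log T := Real.log_nonneg (by linarith)
    rw [abs_of_nonneg (show 0 ≤ 3 * (M : ℝ) * Real.log T by positivity)] at h4
    rw [hlam]
    linarith
  have hsM : T ≤ s ^ M := by
    have h1 : s ≤ s ^ M := le_self_pow₀ hs1 hM0.ne'
    have h2 : T ≤ s := by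
      rw [hs]
      exact le_self_pow₀ (by linarith) (by norm_num)
    linarith
  have hBC : BC t lam D L R := by
    refine ⟨hD, hD1, p2, by positivity, ?_, ?_, ?_⟩
    · rw [hR]
      linarith
    · rw [hL, ← hTdef]
      have h1 : 16 ≤ ‖a‖ * s ^ M := by
        have : ‖a‖ * T ≤ ‖a‖ * s ^ M := by gcongr
        linarith
      nlinarith
    · rw [hR]
      linarith
  obtain ⟨z, hz1, hz2, hz3, hz4⟩ := back_orbit hBC a hat hexplam
  have hRT : R ≤ T / 16 := by
    rw [hR]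
    nlinarith
  have hzn : ∀ i, ‖z i‖ ≤ 2 * T := by
    intro i
    have h1 := norm_add_le (z i - t) t
    rw [sub_add_cancel] at h1
    have := hz2 i
    linarith
  have hz0 : T / 2 ≤ ‖z 0‖ := by
    have h1 := norm_sub_norm_le t (t - z 0)
    rw [sub_sub_cancel, norm_sub_rev t] at h1
    have := hz2 0
    linarith
  have h4T : 4 * T ≤ L := hBC.hL
  have hDn : ‖(D : ℂ)‖ = D := by rw [Complex.norm_real, Real.norm_of_nonneg hD.le]
  have hfz : ‖fam a (z 0)‖ ≤ 2 * L := by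
    rw [hz3]
    refine (norm_sub_le _ _).trans ?_
    rw [norm_neg, Complex.norm_real, Real.norm_of_nonneg hL0.le, norm_mul, hDn]
    have h1 := hzn 1
    have h2 : D * ‖z 1‖ ≤ 1 * (2 * T) := by gcongr
    linarith
  have hexp : Real.exp (z 0).re ≤ s ^ M := by
    rw [norm_fam] at hfz
    have h1 : ‖a‖ * (T / 2) * Real.exp (z 0).re ≤ ‖a‖ * ‖z 0‖ * Real.exp (z 0).re := by gcongr
    have h2 : 2 * L = ‖a‖ * (T / 2) * s ^ M := by
      rw [hL]
      ring
    have h3 : ‖a‖ * (T / 2) * Real.exp (z 0).re ≤ ‖a‖ * (T / 2) * s ^ M := by linarith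
    exact le_of_mul_le_mul_left h3 (by positivity)
  set ρ : ℝ := max (z 0).re 0 with hρ
  have hρ0 : 0 ≤ ρ := le_max_right _ _
  have hlogs : 0 ≤ Real.log s := Real.log_nonneg hs1
  have hρs : ρ ≤ M * Real.log s := by
    refine max_le ?_ (by positivity)
    have h1 := Real.log_le_log (Real.exp_pos _) hexp
    rw [Real.log_exp, Real.log_pow] at h1
    exact h1
  have hexpρ : Real.exp (D * ρ) ≤ s ^ (M - 1) := by
    have h1 : D * ρ ≤ (M - 1) * Real.log s := by
      have h2 : D * ρ ≤ D * (M * Real.log s) := by gcongr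
      have h3 : D * M * Real.log s ≤ (M - 1) * Real.log s := by gcongr
      linarith
    have h2 : s ^ (M - 1) = Real.exp ((M - 1) * Real.log s) := by
      rw [← Real.rpow_natCast, Real.rpow_def_of_pos hs0, Nat.cast_sub hM0, Nat.cast_one, mul_comm]
    rw [h2]
    exact Real.exp_le_exp.2 h1
  have hρT : ρ ≤ 2 * T := by
    refine max_le ?_ (by positivity)
    exact (Complex.re_le_norm _).trans (hzn 0)
  have hss : s ^ M = s * s ^ (M - 1) := by
    conv_lhs => rw [show M = M - 1 + 1 by omega]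
    rw [pow_succ, mul_comm]
  have hexp21 : Real.exp 0.21 ≤ 1.3 := by
    have h1 := Real.add_one_le_exp (-0.21 : ℝ)
    have h2 : Real.exp (-0.21) * Real.exp 0.21 = 1 := by
      rw [← Real.exp_add]
      norm_num
    have h3 := Real.exp_pos 0.21
    nlinarith
  have hfar : ((-L : ℂ), z 0) ∈ basin (hmap (-D) (fam a)) 0 := by
    refine far_basin a D L (‖a‖ * (3.2 * T) * s ^ (M - 1)) (2 * T) ρ N (z 0) hD ha hL0.le hρ0
      (hzn 0) (le_max_left _ _) ?_ ?_ ?_ ?_
    · have h1 : (2 * T + 0.21 * ρ) ≤ 2.42 * T := by linarith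
      calc ‖a‖ * Real.exp 0.21 * ((2 * T + 0.21 * ρ) * Real.exp (D * ρ))
          ≤ ‖a‖ * 1.3 * ((2.42 * T) * s ^ (M - 1)) := by gcongr
        _ = ‖a‖ * (3.146 * T) * s ^ (M - 1) := by ring
        _ ≤ ‖a‖ * (3.2 * T) * s ^ (M - 1) := by
          gcongr
          norm_num
    · have h1 : (N : ℝ) * (‖a‖ * (3.2 * T) * s ^ (M - 1)) ≤
          17 / 16 * T * (‖a‖ * (3.2 * T) * s ^ (M - 1)) := by gcongr
      refine h1.trans ?_
      rw [hL, hss]
      have h2 : 17 / 16 * T * 3.2 ≤ s / 40 := by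
        rw [hs]
        nlinarith [mul_nonneg (sub_nonneg.2 p1) hT0.le, sq_nonneg T]
      have h3 : 0 ≤ ‖a‖ * T * s ^ (M - 1) := by positivity
      nlinarith
    · have h1 : L ≤ ‖a‖ * (N : ℝ) ^ (3 * M + 1) := by
        have h2 : T * s ^ M = T ^ (3 * M + 1) := by
          rw [hs, ← pow_mul, pow_succ, mul_comm]
        have h3 : T ^ (3 * M + 1) ≤ (N : ℝ) ^ (3 * M + 1) := by gcongr
        have h4 : 0 ≤ ‖a‖ * T ^ (3 * M + 1) := by positivity
        have h5 : ‖a‖ * T ^ (3 * M + 1) ≤ ‖a‖ * (N : ℝ) ^ (3 * M + 1) := by gcongr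
        have h6 : L = ‖a‖ * T ^ (3 * M + 1) / 4 := by
          rw [hL, mul_assoc, h2]
        linarith
      have h2 : D ^ N * L ≤ D ^ N * (‖a‖ * (N : ℝ) ^ (3 * M + 1)) := by gcongr
      have h3 : 0 ≤ (N : ℝ) ^ (3 * M + 1) * D ^ N := by positivity
      nlinarith
    · have h1 : (N : ℝ) ≤ (N : ℝ) ^ (3 * M + 1) :=
        le_self_pow₀ (by linarith) (by omega)
      have h2 : D ^ N * (2 * T) ≤ D ^ N * (2 * (N : ℝ) ^ (3 * M + 1)) := by
        gcongr
        linarith
      have h3 : 0 ≤ (N : ℝ) ^ (3 * M + 1) * D ^ N := by positivity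
      have h4 : 0 ≤ (N : ℝ) ^ (3 * M + 1) * D ^ N * ‖a‖ := by positivity
      nlinarith
  have hFx : ∀ y : E, hmap (-(D : ℂ)) (fam a) y = (fam a y.1 + D * y.2, y.1) := by
    intro y
    rw [hmap]
    refine Prod.ext ?_ rfl
    ring
  have horb : ∀ i, ((z i, z (i + 1)) : E) ∈ basin (hmap (-D) (fam a)) 0 := by
    intro i
    induction i with
    | zero =>
      rw [← basin_step, hFx]
      have e : ((fam a (z 0) + D * z 1, z 0) : E) = ((-(L : ℂ), z 0) : E) := by
        rw [hz3]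
        refine Prod.ext ?_ rfl
        ring
      show ((fam a (z 0) + D * z (0 + 1), z 0) : E) ∈ _
      rw [zero_add, e]
      exact hfar
    | succ i ih =>
      rw [← basin_step, hFx]
      have e : ((fam a (z (i + 1)) + D * z (i + 1 + 1), z (i + 1)) : E) = (z i, z (i + 1)) := by
        rw [hz4]
        refine Prod.ext ?_ rfl
        ring
      show ((fam a (z (i + 1)) + D * z (i + 1 + 1), z (i + 1)) : E) ∈ _
      rw [e]
      exact ih
  exact mem_closure_of_tendsto (hz1.prodMk_nhds (hz1.comp (tendsto_add_atTop_nat 1)))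
    (Eventually.of_forall horb)

theorem fam_attr (a : ℂ) (D : ℝ) (hD : 0 < D) (ha : ‖a‖ + D < 1) :
    IsAttr (hmap (-D) (fam a)) 0 := by
  have hDn : ‖(D : ℂ)‖ = D := by rw [Complex.norm_real, Real.norm_of_nonneg hD.le]
  refine ⟨?_, 2, ?_⟩
  · rw [hmap]
    refine Prod.ext ?_ rfl
    simp [fam]
  · rw [(hmap_hasFDerivAt (-(D : ℂ)) (fam_diff a) 0).fderiv]
    refine lt_of_le_of_lt ?_ ha
    have han := norm_nonneg a
    refine ContinuousLinearMap.opNorm_le_bound _ (by positivity) fun v => ?_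
    have e0 : deriv (fam a) (0 : E).1 = a := by
      rw [fam_deriv]
      simp
    rw [e0]
    have e1 : (((a • ContinuousLinearMap.fst ℂ ℂ ℂ - (-(D : ℂ)) • ContinuousLinearMap.snd ℂ ℂ ℂ).prod
        (ContinuousLinearMap.fst ℂ ℂ ℂ)) ^ 2) v =
        (a * (a * v.1 + D * v.2) + D * v.1, a * v.1 + D * v.2) := by
      rw [pow_two]
      refine Prod.ext ?_ ?_
      · show a * (a * v.1 - (-(D : ℂ)) * v.2) - (-(D : ℂ)) * v.1 = _
        ring
      · show a * v.1 - (-(D : ℂ)) * v.2 = _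
        ring
    rw [e1, Prod.norm_def]
    have h1 := norm_fst_le v
    have h2 := norm_snd_le v
    have h3 : ‖a * v.1 + D * v.2‖ ≤ (‖a‖ + D) * ‖v‖ := by
      refine (norm_add_le _ _).trans ?_
      rw [norm_mul, norm_mul, hDn, add_mul]
      gcongr
    refine max_le ?_ h3
    refine (norm_add_le _ _).trans ?_
    rw [norm_mul, norm_mul, hDn, add_mul]
    have h4 : ‖a‖ * ‖a * v.1 + D * v.2‖ ≤ ‖a‖ * ‖v‖ := by
      gcongr
      refine h3.trans ?_
      have := norm_nonneg v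
      nlinarith
    have h5 : D * ‖v.1‖ ≤ D * ‖v‖ := by gcongr
    linarith

theorem fam_neg (a : ℂ) (ha0 : a ≠ 0) (D : ℝ) (hD : 0 < D) (ha : Real.exp 1 * ‖a‖ + D < 1) :
    ¬ IsPoly (hmap (-D) (fam a)) ∧ IsAttr (hmap (-D) (fam a)) 0 ∧
      ∀ K : ℝ, ∃ q ∈ frontier (basin (hmap (-D) (fam a)) 0), K < ‖q‖ ∧
        hmap (-D) (fam a) q = q ∧ ¬ IsC1At (basin (hmap (-D) (fam a)) 0) q := by
  have han : 0 < ‖a‖ := norm_pos_iff.2 ha0
  have hD1 : D < 1 := by
    have : 0 ≤ Real.exp 1 * ‖a‖ := by positivity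
    linarith
  have ha1 : ‖a‖ + D < 1 := by
    have : 1 ≤ Real.exp 1 := Real.one_le_exp zero_le_one
    nlinarith
  have hattr := fam_attr a D hD ha1
  refine ⟨fam_not_poly a ha0 _, hattr, fun K => ?_⟩
  obtain ⟨T₀, hT₀⟩ := in_closure a ha0 D hD ha
  set b : ℂ := Complex.log ((1 - D) / a) with hb
  have h1Dc : (1 : ℂ) - D ≠ 0 := by
    have : (1 - D : ℝ) ≠ 0 := by linarith
    exact_mod_cast this
  have hexpb : Complex.exp b = (1 - D) / a := Complex.exp_log (div_ne_zero h1Dc ha0)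
  obtain ⟨k, hk⟩ := exists_nat_gt (max (max T₀ K) 0 + ‖b‖ + 4)
  set t : ℂ := b + k * (2 * Real.pi * Complex.I) with ht
  have hkn : ‖(k : ℂ) * (2 * Real.pi * Complex.I)‖ = k * (2 * Real.pi) := by
    rw [norm_mul, norm_mul, norm_mul, Complex.norm_natCast, Complex.norm_ofNat, Complex.norm_real,
      Complex.norm_I, mul_one, Real.norm_of_nonneg Real.pi_pos.le]
  have hpi := Real.pi_gt_three
  have hk0 : 0 < (k : ℝ) := by
    have := norm_nonneg b
    have := le_max_right (max T₀ K) 0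
    linarith
  have htn : (k : ℝ) - ‖b‖ ≤ ‖t‖ := by
    have h1 := norm_sub_norm_le ((k : ℂ) * (2 * Real.pi * Complex.I)) (-b)
    rw [norm_neg, hkn, sub_neg_eq_add, add_comm, ← ht] at h1
    nlinarith
  have hexpt : Complex.exp t = (1 - D) / a := by
    rw [ht, Complex.exp_add, Complex.exp_nat_mul_two_pi_mul_I, mul_one, hexpb]
  have hat : a * Complex.exp t = 1 - D := by
    rw [hexpt]
    field_simp
  have him : t.im ≠ 0 := by
    have h1 : t.im = b.im + k * (2 * Real.pi) := by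
      rw [ht]
      simp
    rw [h1]
    have h2 := neg_abs_le b.im
    have h3 := Complex.abs_im_le_norm b
    have h4 : (k : ℝ) ≤ k * (2 * Real.pi) := by nlinarith
    have h5 := le_max_right (max T₀ K) 0
    intro h6
    linarith
  have hTt : T₀ ≤ ‖t‖ := by
    have := le_max_left T₀ K
    have := le_max_left (max T₀ K) 0
    linarith
  have hKt : K < ‖t‖ := by
    have := le_max_right T₀ K
    have := le_max_left (max T₀ K) 0
    linarith
  have hcl := hT₀ t hTt hat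
  have hft : fam a t = (1 + -(D : ℂ)) * t := by
    rw [fam]
    linear_combination t * hat
  have hfix : hmap (-(D : ℂ)) (fam a) (t, t) = (t, t) := by
    rw [hmap]
    refine Prod.ext ?_ rfl
    show fam a t - -(D : ℂ) * t = t
    rw [hft]
    ring
  have hnot : ((t, t) : E) ∉ basin (hmap (-D) (fam a)) 0 := by
    intro h
    have h1 : ∀ n, (hmap (-(D : ℂ)) (fam a))^[n] (t, t) = (t, t) := fun n =>
      Function.iterate_fixed hfix n
    have h2 : Tendsto (fun n : ℕ => (hmap (-(D : ℂ)) (fam a))^[n] (t, t)) atTop (𝓝 0) := h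
    simp only [h1] at h2
    have h3 := tendsto_nhds_unique h2 tendsto_const_nhds
    have h4 : t = 0 := by
      have := congrArg Prod.fst h3
      simpa using this.symm
    rw [h4] at him
    exact him rfl
  have hfr : ((t, t) : E) ∈ frontier (basin (hmap (-D) (fam a)) 0) :=
    ⟨hcl, fun h => hnot (interior_subset h)⟩
  refine ⟨(t, t), hfr, ?_, hfix, fun hC => ?_⟩
  · rw [Prod.norm_def]
    exact lt_of_lt_of_le hKt (le_max_left _ _)
  · obtain ⟨c, hc1, hc⟩ := hen_crit (fam a) (fam_diff a) (-(D : ℂ))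
      (neg_ne_zero.2 (by exact_mod_cast hD.ne')) 0 hattr t hft hfr hC
    have h1 : deriv (fam a) t = (1 - D) * (1 + t) := by
      rw [fam_deriv]
      linear_combination (1 + t) * hat
    rw [h1] at hc
    have h2 := congrArg Complex.im hc
    have h3 : ((1 - (D : ℂ)) * (1 + t)).im = (1 - D) * t.im := by
      simp [Complex.mul_im]
    have h4 : ((c : ℂ) + -(D : ℂ) / c).im = 0 := by
      have : (c : ℂ) + -(D : ℂ) / c = ((c + -D / c : ℝ) : ℂ) := by push_cast; ring
      rw [this, Complex.ofReal_im]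
    rw [h3, h4] at h2
    rcases mul_eq_zero.1 h2 with h5 | h5
    · linarith
    · exact him h5

end Pool.Agent.Helper96.GB
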