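import Pool.Agent.Helper96.GB.Create

/-! Assembly (MP_cd5a48_an). -/

set_option autoImplicit false

open Set Filter Metric Topology

namespace Pool.Agent.Helper96.GB

theorem s_Grow (hS : S_Sand) (hI : S_IntD) : S_Grow := by
  intro A V hV hA j
  obtain ⟨R, hR0, hR⟩ := hS A V hV hA (ContinuousLinearMap.fst ℂ ℂ ℂ)
    (ContinuousLinearMap.snd ℂ ℂ ℂ) (ContinuousLinearMap.snd ℂ ℂ ℂ)
    (ContinuousLinearMap.fst ℂ ℂ ℂ) (0, 1) (1, 0) (by simp) (by simp) (by simp) (by simp)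
  obtain ⟨ε, hε, h⟩ := hR R R le_rfl le_rfl
  set y : E := (0, ((R + 1 : ℝ) : ℂ)) with hy
  set x : E := A.F.symm y with hx
  set c : ℝ := (j : ℝ) * (1 + ‖x‖) ^ j + 1 with hc
  have hfar : R < ‖((R + 1 : ℝ) : ℂ)‖ := by
    rw [Complex.norm_real, Real.norm_of_nonneg (by linarith)]
    linarith
  obtain ⟨ψ, hψd, hψa, -, hψs⟩ := hI R ε ((R + 1 : ℝ) : ℂ) (c : ℂ) 0 hR0.le hε hfar
  have hz : Differentiable ℂ (fun _ : ℂ => (0 : ℂ)) := differentiable_const _
  obtain ⟨B, hB, hBx⟩ := h (fun _ => 0) (fun _ => 0) (fun _ => 0) ψ hz hz hz hψd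
    (fun z _ => ⟨by simpa using hε, by simpa using hε⟩)
    (fun z hz => ⟨by simpa using hε, hψs z hz⟩)
  refine ⟨B, hB, x, ?_⟩
  have e1 : B.F x = ((c : ℂ), ((R + 1 : ℝ) : ℂ)) := by
    rw [hBx, osh_zero, osh_zero]
    have : A.F x = y := A.F.apply_symm_apply y
    rw [zero_smul, add_zero, this, hy]
    simp only [ContinuousLinearMap.coe_snd', hψa]
    ext <;> simp
  have hc0 : 0 ≤ c := by positivity
  have h2 : c ≤ ‖B.F x‖ := by
    have h3 := norm_fst_le (B.F x)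
    rw [e1] at h3 ⊢
    simpa [Real.norm_of_nonneg hc0, abs_of_nonneg hc0] using h3
  refine lt_of_lt_of_le ?_ h2
  rw [hc]
  linarith

theorem isOpen_Om {F : E → E} (hF : Continuous F) (t : E) (r : ℝ) : IsOpen (Om F t r) := by
  have : Om F t r = ⋃ k : ℕ, (F^[k]) ⁻¹' ball t (4 * r) := by
    ext x; simp [Om]
  rw [this]
  exact isOpen_iUnion fun k => isOpen_ball.preimage (hF.iterate k)

theorem basin_disjoint (F : E → E) {p q : E} (h : p ≠ q) : Disjoint (basin F p) (basin F q) := by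
  rw [Set.disjoint_left]
  intro x hx hy
  exact h (tendsto_nhds_unique hx hy)

theorem self_mem_basin {F : E → E} {p : E} (h : F p = p) : p ∈ basin F p := by
  have : ∀ n, F^[n] p = p := fun n => Function.iterate_fixed h n
  simp [basin, this]

/-- generic pairs of traps -/
theorem generic_pair (hRt : S_Route) (hFr : S_Front) (hO : S_OpenEnter) (U : Set E)
    (hU : IsOpen U) (t t' : E) (r r' : ℝ) (n n' : ℕ) :
    ∀ᶠ A in residual Aut2, (Trap A.F t r n → Trap A.F t' r' n' →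
      (frontier (Om A.F t r) ∩ U).Nonempty → (Om A.F t' r' ∩ U).Nonempty) := by
  classical
  set O : Set Aut2 := {A | ∃ x ∈ U, ∃ k : ℕ, A.F^[k] x ∈ ball t' (4 * r')} with hOdef
  set Q : Set Aut2 := {A | ¬ (Trap A.F t r n ∧ Trap A.F t' r' n' ∧
    (frontier (Om A.F t r) ∩ U).Nonempty)} with hQ
  have hopen : IsOpen (O ∪ interior Q) := (hO U t' r').union isOpen_interior
  have hdense : Dense (O ∪ interior Q) := by
    rw [dense_iff_inter_open]
    intro V hV hVne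
    by_cases hex : ∃ A ∈ V, A ∉ Q
    · obtain ⟨A, hAV, hAQ⟩ := hex
      rw [hQ, mem_ofPred_eq, not_not] at hAQ
      obtain ⟨h1, h2, x, hxf, hxU⟩ := hAQ
      obtain ⟨B, hB, y, hy, k, hk⟩ := hRt A V hV hAV t' r' n' h2 U hU
        (hFr A t r n h1 x hxf U hU hxU)
      exact ⟨B, hB, Or.inl ⟨y, hy, k, hk⟩⟩
    · push Not at hex
      obtain ⟨A, hA⟩ := hVne
      exact ⟨A, hA, Or.inr (interior_maximal (fun B hB => hex B hB) hV hA)⟩
  filter_upwards [residual_of_dense_open hopen hdense] with A hA h1 h2 h3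
  rcases hA with hA | hA
  · obtain ⟨x, hx, k, hk⟩ := hA
    exact ⟨x, ⟨k, hk⟩, hx⟩
  · exact absurd ⟨h1, h2, h3⟩ (interior_subset hA)

theorem main (hRt : S_Route) (hFr : S_Front) (hO : S_OpenEnter) (hOT : S_OpenTrap)
    (hOG : S_OpenGrow) (hTF : S_TrapFix) (hAT : S_AttrTrap) (hBO : S_BasinOm) (hCr : S_Create)
    (hPG : S_PolyGrow) (hG : S_Grow) (hW : S_Wada) :
    ∀ᶠ A in residual Aut2, ¬ IsPoly A.F ∧ (∀ M : ℝ, ∃ p, M < ‖p‖ ∧ IsAttr A.F p) ∧
      ∀ p, IsAttr A.F p → (frontier (basin A.F p)).Nonempty ∧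
        (∀ x ∈ frontier (basin A.F p), ¬ IsC1At (basin A.F p) x) ∧
        ∀ q, IsAttr A.F q → frontier (basin A.F q) = frontier (basin A.F p) := by
  have hb := TopologicalSpace.isBasis_countableBasis E
  have hcount := TopologicalSpace.countable_countableBasis E
  have g1 : ∀ᶠ A in residual Aut2, ∀ U ∈ TopologicalSpace.countableBasis E,
      ∀ τ τ' : ℕ × ℕ × ℕ,
      (Trap A.F (TopologicalSpace.denseSeq E τ.1) (1 / (τ.2.1 + 1 : ℝ)) τ.2.2 →
      Trap A.F (TopologicalSpace.denseSeq E τ'.1) (1 / (τ'.2.1 + 1 : ℝ)) τ'.2.2 →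
      (frontier (Om A.F (TopologicalSpace.denseSeq E τ.1) (1 / (τ.2.1 + 1 : ℝ))) ∩ U).Nonempty →
      (Om A.F (TopologicalSpace.denseSeq E τ'.1) (1 / (τ'.2.1 + 1 : ℝ)) ∩ U).Nonempty) := by
    rw [eventually_countable_ball hcount]
    intro U hU
    rw [eventually_countable_forall]
    intro τ
    rw [eventually_countable_forall]
    intro τ'
    exact generic_pair hRt hFr hO U (hb.isOpen hU) _ _ _ _ _ _
  have g2 : ∀ᶠ A in residual Aut2, ∀ M : ℕ, ∃ (t : E) (r : ℝ), Trap A.F t r 1 ∧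
      (M : ℝ) < ‖t‖ - 4 * r := by
    rw [eventually_countable_forall]
    intro M
    refine residual_of_dense_open (hOT M) ?_
    rw [dense_iff_inter_open]
    intro V hV ⟨A, hA⟩
    obtain ⟨B, hB, h⟩ := hCr A V hV hA M
    exact ⟨B, hB, h⟩
  have g3 : ∀ᶠ A in residual Aut2, ∀ j : ℕ, ∃ x : E, (j : ℝ) * (1 + ‖x‖) ^ j < ‖A.F x‖ := by
    rw [eventually_countable_forall]
    intro j
    refine residual_of_dense_open (hOG j) ?_
    rw [dense_iff_inter_open]
    intro V hV ⟨A, hA⟩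
    obtain ⟨B, hB, h⟩ := hG A V hV hA j
    exact ⟨B, hB, h⟩
  filter_upwards [g1, g2, g3] with A h1 h2 h3
  have hatt : ∀ M : ℝ, ∃ p, M < ‖p‖ ∧ IsAttr A.F p := by
    intro M
    obtain ⟨N, hN⟩ := exists_nat_ge M
    obtain ⟨t, r, hT, hM⟩ := h2 N
    obtain ⟨p, hp, hfix, -, hder⟩ := hTF A.F t r 1 A.diff hT
    refine ⟨p, ?_, by simpa using hfix, 1, by simpa using hder rfl⟩
    rw [mem_ball, dist_eq_norm] at hp
    have h4 : ‖t‖ ≤ ‖p‖ + ‖p - t‖ := by
      have := norm_sub_le p (p - t)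
      simpa using this
    have := hT.1
    linarith
  have hOm : ∀ p, IsAttr A.F p → ∃ τ : ℕ × ℕ × ℕ,
      Trap A.F (TopologicalSpace.denseSeq E τ.1) (1 / (τ.2.1 + 1 : ℝ)) τ.2.2 ∧
      Om A.F (TopologicalSpace.denseSeq E τ.1) (1 / (τ.2.1 + 1 : ℝ)) = basin A.F p := by
    intro p hp
    obtain ⟨i, m, n, hT, hpb, -⟩ := hAT A.F p A.diff hp 1 one_pos
    exact ⟨(i, m, n), hT, hBO A.F p _ _ n A.diff hp.1 hT hpb⟩
  have hopen : ∀ p, IsAttr A.F p → IsOpen (basin A.F p) := by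
    intro p hp
    obtain ⟨τ, -, h⟩ := hOm p hp
    rw [← h]
    exact isOpen_Om A.diff.continuous _ _
  have hcl : ∀ p q, IsAttr A.F p → IsAttr A.F q →
      frontier (basin A.F p) ⊆ closure (basin A.F q) := by
    intro p q hp hq x hx
    obtain ⟨τ, hT, hτ⟩ := hOm p hp
    obtain ⟨τ', hT', hτ'⟩ := hOm q hq
    rw [hb.mem_closure_iff]
    intro U hU hxU
    have := h1 U hU τ τ' hT hT' (by rw [hτ]; exact ⟨x, hx, hxU⟩)
    rwa [hτ', inter_comm] at this
  have hsub : ∀ p q, IsAttr A.F p → IsAttr A.F q →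
      frontier (basin A.F p) ⊆ frontier (basin A.F q) := by
    intro p q hp hq x hx
    rcases eq_or_ne p q with rfl | hne
    · exact hx
    · rw [(hopen q hq).frontier_eq]
      refine ⟨hcl p q hp hq hx, fun hxq => ?_⟩
      have hxp : x ∈ closure (basin A.F p) := frontier_subset_closure hx
      obtain ⟨y, hy1, hy2⟩ := mem_closure_iff.1 hxp _ (hopen q hq) hxq
      exact Set.disjoint_left.1 (basin_disjoint A.F hne) hy2 hy1
  have heq : ∀ p q, IsAttr A.F p → IsAttr A.F q →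
      frontier (basin A.F p) = frontier (basin A.F q) := fun p q hp hq =>
    Subset.antisymm (hsub p q hp hq) (hsub q p hq hp)
  refine ⟨?_, hatt, ?_⟩
  · intro hpoly
    obtain ⟨j, hj⟩ := hPG A.F hpoly
    obtain ⟨x, hx⟩ := h3 j
    exact absurd (hj x) (not_le.2 hx)
  · intro p hp
    obtain ⟨q, hq1, hq⟩ := hatt ‖p‖
    obtain ⟨q', hq'1, hq'⟩ := hatt ‖q‖
    have n1 : p ≠ q := fun h => by rw [h] at hq1; exact lt_irrefl _ hq1
    have n2 : q ≠ q' := fun h => by rw [h] at hq'1; exact lt_irrefl _ hq'1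
    have n3 : p ≠ q' := fun h => by rw [h] at hq1; exact lt_irrefl _ (hq1.trans hq'1)
    refine ⟨?_, ?_, fun q hq => heq q p hq hp⟩
    · rw [nonempty_frontier_iff]
      refine ⟨⟨p, self_mem_basin hp.1⟩, ?_⟩
      intro huniv
      have : q ∈ basin A.F p := by rw [huniv]; trivial
      exact Set.disjoint_left.1 (basin_disjoint A.F n1) this (self_mem_basin hq.1)
    · intro x hx
      exact hW _ _ _ (hopen p hp) (hopen q hq) (hopen q' hq') (basin_disjoint A.F n1)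
        (basin_disjoint A.F n3) (basin_disjoint A.F n2) (heq p q hp hq) (heq p q' hp hq') x hx

end Pool.Agent.Helper96.GB
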