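import Pool.Agent.Helper96.GB.Defs

/-! Frames (statements only, as `def … : Prop`). -/

set_option autoImplicit false

open Set Filter Metric Topology

namespace Pool.Agent.Helper96.GB

/-- P1 -/
def S_Baire : Prop := BaireSpace Aut2

/-- P2: neighbourhoods contain `C^0` neighbourhoods -/
def S_Nbhd : Prop := ∀ (A : Aut2) (V : Set Aut2), IsOpen V → A ∈ V →
  ∃ R ε : ℝ, 0 < R ∧ 0 < ε ∧ ∀ B : Aut2,
    (∀ x, ‖x‖ ≤ R → ‖B.F x - A.F x‖ < ε ∧ ‖B.F.symm x - A.F.symm x‖ < ε) → B ∈ V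

/-- P3a -/
def S_OpenEnter : Prop := ∀ (U : Set E) (t : E) (r : ℝ),
  IsOpen {A : Aut2 | ∃ x ∈ U, ∃ k : ℕ, A.F^[k] x ∈ ball t (4 * r)}

/-- P3b -/
def S_OpenTrap : Prop := ∀ M : ℝ,
  IsOpen {A : Aut2 | ∃ (t : E) (r : ℝ), Trap A.F t r 1 ∧ M < ‖t‖ - 4 * r}

/-- P3c -/
def S_OpenGrow : Prop := ∀ j : ℕ,
  IsOpen {A : Aut2 | ∃ x : E, (j : ℝ) * (1 + ‖x‖) ^ j < ‖A.F x‖}

/-- P4a: a trap contains a fixed point which attracts it -/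
def S_TrapFix : Prop := ∀ (F : E → E) (t : E) (r : ℝ) (n : ℕ), Differentiable ℂ F →
  Trap F t r n → ∃ p ∈ ball t r, F^[n] p = p ∧
    (∀ x ∈ ball t (4 * r), Tendsto (fun j : ℕ => F^[n * j] x) atTop (𝓝 p)) ∧
    (n = 1 → ‖fderiv ℂ F p‖ < 1)

/-- P4b: attracting fixed points have small traps with centre in a given dense sequence -/
def S_AttrTrap : Prop := ∀ (F : E → E) (p : E), Differentiable ℂ F → IsAttr F p →
  ∀ δ : ℝ, 0 < δ → ∃ i m n : ℕ, Trap F (TopologicalSpace.denseSeq E i) (1 / (m + 1 : ℝ)) n ∧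
    p ∈ ball (TopologicalSpace.denseSeq E i) (1 / (m + 1 : ℝ)) ∧ 1 / (m + 1 : ℝ) < δ

/-- P4c: the basin of an attracting fixed point is the set of points entering a trap -/
def S_BasinOm : Prop := ∀ (F : E → E) (p t : E) (r : ℝ) (n : ℕ), Differentiable ℂ F → F p = p →
  Trap F t r n → p ∈ ball t r → Om F t r = basin F p

/-- P5: linear functionals are unbounded on the set of points entering a trap -/
def S_Unb : Prop := ∀ (A : Aut2) (t : E) (r : ℝ) (n : ℕ) (lam : E →L[ℂ] ℂ), lam ≠ 0 →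
  Trap A.F t r n → ∀ M : ℝ, ∃ x ∈ Om A.F t r, M < ‖lam x‖

/-- P6: the iterates are unbounded near the boundary -/
def S_Front : Prop := ∀ (A : Aut2) (t : E) (r : ℝ) (n : ℕ), Trap A.F t r n →
  ∀ x ∈ frontier (Om A.F t r), ∀ U : Set E, IsOpen U → x ∈ U →
    ∀ M : ℝ, ∃ y ∈ U, ∃ k : ℕ, M < ‖A.F^[k] y‖

/-- P7a: overshears are automorphisms -/
def S_Osh : Prop := ∀ (α β : E →L[ℂ] ℂ) (e : E) (χ φ : ℂ → ℂ), α e = 0 → β e = 1 →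
  Differentiable ℂ χ → Differentiable ℂ φ →
  ∃ S : Aut2, (∀ x, S.F x = osh α β e χ φ x) ∧
    (∀ x, S.F.symm x = osh α β e (fun z => -χ z) (fun z => -(Complex.exp (-χ z) * φ z)) x)

/-- P8a: interpolation by a small function, with zeros in a finite set -/
def S_Int : Prop := ∀ (N : Finset ℂ) (r ε : ℝ) (a b c d : ℂ), 0 ≤ r → 0 < ε → r < ‖a‖ →
  r < ‖b‖ → a ≠ b → a ∉ N → b ∉ N →
  ∃ φ : ℂ → ℂ, Differentiable ℂ φ ∧ φ a = c ∧ φ b = d ∧ (∀ z ∈ N, φ z = 0) ∧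
    ∀ z, ‖z‖ ≤ r → ‖φ z‖ < ε

/-- P8b: a small function with given value and derivative at a far point -/
def S_IntD : Prop := ∀ (r ε : ℝ) (a c d : ℂ), 0 ≤ r → 0 < ε → r < ‖a‖ →
  ∃ φ : ℂ → ℂ, Differentiable ℂ φ ∧ φ a = c ∧ deriv φ a = d ∧
    ∀ z, ‖z‖ ≤ r → ‖φ z‖ < ε

/-- P9: compositions with almost trivial overshears on both sides. There is a radius `R₁` such
that for all radii `r₁, r₂ ≥ R₁` small functions give small perturbations. -/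
def S_Sand : Prop := ∀ (A : Aut2) (V : Set Aut2), IsOpen V → A ∈ V →
  ∀ (α β α' β' : E →L[ℂ] ℂ) (e e' : E), α e = 0 → β e = 1 → α' e' = 0 → β' e' = 1 →
  ∃ R : ℝ, 0 < R ∧ ∀ r₁ r₂ : ℝ, R ≤ r₁ → R ≤ r₂ → ∃ ε : ℝ, 0 < ε ∧
    ∀ χ φ χ' φ' : ℂ → ℂ, Differentiable ℂ χ → Differentiable ℂ φ → Differentiable ℂ χ' →
      Differentiable ℂ φ' → (∀ z, ‖z‖ ≤ r₁ → ‖χ z‖ < ε ∧ ‖φ z‖ < ε) →
      (∀ z, ‖z‖ ≤ r₂ → ‖χ' z‖ < ε ∧ ‖φ' z‖ < ε) →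
      ∃ B ∈ V, ∀ x, B.F x = osh α' β' e' χ' φ' (A.F (osh α β e χ φ x))

/-- P10: routing lemma -/
def S_Route : Prop := ∀ (A : Aut2) (V : Set Aut2), IsOpen V → A ∈ V →
  ∀ (t : E) (r : ℝ) (n : ℕ), Trap A.F t r n → ∀ U : Set E, IsOpen U →
    (∀ M : ℝ, ∃ y ∈ U, ∃ k : ℕ, M < ‖A.F^[k] y‖) →
    ∃ B ∈ V, ∃ x ∈ U, ∃ k : ℕ, B.F^[k] x ∈ ball t (4 * r)

/-- P11: creation of a trap far away -/
def S_Create : Prop := ∀ (A : Aut2) (V : Set Aut2), IsOpen V → A ∈ V → ∀ M : ℝ,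
  ∃ B ∈ V, ∃ (t : E) (r : ℝ), Trap B.F t r 1 ∧ M < ‖t‖ - 4 * r

/-- P12a: polynomial maps have polynomial growth -/
def S_PolyGrow : Prop := ∀ F : E → E, IsPoly F → ∃ j : ℕ, ∀ x, ‖F x‖ ≤ (j : ℝ) * (1 + ‖x‖) ^ j

/-- P12b: density of fast growth -/
def S_Grow : Prop := ∀ (A : Aut2) (V : Set Aut2), IsOpen V → A ∈ V → ∀ j : ℕ,
  ∃ B ∈ V, ∃ x : E, (j : ℝ) * (1 + ‖x‖) ^ j < ‖B.F x‖

/-- P13: three disjoint open sets with the same boundary -/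
def S_Wada : Prop := ∀ B₁ B₂ B₃ : Set E, IsOpen B₁ → IsOpen B₂ → IsOpen B₃ →
  Disjoint B₁ B₂ → Disjoint B₁ B₃ → Disjoint B₂ B₃ → frontier B₁ = frontier B₂ →
  frontier B₁ = frontier B₃ → ∀ x ∈ frontier B₁, ¬ IsC1At B₁ x

end Pool.Agent.Helper96.GB
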