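import Pool.Agent.Helper96.GB.Thm

/-! Frames for the family of transcendental Hénon maps `(z, w) ↦ (f z - δ w, z)`. -/

set_option autoImplicit false

open Set Filter Metric Topology

namespace Pool.Agent.Helper96.GB

/-- The entire functions, with the topology of uniform convergence on compact sets. -/
abbrev Ent := {f : C(ℂ, ℂ) // Differentiable ℂ f}

/-- The (generalized) Hénon map. -/
def hmap (δ : ℂ) (f : ℂ → ℂ) (x : E) : E := (f x.1 - δ * x.2, x.1)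

/-- A trap for `F^n` which contains a fixed point of `F`, far away. -/
def FarTrap (M : ℝ) (F : E → E) : Prop :=
  ∃ (t : E) (r r' : ℝ) (n : ℕ), 0 < r' ∧ r' ≤ r ∧ 0 < n ∧
    (∀ x ∈ closedBall t (4 * r), F^[n] x ∈ ball t r') ∧
    (∀ x ∈ closedBall t r', F x ∈ ball t (4 * r)) ∧ M < ‖t‖ - 4 * r

/-- The properties of generic automorphisms. -/
def Wild (F : E → E) : Prop :=
  ¬ IsPoly F ∧ (∀ M : ℝ, ∃ p, M < ‖p‖ ∧ IsAttr F p) ∧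
    ∀ p, IsAttr F p → (frontier (basin F p)).Nonempty ∧
      (∀ x ∈ frontier (basin F p), ¬ IsC1At (basin F p) x) ∧
      ∀ q, IsAttr F q → frontier (basin F q) = frontier (basin F p)

/-- H1a -/
def S_BaireE : Prop := BaireSpace Ent

/-- H1b -/
def S_NbhdE : Prop := ∀ (f : Ent) (V : Set Ent), IsOpen V → f ∈ V →
  ∃ R ε : ℝ, 0 < R ∧ 0 < ε ∧ ∀ g : Ent,
    (∀ z, ‖z‖ ≤ R → ‖g.1 z - f.1 z‖ < ε) → g ∈ V

/-- H1c: the Hénon maps are automorphisms and depend continuously on `f` -/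
def S_Hen : Prop := ∀ δ : ℂ, δ ≠ 0 → ∃ a : Ent → Aut2, Continuous a ∧
  ∀ (f : Ent) (x : E), (a f).F x = hmap δ f.1 x

/-- H5a -/
def S_OpenFar : Prop := ∀ M : ℝ, IsOpen {A : Aut2 | FarTrap M A.F}

/-- H5b: a far trap gives a far attracting fixed point -/
def S_FarFix : Prop := ∀ (M : ℝ) (F : E → E), Differentiable ℂ F → FarTrap M F →
  ∃ p, M < ‖p‖ ∧ IsAttr F p

/-- H2 -/
def S_RouteE : Prop := ∀ (δ : ℂ), δ ≠ 0 → ∀ (f : Ent) (V : Set Ent), IsOpen V → f ∈ V →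
  ∀ (t : E) (r : ℝ) (n : ℕ), Trap (hmap δ f.1) t r n → ∀ U : Set E, IsOpen U →
    (∀ M : ℝ, ∃ y ∈ U, ∃ k : ℕ, M < ‖((hmap δ f.1)^[k] y).1‖) →
    ∃ g ∈ V, ∃ x ∈ U, ∃ k : ℕ, (hmap δ g.1)^[k] x ∈ ball t (4 * r)

/-- H3 -/
def S_CreateE : Prop := ∀ (δ : ℂ), δ ≠ 0 → ‖δ‖ < 1 → ∀ (f : Ent) (V : Set Ent), IsOpen V →
  f ∈ V → ∀ M : ℝ, ∃ g ∈ V, FarTrap M (hmap δ g.1)

/-- H4 -/
def S_GrowE : Prop := ∀ (δ : ℂ), δ ≠ 0 → ∀ (f : Ent) (V : Set Ent), IsOpen V → f ∈ V →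
  ∀ j : ℕ, ∃ g ∈ V, ∃ x : E, (j : ℝ) * (1 + ‖x‖) ^ j < ‖hmap δ g.1 x‖

/-- H6: the abstract assembly -/
def S_Abs : Prop := ∀ (X : Type) (_ : TopologicalSpace X) (a : X → Aut2), Continuous a →
  (∀ (x : X) (V : Set X), IsOpen V → x ∈ V → ∀ (t : E) (r : ℝ) (n : ℕ), Trap (a x).F t r n →
    ∀ U : Set E, IsOpen U → Bornology.IsBounded U →
      (∀ M : ℝ, ∃ y ∈ U, ∃ k : ℕ, M < ‖(a x).F^[k] y‖) →
      ∃ x' ∈ V, ∃ y ∈ U, ∃ k : ℕ, (a x').F^[k] y ∈ ball t (4 * r)) →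
  (∀ (x : X) (V : Set X), IsOpen V → x ∈ V → ∀ M : ℝ, ∃ x' ∈ V, FarTrap M (a x').F) →
  (∀ (x : X) (V : Set X), IsOpen V → x ∈ V → ∀ j : ℕ, ∃ x' ∈ V,
    ∃ y : E, (j : ℝ) * (1 + ‖y‖) ^ j < ‖(a x').F y‖) →
  ∀ᶠ x in residual X, Wild (a x).F

end Pool.Agent.Helper96.GB
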