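import Pool.Agent.Helper96.GB.Back

/-! Forward orbits of `(z, w) ↦ (a z exp z + D w, z)` (MP_cd5a48_an). -/

set_option autoImplicit false

open Set Filter Metric Topology

namespace Pool.Agent.Helper96.GB

theorem num1 : (11 / 9 : ℝ) * Real.exp (-1.8) ≤ 0.21 := by
  have h1 : (2.718 : ℝ) ≤ Real.exp 1 := by
    have := Real.exp_one_gt_d9
    linarith
  have h2 : (0.8 : ℝ) ≤ Real.exp (-0.2) := by
    have := Real.add_one_le_exp (-0.2 : ℝ)
    linarith
  have h3 : Real.exp 1.8 = Real.exp 1 * Real.exp 1 * Real.exp (-0.2) := by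
    rw [← Real.exp_add, ← Real.exp_add]
    norm_num
  have h4 : (5.9 : ℝ) ≤ Real.exp 1.8 := by
    rw [h3]
    have h5 : (2.718 : ℝ) * 2.718 ≤ Real.exp 1 * Real.exp 1 := by gcongr
    have h6 : (2.718 : ℝ) * 2.718 * 0.8 ≤ Real.exp 1 * Real.exp 1 * Real.exp (-0.2) := by gcongr
    refine le_trans ?_ h6
    norm_num
  have h5 : Real.exp (-1.8) * Real.exp 1.8 = 1 := by
    rw [← Real.exp_add]
    norm_num
  have h6 := Real.exp_pos (-1.8)
  nlinarith

theorem num2 : (0.21 : ℝ) * Real.exp (-0.79) ≤ 0.11 := by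
  have h1 : (1.91 : ℝ) ≤ Real.exp 0.79 := by
    have := Real.quadratic_le_exp_of_nonneg (show (0 : ℝ) ≤ 0.79 by norm_num)
    refine le_trans ?_ this
    norm_num
  have h5 : Real.exp (-0.79) * Real.exp 0.79 = 1 := by
    rw [← Real.exp_add]
    norm_num
  have h6 := Real.exp_pos (-0.79)
  nlinarith

theorem norm_fam (a z : ℂ) : ‖fam a z‖ = ‖a‖ * ‖z‖ * Real.exp z.re := by
  rw [fam, norm_mul, norm_mul, Complex.norm_exp]

theorem fwd (a : ℂ) (D L Λ T ρ : ℝ) (N : ℕ) (P Q : ℕ → ℂ) (hD : 0 < D) (hD1 : D < 1)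
    (ha : Real.exp 1 * ‖a‖ ≤ 1 - D) (hL : 0 ≤ L) (hρ : 0 ≤ ρ) (hP0 : P 0 = -L)
    (hQ0 : ‖Q 0‖ ≤ T) (hQr : (Q 0).re ≤ ρ) (hQ : ∀ n, Q (n + 1) = fam a (P n) + D * Q n)
    (hP : ∀ n, P (n + 1) = fam a (Q (n + 1)) + D * P n)
    (hΛ : ‖a‖ * Real.exp 0.21 * ((T + 0.21 * ρ) * Real.exp (D * ρ)) ≤ Λ)
    (hN : N * Λ ≤ L / 10) (n : ℕ) (hn : n ≤ N) :
    ‖Q n‖ ≤ D ^ n * T + 0.21 ∧ (Q n).re ≤ D ^ n * ρ + 0.21 ∧
      ‖P n + (D ^ n * L : ℝ)‖ ≤ n * (D ^ n * Λ) + 0.11 := by
  have hT : 0 ≤ T := (norm_nonneg _).trans hQ0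
  have ha' : ‖a‖ ≤ (1 - D) * Real.exp (-1) := by
    have h1 : Real.exp 1 * Real.exp (-1) = 1 := by
      rw [← Real.exp_add]
      norm_num
    have h2 := Real.exp_pos (-1)
    have h3 : Real.exp 1 * ‖a‖ * Real.exp (-1) ≤ (1 - D) * Real.exp (-1) := by gcongr
    have h4 : Real.exp 1 * ‖a‖ * Real.exp (-1) = ‖a‖ * (Real.exp 1 * Real.exp (-1)) := by ring
    rw [h4, h1, mul_one] at h3
    exact h3
  have h1D : 0 < 1 - D := by linarith
  have hDn : ‖(D : ℂ)‖ = D := by rw [Complex.norm_real, Real.norm_of_nonneg hD.le]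
  have hΛ0 : 0 ≤ Λ := le_trans (by positivity) hΛ
  induction n with
  | zero =>
    refine ⟨by simpa using hQ0.trans (by norm_num), by
      rw [pow_zero, one_mul]; linarith, ?_⟩
    rw [hP0]
    simp
    norm_num
  | succ n ih =>
    obtain ⟨i1, i2, i3⟩ := ih (by omega)
    set x : ℝ := D ^ n * L with hx
    have hx0 : 0 ≤ x := by positivity
    have hcount : n * (D ^ n * Λ) ≤ x / 10 := by
      have h1 : (n : ℝ) ≤ N := by exact_mod_cast (by omega : n ≤ N)
      have h2 : (n : ℝ) * Λ ≤ N * Λ := by gcongr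
      have h3 : D ^ n * (n * Λ) ≤ D ^ n * (L / 10) := by
        gcongr
        linarith
      rw [hx]
      linarith
    have hPn : ‖P n + (x : ℝ)‖ ≤ x / 10 + 0.11 := by linarith
    have hPn1 : ‖P n‖ ≤ 1.1 * x + 0.11 := by
      have h1 := norm_sub_le (P n + (x : ℂ)) (x : ℂ)
      rw [add_sub_cancel_right, Complex.norm_real, Real.norm_of_nonneg hx0] at h1
      linarith
    have hPn2 : (P n).re ≤ -0.9 * x + 0.11 := by
      have h1 := (Complex.re_le_norm (P n + (x : ℂ))).trans hPn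
      rw [Complex.add_re, Complex.ofReal_re] at h1
      linarith
    have hfP : ‖fam a (P n)‖ ≤ 0.21 * (1 - D) := by
      set s : ℝ := 0.9 * x + 0.09 with hs
      have hs0 : 0 < s := by positivity
      have h1 : ‖P n‖ ≤ 11 / 9 * s := by
        rw [hs]
        linarith
      have h2 : Real.exp (P n).re ≤ Real.exp (-s) * Real.exp 0.2 := by
        rw [← Real.exp_add]
        apply Real.exp_le_exp.2
        rw [hs]
        linarith
      have h3 : s * Real.exp (-s) ≤ Real.exp (-1) := by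
        have h4 := Real.add_one_le_exp (s - 1)
        have h5 : Real.exp (s - 1) * Real.exp (-s) = Real.exp (-1) := by
          rw [← Real.exp_add]
          ring_nf
        rw [← h5]
        have := Real.exp_pos (-s)
        gcongr
        linarith
      rw [norm_fam]
      calc ‖a‖ * ‖P n‖ * Real.exp (P n).re
          ≤ ((1 - D) * Real.exp (-1)) * (11 / 9 * s) * (Real.exp (-s) * Real.exp 0.2) := by
            gcongr
        _ = (1 - D) * (11 / 9) * (Real.exp (-1) * Real.exp 0.2) * (s * Real.exp (-s)) := by ring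
        _ ≤ (1 - D) * (11 / 9) * (Real.exp (-1) * Real.exp 0.2) * Real.exp (-1) := by gcongr
        _ = (1 - D) * (11 / 9 * Real.exp (-1.8)) := by
          have h6 : Real.exp (-1.8) = Real.exp (-1) * Real.exp 0.2 * Real.exp (-1) := by
            rw [← Real.exp_add, ← Real.exp_add]
            norm_num
          rw [h6]
          ring
        _ ≤ (1 - D) * 0.21 := by
          have := num1
          gcongr
        _ = 0.21 * (1 - D) := by ring
    have hQ1 : ‖Q (n + 1)‖ ≤ D ^ (n + 1) * T + 0.21 := by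
      rw [hQ]
      refine (norm_add_le _ _).trans ?_
      rw [norm_mul, hDn, pow_succ]
      have h1 : D * ‖Q n‖ ≤ D * (D ^ n * T + 0.21) := by gcongr
      linarith
    have hQ2 : (Q (n + 1)).re ≤ D ^ (n + 1) * ρ + 0.21 := by
      rw [hQ, Complex.add_re, Complex.re_ofReal_mul, pow_succ]
      have h1 : D * (Q n).re ≤ D * (D ^ n * ρ + 0.21) := by gcongr
      have h2 := Complex.re_le_norm (fam a (P n))
      linarith
    refine ⟨hQ1, hQ2, ?_⟩
    set y : ℝ := D ^ (n + 1) with hy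
    have hy0 : 0 < y := by positivity
    have hyD : y ≤ D := by
      rw [hy, pow_succ]
      have := pow_le_one₀ hD.le hD1.le (n := n)
      nlinarith
    have hfQ : ‖fam a (Q (n + 1))‖ ≤ 0.11 * (1 - D) + y * Λ := by
      rw [norm_fam]
      have h1 : Real.exp (Q (n + 1)).re ≤ Real.exp (y * ρ) * Real.exp 0.21 := by
        rw [← Real.exp_add]
        exact Real.exp_le_exp.2 hQ2
      have h2 : Real.exp (y * ρ) ≤ 1 + y * ρ * Real.exp (y * ρ) := by
        have h3 := Real.add_one_le_exp (-(y * ρ))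
        have h4 : Real.exp (-(y * ρ)) * Real.exp (y * ρ) = 1 := by
          rw [← Real.exp_add]
          norm_num
        have h5 := Real.exp_pos (y * ρ)
        nlinarith
      have h3 : Real.exp (y * ρ) ≤ Real.exp (D * ρ) := by
        apply Real.exp_le_exp.2
        gcongr
      have h4 : (y * T + 0.21) * Real.exp (y * ρ) ≤
          0.21 + y * ((T + 0.21 * ρ) * Real.exp (D * ρ)) := by
        have h5 : y * T * Real.exp (y * ρ) ≤ y * T * Real.exp (D * ρ) := by gcongr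
        have h6 : 0.21 * (y * ρ * Real.exp (y * ρ)) ≤ 0.21 * (y * ρ * Real.exp (D * ρ)) := by
          gcongr
        nlinarith
      have h7 : 0.21 * (‖a‖ * Real.exp 0.21) ≤ 0.11 * (1 - D) := by
        have h8 : Real.exp (-0.79) = Real.exp (-1) * Real.exp 0.21 := by
          rw [← Real.exp_add]
          norm_num
        calc 0.21 * (‖a‖ * Real.exp 0.21)
            ≤ 0.21 * (((1 - D) * Real.exp (-1)) * Real.exp 0.21) := by gcongr
          _ = (1 - D) * (0.21 * Real.exp (-0.79)) := by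
            rw [h8]
            ring
          _ ≤ (1 - D) * 0.11 := by
            have := num2
            gcongr
          _ = 0.11 * (1 - D) := by ring
      calc ‖a‖ * ‖Q (n + 1)‖ * Real.exp (Q (n + 1)).re
          ≤ ‖a‖ * (y * T + 0.21) * (Real.exp (y * ρ) * Real.exp 0.21) := by gcongr
        _ = ‖a‖ * Real.exp 0.21 * ((y * T + 0.21) * Real.exp (y * ρ)) := by ring
        _ ≤ ‖a‖ * Real.exp 0.21 * (0.21 + y * ((T + 0.21 * ρ) * Real.exp (D * ρ))) := by gcongr
        _ = 0.21 * (‖a‖ * Real.exp 0.21) +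
            y * (‖a‖ * Real.exp 0.21 * ((T + 0.21 * ρ) * Real.exp (D * ρ))) := by ring
        _ ≤ 0.11 * (1 - D) + y * Λ := by gcongr
    have e : P (n + 1) + ((y * L : ℝ) : ℂ) =
        fam a (Q (n + 1)) + D * (P n + ((x : ℝ) : ℂ)) := by
      rw [hP, hy, hx]
      push_cast
      ring
    rw [e]
    refine (norm_add_le _ _).trans ?_
    rw [norm_mul, hDn]
    have h1 : D * ‖P n + ((x : ℝ) : ℂ)‖ ≤ D * (n * (D ^ n * Λ) + 0.11) := by gcongr
    have h2 : D * (n * (D ^ n * Λ)) = n * (y * Λ) := by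
      rw [hy]
      ring
    push_cast
    nlinarith

/-- the unit bidisc is in the basin -/
theorem bidisc_basin (a : ℂ) (D : ℝ) (hD : 0 < D) (ha : Real.exp 1 * ‖a‖ + D < 1) (x : E)
    (hx : ‖x‖ ≤ 1) : x ∈ basin (hmap (-D) (fam a)) 0 := by
  set F := hmap (-(D : ℂ)) (fam a) with hF
  set c : ℝ := Real.exp 1 * ‖a‖ + D with hc
  have hc0 : 0 < c := by positivity
  have hDn : ‖(D : ℂ)‖ = D := by rw [Complex.norm_real, Real.norm_of_nonneg hD.le]
  have hfst : ∀ y : E, ‖y‖ ≤ 1 → ‖(F y).1‖ ≤ c * ‖y‖ := by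
    intro y hy
    have e : (F y).1 = fam a y.1 + D * y.2 := by
      rw [hF, hmap]
      ring
    rw [e]
    refine (norm_add_le _ _).trans ?_
    rw [norm_fam, norm_mul, hDn, hc]
    have h1 := norm_fst_le y
    have h2 := norm_snd_le y
    have h3 : Real.exp y.1.re ≤ Real.exp 1 := by
      apply Real.exp_le_exp.2
      have := Complex.re_le_norm y.1
      linarith
    have h4 : ‖a‖ * ‖y.1‖ * Real.exp y.1.re ≤ ‖a‖ * ‖y‖ * Real.exp 1 := by gcongr
    have h5 : D * ‖y.2‖ ≤ D * ‖y‖ := by gcongr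
    linarith
  have hsnd : ∀ y : E, (F y).2 = y.1 := fun y => rfl
  have hF1 : ∀ y : E, ‖y‖ ≤ 1 → ‖F y‖ ≤ ‖y‖ := by
    intro y hy
    rw [Prod.norm_def (F y)]
    refine max_le ((hfst y hy).trans ?_) ?_
    · have := norm_nonneg y
      nlinarith
    · rw [hsnd]
      exact norm_fst_le y
  have hF2 : ∀ y : E, ‖y‖ ≤ 1 → ‖F (F y)‖ ≤ c * ‖y‖ := by
    intro y hy
    have h1 := hF1 y hy
    rw [Prod.norm_def (F (F y))]
    refine max_le ((hfst _ (h1.trans hy)).trans ?_) ?_
    · gcongr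
    · rw [hsnd]
      exact hfst y hy
  set θ : ℝ := Real.sqrt c with hθ
  have hθ0 : 0 < θ := Real.sqrt_pos.2 hc0
  have hθ1 : θ < 1 := by
    rw [hθ, Real.sqrt_lt' one_pos]
    linarith
  have hθ2 : θ * θ = c := Real.mul_self_sqrt hc0.le
  have key : ∀ n : ℕ, ‖F^[n] x‖ ≤ 1 ∧ ‖F^[n] x‖ * θ ≤ θ ^ n ∧ ‖F^[n + 1] x‖ * θ ≤ θ ^ (n + 1) := by
    intro n
    induction n with
    | zero =>
      refine ⟨by simpa using hx, ?_, ?_⟩
      · simp only [Function.iterate_zero, id_eq, pow_zero]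
        have := norm_nonneg x
        nlinarith
      · simp only [zero_add, Function.iterate_one, pow_one]
        have h1 := (hF1 x hx).trans hx
        nlinarith
    | succ n ih =>
      obtain ⟨i1, i2, i3⟩ := ih
      refine ⟨?_, i3, ?_⟩
      · rw [Function.iterate_succ_apply']
        exact (hF1 _ i1).trans i1
      · rw [Function.iterate_succ_apply', Function.iterate_succ_apply']
        have h1 := hF2 _ i1
        have h2 : θ ^ (n + 1 + 1) = c * θ ^ n := by
          rw [pow_succ, pow_succ, ← hθ2]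
          ring
        rw [h2]
        have h3 : ‖F (F (F^[n] x))‖ * θ ≤ c * ‖F^[n] x‖ * θ := by gcongr
        have h4 : c * (‖F^[n] x‖ * θ) ≤ c * θ ^ n := by gcongr
        linarith
  show Tendsto (fun n : ℕ => F^[n] x) atTop (𝓝 0)
  rw [tendsto_zero_iff_norm_tendsto_zero]
  have h1 : Tendsto (fun n : ℕ => θ ^ n / θ) atTop (𝓝 0) := by
    have := (tendsto_pow_atTop_nhds_zero_of_lt_one hθ0.le hθ1).div_const θ
    simpa using this
  refine squeeze_zero (fun _ => norm_nonneg _) (fun n => ?_) h1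
  rw [le_div_iff₀ hθ0]
  exact (key n).2.1

/-- the far point `(-L, z)` is in the basin -/
theorem far_basin (a : ℂ) (D L Λ T ρ : ℝ) (N : ℕ) (z : ℂ) (hD : 0 < D)
    (ha : Real.exp 1 * ‖a‖ + D < 1) (hL : 0 ≤ L) (hρ : 0 ≤ ρ) (hz : ‖z‖ ≤ T) (hzr : z.re ≤ ρ)
    (hΛ : ‖a‖ * Real.exp 0.21 * ((T + 0.21 * ρ) * Real.exp (D * ρ)) ≤ Λ)
    (hN : N * Λ ≤ L / 10) (h1 : D ^ N * L ≤ 0.8) (h2 : D ^ N * T ≤ 0.78) :
    ((-L : ℂ), z) ∈ basin (hmap (-D) (fam a)) 0 := by
  set F := hmap (-(D : ℂ)) (fam a) with hF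
  have hD1 : D < 1 := by
    have : 0 ≤ Real.exp 1 * ‖a‖ := by positivity
    linarith
  set S : ℕ → E := fun n => F^[2 * n] ((-L : ℂ), z) with hS
  have hstep : ∀ n, S (n + 1) = F (F (S n)) := by
    intro n
    simp only [hS]
    rw [mul_add, mul_one, add_comm, Function.iterate_add_apply]
    rfl
  have hFx : ∀ y : E, F y = (fam a y.1 + D * y.2, y.1) := by
    intro y
    rw [hF, hmap]
    refine Prod.ext ?_ rfl
    ring
  obtain ⟨g1, -, g3⟩ := fwd a D L Λ T ρ N (fun n => (S n).1) (fun n => (S n).2) hD hD1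
    (by linarith) hL hρ (by simp [hS]) (by simpa [hS] using hz) (by simpa [hS] using hzr)
    (fun n => by
      show (S (n + 1)).2 = _
      rw [hstep, hFx, hFx])
    (fun n => by
      show (S (n + 1)).1 = fam a (S (n + 1)).2 + D * (S n).1
      rw [hstep, hFx (F (S n))]
      rw [hFx (S n)])
    hΛ hN N le_rfl
  have hb : ‖S N‖ ≤ 1 := by
    rw [Prod.norm_def]
    refine max_le ?_ ?_
    · have h3 : 0 ≤ D ^ N * L := by positivity
      have h4 := norm_sub_le ((S N).1 + ((D ^ N * L : ℝ) : ℂ)) ((D ^ N * L : ℝ) : ℂ)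
      rw [add_sub_cancel_right, Complex.norm_real, Real.norm_of_nonneg h3] at h4
      have h5 : (N : ℝ) * (D ^ N * Λ) ≤ D ^ N * L / 10 := by
        have h6 : D ^ N * (N * Λ) ≤ D ^ N * (L / 10) := by gcongr
        linarith
      have h6 : ‖(S N).1 + ((D ^ N * L : ℝ) : ℂ)‖ ≤ N * (D ^ N * Λ) + 0.11 := g3
      linarith
    · have h3 : ‖(S N).2‖ ≤ D ^ N * T + 0.21 := g1
      linarith
  have h3 := bidisc_basin a D hD ha (S N) hb
  rw [← hF] at h3
  exact (basin_iter F 0 _ (2 * N)).1 h3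

end Pool.Agent.Helper96.GB
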