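import Pool.Agent.Helper96.GB.OpenDense

/-! Half spaces and invariant sets bounded by `C^1` hypersurfaces (MP_cd5a48_an). -/

set_option autoImplicit false

open Set Filter Metric Topology

namespace Pool.Agent.Helper96.GB

/-- `ℓ` defines the tangent half space of `B` at `q`. -/
def Half (B : Set E) (q : E) (ℓ : E →L[ℝ] ℝ) : Prop :=
  ∀ ε : ℝ, 0 < ε → ∀ᶠ y in 𝓝 q, (ℓ (y - q) < -(ε * ‖y - q‖) → y ∈ B) ∧
    (ε * ‖y - q‖ < ℓ (y - q) → y ∉ B)

theorem half_of_c1 (B : Set E) (q : E) (hq : q ∈ frontier B) (hC : IsC1At B q) :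
    ∃ ℓ : E →L[ℝ] ℝ, ℓ ≠ 0 ∧ Half B q ℓ := by
  obtain ⟨U, hU, hqU, ρ, hρ, hd, hBU⟩ := hC
  have hiff : ∀ y ∈ U, (y ∈ B ↔ ρ y < 0) := by
    intro y hy
    constructor
    · intro h1
      have : y ∈ B ∩ U := ⟨h1, hy⟩
      rw [hBU] at this
      exact this.2
    · intro h1
      have : y ∈ {y | y ∈ U ∧ ρ y < 0} := ⟨hy, h1⟩
      rw [← hBU] at this
      exact this.1
  have hq1 : q ∉ B := by
    intro hqB
    have hopen : IsOpen (B ∩ U) := by
      rw [hBU]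
      exact hρ.continuousOn.isOpen_inter_preimage hU isOpen_Iio
    have hmem : q ∈ B ∩ U := ⟨hqB, hqU⟩
    exact hq.2 (interior_maximal inter_subset_left hopen hmem)
  have hρd : HasFDerivAt ρ (fderiv ℝ ρ q) q :=
    ((hρ.contDiffAt (hU.mem_nhds hqU)).differentiableAt (by norm_num)).hasFDerivAt
  have hρ0 : ρ q = 0 := by
    apply le_antisymm
    · have hc : ContinuousAt ρ q := hρd.continuousAt
      by_contra hcon
      push Not at hcon
      have h1 : ∀ᶠ y in 𝓝 q, 0 < ρ y ∧ y ∈ U :=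
        (hc.eventually (lt_mem_nhds hcon)).and (hU.mem_nhds hqU)
      obtain ⟨y, ⟨hy1, hy2⟩, hy3⟩ := mem_closure_iff_nhds.1 hq.1 _ h1
      exact absurd ((hiff y hy2).1 hy3) (not_lt.2 hy1.le)
    · by_contra hcon
      push Not at hcon
      exact hq1 ((hiff q hqU).2 hcon)
  refine ⟨fderiv ℝ ρ q, hd, fun ε hε => ?_⟩
  filter_upwards [hρd.isLittleO.def hε, hU.mem_nhds hqU] with y h1 h2
  rw [hρ0, sub_zero, Real.norm_eq_abs] at h1
  constructor
  · intro h3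
    rw [hiff y h2]
    have := le_abs_self (ρ y - fderiv ℝ ρ q (y - q))
    linarith
  · intro h3
    rw [hiff y h2, not_lt]
    have := neg_abs_le (ρ y - fderiv ℝ ρ q (y - q))
    linarith

theorem half_curve {B : Set E} {q : E} {ℓ : E →L[ℝ] ℝ} (hH : Half B q ℓ) {c : ℝ → E} {w : E}
    (h0 : c 0 = q) (hc : HasDerivAt c w 0) :
    (ℓ w < 0 → ∀ᶠ s in 𝓝[>] (0 : ℝ), c s ∈ B) ∧ (0 < ℓ w → ∀ᶠ s in 𝓝[>] (0 : ℝ), c s ∉ B) := by
  have ht : Tendsto c (𝓝[>] 0) (𝓝 q) := by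
    have := hc.continuousAt.tendsto
    rw [h0] at this
    exact this.mono_left nhdsWithin_le_nhds
  have hsl := hc.tendsto_slope_zero_right
  simp only [zero_add, h0] at hsl
  have hl : Tendsto (fun s : ℝ => ℓ (s⁻¹ • (c s - q))) (𝓝[>] 0) (𝓝 (ℓ w)) :=
    (ℓ.continuous.tendsto w).comp hsl
  have hn : Tendsto (fun s : ℝ => ‖s⁻¹ • (c s - q)‖) (𝓝[>] 0) (𝓝 ‖w‖) := hsl.norm
  have hN : 0 < ‖w‖ + 1 := by positivity
  constructor
  · intro hw
    set ε : ℝ := -(ℓ w) / (2 * (‖w‖ + 1)) with hε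
    have hε0 : 0 < ε := by
      apply div_pos <;> [linarith; positivity]
    have h1 : Tendsto (fun s : ℝ => ℓ (s⁻¹ • (c s - q)) + ε * ‖s⁻¹ • (c s - q)‖) (𝓝[>] 0)
        (𝓝 (ℓ w + ε * ‖w‖)) := hl.add (hn.const_mul ε)
    have h2 : ℓ w + ε * ‖w‖ < 0 := by
      have h3 : ε * ‖w‖ ≤ ε * (‖w‖ + 1) := by
        apply mul_le_mul_of_nonneg_left _ hε0.le
        linarith
      have h4 : ε * (‖w‖ + 1) = -(ℓ w) / 2 := by
        rw [hε]; field_simp
      linarith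
    filter_upwards [ht.eventually (hH ε hε0), h1.eventually (gt_mem_nhds h2),
      self_mem_nhdsWithin] with s h5 h6 h7
    have hs : 0 < s := h7
    apply h5.1
    rw [map_smul, smul_eq_mul, norm_smul, Real.norm_of_nonneg (inv_nonneg.2 hs.le)] at h6
    have h8 : s⁻¹ * (ℓ (c s - q) + ε * ‖c s - q‖) < 0 := by linarith
    have h9 : ℓ (c s - q) + ε * ‖c s - q‖ < 0 := by
      by_contra hcon
      push Not at hcon
      exact absurd h8 (not_lt.2 (mul_nonneg (inv_nonneg.2 hs.le) hcon))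
    linarith
  · intro hw
    set ε : ℝ := (ℓ w) / (2 * (‖w‖ + 1)) with hε
    have hε0 : 0 < ε := by positivity
    have h1 : Tendsto (fun s : ℝ => ℓ (s⁻¹ • (c s - q)) - ε * ‖s⁻¹ • (c s - q)‖) (𝓝[>] 0)
        (𝓝 (ℓ w - ε * ‖w‖)) := hl.sub (hn.const_mul ε)
    have h2 : 0 < ℓ w - ε * ‖w‖ := by
      have h3 : ε * ‖w‖ ≤ ε * (‖w‖ + 1) := by
        apply mul_le_mul_of_nonneg_left _ hε0.le
        linarith
      have h4 : ε * (‖w‖ + 1) = (ℓ w) / 2 := by
        rw [hε]; field_simp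
      linarith
    filter_upwards [ht.eventually (hH ε hε0), h1.eventually (lt_mem_nhds h2),
      self_mem_nhdsWithin] with s h5 h6 h7
    have hs : 0 < s := h7
    apply h5.2
    rw [map_smul, smul_eq_mul, norm_smul, Real.norm_of_nonneg (inv_nonneg.2 hs.le)] at h6
    have h8 : 0 < s⁻¹ * (ℓ (c s - q) - ε * ‖c s - q‖) := by linarith
    have h9 : 0 < ℓ (c s - q) - ε * ‖c s - q‖ := by
      by_contra hcon
      push Not at hcon
      exact absurd h8 (not_lt.2 (mul_nonpos_of_nonneg_of_nonpos (inv_nonneg.2 hs.le) hcon))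
    linarith

/-- the tangent half space of an invariant set is invariant -/
theorem exists_factor (G : E → E) (B : Set E) (hB : ∀ x, G x ∈ B ↔ x ∈ B) (q : E) (hG : G q = q)
    (D : E →L[ℂ] E) (hD : HasFDerivAt G D q) (ℓ : E →L[ℝ] ℝ) (hℓ : ℓ ≠ 0) (hH : Half B q ℓ) :
    ∃ κ : ℝ, 0 ≤ κ ∧ ∀ v, ℓ (D v) = κ * ℓ v := by
  have hFd : HasFDerivAt G (D.restrictScalars ℝ) q := hD.restrictScalars ℝ
  have hcurve : ∀ v : E, HasDerivAt (fun s : ℝ => q + s • v) v 0 := by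
    intro v
    simpa using ((hasDerivAt_id (0 : ℝ)).smul_const v).const_add q
  have hg2 : ∀ v : E, HasDerivAt (fun s : ℝ => G (q + s • v)) (D v) 0 := by
    intro v
    have h1 : HasFDerivAt G (D.restrictScalars ℝ) (q + (0 : ℝ) • v) := by
      rw [zero_smul, add_zero]
      exact hFd
    exact h1.comp_hasDerivAt (0 : ℝ) (hcurve v)
  have c1 : ∀ v : E, ℓ v < 0 → ℓ (D v) ≤ 0 := by
    intro v hv
    by_contra hcon
    push Not at hcon
    obtain ⟨s, h1, h2⟩ := (((half_curve hH (c := fun s : ℝ => q + s • v) (by simp)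
      (hcurve v)).1 hv).and ((half_curve hH (c := fun s : ℝ => G (q + s • v))
      (by simp [hG]) (hg2 v)).2 hcon)).exists
    exact h2 ((hB _).2 h1)
  have c2 : ∀ v : E, 0 < ℓ v → 0 ≤ ℓ (D v) := by
    intro v hv
    have := c1 (-v) (by rw [map_neg]; linarith)
    rw [map_neg, map_neg] at this
    linarith
  obtain ⟨w, hw⟩ : ∃ w, ℓ w = 1 := by
    obtain ⟨w, hw⟩ : ∃ w, ℓ w ≠ 0 := by
      by_contra hcon
      push Not at hcon
      exact hℓ (ContinuousLinearMap.ext hcon)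
    exact ⟨(ℓ w)⁻¹ • w, by rw [map_smul, smul_eq_mul, inv_mul_cancel₀ hw]⟩
  set κ : ℝ := ℓ (D w) with hκ
  have hκ0 : 0 ≤ κ := c2 w (by rw [hw]; norm_num)
  have hDr : ∀ (s : ℝ) (x : E), D (s • x) = s • D x := by
    intro s x
    exact (D.restrictScalars ℝ).map_smul s x
  refine ⟨κ, hκ0, ?_⟩
  intro v
  set u : E := v - ℓ v • w with hu
  have hu0 : ℓ u = 0 := by
    rw [hu, map_sub, map_smul, hw, smul_eq_mul, mul_one, sub_self]
  have h1 : ∀ ε : ℝ, 0 < ε → 0 ≤ ℓ (D u) + ε * κ := by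
    intro ε hε
    have h2 := c2 (u + ε • w) (by rw [map_add, hu0, map_smul, hw, smul_eq_mul]; linarith)
    rw [map_add, hDr, map_add, map_smul, smul_eq_mul] at h2
    exact h2
  have h2 : ∀ ε : ℝ, 0 < ε → ℓ (D u) - ε * κ ≤ 0 := by
    intro ε hε
    have h2 := c1 (u + (-ε) • w) (by rw [map_add, hu0, map_smul, hw, smul_eq_mul]; linarith)
    rw [map_add, hDr, map_add, map_smul, smul_eq_mul] at h2
    linarith
  have h3 : ℓ (D u) = 0 := by
    apply le_antisymm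
    · apply le_of_forall_pos_le_add
      intro ε hε
      have h4 := h2 (ε / (κ + 1)) (by positivity)
      have h5 : ε / (κ + 1) * κ ≤ ε := by
        rw [div_mul_eq_mul_div, div_le_iff₀ (by positivity)]
        nlinarith
      linarith
    · by_contra hcon
      push Not at hcon
      have h4 := h1 (-(ℓ (D u)) / (2 * (κ + 1))) (by
        apply div_pos <;> [linarith; positivity])
      have h5 : -(ℓ (D u)) / (2 * (κ + 1)) * κ ≤ -(ℓ (D u)) / 2 := by
        rw [div_mul_eq_mul_div, div_le_div_iff₀ (by positivity) (by norm_num)]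
        nlinarith
      linarith
  have h4 : v = u + ℓ v • w := by rw [hu]; abel
  have h5 : D v = D u + ℓ v • D w := by
    conv_lhs => rw [h4]
    rw [map_add, hDr]
  rw [h5, map_add, h3, map_smul, smul_eq_mul, zero_add, mul_comm]

/-- real functionals as real parts -/
theorem exists_re (ℓ : E →L[ℝ] ℝ) : ∃ l₁ l₂ : ℂ, ∀ x : E, ℓ x = (l₁ * x.1 + l₂ * x.2).re := by
  refine ⟨⟨ℓ (1, 0), -ℓ (Complex.I, 0)⟩, ⟨ℓ (0, 1), -ℓ (0, Complex.I)⟩, fun x => ?_⟩
  have h : x = x.1.re • ((1, 0) : E) + x.1.im • ((Complex.I, 0) : E) +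
      (x.2.re • ((0, 1) : E) + x.2.im • ((0, Complex.I) : E)) := by
    ext <;> simp [Complex.ext_iff]
  conv_lhs => rw [h]
  simp only [map_add, map_smul, smul_eq_mul, Complex.add_re, Complex.mul_re]
  ring

/-- the eigenvalue equations -/
theorem eig_eq (ℓ : E →L[ℝ] ℝ) (l₁ l₂ : ℂ) (hl : ∀ x : E, ℓ x = (l₁ * x.1 + l₂ * x.2).re)
    (D : E →L[ℂ] E) (κ : ℝ) (h : ∀ v, ℓ (D v) = κ * ℓ v) (x : E) :
    l₁ * (D x).1 + l₂ * (D x).2 = κ * (l₁ * x.1 + l₂ * x.2) := by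
  have h1 : ∀ c : ℂ, (c * (l₁ * (D x).1 + l₂ * (D x).2 - κ * (l₁ * x.1 + l₂ * x.2))).re = 0 := by
    intro c
    have h2 := h (c • x)
    rw [map_smul, hl, hl] at h2
    simp only [Prod.smul_fst, Prod.smul_snd, smul_eq_mul] at h2
    have h3 : (c * (l₁ * (D x).1 + l₂ * (D x).2 - κ * (l₁ * x.1 + l₂ * x.2))).re =
        (l₁ * (c * (D x).1) + l₂ * (c * (D x).2)).re -
          ((κ : ℂ) * (l₁ * (c * x.1) + l₂ * (c * x.2))).re := by
      rw [← Complex.sub_re]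
      congr 1
      ring
    rw [h3, Complex.re_ofReal_mul, h2]
    ring
  set X := l₁ * (D x).1 + l₂ * (D x).2 - κ * (l₁ * x.1 + l₂ * x.2) with hX
  have h4 := h1 (starRingEnd ℂ X)
  rw [mul_comm, Complex.mul_conj, Complex.ofReal_re, Complex.normSq_eq_zero] at h4
  rw [hX] at h4
  exact sub_eq_zero.1 h4

end Pool.Agent.Helper96.GB
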