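import Pool.Agent.Helper96.GB.HenRoute

/-! Abstract assembly (MP_cd5a48_an). -/

set_option autoImplicit false

open Set Filter Metric Topology

namespace Pool.Agent.Helper96.GB

theorem generic_pair' {X : Type} [TopologicalSpace X] (a : X → Aut2) (ha : Continuous a)
    (hFr : S_Front) (hO : S_OpenEnter) (U : Set E) (hU : IsOpen U)
    (hRt : ∀ (x : X) (V : Set X), IsOpen V → x ∈ V → ∀ (t : E) (r : ℝ) (n : ℕ),
      Trap (a x).F t r n → (∀ M : ℝ, ∃ y ∈ U, ∃ k : ℕ, M < ‖(a x).F^[k] y‖) →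
      ∃ x' ∈ V, ∃ y ∈ U, ∃ k : ℕ, (a x').F^[k] y ∈ ball t (4 * r))
    (t t' : E) (r r' : ℝ) (n n' : ℕ) :
    ∀ᶠ x in residual X, (Trap (a x).F t r n → Trap (a x).F t' r' n' →
      (frontier (Om (a x).F t r) ∩ U).Nonempty → (Om (a x).F t' r' ∩ U).Nonempty) := by
  classical
  set O : Set X := a ⁻¹' {A | ∃ x ∈ U, ∃ k : ℕ, A.F^[k] x ∈ ball t' (4 * r')} with hOdef
  set Q : Set X := {x | ¬ (Trap (a x).F t r n ∧ Trap (a x).F t' r' n' ∧
    (frontier (Om (a x).F t r) ∩ U).Nonempty)} with hQ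
  have hopen : IsOpen (O ∪ interior Q) := ((hO U t' r').preimage ha).union isOpen_interior
  have hdense : Dense (O ∪ interior Q) := by
    rw [dense_iff_inter_open]
    intro V hV hVne
    by_cases hex : ∃ x ∈ V, x ∉ Q
    · obtain ⟨x₀, hAV, hAQ⟩ := hex
      rw [hQ, mem_ofPred_eq, not_not] at hAQ
      obtain ⟨h1, h2, x, hxf, hxU⟩ := hAQ
      obtain ⟨B, hB, y, hy, k, hk⟩ := hRt x₀ V hV hAV t' r' n' h2
        (hFr (a x₀) t r n h1 x hxf U hU hxU)
      exact ⟨B, hB, Or.inl ⟨y, hy, k, hk⟩⟩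
    · push Not at hex
      obtain ⟨A, hA⟩ := hVne
      exact ⟨A, hA, Or.inr (interior_maximal (fun B hB => hex B hB) hV hA)⟩
  filter_upwards [residual_of_dense_open hopen hdense] with A hA h1 h2 h3
  rcases hA with hA | hA
  · obtain ⟨x, hx, k, hk⟩ := hA
    exact ⟨x, ⟨k, hk⟩, hx⟩
  · exact absurd ⟨h1, h2, h3⟩ (interior_subset hA)

theorem s_Abs (hFr : S_Front) (hO : S_OpenEnter) (hOF : S_OpenFar) (hOG : S_OpenGrow)
    (hFF : S_FarFix) (hAT : S_AttrTrap) (hBO : S_BasinOm) (hPG : S_PolyGrow) (hW : S_Wada) :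
    S_Abs := by
  intro X _ a ha hRt hCr hG
  have hb := TopologicalSpace.isBasis_countableBasis E
  have hcount := TopologicalSpace.countable_countableBasis E
  have g1 : ∀ᶠ x in residual X, ∀ U ∈ TopologicalSpace.countableBasis E,
      ∀ N : ℕ, ∀ τ τ' : ℕ × ℕ × ℕ,
      (Trap (a x).F (TopologicalSpace.denseSeq E τ.1) (1 / (τ.2.1 + 1 : ℝ)) τ.2.2 →
      Trap (a x).F (TopologicalSpace.denseSeq E τ'.1) (1 / (τ'.2.1 + 1 : ℝ)) τ'.2.2 →
      (frontier (Om (a x).F (TopologicalSpace.denseSeq E τ.1) (1 / (τ.2.1 + 1 : ℝ))) ∩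
        (U ∩ ball 0 N)).Nonempty →
      (Om (a x).F (TopologicalSpace.denseSeq E τ'.1) (1 / (τ'.2.1 + 1 : ℝ)) ∩
        (U ∩ ball 0 N)).Nonempty) := by
    rw [eventually_countable_ball hcount]
    intro U hU
    rw [eventually_countable_forall]
    intro N
    rw [eventually_countable_forall]
    intro τ
    rw [eventually_countable_forall]
    intro τ'
    have hUo : IsOpen (U ∩ ball (0 : E) N) := (hb.isOpen hU).inter isOpen_ball
    refine generic_pair' a ha hFr hO (U ∩ ball 0 N) hUo ?_ _ _ _ _ _ _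
    intro x V hV hx t r n hT h
    exact hRt x V hV hx t r n hT _ hUo (isBounded_ball.subset inter_subset_right) h
  have g2 : ∀ᶠ x in residual X, ∀ M : ℕ, FarTrap M (a x).F := by
    rw [eventually_countable_forall]
    intro M
    refine residual_of_dense_open ((hOF M).preimage ha) ?_
    rw [dense_iff_inter_open]
    intro V hV ⟨A, hA⟩
    obtain ⟨B, hB, h⟩ := hCr A V hV hA M
    exact ⟨B, hB, h⟩
  have g3 : ∀ᶠ x in residual X, ∀ j : ℕ, ∃ y : E, (j : ℝ) * (1 + ‖y‖) ^ j < ‖(a x).F y‖ := by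
    rw [eventually_countable_forall]
    intro j
    refine residual_of_dense_open ((hOG j).preimage ha) ?_
    rw [dense_iff_inter_open]
    intro V hV ⟨A, hA⟩
    obtain ⟨B, hB, h⟩ := hG A V hV hA j
    exact ⟨B, hB, h⟩
  filter_upwards [g1, g2, g3] with x h1 h2 h3
  set A : Aut2 := a x with hAdef
  have hatt : ∀ M : ℝ, ∃ p, M < ‖p‖ ∧ IsAttr A.F p := by
    intro M
    obtain ⟨N, hN⟩ := exists_nat_ge M
    obtain ⟨p, hp, hpa⟩ := hFF N A.F A.diff (h2 N)
    exact ⟨p, lt_of_le_of_lt hN hp, hpa⟩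
  have hOm : ∀ p, IsAttr A.F p → ∃ τ : ℕ × ℕ × ℕ,
      Trap A.F (TopologicalSpace.denseSeq E τ.1) (1 / (τ.2.1 + 1 : ℝ)) τ.2.2 ∧
      Om A.F (TopologicalSpace.denseSeq E τ.1) (1 / (τ.2.1 + 1 : ℝ)) = basin A.F p := by
    intro p hp
    obtain ⟨i, m, n, hT, hpb, -⟩ := hAT A.F p A.diff hp 1 one_pos
    exact ⟨(i, m, n), hT, hBO A.F p _ _ n A.diff hp.1 hT hpb⟩
  have hopen : ∀ p, IsAttr A.F p → IsOpen (basin A.F p) := by
    intro p hp
    obtain ⟨τ, -, h⟩ := hOm p hp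
    rw [← h]
    exact isOpen_Om A.diff.continuous _ _
  have hcl : ∀ p q, IsAttr A.F p → IsAttr A.F q →
      frontier (basin A.F p) ⊆ closure (basin A.F q) := by
    intro p q hp hq x hx
    obtain ⟨τ, hT, hτ⟩ := hOm p hp
    obtain ⟨τ', hT', hτ'⟩ := hOm q hq
    rw [hb.mem_closure_iff]
    intro U hU hxU
    obtain ⟨N, hN⟩ := exists_nat_gt ‖x‖
    have hxN : x ∈ ball (0 : E) N := by rwa [mem_ball, dist_zero_right]
    have := h1 U hU N τ τ' hT hT' (by rw [hτ]; exact ⟨x, hx, hxU, hxN⟩)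
    rw [hτ'] at this
    obtain ⟨y, hy1, hy2, -⟩ := this
    exact ⟨y, hy2, hy1⟩
  have hsub : ∀ p q, IsAttr A.F p → IsAttr A.F q →
      frontier (basin A.F p) ⊆ frontier (basin A.F q) := by
    intro p q hp hq x hx
    rcases eq_or_ne p q with rfl | hne
    · exact hx
    · rw [(hopen q hq).frontier_eq]
      refine ⟨hcl p q hp hq hx, fun hxq => ?_⟩
      have hxp : x ∈ closure (basin A.F p) := frontier_subset_closure hx
      obtain ⟨y, hy1, hy2⟩ := mem_closure_iff.1 hxp _ (hopen q hq) hxq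
      exact Set.disjoint_left.1 (basin_disjoint A.F hne) hy2 hy1
  have heq : ∀ p q, IsAttr A.F p → IsAttr A.F q →
      frontier (basin A.F p) = frontier (basin A.F q) := fun p q hp hq =>
    Subset.antisymm (hsub p q hp hq) (hsub q p hq hp)
  refine ⟨?_, hatt, ?_⟩
  · intro hpoly
    obtain ⟨j, hj⟩ := hPG A.F hpoly
    obtain ⟨x, hx⟩ := h3 j
    exact absurd (hj x) (not_le.2 hx)
  · intro p hp
    obtain ⟨q, hq1, hq⟩ := hatt ‖p‖
    obtain ⟨q', hq'1, hq'⟩ := hatt ‖q‖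
    have n1 : p ≠ q := fun h => by rw [h] at hq1; exact lt_irrefl _ hq1
    have n2 : q ≠ q' := fun h => by rw [h] at hq'1; exact lt_irrefl _ hq'1
    have n3 : p ≠ q' := fun h => by rw [h] at hq1; exact lt_irrefl _ (hq1.trans hq'1)
    refine ⟨?_, ?_, fun q hq => heq q p hq hp⟩
    · rw [nonempty_frontier_iff]
      refine ⟨⟨p, self_mem_basin hp.1⟩, ?_⟩
      intro huniv
      have : q ∈ basin A.F p := by rw [huniv]; trivial
      exact Set.disjoint_left.1 (basin_disjoint A.F n1) this (self_mem_basin hq.1)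
    · intro x hx
      exact hW _ _ _ (hopen p hp) (hopen q hq) (hopen q' hq') (basin_disjoint A.F n1)
        (basin_disjoint A.F n3) (basin_disjoint A.F n2) (heq p q hp hq) (heq p q' hp hq') x hx

/-- the Hénon maps -/
theorem henon_main (hA : S_Abs) (hH : S_Hen) (hR : S_RouteE) (hC : S_CreateE) (hG : S_GrowE)
    (δ : ℂ) (hδ : δ ≠ 0) (hδ1 : ‖δ‖ < 1) : ∀ᶠ f in residual Ent, Wild (hmap δ f.1) := by
  obtain ⟨a, hac, ha⟩ := hH δ hδ
  have hF : ∀ f : Ent, ((a f).F : E → E) = hmap δ f.1 := fun f => funext fun x => ha f x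
  have key := hA Ent inferInstance a hac ?_ ?_ ?_
  · filter_upwards [key] with f hf
    rw [hF] at hf
    exact hf
  · intro f V hV hf t r n hT U hU hUb hunb
    simp only [hF] at hT hunb ⊢
    refine hR δ hδ f V hV hf t r n hT U hU ?_
    intro M
    obtain ⟨C, hC⟩ := isBounded_iff_forall_norm_le.1 hUb
    obtain ⟨y, hy, k, hk⟩ := hunb (max M C)
    rw [Prod.norm_def] at hk
    rcases lt_max_iff.1 hk with h | h
    · exact ⟨y, hy, k, lt_of_le_of_lt (le_max_left _ _) h⟩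
    · rcases Nat.eq_zero_or_pos k with rfl | hkpos
      · exfalso
        have h1 := hC y hy
        have h2 : ‖y.2‖ ≤ ‖y‖ := norm_snd_le y
        have h3 : max M C < ‖y.2‖ := h
        have h4 := le_max_right M C
        linarith
      · obtain ⟨k', rfl⟩ : ∃ k', k = k' + 1 := ⟨k - 1, by omega⟩
        refine ⟨y, hy, k', lt_of_le_of_lt (le_max_left M C) ?_⟩
        rw [Function.iterate_succ_apply'] at h
        exact h
  · intro f V hV hf M
    simp only [hF]
    exact hC δ hδ hδ1 f V hV hf M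
  · intro f V hV hf j
    simp only [hF]
    exact hG δ hδ f V hV hf j

end Pool.Agent.Helper96.GB
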