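import Pool.Agent.Helper96.GB.Frames2

/-! Routing and creation of traps for Hénon maps (MP_cd5a48_an). -/

set_option autoImplicit false

open Set Filter Metric Topology

namespace Pool.Agent.Helper96.GB

/-- the perturbed entire function -/
theorem pert (hN : S_NbhdE) (f : Ent) (V : Set Ent) (hV : IsOpen V) (hf : f ∈ V) :
    ∃ R ε : ℝ, 0 < R ∧ 0 < ε ∧ ∀ R', R ≤ R' → ∀ φ : ℂ → ℂ, Differentiable ℂ φ →
      (∀ z, ‖z‖ ≤ R' → ‖φ z‖ < ε) → ∃ g ∈ V, ∀ z, g.1 z = f.1 z + φ z := by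
  obtain ⟨R, ε, hR, hε, h⟩ := hN f V hV hf
  refine ⟨R, ε, hR, hε, fun R' hR' φ hφ hφs => ?_⟩
  refine ⟨⟨⟨fun z => f.1 z + φ z, f.1.continuous.add hφ.continuous⟩, f.2.add hφ⟩, ?_, ?_⟩
  · refine h _ fun z hz => ?_
    have : (f.1 z + φ z) - f.1 z = φ z := by ring
    change ‖(f.1 z + φ z) - f.1 z‖ < ε
    rw [this]
    exact hφs z (hz.trans hR')
  · intro z
    rfl

theorem s_RouteE (hN : S_NbhdE) (hH : S_Hen) (hI : S_Int) (hU : S_Unb) : S_RouteE := by
  classical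
  intro δ hδ f V hV hf t r n hT U hUo hunb
  obtain ⟨R₀, ε, hR₀, hε, hnear⟩ := pert hN f V hV hf
  obtain ⟨a', -, ha'⟩ := hH δ hδ
  have hF : hmap δ f.1 = (a' f).F := funext fun x => (ha' f x).symm
  have hcont : Continuous (hmap δ f.1) := by rw [hF]; exact (a' f).diff.continuous
  set lam : E →L[ℂ] ℂ := ContinuousLinearMap.fst ℂ ℂ ℂ with hlam
  obtain ⟨RT, hRT⟩ := last_exit hcont hT lam
  set R : ℝ := max R₀ RT with hR
  have hR0 : R₀ ≤ R := le_max_left _ _
  have hRp : 0 ≤ R := hR₀.le.trans hR0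
  have hl0 : lam ≠ 0 := by
    intro h
    have : lam ((1, 0) : E) = 0 := by rw [h]; rfl
    simp [hlam] at this
  obtain ⟨x, hx, hxR⟩ := hU (a' f) t r n lam hl0 (by rw [← hF]; exact hT) R
  rw [← hF] at hx
  obtain ⟨x₁, K, hx1, hlate, hK, hKx⟩ := hRT R (le_max_right _ _) x hx hxR
  obtain ⟨y, hy, k', hk'⟩ := hunb R
  have hex : ∃ k : ℕ, R < ‖((hmap δ f.1)^[k] y).1‖ := ⟨k', hk'⟩
  set k := Nat.find hex with hkdef
  have hk : R < ‖((hmap δ f.1)^[k] y).1‖ := Nat.find_spec hex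
  have hearly : ∀ j < k, ‖((hmap δ f.1)^[j] y).1‖ ≤ R := fun j hj =>
    not_lt.1 (Nat.find_min hex hj)
  set a := (hmap δ f.1)^[k] y with ha
  change R < ‖x₁.1‖ at hx1
  have hlate' : ∀ j, 1 ≤ j → ‖((hmap δ f.1)^[j] x₁).1‖ ≤ R := hlate
  obtain ⟨K', rfl⟩ : ∃ K', K = K' + 1 := ⟨K - 1, by omega⟩
  let N : Finset ℂ := (Finset.range k).image (fun j => ((hmap δ f.1)^[j] y).1) ∪
    (Finset.range (K' + 1)).image (fun j => ((hmap δ f.1)^[j + 1] x₁).1)
  have hNn : ∀ z ∈ N, ‖z‖ ≤ R := by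
    intro z hz
    rcases Finset.mem_union.1 hz with hz | hz
    · obtain ⟨j, hj, rfl⟩ := Finset.mem_image.1 hz
      exact hearly j (Finset.mem_range.1 hj)
    · obtain ⟨j, hj, rfl⟩ := Finset.mem_image.1 hz
      exact hlate' (j + 1) (by omega)
  have memN : ∀ j < k, ((hmap δ f.1)^[j] y).1 ∈ N := fun j hj =>
    Finset.mem_union_left _ (Finset.mem_image.2 ⟨j, Finset.mem_range.2 hj, rfl⟩)
  have memN2 : ∀ j < K' + 1, ((hmap δ f.1)^[j + 1] x₁).1 ∈ N := fun j hj =>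
    Finset.mem_union_right _ (Finset.mem_image.2 ⟨j, Finset.mem_range.2 hj, rfl⟩)
  have hout : ∀ z : ℂ, R < ‖z‖ → z ∉ N := fun z hz h => absurd (hNn _ h) (not_le.2 hz)
  -- what happens before and after the jump
  have step : ∀ φ : ℂ → ℂ, Differentiable ℂ φ → (∀ z, ‖z‖ ≤ R → ‖φ z‖ < ε) →
      (∀ z ∈ N, φ z = 0) →
      (∃ m : ℕ, ∀ g : Ent, (∀ z, g.1 z = f.1 z + φ z) →
        (hmap δ g.1)^[m] a = hmap δ f.1 x₁) →
      ∃ g ∈ V, ∃ x ∈ U, ∃ k : ℕ, (hmap δ g.1)^[k] x ∈ ball t (4 * r) := by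
    intro φ hφ hφs hφN ⟨m, hm⟩
    obtain ⟨g, hg, hgz⟩ := hnear R hR0 φ hφ hφs
    refine ⟨g, hg, y, hy, K' + (m + k), ?_⟩
    have hsame : ∀ x : E, x.1 ∈ N → hmap δ g.1 x = hmap δ f.1 x := by
      intro x hx
      rw [hmap, hmap, hgz, hφN _ hx, add_zero]
    have e1 : (hmap δ g.1)^[k] y = a := by
      apply follow y k
      intro j hj
      rw [hsame _ (memN j hj), Function.iterate_succ_apply']
    have e3 : (hmap δ g.1)^[K'] (hmap δ f.1 x₁) = (hmap δ f.1)^[K'] (hmap δ f.1 x₁) := by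
      apply follow
      intro j hj
      have := memN2 j (by omega)
      rw [Function.iterate_succ_apply] at this
      rw [hsame _ this, Function.iterate_succ_apply']
    rw [Function.iterate_add_apply, Function.iterate_add_apply, e1, hm g hgz, e3,
      ← Function.iterate_succ_apply]
    exact hKx
  by_cases heq : a.1 = x₁.1
  · obtain ⟨φ, hφd, hφa, -, hφN, hφs⟩ := hI N R ε a.1 (2 * a.1) (δ * (a.2 - x₁.2)) 0 hRp hε hk
      (by
        rw [norm_mul]
        have : ‖(2 : ℂ)‖ = 2 := by simp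
        rw [this]
        have := norm_nonneg a.1
        linarith) (by
        intro h
        have h0 : a.1 = 0 := by linear_combination -h
        rw [h0, norm_zero] at hk
        linarith) (hout _ hk) (by
        apply hout
        rw [norm_mul]
        have : ‖(2 : ℂ)‖ = 2 := by simp
        rw [this]
        have := norm_nonneg a.1
        linarith)
    refine step φ hφd hφs hφN ⟨1, fun g hg => ?_⟩
    rw [Function.iterate_one, hmap, hmap, hg, hφa, heq]
    congr 1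
    ring
  · obtain ⟨φ, hφd, hφa, hφx, hφN, hφs⟩ := hI N R ε a.1 x₁.1 (x₁.1 - (f.1 a.1 - δ * a.2))
      (δ * (a.1 - x₁.2)) hRp hε hk hx1 heq (hout _ hk) (hout _ hx1)
    refine step φ hφd hφs hφN ⟨2, fun g hg => ?_⟩
    have h1 : hmap δ g.1 a = (x₁.1, a.1) := by
      rw [hmap, hg, hφa]
      congr 1
      ring
    rw [Function.iterate_succ_apply, Function.iterate_one, h1, hmap, hmap]
    simp only
    rw [hg, hφx]
    congr 1
    ring

theorem s_CreateE (hN : S_NbhdE) (hI : S_IntD) : S_CreateE := by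
  intro δ hδ hδ1 f V hV hf M
  obtain ⟨R₀, ε, hR₀, hε, hnear⟩ := pert hN f V hV hf
  set R : ℝ := max R₀ |M| with hR
  have hR0 : R₀ ≤ R := le_max_left _ _
  have hRM : M ≤ R := (le_abs_self M).trans (le_max_right _ _)
  have hRp : 0 ≤ R := hR₀.le.trans hR0
  set a : ℂ := ((R + 2 : ℝ) : ℂ) with ha
  have hna : ‖a‖ = R + 2 := by
    rw [ha, Complex.norm_real, Real.norm_of_nonneg (by linarith)]
  obtain ⟨φ, hφd, hφa, hφ'a, hφs⟩ := hI R ε a (a + δ * a - f.1 a) (-deriv f.1 a) hRp hε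
    (by rw [hna]; linarith)
  obtain ⟨g, hg, hgz⟩ := hnear R hR0 φ hφd hφs
  set p : E := (a, a) with hp
  set F : E → E := hmap δ g.1 with hF
  have hfix : F p = p := by
    rw [hF, hmap, hp]
    simp only
    rw [hgz, hφa]
    congr 1
    ring
  have hgd : HasDerivAt g.1 0 a := by
    have h1 := (f.2 a).hasDerivAt.add (hφd a).hasDerivAt
    rw [hφ'a, add_neg_cancel] at h1
    have h2 : (g.1 : ℂ → ℂ) = fun z => f.1 z + φ z := funext hgz
    rw [h2]
    exact h1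
  -- the derivative
  set D : E →L[ℂ] E := ((-δ) • ContinuousLinearMap.snd ℂ ℂ ℂ).prod
    (ContinuousLinearMap.fst ℂ ℂ ℂ) with hD
  have hDx : ∀ x : E, D x = (-δ * x.2, x.1) := by
    intro x
    simp [hD]
  have hder : HasFDerivAt F D p := by
    have h1 : HasFDerivAt (fun x : E => g.1 x.1) (0 : E →L[ℂ] ℂ) p := by
      have h := (show HasDerivAt g.1 0 p.1 from hgd).comp_hasFDerivAt p
        (ContinuousLinearMap.fst ℂ ℂ ℂ).hasFDerivAt
      exact h.congr_fderiv (by ext <;> simp)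
    have h2 : HasFDerivAt (fun x : E => δ * x.2) (δ • ContinuousLinearMap.snd ℂ ℂ ℂ) p := by
      exact (ContinuousLinearMap.snd ℂ ℂ ℂ).hasFDerivAt.const_mul δ
    have h3 := (h1.sub h2).prodMk (ContinuousLinearMap.fst ℂ ℂ ℂ).hasFDerivAt
    refine h3.congr_fderiv ?_
    ext <;> simp [hD]
  have hD1 : ∀ x : E, ‖D x‖ ≤ ‖x‖ := by
    intro x
    rw [hDx, Prod.norm_def]
    refine max_le ?_ (norm_fst_le x)
    simp only [norm_mul, norm_neg]
    calc ‖δ‖ * ‖x.2‖ ≤ 1 * ‖x‖ := by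
          gcongr
          exact norm_snd_le x
      _ = ‖x‖ := one_mul _
  have hD2 : ∀ x : E, D (D x) = (-δ) • x := by
    intro x
    rw [hDx, hDx]
    ext <;> simp
  obtain ⟨m, hm⟩ : ∃ m : ℕ, ‖δ‖ ^ (m + 1) < 1 / 64 := by
    obtain ⟨m, hm⟩ := exists_pow_lt_of_lt_one (show (0 : ℝ) < 1 / 64 by norm_num) hδ1
    refine ⟨m, lt_of_le_of_lt ?_ hm⟩
    exact pow_le_pow_of_le_one (norm_nonneg _) hδ1.le (Nat.le_succ m)
  have hD2m : ∀ (q : ℕ) (x : E), (D ^ (2 * q)) x = (-δ) ^ q • x := by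
    intro q
    induction q with
    | zero => intro x; simp
    | succ q ih =>
      intro x
      rw [show 2 * (q + 1) = 2 * q + 1 + 1 by ring, pow_succ, pow_succ]
      simp only [ContinuousLinearMap.mul_apply]
      rw [ih, hD2, smul_smul, pow_succ]
  set n : ℕ := 2 * (m + 1) with hn
  have hDn : ∀ x : E, ‖(D ^ n) x‖ ≤ 1 / 64 * ‖x‖ := by
    intro x
    rw [hn, hD2m, norm_smul, norm_pow, norm_neg]
    gcongr
  have hdern : HasFDerivAt (F^[n]) (D ^ n) p := HasFDerivAt.iterate hder hfix n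
  have hfixn : F^[n] p = p := Function.iterate_fixed hfix n
  have hs1 := (hasFDerivAt_iff_isLittleO_nhds_zero.1 hdern).def
    (show (0 : ℝ) < 1 / 64 by norm_num)
  have hs2 := (hasFDerivAt_iff_isLittleO_nhds_zero.1 hder).def (show (0 : ℝ) < 1 by norm_num)
  obtain ⟨η, hη, hηs⟩ := Metric.eventually_nhds_iff.1 (hs1.and hs2)
  set ρ : ℝ := min (η / 8) (1 / 8) with hρ
  have hρ0 : 0 < ρ := lt_min (by linarith) (by norm_num)
  have hρη : ρ ≤ η / 8 := min_le_left _ _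
  have hρ1 : ρ ≤ 1 / 8 := min_le_right _ _
  refine ⟨g, hg, p, ρ, ρ / 4, n, by linarith, by linarith, by omega, ?_, ?_, ?_⟩
  · intro x hx
    rw [mem_closedBall, dist_eq_norm] at hx
    have h17 := (hηs (y := x - p) (by rw [dist_zero_right]; linarith)).1
    rw [add_sub_cancel, hfixn] at h17
    rw [mem_ball, dist_eq_norm]
    have h18 : ‖F^[n] x - p‖ ≤ ‖F^[n] x - p - (D ^ n) (x - p)‖ + ‖(D ^ n) (x - p)‖ := by
      have := norm_add_le (F^[n] x - p - (D ^ n) (x - p)) ((D ^ n) (x - p))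
      simpa using this
    have h19 := hDn (x - p)
    linarith
  · intro x hx
    rw [mem_closedBall, dist_eq_norm] at hx
    have h17 := (hηs (y := x - p) (by rw [dist_zero_right]; linarith)).2
    rw [add_sub_cancel, hfix] at h17
    rw [mem_ball, dist_eq_norm]
    have h18 : ‖F x - p‖ ≤ ‖F x - p - D (x - p)‖ + ‖D (x - p)‖ := by
      have := norm_add_le (F x - p - D (x - p)) (D (x - p))
      simpa using this
    have h19 := hD1 (x - p)
    linarith
  · have h20 : ‖a‖ ≤ ‖p‖ := norm_fst_le p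
    rw [hna] at h20
    linarith

end Pool.Agent.Helper96.GB
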