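import Pool.Agent.Helper96.GB.HenAbs

/-! The space of entire functions; Hénon maps (MP_cd5a48_an). -/

set_option autoImplicit false

open Set Filter Metric Topology

namespace Pool.Agent.Helper96.GB

theorem isClosed_ent : IsClosed {f : C(ℂ, ℂ) | Differentiable ℂ f} := by
  apply IsSeqClosed.isClosed
  intro u p hu hp
  rw [ContinuousMap.tendsto_iff_tendstoLocallyUniformly] at hp
  have h1 := (tendstoLocallyUniformlyOn_univ.2 hp).differentiableOn
    (Eventually.of_forall fun n => (hu n).differentiableOn) isOpen_univ
  exact differentiableOn_univ.1 h1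

theorem s_BaireE : S_BaireE := by
  have hce : IsClosedEmbedding (Subtype.val : Ent → C(ℂ, ℂ)) :=
    isClosed_ent.isClosedEmbedding_subtypeVal
  have h := hce.IsCompletelyPseudoMetrizableSpace
  exact BaireSpace.of_completelyPseudoMetrizable

theorem s_NbhdE : S_NbhdE := by
  intro f V hV hf
  by_contra hcon
  push Not at hcon
  have hB : ∀ n : ℕ, ∃ g : Ent, (∀ z, ‖z‖ ≤ (n + 1 : ℝ) → ‖g.1 z - f.1 z‖ < 1 / (n + 1 : ℝ)) ∧
      g ∉ V := fun n =>
    hcon (n + 1 : ℝ) (1 / (n + 1 : ℝ)) (by positivity) (by positivity)
  choose B hB hBV using hB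
  have ht : Tendsto B atTop (𝓝 f) := by
    rw [tendsto_subtype_rng, ContinuousMap.tendsto_iff_forall_isCompact_tendstoUniformlyOn]
    intro K hKc
    rw [Metric.tendstoUniformlyOn_iff]
    intro ε hε
    obtain ⟨R, hR⟩ := hKc.isBounded.exists_norm_le
    obtain ⟨N, hN⟩ := exists_nat_gt R
    obtain ⟨N', hN'⟩ := exists_nat_one_div_lt hε
    filter_upwards [eventually_ge_atTop (max N N')] with n hn x hx
    have hn1 : (N : ℝ) ≤ n := by exact_mod_cast (le_max_left _ _).trans hn
    have hn2 : (N' : ℝ) ≤ n := by exact_mod_cast (le_max_right _ _).trans hn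
    have h1 := hB n x ((hR x hx).trans (by linarith))
    have h2 : 1 / ((n : ℝ) + 1) ≤ 1 / ((N' : ℝ) + 1) := by
      apply one_div_le_one_div_of_le (by positivity) (by linarith)
    rw [dist_comm, dist_eq_norm]
    exact h1.trans (h2.trans_lt hN')
  obtain ⟨n, hn⟩ := (ht.eventually (hV.mem_nhds hf)).exists
  exact hBV n hn

/-- the Hénon map as an automorphism -/
noncomputable def henAut (δ : ℂ) (hδ : δ ≠ 0) (f : Ent) : Aut2 where
  F :=
    { toFun := hmap δ f.1
      invFun := fun x => (x.2, (f.1 x.2 - x.1) / δ)
      left_inv := by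
        intro x
        simp only [hmap]
        ext
        · rfl
        · simp only
          field_simp
          ring
      right_inv := by
        intro x
        simp only [hmap]
        ext
        · simp only
          field_simp
          ring
        · rfl }
  diff := by
    change Differentiable ℂ (fun x : E => (f.1 x.1 - δ * x.2, x.1))
    exact ((f.2.comp differentiable_fst).sub (differentiable_snd.const_mul δ)).prodMk
      differentiable_fst
  diff_symm := by
    change Differentiable ℂ (fun x : E => (x.2, (f.1 x.2 - x.1) / δ))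
    have h1 : Differentiable ℂ (fun x : E => f.1 x.2) := f.2.comp differentiable_snd
    have h2 : Differentiable ℂ (fun x : E => f.1 x.2 - x.1) := h1.sub differentiable_fst
    have h3 : Differentiable ℂ (fun x : E => (f.1 x.2 - x.1) / δ) := by
      simp only [div_eq_mul_inv]
      exact h2.mul_const δ⁻¹
    exact differentiable_snd.prodMk h3

theorem s_Hen : S_Hen := by
  intro δ hδ
  refine ⟨henAut δ hδ, ?_, fun f x => rfl⟩
  have hind : IsInducing Aut2.pair := ⟨rfl⟩
  rw [hind.continuous_iff]
  have hev : ∀ g : E → ℂ, Continuous g → Continuous fun q : Ent × E => q.1.1 (g q.2) := by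
    intro g hg
    exact (ContinuousEval.continuous_eval (F := C(ℂ, ℂ)) (X := ℂ) (Y := ℂ)).comp
      ((continuous_subtype_val.comp continuous_fst).prodMk (hg.comp continuous_snd))
  refine Continuous.prodMk ?_ ?_
  · refine ContinuousMap.continuous_of_continuous_uncurry _ ?_
    change Continuous fun q : Ent × E => ((q.1.1 q.2.1 - δ * q.2.2, q.2.1) : E)
    exact ((hev Prod.fst continuous_fst).sub (continuous_const.mul
      (continuous_snd.comp continuous_snd))).prodMk (continuous_fst.comp continuous_snd)
  · refine ContinuousMap.continuous_of_continuous_uncurry _ ?_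
    change Continuous fun q : Ent × E => ((q.2.2, (q.1.1 q.2.2 - q.2.1) / δ) : E)
    exact (continuous_snd.comp continuous_snd).prodMk (((hev Prod.snd continuous_snd).sub
      (continuous_fst.comp continuous_snd)).div_const δ)

end Pool.Agent.Helper96.GB
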