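import Pool.Agent.Helper96.GB.HenSpace
import Pool.Agent.Helper33.GB.Far
import Pool.Agent.Helper47.GB.HenGrow
import Pool.Agent.Helper98.GB.Far

/-! The theorem for Hénon maps (MP_cd5a48_an). -/

set_option autoImplicit false

open Set Filter Metric Topology

namespace Pool.Agent.Helper96.GB

theorem henThm : BaireSpace Ent ∧ ∀ δ : ℂ, δ ≠ 0 → ‖δ‖ < 1 →
    ∀ᶠ f in residual Ent, Wild (hmap δ f.1) :=
  ⟨s_BaireE, henon_main
    (s_Abs Pool.Agent.Helper78.GB.s_Front Pool.Agent.Helper33.GB.s_OpenEnter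
      Pool.Agent.Helper33.GB.s_OpenFar Pool.Agent.Helper33.GB.s_OpenGrow
      Pool.Agent.Helper98.GB.s_FarFix Pool.Agent.Helper98.GB.s_AttrTrap
      Pool.Agent.Helper98.GB.s_BasinOm Pool.Agent.Helper47.GB.polyGrow s_Wada)
    s_Hen
    (s_RouteE s_NbhdE s_Hen
      Pool.Agent.Helper78.GB.s_Int unb)
    (s_CreateE s_NbhdE Pool.Agent.Helper78.GB.s_IntD)
    (Pool.Agent.Helper47.GB.s_GrowE s_NbhdE
      Pool.Agent.Helper78.GB.s_IntD)⟩

end Pool.Agent.Helper96.GB
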