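import Pool.Agent.Helper96.GB.NotC1

/-! Maps close to a degenerate map have saddle points (MP_cd5a48_an). -/

set_option autoImplicit false

open Set Filter Metric Topology

namespace Pool.Agent.Helper96.GB

theorem strict_est {g : ℂ → ℂ} (hg : Differentiable ℂ g) (x₀ : ℂ) (c : ℝ) (hc : 0 < c) :
    ∃ ρ : ℝ, 0 < ρ ∧ ∀ z ∈ closedBall x₀ ρ, ∀ z' ∈ closedBall x₀ ρ,
      ‖g z - g z' - deriv g x₀ * (z - z')‖ ≤ c * ‖z - z'‖ := by
  have h1 : HasStrictDerivAt g (deriv g x₀) x₀ := (hg.analyticAt x₀).hasStrictDerivAt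
  have h2 := h1.isLittleO.def hc
  obtain ⟨ρ, hρ, h3⟩ := Metric.eventually_nhds_iff.1 h2
  refine ⟨ρ / 2, by positivity, fun z hz z' hz' => ?_⟩
  have h4 := h3 (y := (z, z')) (by
    rw [Prod.dist_eq]
    rw [mem_closedBall] at hz hz'
    refine max_lt ?_ ?_
    · show dist z x₀ < ρ
      linarith
    · show dist z' x₀ < ρ
      linarith)
  have e : deriv g x₀ * (z - z') = (z - z') • deriv g x₀ := by rw [smul_eq_mul, mul_comm]
  rw [e]
  simpa using h4

theorem near_sad (g h : ℂ → ℂ) (hg : Differentiable ℂ g) (hh : Differentiable ℂ h) (x₀ : ℂ)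
    (hx : g x₀ = x₀) (K η d : ℝ) (hK : K = ‖deriv h x₀‖ + 2) (hS : Sm (deriv g x₀) η K d)
    (σ₀ : ℝ) (hσ₀ : 0 < σ₀) :
    ∃ r : ℝ, 0 < r ∧ r ≤ σ₀ ∧ ∀ σ : ℝ, 0 < σ → σ ≤ r → ∃ δ' : ℝ, 0 < δ' ∧
      ∀ G : E → E, Differentiable ℂ G →
        (∀ x ∈ closedBall ((x₀, h x₀) : E) (2 * r + 1), ‖G x - (g x.1, h x.1)‖ ≤ δ') →
        ∃ q : E, ‖q - (x₀, h x₀)‖ ≤ σ ∧ Sad G q (deriv g x₀) r η K := by
  set lam := deriv g x₀ with hlam
  have hη := hS.hη
  have hK0 := hS.hK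
  have hl := hS.hl
  have hs1 := hS.h1
  have hs2 := hS.h2
  obtain ⟨ρ₁, hρ₁, he₁⟩ := strict_est hg x₀ (η / 2) (by positivity)
  obtain ⟨ρ₂, hρ₂, he₂⟩ := strict_est hh x₀ 1 one_pos
  set r : ℝ := min (min ρ₁ ρ₂) σ₀ / 2 with hr
  have hr0 : 0 < r := by positivity
  have m0 : min (min ρ₁ ρ₂) σ₀ ≤ min ρ₁ ρ₂ := min_le_left _ _
  have m1 : 2 * r ≤ ρ₁ := by
    have := min_le_left ρ₁ ρ₂
    rw [hr]; linarith
  have m2 : 2 * r ≤ ρ₂ := by
    have := min_le_right ρ₁ ρ₂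
    rw [hr]; linarith
  have m3 : r ≤ σ₀ := by
    have := min_le_right (min ρ₁ ρ₂) σ₀
    rw [hr]; linarith
  refine ⟨r, hr0, m3, fun σ hσ hσr => ?_⟩
  have hK1 : 0 < K + 1 := by linarith
  set τ : ℝ := 1 / (4 * (K + 1)) with hτ
  have hτ0 : 0 < τ := by positivity
  have hτK : τ * (K + 1) = 1 / 4 := by rw [hτ]; field_simp
  have hτ1 : τ ≤ 1 / 4 := by nlinarith
  set ρ : ℝ := τ * σ with hρ
  have hρ0 : 0 < ρ := by positivity
  have hl0 : 0 < ‖lam‖ - 1 := by linarith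
  set δ' : ℝ := min (η / 4) (ρ / 2 * min 1 (‖lam‖ - 1)) with hδ'
  have hmin : 0 < min 1 (‖lam‖ - 1) := lt_min one_pos hl0
  have hδ'0 : 0 < δ' := lt_min (by positivity) (by positivity)
  have d1 : δ' ≤ η / 4 := min_le_left _ _
  have d2 : δ' ≤ ρ / 2 := by
    refine (min_le_right _ _).trans ?_
    have := min_le_left 1 (‖lam‖ - 1)
    nlinarith
  have d3 : δ' ≤ ρ / 2 * (‖lam‖ - 1) := by
    refine (min_le_right _ _).trans ?_
    have := min_le_right 1 (‖lam‖ - 1)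
    gcongr
  refine ⟨δ', hδ'0, fun G hG hclose => ?_⟩
  set q₀ : E := (x₀, h x₀) with hq₀
  -- the difference
  set H : E → E := fun x => G x - (g x.1, h x.1) with hH
  have hHd : Differentiable ℂ H := by
    have h1 : Differentiable ℂ (fun x : E => ((g x.1, h x.1) : E)) :=
      (hg.comp differentiable_fst).prodMk (hh.comp differentiable_fst)
    exact hG.sub h1
  have hHf : ∀ x ∈ closedBall q₀ (2 * r), ‖fderiv ℂ H x‖ ≤ 2 * δ' := by
    intro x hx
    have hb : ∀ y ∈ ball x 1, ‖H y‖ ≤ δ' := by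
      intro y hy
      apply hclose
      rw [mem_closedBall] at hx ⊢
      rw [mem_ball] at hy
      have := dist_triangle y x q₀
      linarith
    have hmaps : MapsTo H (ball x 1) (closedBall (H x) (2 * δ')) := by
      intro y hy
      rw [mem_closedBall, dist_eq_norm]
      have g1 := hb y hy
      have g2 := hb x (mem_ball_self one_pos)
      have := norm_sub_le (H y) (H x)
      linarith
    have := Complex.norm_fderiv_le_div_of_mapsTo_ball hHd.differentiableOn hmaps one_pos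
    rwa [div_one] at this
  have hHl : ∀ x ∈ closedBall q₀ (2 * r), ∀ y ∈ closedBall q₀ (2 * r),
      ‖H x - H y‖ ≤ η / 2 * (‖x.1 - y.1‖ + ‖x.2 - y.2‖) := by
    intro x hx y hy
    have g1 := (convex_closedBall q₀ (2 * r)).norm_image_sub_le_of_norm_fderiv_le
      (𝕜 := ℂ) (fun z _ => hHd z) hHf hy hx
    have g2 : ‖x - y‖ ≤ ‖x.1 - y.1‖ + ‖x.2 - y.2‖ := by
      rw [Prod.norm_def]
      exact max_le (by
        show ‖x.1 - y.1‖ ≤ _
        linarith [norm_nonneg (x.2 - y.2)]) (by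
        show ‖x.2 - y.2‖ ≤ _
        linarith [norm_nonneg (x.1 - y.1)])
    calc ‖H x - H y‖ ≤ 2 * δ' * ‖x - y‖ := g1
      _ ≤ η / 2 * (‖x.1 - y.1‖ + ‖x.2 - y.2‖) := by
        gcongr
        linarith
  have hest : ∀ x ∈ closedBall q₀ (2 * r), ∀ y ∈ closedBall q₀ (2 * r),
      ‖(G x).1 - (G y).1 - lam * (x.1 - y.1)‖ ≤ η * (‖x.1 - y.1‖ + ‖x.2 - y.2‖) ∧
      ‖(G x).2 - (G y).2‖ ≤ K * ‖x.1 - y.1‖ + η * ‖x.2 - y.2‖ := by
    intro x hx y hy
    have g1 := hHl x hx y hy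
    have n1 := norm_nonneg (x.1 - y.1)
    have n2 := norm_nonneg (x.2 - y.2)
    have x1 : x.1 ∈ closedBall x₀ (2 * r) := by
      rw [mem_closedBall, dist_eq_norm]
      exact poly_fst hx
    have y1 : y.1 ∈ closedBall x₀ (2 * r) := by
      rw [mem_closedBall, dist_eq_norm]
      exact poly_fst hy
    have g2 := he₁ x.1 (closedBall_subset_closedBall m1 x1) y.1 (closedBall_subset_closedBall m1 y1)
    have g3 := he₂ x.1 (closedBall_subset_closedBall m2 x1) y.1 (closedBall_subset_closedBall m2 y1)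
    rw [one_mul] at g3
    have k1 : ‖(H x - H y).1‖ ≤ η / 2 * (‖x.1 - y.1‖ + ‖x.2 - y.2‖) := (norm_fst_le _).trans g1
    have k2 : ‖(H x - H y).2‖ ≤ η / 2 * (‖x.1 - y.1‖ + ‖x.2 - y.2‖) := (norm_snd_le _).trans g1
    constructor
    · have e : (G x).1 - (G y).1 - lam * (x.1 - y.1) =
          (g x.1 - g y.1 - lam * (x.1 - y.1)) + (H x - H y).1 := by
        show _ = (g x.1 - g y.1 - lam * (x.1 - y.1)) + (((G x).1 - g x.1) - ((G y).1 - g y.1))
        ring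
      rw [e]
      refine (norm_add_le _ _).trans ?_
      nlinarith
    · have e : (G x).2 - (G y).2 = (h x.1 - h y.1 - deriv h x₀ * (x.1 - y.1)) +
          deriv h x₀ * (x.1 - y.1) + (H x - H y).2 := by
        show _ = (h x.1 - h y.1 - deriv h x₀ * (x.1 - y.1)) +
          deriv h x₀ * (x.1 - y.1) + (((G x).2 - h x.1) - ((G y).2 - h y.1))
        ring
      rw [e]
      have g4 := norm_add_le ((h x.1 - h y.1 - deriv h x₀ * (x.1 - y.1)) +
          deriv h x₀ * (x.1 - y.1)) (H x - H y).2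
      have g5 := norm_add_le (h x.1 - h y.1 - deriv h x₀ * (x.1 - y.1))
          (deriv h x₀ * (x.1 - y.1))
      rw [norm_mul] at g5
      have g6 : η ≤ 1 := by
        have : 0 ≤ K * η := by positivity
        linarith
      rw [hK]
      nlinarith
  -- the fixed point
  set S : E → E := fun y => (y.1, y.2 / τ) with hSdef
  set c : E := (x₀, τ * h x₀) with hc
  have hτ' : (τ : ℂ) ≠ 0 := by exact_mod_cast hτ0.ne'
  have hτn : ‖(τ : ℂ)‖ = τ := by rw [Complex.norm_real, Real.norm_of_nonneg hτ0.le]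
  have hlam1 : lam - 1 ≠ 0 := by
    intro h0
    have : lam = 1 := sub_eq_zero.1 h0
    rw [this, norm_one] at hl
    exact lt_irrefl _ hl
  have hlam1n : ‖lam‖ - 1 ≤ ‖lam - 1‖ := by
    have := norm_sub_norm_le lam 1
    rwa [norm_one] at this
  have hlam1p : 0 < ‖lam - 1‖ := norm_pos_iff.2 hlam1
  have hSmem : ∀ y ∈ closedBall c ρ, ‖S y - q₀‖ ≤ σ := by
    intro y hy
    have g1 := poly_fst hy
    have g2 := poly_snd hy
    rw [Prod.norm_def]
    refine max_le ?_ ?_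
    · show ‖y.1 - x₀‖ ≤ σ
      refine g1.trans ?_
      rw [hρ]
      nlinarith
    · show ‖y.2 / τ - h x₀‖ ≤ σ
      have e : y.2 / τ - h x₀ = (y.2 - τ * h x₀) / τ := by field_simp
      rw [e, norm_div, hτn, div_le_iff₀ hτ0]
      refine g2.trans (le_of_eq ?_)
      rw [hρ]; ring
  have hSmem2 : ∀ y ∈ closedBall c ρ, S y ∈ closedBall q₀ (2 * r) := by
    intro y hy
    rw [mem_closedBall, dist_eq_norm]
    have := hSmem y hy
    linarith
  set Φ : E → E := fun y => (y.1 - ((G (S y)).1 - y.1) / (lam - 1), τ * (G (S y)).2) with hΦ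
  have hΦl : ∀ y ∈ closedBall c ρ, ∀ y' ∈ closedBall c ρ, ‖Φ y - Φ y'‖ ≤ 1 / 2 * ‖y - y'‖ := by
    intro y hy y' hy'
    obtain ⟨g1, g2⟩ := hest _ (hSmem2 y hy) _ (hSmem2 y' hy')
    have e1 : (S y).1 - (S y').1 = y.1 - y'.1 := rfl
    have e2 : ‖(S y).2 - (S y').2‖ = ‖y.2 - y'.2‖ / τ := by
      show ‖y.2 / τ - y'.2 / τ‖ = _
      rw [← sub_div, norm_div, hτn]
    rw [e1, e2] at g1 g2
    have k1 : ‖y.1 - y'.1‖ ≤ ‖y - y'‖ := norm_fst_le (y - y')
    have k2 : ‖y.2 - y'.2‖ ≤ ‖y - y'‖ := norm_snd_le (y - y')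
    have e3 : ‖y.2 - y'.2‖ / τ = 4 * (K + 1) * ‖y.2 - y'.2‖ := by
      rw [hτ]; field_simp
    rw [Prod.norm_def]
    refine max_le ?_ ?_
    · show ‖(y.1 - ((G (S y)).1 - y.1) / (lam - 1)) - (y'.1 - ((G (S y')).1 - y'.1) / (lam - 1))‖ ≤ _
      have e4 : (y.1 - ((G (S y)).1 - y.1) / (lam - 1)) -
          (y'.1 - ((G (S y')).1 - y'.1) / (lam - 1)) =
          -(((G (S y)).1 - (G (S y')).1 - lam * (y.1 - y'.1)) / (lam - 1)) := by
        field_simp
        ring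
      rw [e4, norm_neg, norm_div, div_le_iff₀ hlam1p]
      refine g1.trans ?_
      rw [e3]
      calc η * (‖y.1 - y'.1‖ + 4 * (K + 1) * ‖y.2 - y'.2‖)
          ≤ η * (‖y - y'‖ + 4 * (K + 1) * ‖y - y'‖) := by gcongr
        _ = (η * (4 * K + 5)) * ‖y - y'‖ := by ring
        _ ≤ (1 / 2 * ‖lam - 1‖) * ‖y - y'‖ := by
            have g5 : η * (4 * K + 5) ≤ 1 / 2 * ‖lam - 1‖ := by nlinarith
            exact mul_le_mul_of_nonneg_right g5 (norm_nonneg _)
        _ = 1 / 2 * ‖y - y'‖ * ‖lam - 1‖ := by ring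
    · show ‖(τ : ℂ) * (G (S y)).2 - τ * (G (S y')).2‖ ≤ _
      rw [← mul_sub, norm_mul, hτn]
      calc τ * ‖(G (S y)).2 - (G (S y')).2‖
          ≤ τ * (K * ‖y.1 - y'.1‖ + η * (‖y.2 - y'.2‖ / τ)) := by gcongr
        _ = (τ * K) * ‖y.1 - y'.1‖ + η * ‖y.2 - y'.2‖ := by field_simp
        _ ≤ (1 / 4) * ‖y - y'‖ + (1 / 4) * ‖y - y'‖ := by
            have g3 : τ * K ≤ 1 / 4 := by nlinarith
            have g4 : η ≤ 1 / 4 := by
              have : 0 ≤ K * η := by positivity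
              linarith
            gcongr
        _ = 1 / 2 * ‖y - y'‖ := by ring
  have hcρ : c ∈ closedBall c ρ := mem_closedBall_self hρ0.le
  have hSc : S c = q₀ := by
    show ((x₀, (τ * h x₀) / τ) : E) = (x₀, h x₀)
    rw [mul_div_cancel_left₀ _ hτ']
  have hq₀c : ‖G q₀ - q₀‖ ≤ δ' := by
    have g1 := hclose q₀ (mem_closedBall_self (by positivity))
    have e : ((g q₀.1, h q₀.1) : E) = q₀ := by
      show ((g x₀, h x₀) : E) = (x₀, h x₀)
      rw [hx]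
    rwa [e] at g1
  have hΦc : ‖Φ c - c‖ ≤ ρ / 2 := by
    rw [Prod.norm_def]
    refine max_le ?_ ?_
    · show ‖(x₀ - ((G (S c)).1 - x₀) / (lam - 1)) - x₀‖ ≤ ρ / 2
      rw [hSc, sub_sub_cancel_left, norm_neg, norm_div, div_le_iff₀ hlam1p]
      have g1 : ‖(G q₀).1 - x₀‖ ≤ δ' := (norm_fst_le (G q₀ - q₀)).trans hq₀c
      calc ‖(G q₀).1 - x₀‖ ≤ ρ / 2 * (‖lam‖ - 1) := g1.trans d3
        _ ≤ ρ / 2 * ‖lam - 1‖ := by gcongr
    · show ‖(τ : ℂ) * (G (S c)).2 - τ * h x₀‖ ≤ ρ / 2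
      rw [hSc, ← mul_sub, norm_mul, hτn]
      have g1 : ‖(G q₀).2 - h x₀‖ ≤ δ' := (norm_snd_le (G q₀ - q₀)).trans hq₀c
      have g2 := norm_nonneg ((G q₀).2 - h x₀)
      nlinarith
  obtain ⟨y, hy, hyf⟩ := contr_fix Φ c ρ hρ0.le (1 / 2) (by norm_num) (by norm_num) (by
    intro y hy
    rw [mem_closedBall, dist_eq_norm]
    have g1 := hΦl y hy c hcρ
    rw [mem_closedBall, dist_eq_norm] at hy
    have g2 : Φ y - c = (Φ y - Φ c) + (Φ c - c) := by abel
    rw [g2]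
    have := norm_add_le (Φ y - Φ c) (Φ c - c)
    linarith) hΦl
  have hfix : G (S y) = S y := by
    have f1 : y.1 - ((G (S y)).1 - y.1) / (lam - 1) = y.1 := congrArg Prod.fst hyf
    have f2 : (τ : ℂ) * (G (S y)).2 = y.2 := congrArg Prod.snd hyf
    have f3 : (G (S y)).1 = y.1 := by
      have f4 : ((G (S y)).1 - y.1) / (lam - 1) = 0 := by
        have := sub_eq_self.1 f1
        exact this
      rw [div_eq_zero_iff] at f4
      rcases f4 with f4 | f4
      · exact sub_eq_zero.1 f4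
      · exact absurd f4 hlam1
    refine Prod.ext f3 ?_
    show (G (S y)).2 = y.2 / τ
    rw [← f2, mul_div_cancel_left₀ _ hτ']
  refine ⟨S y, hSmem y hy, hfix, ?_⟩
  have hsub : closedBall (S y) r ⊆ closedBall q₀ (2 * r) := by
    intro x hx
    rw [mem_closedBall] at hx ⊢
    have g1 := dist_triangle x (S y) q₀
    rw [dist_eq_norm (S y)] at g1
    have g2 := hSmem y hy
    linarith
  exact fun x hx x' hx' => hest x (hsub hx) x' (hsub hx')

end Pool.Agent.Helper96.GB
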