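import Pool.Agent.Helper96.GB.Sad

/-! Basins are not bounded by `C^1` hypersurfaces near certain saddle points (MP_cd5a48_an). -/

set_option autoImplicit false

open Set Filter Metric Topology

namespace Pool.Agent.Helper96.GB

/-- `η` is small. -/
structure Sm (lam : ℂ) (η K d : ℝ) : Prop where
  hη : 0 < η
  hK : 0 ≤ K
  hl : 1 < ‖lam‖
  h1 : 32 * (K + 1) * η ≤ ‖lam‖ - 1
  h2 : 4 * (K + 1) * η ≤ 1
  h3 : (4 * K + 1) * η < d

theorem Sm.const {lam : ℂ} {η K d r : ℝ} (h : Sm lam η K d) (hr : 0 < r) :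
    Const lam r η K ((1 + ‖lam‖) / 2) := by
  obtain ⟨hη, hK, hl, h1, h2, h3⟩ := h
  have hKη : 0 ≤ K * η := by positivity
  exact ⟨hr, hη, hK, by linarith, by nlinarith, by nlinarith, by nlinarith⟩

theorem sad_deriv {G : E → E} {q : E} {lam : ℂ} {r η K : ℝ} (hG : Sad G q lam r η K) (hr : 0 < r)
    (D : E →L[ℂ] E) (hD : HasFDerivAt G D q) (v : E) :
    ‖(D v).1 - lam * v.1‖ ≤ η * (‖v.1‖ + ‖v.2‖) ∧ ‖(D v).2‖ ≤ K * ‖v.1‖ + η * ‖v.2‖ := by
  have hcurve : HasDerivAt (fun s : ℝ => q + s • v) v 0 := by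
    simpa using ((hasDerivAt_id (0 : ℝ)).smul_const v).const_add q
  have hg2 : HasDerivAt (fun s : ℝ => G (q + s • v)) (D v) 0 := by
    have h1 : HasFDerivAt G (D.restrictScalars ℝ) (q + (0 : ℝ) • v) := by
      rw [zero_smul, add_zero]
      exact hD.restrictScalars ℝ
    exact h1.comp_hasDerivAt (0 : ℝ) hcurve
  have hsl := hg2.tendsto_slope_zero_right
  simp only [zero_add, zero_smul, add_zero, hG.1] at hsl
  have hev : ∀ᶠ s in 𝓝[>] (0 : ℝ), q + s • v ∈ closedBall q r := by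
    have h1 : Tendsto (fun s : ℝ => q + s • v) (𝓝[>] 0) (𝓝 q) := by
      have := hcurve.continuousAt.tendsto
      rw [zero_smul, add_zero] at this
      exact this.mono_left nhdsWithin_le_nhds
    exact h1.eventually (closedBall_mem_nhds q hr)
  have hest : ∀ᶠ s in 𝓝[>] (0 : ℝ),
      ‖(s⁻¹ • (G (q + s • v) - q)).1 - lam * v.1‖ ≤ η * (‖v.1‖ + ‖v.2‖) ∧
      ‖(s⁻¹ • (G (q + s • v) - q)).2‖ ≤ K * ‖v.1‖ + η * ‖v.2‖ := by
    filter_upwards [hev, self_mem_nhdsWithin] with s h1 h2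
    have hs : 0 < s := h2
    obtain ⟨h3, h4⟩ := hG.2 _ h1 q (mem_closedBall_self hr.le)
    rw [hG.1] at h3 h4
    simp only [Prod.fst_add, Prod.snd_add, Prod.smul_fst, Prod.smul_snd, add_sub_cancel_left,
      norm_smul, Real.norm_of_nonneg hs.le] at h3 h4
    constructor
    · have e : (s⁻¹ • (G (q + s • v) - q)).1 - lam * v.1 =
          s⁻¹ • ((G (q + s • v)).1 - q.1 - lam * (s • v.1)) := by
        rw [Prod.smul_fst, Prod.fst_sub, mul_smul_comm, smul_sub _ _ (s • (lam * v.1)), smul_smul,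
          inv_mul_cancel₀ hs.ne', one_smul]
      rw [e, norm_smul, Real.norm_of_nonneg (inv_nonneg.2 hs.le), inv_mul_le_iff₀ hs]
      refine h3.trans (le_of_eq ?_)
      ring
    · have e : (s⁻¹ • (G (q + s • v) - q)).2 = s⁻¹ • ((G (q + s • v)).2 - q.2) := rfl
      rw [e, norm_smul, Real.norm_of_nonneg (inv_nonneg.2 hs.le), inv_mul_le_iff₀ hs]
      refine h4.trans (le_of_eq ?_)
      ring
  constructor
  · have ht : Tendsto (fun s : ℝ => ‖(s⁻¹ • (G (q + s • v) - q)).1 - lam * v.1‖) (𝓝[>] 0)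
        (𝓝 ‖(D v).1 - lam * v.1‖) :=
      (((continuous_fst.tendsto _).comp hsl).sub tendsto_const_nhds).norm
    exact le_of_tendsto ht (hest.mono fun s hs => hs.1)
  · have ht : Tendsto (fun s : ℝ => ‖(s⁻¹ • (G (q + s • v) - q)).2‖) (𝓝[>] 0)
        (𝓝 ‖(D v).2‖) := ((continuous_snd.tendsto _).comp hsl).norm
    exact le_of_tendsto ht (hest.mono fun s hs => hs.2)

theorem sad_not_c1 {G : E → E} {q : E} {lam : ℂ} {r η K d : ℝ} (hG : Sad G q lam r η K)
    (hr : 0 < r) (hS : Sm lam η K d) (hd : ∀ κ : ℝ, 0 < κ → d ≤ ‖lam - κ‖)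
    (hGd : Differentiable ℂ G) (B : Set E) (hB : ∀ x, G x ∈ B ↔ x ∈ B) (p : E)
    (hp : p ∉ closedBall q r) (hBp : ∀ x ∈ B, Tendsto (fun n => G^[n] x) atTop (𝓝 p))
    (hq : q ∈ frontier B) : ¬ IsC1At B q := by
  intro hC1
  obtain ⟨ℓ, hℓ, hH⟩ := half_of_c1 B q hq hC1
  set D := fderiv ℂ G q with hDdef
  have hD : HasFDerivAt G D q := (hGd q).hasFDerivAt
  obtain ⟨κ, hκ0, hκ⟩ := exists_factor G B hB q hG.1 D hD ℓ hℓ hH
  obtain ⟨l₁, l₂, hl⟩ := exists_re ℓ
  have hC := hS.const hr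
  obtain ⟨hη, hK, hl1, h1, h2, h3⟩ := hS
  have hηs : η ≤ 1 / 4 := by
    have : 0 ≤ K * η := by positivity
    linarith
  have hne : l₁ ≠ 0 ∨ l₂ ≠ 0 := by
    by_contra hcon
    push Not at hcon
    apply hℓ
    ext <;> simp [hl, hcon.1, hcon.2]
  obtain ⟨a1, a2⟩ := sad_deriv hG hr D hD (1, 0)
  obtain ⟨b1, b2⟩ := sad_deriv hG hr D hD (0, 1)
  simp only [norm_one, norm_zero, mul_one, mul_zero, add_zero, sub_zero, zero_add] at a1 a2 b1 b2
  have q1 := eig_eq ℓ l₁ l₂ hl D κ hκ (1, 0)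
  have q2 := eig_eq ℓ l₁ l₂ hl D κ hκ (0, 1)
  simp only [mul_one, mul_zero, add_zero, zero_add] at q1 q2
  set dA := (D (1, 0)).1
  set dC := (D (1, 0)).2
  set dB := (D (0, 1)).1
  set dE := (D (0, 1)).2
  have e1 : ‖l₁‖ * ‖(κ : ℂ) - dA‖ = ‖l₂‖ * ‖dC‖ := by
    rw [← norm_mul, ← norm_mul]
    congr 1
    linear_combination -q1
  have e2 : ‖l₂‖ * ‖(κ : ℂ) - dE‖ = ‖l₁‖ * ‖dB‖ := by
    rw [← norm_mul, ← norm_mul]
    congr 1
    linear_combination -q2
  have n1 := norm_nonneg l₁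
  have n2 := norm_nonneg l₂
  have hκn : ‖(κ : ℂ)‖ = κ := by rw [Complex.norm_real, Real.norm_of_nonneg hκ0]
  rcases le_or_gt (1 / 2) κ with hk | hk
  · -- the unstable eigenvalue
    have f1 : 1 / 4 ≤ ‖(κ : ℂ) - dE‖ := by
      have := norm_sub_norm_le (κ : ℂ) dE
      rw [hκn] at this
      linarith
    have f2 : ‖l₂‖ ≤ 4 * η * ‖l₁‖ := by
      have f3 : ‖l₂‖ * (1 / 4) ≤ ‖l₁‖ * η := by
        calc ‖l₂‖ * (1 / 4) ≤ ‖l₂‖ * ‖(κ : ℂ) - dE‖ := by gcongr
          _ = ‖l₁‖ * ‖dB‖ := e2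
          _ ≤ ‖l₁‖ * η := by gcongr
      linarith
    have hl₁ : 0 < ‖l₁‖ := by
      rw [norm_pos_iff]
      rintro rfl
      rw [norm_zero, mul_zero] at f2
      rcases hne with h | h
      · exact h rfl
      · exact h (norm_le_zero_iff.1 f2)
    have f4 : ‖(κ : ℂ) - dA‖ ≤ 4 * η * K := by
      have f5 : ‖l₁‖ * ‖(κ : ℂ) - dA‖ ≤ ‖l₁‖ * (4 * η * K) := by
        rw [e1]
        calc ‖l₂‖ * ‖dC‖ ≤ (4 * η * ‖l₁‖) * K := by gcongr
          _ = ‖l₁‖ * (4 * η * K) := by ring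
      exact le_of_mul_le_mul_left f5 hl₁
    have f6 := hd κ (by linarith)
    have f7 : ‖lam - κ‖ ≤ ‖dA - lam‖ + ‖(κ : ℂ) - dA‖ := by
      have := norm_add_le (dA - lam) ((κ : ℂ) - dA)
      have e : dA - lam + ((κ : ℂ) - dA) = -(lam - κ) := by ring
      rw [e, norm_neg] at this
      exact this
    linarith
  · -- the stable eigenvalue
    have f1 : 1 / 4 ≤ ‖(κ : ℂ) - dA‖ := by
      have g1 := norm_sub_norm_le dA (κ : ℂ)
      rw [hκn, norm_sub_rev] at g1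
      have g2 := norm_sub_norm_le lam dA
      rw [norm_sub_rev lam] at g2
      linarith
    have f2 : ‖l₁‖ ≤ 4 * K * ‖l₂‖ := by
      have f3 : ‖l₁‖ * (1 / 4) ≤ ‖l₂‖ * K := by
        calc ‖l₁‖ * (1 / 4) ≤ ‖l₁‖ * ‖(κ : ℂ) - dA‖ := by gcongr
          _ = ‖l₂‖ * ‖dC‖ := e1
          _ ≤ ‖l₂‖ * K := by gcongr
      linarith
    have hl₂ : 0 < ‖l₂‖ := by
      rw [norm_pos_iff]
      rintro rfl
      rw [norm_zero, mul_zero] at f2
      rcases hne with h | h
      · exact h (norm_le_zero_iff.1 f2)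
      · exact h rfl
    set θ : ℝ := 1 / (8 * (K + 1)) with hθ
    have hK1 : 0 < K + 1 := by linarith
    have hθ0 : 0 < θ := by positivity
    have hθ1 : θ * (K + 1) = 1 / 8 := by rw [hθ]; field_simp
    have hθK : θ * K ≤ 1 / 8 := by nlinarith
    have hθ2 : θ ≤ 1 / 8 := by nlinarith
    set c : ℂ := -(starRingEnd ℂ l₂) / ‖l₂‖ with hc
    have hl₂' : (‖l₂‖ : ℂ) ≠ 0 := by exact_mod_cast hl₂.ne'
    have hcl : l₂ * c = -(‖l₂‖ : ℂ) := by
      rw [hc]
      have : l₂ * (starRingEnd ℂ l₂) = (‖l₂‖ : ℂ) * ‖l₂‖ := by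
        rw [Complex.mul_conj, Complex.normSq_eq_norm_sq]
        push_cast
        ring
      field_simp
      linear_combination -this
    have hcn : ‖c‖ = 1 := by
      rw [hc, norm_div, norm_neg, RCLike.norm_conj, Complex.norm_real, norm_norm,
        div_self hl₂.ne']
    have hcone : ∀ s : ℝ, 0 < s → s ≤ r → ∃ x : E, (∀ j, G^[j] x ∈ closedBall q r) ∧
        ‖x - q‖ ≤ s ∧ ℓ (x - q) ≤ -(‖l₂‖ * s / 2) := by
      intro s hs hsr
      have hβ : ‖q.2 + s * c - q.2‖ = s := by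
        rw [add_sub_cancel_left, norm_mul, hcn, mul_one, Complex.norm_real,
          Real.norm_of_nonneg hs.le]
      obtain ⟨z, hz⟩ := exists_stable hG hC hGd.continuous (q.2 + s * c) (by rw [hβ]; exact hsr)
      have hz1 := stable_cone hG θ ((1 + ‖lam‖) / 2) hη.le hr.le hK hθ0 (by linarith) (by
        have g1 : η * (θ + 1) ≤ 2 * η := by nlinarith
        have g2 : 2 * η ≤ (‖lam‖ - 1) / 2 * θ := by
          have g3 : (32 * (K + 1) * η) * θ ≤ (‖lam‖ - 1) * θ := by gcongr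
          have g4 : (32 * (K + 1) * η) * θ = 4 * η := by
            calc (32 * (K + 1) * η) * θ = 32 * η * (θ * (K + 1)) := by ring
              _ = 4 * η := by rw [hθ1]; ring
          linarith
        nlinarith) (by linarith) (z, q.2 + s * c) hz
      have hz2 : ‖z - q.1‖ ≤ θ * s := by
        have := hz1
        rw [hβ] at this
        exact this
      refine ⟨(z, q.2 + s * c), hz, ?_, ?_⟩
      · rw [Prod.norm_def]
        refine max_le ?_ (le_of_eq hβ)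
        show ‖z - q.1‖ ≤ s
        nlinarith
      · rw [hl]
        have e3 : l₁ * (((z, q.2 + s * c) : E) - q).1 + l₂ * (((z, q.2 + s * c) : E) - q).2 =
            l₁ * (z - q.1) + (-(‖l₂‖ * s) : ℝ) := by
          show l₁ * (z - q.1) + l₂ * (q.2 + s * c - q.2) = _
          push_cast
          linear_combination (s : ℂ) * hcl
        rw [e3, Complex.add_re, Complex.ofReal_re]
        have g5 : (l₁ * (z - q.1)).re ≤ ‖l₂‖ * s / 2 := by
          refine (Complex.re_le_norm _).trans ?_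
          rw [norm_mul]
          calc ‖l₁‖ * ‖z - q.1‖ ≤ (4 * K * ‖l₂‖) * (θ * s) := by gcongr
            _ = 4 * (θ * K) * (‖l₂‖ * s) := by ring
            _ ≤ 4 * (1 / 8) * (‖l₂‖ * s) := by gcongr
            _ = ‖l₂‖ * s / 2 := by ring
        linarith
    obtain ⟨δ, hδ, hδs⟩ := Metric.eventually_nhds_iff.1 (hH (‖l₂‖ / 4) (by positivity))
    have hs0 : 0 < min r (δ / 2) := lt_min hr (by positivity)
    obtain ⟨x, hx1, hx2, hx3⟩ := hcone (min r (δ / 2)) hs0 (min_le_left _ _)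
    have hxB : x ∈ B := by
      refine (hδs (y := x) ?_).1 ?_
      · rw [dist_eq_norm]
        have := min_le_right r (δ / 2)
        linarith
      · have g6 : ‖l₂‖ / 4 * ‖x - q‖ ≤ ‖l₂‖ / 4 * min r (δ / 2) := by gcongr
        have g7 : 0 < ‖l₂‖ * min r (δ / 2) := by positivity
        linarith
    have hlim := hBp x hxB
    exact hp (isClosed_closedBall.mem_of_tendsto hlim (Eventually.of_forall hx1))

end Pool.Agent.Helper96.GB
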