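import Pool.Agent.Helper96.GB.FamNeg

/-! The attracting fixed points of `(z, w) ↦ (a z exp z + D w, z)` (MP_cd5a48_an). -/

set_option autoImplicit false

open Set Filter Metric Topology

namespace Pool.Agent.Helper96.GB

/-- the eigenvalues at an attracting fixed point -/
theorem eig_lt_one {L : E →L[ℂ] E} {n : ℕ} (hn : ‖L ^ n‖ < 1) {lam : ℂ} {v : E} (hv : v ≠ 0)
    (h : L v = lam • v) : ‖lam‖ < 1 := by
  have h1 : ∀ k : ℕ, (L ^ k) v = lam ^ k • v := by
    intro k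
    induction k with
    | zero => simp
    | succ k ih =>
      rw [pow_succ, ContinuousLinearMap.mul_apply, h, map_smul, ih, smul_smul, ← pow_succ']
  have h2 := (L ^ n).le_opNorm v
  rw [h1, norm_smul, norm_pow] at h2
  have hv0 : 0 < ‖v‖ := norm_pos_iff.2 hv
  by_contra h3
  push Not at h3
  have h4 : 1 ≤ ‖lam‖ ^ n := one_le_pow₀ h3
  nlinarith

theorem sum_re_lt {x y : ℂ} {D : ℝ} (hD : 0 < D) (hx : ‖x‖ < 1) (hy : ‖y‖ < 1)
    (h : x * y = -(D : ℂ)) : x.re + y.re < 1 - D := by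
  have hx0 : x ≠ 0 := by
    rintro rfl
    rw [zero_mul] at h
    exact hD.ne' (by exact_mod_cast neg_eq_zero.1 h.symm)
  have hr : 0 < ‖x‖ := norm_pos_iff.2 hx0
  have hn : ‖x‖ * ‖y‖ = D := by
    rw [← norm_mul, h, norm_neg, Complex.norm_real, Real.norm_of_nonneg hD.le]
  have hDr : D < ‖x‖ := by nlinarith
  have e : y.re * ‖x‖ ^ 2 = -(D * x.re) := by
    have h1 : y * (x * (starRingEnd ℂ) x) = -(D : ℂ) * (starRingEnd ℂ) x := by
      rw [← h]
      ring
    rw [Complex.mul_conj, Complex.normSq_eq_norm_sq] at h1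
    have h2 := congrArg Complex.re h1
    rw [Complex.re_mul_ofReal] at h2
    rw [h2]
    simp
  have hxr := Complex.abs_re_le_norm x
  obtain ⟨h3, h4⟩ := abs_le.1 hxr
  by_contra h5
  push Not at h5
  have h6 : (1 - D) * ‖x‖ ^ 2 ≤ (‖x‖ ^ 2 - D) * x.re := by
    have h7 := mul_le_mul_of_nonneg_right h5 (sq_nonneg ‖x‖)
    rw [add_mul, e] at h7
    linarith
  have hr2 : 0 < ‖x‖ ^ 2 := by positivity
  rcases le_total D (‖x‖ ^ 2) with h8 | h8
  · have h9 : (‖x‖ ^ 2 - D) * x.re ≤ (‖x‖ ^ 2 - D) * ‖x‖ :=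
      mul_le_mul_of_nonneg_left h4 (by linarith)
    have h10 : (1 - D) * ‖x‖ ≤ ‖x‖ ^ 2 - D := by
      have : ((1 - D) * ‖x‖) * ‖x‖ ≤ (‖x‖ ^ 2 - D) * ‖x‖ := by
        calc ((1 - D) * ‖x‖) * ‖x‖ = (1 - D) * ‖x‖ ^ 2 := by ring
          _ ≤ _ := h6.trans h9
      exact le_of_mul_le_mul_right this hr
    nlinarith [mul_pos (sub_pos.2 hx) (add_pos hr hD)]
  · have h9 : (‖x‖ ^ 2 - D) * x.re ≤ (D - ‖x‖ ^ 2) * ‖x‖ := by
      nlinarith
    have h10 : (1 - D) * ‖x‖ ≤ D - ‖x‖ ^ 2 := by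
      have : ((1 - D) * ‖x‖) * ‖x‖ ≤ (D - ‖x‖ ^ 2) * ‖x‖ := by
        calc ((1 - D) * ‖x‖) * ‖x‖ = (1 - D) * ‖x‖ ^ 2 := by ring
          _ ≤ _ := h6.trans h9
      exact le_of_mul_le_mul_right this hr
    nlinarith [mul_pos (sub_pos.2 hDr) (add_pos one_pos hr)]

theorem only_attr (a : ℂ) (ha0 : a ≠ 0) (D : ℝ) (hD : 0 < D) (ha : Real.exp 1 * ‖a‖ + D < 1)
    (p : E) (hp : IsAttr (hmap (-D) (fam a)) p) : p = 0 := by
  have han : 0 < ‖a‖ := norm_pos_iff.2 ha0
  have hD1 : D < 1 := by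
    have : 0 ≤ Real.exp 1 * ‖a‖ := by positivity
    linarith
  obtain ⟨hfix, n, hn⟩ := hp
  have h1 : p.1 = p.2 := congrArg Prod.snd hfix
  have h2 : fam a p.1 - -(D : ℂ) * p.2 = p.1 := congrArg Prod.fst hfix
  rw [← h1, fam] at h2
  set t : ℂ := p.1 with ht
  by_cases ht0 : t = 0
  · exact Prod.ext ht0 (h1.symm.trans ht0)
  exfalso
  have hat : a * Complex.exp t = 1 - D := by
    have h3 : (a * Complex.exp t - (1 - D)) * t = 0 := by linear_combination h2
    rcases mul_eq_zero.1 h3 with h4 | h4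
    · exact sub_eq_zero.1 h4
    · exact absurd h4 ht0
  have hre : 1 < t.re := by
    have h3 : ‖a‖ * Real.exp t.re = 1 - D := by
      have := congrArg norm hat
      rw [norm_mul, Complex.norm_exp] at this
      rw [this]
      have h4 : (1 : ℂ) - D = ((1 - D : ℝ) : ℂ) := by push_cast; ring
      rw [h4, Complex.norm_real, Real.norm_of_nonneg (by linarith)]
    have h4 : Real.exp 1 < Real.exp t.re := by
      have : Real.exp 1 * ‖a‖ < Real.exp t.re * ‖a‖ := by linarith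
      exact lt_of_mul_lt_mul_right this han.le
    exact Real.exp_lt_exp.1 h4
  have hder : deriv (fam a) t = (1 - D) * (1 + t) := by
    rw [fam_deriv]
    linear_combination (1 + t) * hat
  rw [(hmap_hasFDerivAt (-(D : ℂ)) (fam_diff a) p).fderiv, ← ht, hder] at hn
  -- the eigenvalues
  set b : ℂ := (1 - D) * (1 + t) with hb
  obtain ⟨s, hs⟩ := IsAlgClosed.exists_pow_nat_eq (b ^ 2 + 4 * D) (n := 2) (by norm_num)
  have key : ∀ lam : ℂ, lam ^ 2 = b * lam + D → ‖lam‖ < 1 := by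
    intro lam hlam
    refine eig_lt_one hn (v := ((lam, 1) : E)) (fun h => ?_) ?_
    · have := congrArg Prod.snd h
      exact one_ne_zero this
    · ext
      · simp
        rw [← pow_two, hlam]
      · simp
  have hx := key ((b + s) / 2) (by linear_combination hs / 4)
  have hy := key ((b - s) / 2) (by linear_combination hs / 4)
  have hxy : (b + s) / 2 * ((b - s) / 2) = -(D : ℂ) := by linear_combination -hs / 4
  have h3 := sum_re_lt hD hx hy hxy
  have h4 : ((b + s) / 2).re + ((b - s) / 2).re = b.re := by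
    rw [← Complex.add_re]
    congr 1
    ring
  have h5 : b.re = (1 - D) * (1 + t.re) := by
    rw [hb]
    simp
  rw [h4, h5] at h3
  nlinarith

end Pool.Agent.Helper96.GB
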