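import Pool.Agent.Helper96.GB.Rep

/-! Open and dense sets of pairs (MP_cd5a48_an). -/

set_option autoImplicit false

open Set Filter Metric Topology

namespace Pool.Agent.Helper96.GB

/-- The inverse automorphism. -/
def Aut2.inv (A : Aut2) : Aut2 := ⟨A.F.symm, A.diff_symm, A.diff⟩

theorem continuous_inv : Continuous Aut2.inv := by
  rw [continuous_induced_rng]
  have h : Aut2.pair ∘ Aut2.inv = Prod.swap ∘ Aut2.pair := rfl
  rw [h]
  exact continuous_swap.comp Pool.Agent.Helper33.GB.continuous_pair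

/-- A double trap. -/
def DTrap (F : E → E) (t : E) (r r' : ℝ) (n : ℕ) : Prop :=
  0 < r' ∧ r' ≤ r ∧ 0 < n ∧ (∀ x ∈ closedBall t (4 * r), F^[n] x ∈ ball t r') ∧
    ∀ x ∈ closedBall t r', F x ∈ ball t (4 * r)

theorem isOpen_dtrap (t : E) (r r' : ℝ) (n : ℕ) : IsOpen {A : Aut2 | DTrap A.F t r r' n} := by
  by_cases hr : 0 < r' ∧ r' ≤ r ∧ 0 < n
  · have h2 : {A : Aut2 | DTrap A.F t r r' n} =
        (fun A : Aut2 => Pool.Agent.Helper33.GB.itC A n) ⁻¹'
          {f : C(E, E) | MapsTo f (closedBall t (4 * r)) (ball t r')} ∩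
        (fun A : Aut2 => A.pair.1) ⁻¹'
          {f : C(E, E) | MapsTo f (closedBall t r') (ball t (4 * r))} := by
      ext A
      constructor
      · rintro ⟨_, _, _, h1, h2⟩
        refine ⟨fun x hx => ?_, fun x hx => h2 x hx⟩
        have h3 := h1 x hx
        rw [← Pool.Agent.Helper33.GB.itC_apply] at h3
        exact h3
      · rintro ⟨h1, h2⟩
        refine ⟨hr.1, hr.2.1, hr.2.2, fun x hx => ?_, fun x hx => h2 hx⟩
        have h3 := h1 hx
        rw [Pool.Agent.Helper33.GB.itC_apply] at h3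
        exact h3
    rw [h2]
    exact ((ContinuousMap.isOpen_setOfPred_mapsTo (isCompact_closedBall t (4 * r))
      isOpen_ball).preimage (Pool.Agent.Helper33.GB.continuous_itC n)).inter
      ((ContinuousMap.isOpen_setOfPred_mapsTo (isCompact_closedBall t r') isOpen_ball).preimage
      (continuous_fst.comp Pool.Agent.Helper33.GB.continuous_pair))
  · have h2 : {A : Aut2 | DTrap A.F t r r' n} = ∅ := by
      ext A
      simp only [mem_ofPred_eq, mem_empty_iff_false, iff_false]
      rintro ⟨h1, h2, h3, _, _⟩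
      exact hr ⟨h1, h2, h3⟩
    rw [h2]
    exact isOpen_empty

theorem isOpen_trap_symm (t : E) (r : ℝ) : IsOpen {A : Aut2 | Trap A.F.symm t r 1} := by
  by_cases hr : 0 < r
  · have h2 : {A : Aut2 | Trap A.F.symm t r 1} =
        (fun A : Aut2 => A.pair.2) ⁻¹'
          {f : C(E, E) | MapsTo f (closedBall t (4 * r)) (ball t r)} := by
      ext A
      constructor
      · rintro ⟨_, _, h1⟩ x hx
        exact h1 x hx
      · intro h1
        exact ⟨hr, one_pos, fun x hx => h1 hx⟩
    rw [h2]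
    exact (ContinuousMap.isOpen_setOfPred_mapsTo (isCompact_closedBall t (4 * r))
      isOpen_ball).preimage (continuous_snd.comp Pool.Agent.Helper33.GB.continuous_pair)
  · have h2 : {A : Aut2 | Trap A.F.symm t r 1} = ∅ := by
      ext A
      simp only [mem_ofPred_eq, mem_empty_iff_false, iff_false]
      rintro ⟨h1, _, _⟩
      exact hr h1
    rw [h2]
    exact isOpen_empty

/-- attracting fixed points have double traps -/
theorem exists_dtrap (F : E → E) (p : E) (hF : Differentiable ℂ F) (hp : IsAttr F p) (δ : ℝ)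
    (hδ : 0 < δ) : ∃ (r r' : ℝ) (n : ℕ), DTrap F p r r' n ∧ r < δ := by
  obtain ⟨hfix, n0, hn0⟩ := hp
  set D := fderiv ℂ F p with hD
  set L : ℝ := ‖D‖ + 1 with hL
  have hL1 : 1 ≤ L := by rw [hL]; linarith [norm_nonneg D]
  have hL0 : 0 < L := by linarith
  have hn0' : n0 ≠ 0 := by
    rintro rfl
    rw [pow_zero, norm_one] at hn0
    exact lt_irrefl _ hn0
  obtain ⟨k, hk⟩ := exists_pow_lt_of_lt_one (show (0 : ℝ) < 1 / (20 * L) by positivity) hn0
  set m0 := n0 * (k + 1) with hm0
  have hm0' : 0 < m0 := by positivity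
  have hFd : HasFDerivAt F D p := (hF p).hasFDerivAt
  have hH : HasFDerivAt F^[m0] (D ^ m0) p := hFd.iterate hfix m0
  have hnorm : ‖D ^ m0‖ < 1 / (20 * L) := by
    rw [hm0, pow_mul]
    refine (norm_pow_le' _ (Nat.succ_pos k)).trans_lt ?_
    refine lt_of_le_of_lt ?_ hk
    rw [pow_succ]
    exact mul_le_of_le_one_right (by positivity) hn0.le
  have hHp : F^[m0] p = p := Function.iterate_fixed hfix m0
  have hev : ∀ᶠ x in 𝓝 p, ‖F^[m0] x - p‖ ≤ 1 / (10 * L) * ‖x - p‖ := by
    have h1 := hH.isLittleO.def (show (0 : ℝ) < 1 / (20 * L) by positivity)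
    filter_upwards [h1] with x hx
    rw [hHp] at hx
    have h2 := (D ^ m0).le_opNorm (x - p)
    have h3 : ‖(D ^ m0) (x - p)‖ ≤ 1 / (20 * L) * ‖x - p‖ :=
      h2.trans (mul_le_mul_of_nonneg_right hnorm.le (norm_nonneg _))
    calc ‖F^[m0] x - p‖ = ‖(F^[m0] x - p - (D ^ m0) (x - p)) + (D ^ m0) (x - p)‖ := by
          rw [sub_add_cancel]
      _ ≤ _ := norm_add_le _ _
      _ ≤ 1 / (20 * L) * ‖x - p‖ + 1 / (20 * L) * ‖x - p‖ := add_le_add hx h3
      _ = 1 / (10 * L) * ‖x - p‖ := by field_simp; ring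
  have hev2 : ∀ᶠ x in 𝓝 p, ‖F x - p‖ ≤ L * ‖x - p‖ := by
    have h1 := hFd.isLittleO.def (show (0 : ℝ) < 1 by norm_num)
    filter_upwards [h1] with x hx
    rw [hfix] at hx
    calc ‖F x - p‖ = ‖(F x - p - D (x - p)) + D (x - p)‖ := by rw [sub_add_cancel]
      _ ≤ _ := norm_add_le _ _
      _ ≤ 1 * ‖x - p‖ + ‖D‖ * ‖x - p‖ := add_le_add hx (D.le_opNorm _)
      _ = L * ‖x - p‖ := by rw [hL]; ring
  obtain ⟨η, hη, hball⟩ := Metric.eventually_nhds_iff_ball.1 (hev.and hev2)
  set r : ℝ := min δ η / 5 with hr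
  have hmin : 0 < min δ η := lt_min hδ hη
  have hr0 : 0 < r := by positivity
  have hrδ : r < δ := by
    have := min_le_left δ η
    rw [hr]; linarith
  have hrη : 4 * r < η := by
    have := min_le_right δ η
    rw [hr]; linarith
  have hr'r : r / L ≤ r := div_le_self hr0.le hL1
  refine ⟨r, r / L, m0, ⟨by positivity, hr'r, hm0', ?_, ?_⟩, hrδ⟩
  · intro x hx
    rw [mem_closedBall, dist_eq_norm] at hx
    have h1 := (hball x (by rw [mem_ball, dist_eq_norm]; linarith)).1
    rw [mem_ball, dist_eq_norm]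
    calc ‖F^[m0] x - p‖ ≤ 1 / (10 * L) * ‖x - p‖ := h1
      _ ≤ 1 / (10 * L) * (4 * r) := by gcongr
      _ = 2 / 5 * (r / L) := by field_simp; ring
      _ < r / L := by
        have : 0 < r / L := by positivity
        linarith
  · intro x hx
    rw [mem_closedBall, dist_eq_norm] at hx
    have h1 := (hball x (by rw [mem_ball, dist_eq_norm]; linarith)).2
    rw [mem_ball, dist_eq_norm]
    calc ‖F x - p‖ ≤ L * ‖x - p‖ := h1
      _ ≤ L * (r / L) := by gcongr
      _ = r := by field_simp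
      _ < 4 * r := by linarith

/-- a double trap contains an attracting fixed point -/
theorem dtrap_fix (F : E → E) (t : E) (r r' : ℝ) (n : ℕ) (hF : Differentiable ℂ F)
    (h : DTrap F t r r' n) : Trap F t r n ∧ ∃ p ∈ ball t r', IsAttr F p ∧
      Om F t r = basin F p ∧ ∀ p' ∈ ball t (4 * r), F p' = p' → p' = p := by
  obtain ⟨hr', hrr, hn, h1, h2⟩ := h
  have hr : 0 < r := hr'.trans_le hrr
  have htrap : Trap F t r n := ⟨hr, hn, fun x hx => ball_subset_ball hrr (h1 x hx)⟩
  obtain ⟨p, hp, hfix, hconv, _⟩ := Pool.Agent.Helper98.GB.s_TrapFix F t r n hF htrap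
  have hp4 : p ∈ closedBall t (4 * r) :=
    ball_subset_closedBall (ball_subset_ball (by linarith) hp)
  have hp' : p ∈ ball t r' := by
    have h := h1 p hp4
    rwa [hfix] at h
  have hFp : F p ∈ ball t (4 * r) := h2 p (ball_subset_closedBall hp')
  have hcomm : ∀ j : ℕ, F^[n * j] (F p) = F p := by
    intro j
    rw [← Function.iterate_succ_apply, Function.iterate_succ_apply', Function.iterate_mul]
    congr 1
    exact Function.iterate_fixed hfix j
  have hFfix : F p = p := by
    have h := hconv _ hFp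
    have h3 : (fun j : ℕ => F^[n * j] (F p)) = fun _ => F p := funext hcomm
    rw [h3] at h
    exact tendsto_nhds_unique tendsto_const_nhds h
  refine ⟨htrap, p, hp', ⟨hFfix, n, ?_⟩, Pool.Agent.Helper98.GB.s_BasinOm F p t r n hF hFfix
    htrap hp, ?_⟩
  · have hFd : HasFDerivAt F (fderiv ℂ F p) p := (hF p).hasFDerivAt
    have hH : HasFDerivAt F^[n] ((fderiv ℂ F p) ^ n) p := hFd.iterate hFfix n
    rw [← hH.fderiv]
    exact Pool.Agent.Helper98.GB.trap_fderiv (hF.iterate n) hr
      (fun x hx => ball_subset_ball hrr (h1 x hx)) (ball_subset_closedBall hp)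
  · intro p₁ hp₁ hf₁
    have h := hconv p₁ hp₁
    have h3 : (fun j : ℕ => F^[n * j] p₁) = fun _ => p₁ :=
      funext fun j => Function.iterate_fixed hf₁ _
    rw [h3] at h
    exact tendsto_nhds_unique tendsto_const_nhds h

end Pool.Agent.Helper96.GB
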