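import Pool.Agent.Helper96.GB.Crit

/-! Creation of a repelling fixed point far away (MP_cd5a48_an). -/

set_option autoImplicit false

open Set Filter Metric Topology

namespace Pool.Agent.Helper96.GB

theorem create_rep (hS : S_Sand) (hI : S_IntD) (A : Aut2) (V : Set Aut2) (hV : IsOpen V)
    (hA : A ∈ V) (M : ℝ) :
    ∃ B ∈ V, ∃ q : E, M < ‖q‖ ∧ B.F q = q ∧ ∀ x, fderiv ℂ B.F q x = (-64 : ℂ) • x := by
  set lam : E →L[ℂ] ℂ := ContinuousLinearMap.fst ℂ ℂ ℂ with hlam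
  set lam' : E →L[ℂ] ℂ := ContinuousLinearMap.snd ℂ ℂ ℂ with hlam'
  set v : E := (0, 1) with hv
  set u₀ : E := (1, 0) with hu₀
  have h1 : lam v = 0 := by simp [hlam, hv]
  have h2 : lam' v = 1 := by simp [hlam', hv]
  have h3 : lam u₀ = 1 := by simp [hlam, hu₀]
  have h4 : lam' u₀ = 0 := by simp [hlam', hu₀]
  have hdec : ∀ x : E, x = lam x • u₀ + lam' x • v := fun x => by ext <;> simp [hlam, hlam', hv, hu₀]
  have hmu : ∀ κ : ℂ, (lam' + κ • lam) (u₀ - κ • v) = 0 := by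
    intro κ
    simp [h1, h2, h3, h4]
  have hlu : ∀ κ : ℂ, lam (u₀ - κ • v) = 1 := by
    intro κ
    simp [h1, h3]
  obtain ⟨Ra, hRa0, hRa⟩ := hS A V hV hA lam lam' (lam' + (0 : ℂ) • lam) lam v
    (u₀ - (0 : ℂ) • v) h1 h2 (hmu 0) (hlu 0)
  obtain ⟨Rb, hRb0, hRb⟩ := hS A V hV hA lam lam' (lam' + (1 : ℂ) • lam) lam v
    (u₀ - (1 : ℂ) • v) h1 h2 (hmu 1) (hlu 1)
  set R : ℝ := max (max Ra Rb) |M| with hR
  have hRa' : Ra ≤ R := (le_max_left _ _).trans (le_max_left _ _)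
  have hRb' : Rb ≤ R := (le_max_right _ _).trans (le_max_left _ _)
  have hRM : |M| ≤ R := le_max_right _ _
  have hR0 : 0 ≤ R := hRa0.le.trans hRa'
  set a : ℂ := ((R + 2 : ℝ) : ℂ) with ha
  have hna : ‖a‖ = R + 2 := by
    rw [ha, Complex.norm_real, Real.norm_of_nonneg (by linarith)]
  obtain ⟨κ, hκ, hfar⟩ := exists_far A lam lam' v u₀ h2 hdec (a • u₀)
  set mu : E →L[ℂ] ℂ := lam' + κ • lam with hmudef
  set u : E := u₀ - κ • v with hudef
  have hmu' : mu u = 0 := hmu κ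
  have hlu' : lam u = 1 := hlu κ
  have hhd : Differentiable ℂ (fun s : ℂ => mu (A.F (a • u₀ + s • v))) := by
    have h1 : Differentiable ℂ (fun s : ℂ => a • u₀ + s • v) := by fun_prop
    exact mu.differentiable.comp (A.diff.comp h1)
  obtain ⟨s, hs, hs'⟩ := exists_deriv_ne hhd hfar R
  set p₁ : E := a • u₀ + s • v with hp₁
  set g : E := A.F p₁ with hg
  set D₀ : E →L[ℂ] E := fderiv ℂ A.F p₁ with hD₀
  have hderiv : deriv (fun s : ℂ => mu (A.F (a • u₀ + s • v))) s = mu (D₀ v) := by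
    have h5 : HasDerivAt (fun s : ℂ => a • u₀ + s • v) v s := by
      simpa using ((hasDerivAt_id s).smul_const v).const_add (a • u₀)
    have h6 := (A.diff p₁).hasFDerivAt.comp_hasDerivAt s h5
    have h7 := mu.hasFDerivAt.comp_hasDerivAt s h6
    exact h7.deriv
  rw [hderiv] at hs'
  set q : E := g + (a - lam g) • u with hq
  have hlq : lam q = a := by
    rw [hq, map_add, map_smul, hlu', smul_eq_mul, mul_one]
    ring
  have hnorm : ∀ y : E, mu y = 0 → lam y = 0 → y = 0 := by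
    intro y h5 h6
    have e3 : lam' y = mu y - κ * lam y := by
      rw [hmudef]; simp
    rw [hdec y, e3, h5, h6]
    simp
  -- the constants
  set cb : ℂ := lam (D₀ v) with hcb
  set cd : ℂ := mu (D₀ v) with hcd
  set cc : ℂ := mu (D₀ u₀) with hcc
  set ca : ℂ := lam (D₀ u₀) with hca
  set s' : ℂ := (-64 * κ - cc) / cd with hs'def
  have hs'c : s' * cd = -64 * κ - cc := by
    rw [hs'def]; field_simp
  have hdet : ca * cd - cb * cc ≠ 0 := by
    intro h5
    have h6 : D₀ (cd • u₀ - cc • v) = 0 := by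
      apply hnorm
      · rw [map_sub, map_smul, map_smul, map_sub, map_smul, map_smul, ← hcd, ← hcc]
        simp only [smul_eq_mul]
        ring
      · rw [map_sub, map_smul, map_smul, map_sub, map_smul, map_smul, ← hca, ← hcb]
        simp only [smul_eq_mul]
        linear_combination h5
    have h7 := congrArg (fun f : E →L[ℂ] E => f (cd • u₀ - cc • v)) (comp_deriv A p₁).2
    simp only [ContinuousLinearMap.comp_apply, ContinuousLinearMap.id_apply] at h7
    rw [← hD₀, h6, map_zero] at h7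
    have h8 := congrArg lam h7
    rw [map_zero, map_sub, map_smul, map_smul, h3, h1] at h8
    apply hs'
    simpa using h8.symm
  set k₁ : ℂ := -64 / cd with hk₁
  have hk₁0 : k₁ ≠ 0 := div_ne_zero (by norm_num) hs'
  have hk₁c : k₁ * cd = -64 := by rw [hk₁]; field_simp
  set ce : ℂ := ca + s' * cb - κ * k₁ * cb with hce
  have hce0 : ce ≠ 0 := by
    intro h5
    apply hdet
    linear_combination cd * h5 - cb * hs'c + κ * cb * hk₁c
  set k₂ : ℂ := -64 / ce with hk₂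
  have hk₂0 : k₂ ≠ 0 := div_ne_zero (by norm_num) hce0
  have hk₂c : k₂ * ce = -64 := by rw [hk₂]; field_simp
  set s'' : ℂ := k₂ * k₁ * cb / 64 with hs''def
  have hs''c : 64 * s'' = k₂ * k₁ * cb := by rw [hs''def]; field_simp
  -- the constant of the sandwich
  have hsand : ∃ ε : ℝ, 0 < ε ∧ ∀ χ φ χ' φ' : ℂ → ℂ, Differentiable ℂ χ → Differentiable ℂ φ →
      Differentiable ℂ χ' → Differentiable ℂ φ' → (∀ z, ‖z‖ ≤ R → ‖χ z‖ < ε ∧ ‖φ z‖ < ε) →
      (∀ z, ‖z‖ ≤ R → ‖χ' z‖ < ε ∧ ‖φ' z‖ < ε) →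
      ∃ B ∈ V, ∀ x, B.F x = osh mu lam u χ' φ' (A.F (osh lam lam' v χ φ x)) := by
    rcases hκ with rfl | rfl
    · exact hRa R R hRa' hRa'
    · exact hRb R R hRb' hRb'
  obtain ⟨ε, hε, hsand⟩ := hsand
  have hRa2 : R < ‖a‖ := by rw [hna]; linarith
  obtain ⟨χ, hχd, hχa, hχ'a, hχs⟩ := hI R ε a (Complex.log k₁) 0 hR0 hε hRa2
  obtain ⟨φ, hφd, hφa, hφ'a, hφs⟩ := hI R ε a (s - k₁ * lam' q) s' hR0 hε hRa2
  obtain ⟨χ₂, hχ₂d, hχ₂a, hχ₂'a, hχ₂s⟩ := hI R ε (mu g) (Complex.log k₂) 0 hR0 hε hs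
  obtain ⟨φ₂, hφ₂d, hφ₂a, hφ₂'a, hφ₂s⟩ := hI R ε (mu g) (a - k₂ * lam g) s'' hR0 hε hs
  obtain ⟨B, hB, hBx⟩ := hsand χ φ χ₂ φ₂ hχd hφd hχ₂d hφ₂d (fun z hz => ⟨hχs z hz, hφs z hz⟩)
    (fun z hz => ⟨hχ₂s z hz, hφ₂s z hz⟩)
  have hχe : Complex.exp (χ a) = k₁ := by rw [hχa, Complex.exp_log hk₁0]
  have hχ₂e : Complex.exp (χ₂ (mu g)) = k₂ := by rw [hχ₂a, Complex.exp_log hk₂0]
  have e1 : osh lam lam' v χ φ q = p₁ := by
    rw [osh, hlq, hχe, hφa]
    have h9 := hdec q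
    rw [hlq] at h9
    have h9' : (k₁ - 1) * lam' q + (s - k₁ * lam' q) = s - lam' q := by ring
    rw [h9', hp₁]
    generalize lam' q = y at h9
    rw [h9]
    module
  have e2 : osh mu lam u χ₂ φ₂ g = q := by
    rw [osh, hχ₂e, hφ₂a, hq]
    congr 2
    ring
  have hBq : B.F q = q := by rw [hBx, e1, ← hg, e2]
  set L₁ : E →L[ℂ] E := ContinuousLinearMap.id ℂ E +
      ((k₁ - 1) • lam' + s' • lam).smulRight v with hL₁
  set L₂ : E →L[ℂ] E := ContinuousLinearMap.id ℂ E +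
      ((k₂ - 1) • lam + s'' • mu).smulRight u with hL₂
  have hd1 : HasFDerivAt (osh lam lam' v χ φ) L₁ q := by
    have := osh_hasFDerivAt lam lam' v χ φ hχd hφd q (by rw [hlq, hχ'a])
    rw [hlq, hχe, hφ'a] at this
    exact this
  have hd2 : HasFDerivAt (osh mu lam u χ₂ φ₂) L₂ g := by
    have := osh_hasFDerivAt mu lam u χ₂ φ₂ hχ₂d hφ₂d g hχ₂'a
    rw [hχ₂e, hφ₂'a] at this
    exact this
  set D : E →L[ℂ] E := L₂.comp (D₀.comp L₁) with hD
  have hdB : HasFDerivAt B.F D q := by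
    have h10 : HasFDerivAt A.F D₀ (osh lam lam' v χ φ q) := by
      rw [e1]; exact (A.diff p₁).hasFDerivAt
    have h11 := h10.comp q hd1
    have h12 : HasFDerivAt (osh mu lam u χ₂ φ₂) L₂ ((A.F ∘ osh lam lam' v χ φ) q) := by
      rw [Function.comp_apply, e1]; exact hd2
    have h13 := h12.comp q h11
    have h14 : (B.F : E → E) = osh mu lam u χ₂ φ₂ ∘ A.F ∘ osh lam lam' v χ φ := by
      funext x
      exact hBx x
    rw [h14]
    exact h13
  have hL₁x : ∀ x, L₁ x = lam x • u₀ + (s' * lam x + k₁ * lam' x) • v := by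
    intro x
    rw [hL₁]
    simp only [ContinuousLinearMap.add_apply, ContinuousLinearMap.id_apply,
      ContinuousLinearMap.smulRight_apply, ContinuousLinearMap.smul_apply, smul_eq_mul]
    conv_lhs => rw [hdec x]
    simp only [map_add, map_smul, h1, h2, h3, h4, smul_eq_mul, mul_zero, mul_one, add_zero,
      zero_add]
    module
  have hmu1 : ∀ x, mu (D₀ (L₁ x)) = -64 * κ * lam x - 64 * lam' x := by
    intro x
    rw [hL₁x, map_add, map_smul, map_smul, map_add, map_smul, map_smul, ← hcc, ← hcd]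
    simp only [smul_eq_mul]
    linear_combination lam x * hs'c + lam' x * hk₁c
  have hlam1 : ∀ x, lam (D₀ (L₁ x)) = (ca + s' * cb) * lam x + k₁ * cb * lam' x := by
    intro x
    rw [hL₁x, map_add, map_smul, map_smul, map_add, map_smul, map_smul, ← hca, ← hcb]
    simp only [smul_eq_mul]
    ring
  have hDx : ∀ x, D x = D₀ (L₁ x) +
      ((k₂ - 1) * lam (D₀ (L₁ x)) + s'' * mu (D₀ (L₁ x))) • u := by
    intro x
    rw [hD, hL₂]
    simp
  have hmuD : ∀ x, mu (D x) = -64 * κ * lam x - 64 * lam' x := by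
    intro x
    rw [hDx, map_add, map_smul, hmu', smul_zero, add_zero, hmu1]
  have hlamD : ∀ x, lam (D x) = -64 * lam x := by
    intro x
    rw [hDx, map_add, map_smul, hlu', hmu1, hlam1]
    simp only [smul_eq_mul]
    linear_combination lam x * hk₂c - (κ * lam x + lam' x) * hs''c
  refine ⟨B, hB, q, ?_, hBq, ?_⟩
  · have h20 : ‖a‖ ≤ ‖q‖ := by rw [← hlq]; exact norm_fst_le q
    have h21 := le_abs_self M
    rw [hna] at h20
    linarith
  · intro x
    rw [hdB.fderiv]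
    have e4 : lam' (D x) = mu (D x) - κ * lam (D x) := by
      rw [hmudef]; simp
    have e5 : D x = (lam (D x), lam' (D x)) := rfl
    rw [e5, e4, hmuD, hlamD]
    ext
    · rfl
    · show -64 * κ * lam x - 64 * lam' x - κ * (-64 * lam x) = -64 * lam' x
      ring

end Pool.Agent.Helper96.GB
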