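import Pool.Agent.Helper96.GB.Frames

/-! Routing lemma (MP_cd5a48_an). -/

set_option autoImplicit false

open Set Filter Metric Topology

namespace Pool.Agent.Helper96.GB

theorem osh_zero (α β : E →L[ℂ] ℂ) (e : E) (φ : ℂ → ℂ) (x : E) :
    osh α β e (fun _ => 0) φ x = x + φ (α x) • e := by
  simp [osh]

theorem follow {F G : E → E} (y : E) (k : ℕ) (h : ∀ j < k, G (F^[j] y) = F^[j + 1] y) :
    G^[k] y = F^[k] y := by
  induction k with
  | zero => rfl
  | succ k ih =>
    rw [Function.iterate_succ_apply', ih (fun j hj => h j (by omega)), h k (by omega)]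

/-- last exit -/
theorem last_exit {F : E → E} (hF : Continuous F) {t : E} {r : ℝ} {n : ℕ} (hT : Trap F t r n)
    (lam : E →L[ℂ] ℂ) : ∃ RT : ℝ, ∀ R, RT ≤ R → ∀ x ∈ Om F t r, R < ‖lam x‖ →
      ∃ x₁ : E, ∃ K : ℕ, R < ‖lam x₁‖ ∧ (∀ j, 1 ≤ j → ‖lam (F^[j] x₁)‖ ≤ R) ∧ 1 ≤ K ∧
        F^[K] x₁ ∈ ball t (4 * r) := by
  obtain ⟨hr, hn, hmap⟩ := hT
  have hc : ∀ i : ℕ, ∃ C : ℝ, ∀ x ∈ closedBall t (4 * r), ‖lam (F^[i] x)‖ ≤ C := by
    intro i
    have hcomp : IsCompact (closedBall t (4 * r)) := isCompact_closedBall _ _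
    obtain ⟨C, hC⟩ := hcomp.exists_bound_of_continuousOn
      (f := fun x => lam (F^[i] x)) (lam.continuous.comp (hF.iterate i)).continuousOn
    exact ⟨C, hC⟩
  choose C hC using hc
  refine ⟨∑ i ∈ Finset.range n, |C i|, ?_⟩
  intro R hR x hx hxR
  obtain ⟨k, hk⟩ := hx
  have hiter : ∀ q : ℕ, F^[n * q] (F^[k] x) ∈ ball t (4 * r) := by
    intro q
    induction q with
    | zero => simpa using hk
    | succ q ih =>
      have : F^[n * (q + 1)] (F^[k] x) = F^[n] (F^[n * q] (F^[k] x)) := by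
        rw [show n * (q + 1) = n + n * q by ring, Function.iterate_add_apply]
      rw [this]
      exact ball_subset_ball (by linarith) (hmap _ (ball_subset_closedBall ih))
  have hlate : ∀ m, k ≤ m → ‖lam (F^[m] x)‖ ≤ R := by
    intro m hm
    obtain ⟨d, rfl⟩ := Nat.exists_eq_add_of_le hm
    have h1 : F^[k + d] x = F^[d % n] (F^[n * (d / n)] (F^[k] x)) := by
      have h2 := Nat.mod_add_div d n
      rw [show k + d = d % n + (n * (d / n) + k) by omega, Function.iterate_add_apply,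
        Function.iterate_add_apply]
    rw [h1]
    have hi : d % n < n := Nat.mod_lt _ hn
    refine (hC (d % n) _ (ball_subset_closedBall (hiter _))).trans ?_
    refine (le_abs_self _).trans ?_
    refine (Finset.single_le_sum (f := fun i => |C i|) (fun i _ => abs_nonneg _)
      (Finset.mem_range.2 hi)).trans hR
  classical
  let P : ℕ → Prop := fun m => R < ‖lam (F^[m] x)‖
  have hP0 : P 0 := by simpa [P] using hxR
  set m₀ := Nat.findGreatest P k with hm0
  have hPm : P m₀ := Nat.findGreatest_spec (Nat.zero_le k) hP0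
  have hmk : m₀ ≤ k := Nat.findGreatest_le k
  have hlt : m₀ < k := by
    rcases hmk.lt_or_eq with h | h
    · exact h
    · exfalso
      have h1 := hlate m₀ (by omega)
      exact absurd hPm (not_lt.2 h1)
  refine ⟨F^[m₀] x, k - m₀, hPm, ?_, by omega, ?_⟩
  · intro j hj
    rw [← Function.iterate_add_apply]
    by_contra hcon
    push Not at hcon
    by_cases hjk : j + m₀ ≤ k
    · have := Nat.le_findGreatest (P := P) hjk hcon
      omega
    · exact absurd hcon (not_lt.2 (hlate _ (by omega)))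
  · rw [← Function.iterate_add_apply, Nat.sub_add_cancel hmk]
    exact hk

theorem exists_far (A : Aut2) (lam lam' : E →L[ℂ] ℂ) (v u₀ : E) (h2 : lam' v = 1)
    (hdec : ∀ x : E, x = lam x • u₀ + lam' x • v) (a : E) :
    ∃ κ : ℂ, (κ = 0 ∨ κ = 1) ∧ ∀ M : ℝ, ∃ s : ℂ, M < ‖(lam' + κ • lam) (A.F (a + s • v))‖ := by
  by_contra hcon
  push Not at hcon
  have key : ∀ κ : ℂ, (κ = 0 ∨ κ = 1) → ∀ s : ℂ,
      (lam' + κ • lam) (A.F (a + s • v)) = (lam' + κ • lam) (A.F a) := by
    intro κ hκ s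
    obtain ⟨M, hM⟩ := hcon κ hκ
    have hd : Differentiable ℂ (fun s : ℂ => (lam' + κ • lam) (A.F (a + s • v))) := by
      have h1 : Differentiable ℂ (fun s : ℂ => a + s • v) := by fun_prop
      exact (lam' + κ • lam).differentiable.comp (A.diff.comp h1)
    have hb : Bornology.IsBounded (range (fun s : ℂ => (lam' + κ • lam) (A.F (a + s • v)))) := by
      rw [isBounded_iff_forall_norm_le]
      refine ⟨M, ?_⟩
      rintro _ ⟨s, rfl⟩
      exact hM s
    have := hd.apply_eq_apply_of_bounded hb s 0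
    simpa using this
  have h0 : lam' (A.F (a + v)) = lam' (A.F a) := by
    simpa using key 0 (Or.inl rfl) 1
  have h1 : lam' (A.F (a + v)) + lam (A.F (a + v)) = lam' (A.F a) + lam (A.F a) := by
    simpa using key 1 (Or.inr rfl) 1
  have hl : lam (A.F (a + v)) = lam (A.F a) := by
    rw [h0] at h1
    exact add_left_cancel h1
  have heq : A.F (a + v) = A.F a := by
    rw [hdec (A.F (a + v)), hdec (A.F a), h0, hl]
  have hv : v = 0 := by
    have := A.F.injective heq
    simpa using this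
  rw [hv] at h2
  simp at h2

theorem route_aux (hS : S_Sand) (hI : S_Int) (hU : S_Unb) (A : Aut2) (V : Set Aut2)
    (hV : IsOpen V) (hA : A ∈ V) (t : E) (r : ℝ) (n : ℕ) (hT : Trap A.F t r n) (U : Set E)
    (lam lam' : E →L[ℂ] ℂ) (v u₀ : E) (h1 : lam v = 0) (h2 : lam' v = 1) (h3 : lam u₀ = 1)
    (h4 : lam' u₀ = 0) (hdec : ∀ x : E, x = lam x • u₀ + lam' x • v)
    (hunb : ∀ M : ℝ, ∃ y ∈ U, ∃ k : ℕ, M < ‖lam (A.F^[k] y)‖) :
    ∃ B ∈ V, ∃ x ∈ U, ∃ k : ℕ, B.F^[k] x ∈ ball t (4 * r) := by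
  classical
  have hmu : ∀ κ : ℂ, (lam' + κ • lam) (u₀ - κ • v) = 0 := by
    intro κ
    simp [h1, h2, h3, h4]
  have hlu : ∀ κ : ℂ, lam (u₀ - κ • v) = 1 := by
    intro κ
    simp [h1, h3]
  obtain ⟨Ra, hRa0, hRa⟩ := hS A V hV hA lam lam' (lam' + (0 : ℂ) • lam) lam v
    (u₀ - (0 : ℂ) • v) h1 h2 (hmu 0) (hlu 0)
  obtain ⟨Rb, hRb0, hRb⟩ := hS A V hV hA lam lam' (lam' + (1 : ℂ) • lam) lam v
    (u₀ - (1 : ℂ) • v) h1 h2 (hmu 1) (hlu 1)
  obtain ⟨RT, hRT⟩ := last_exit A.diff.continuous hT lam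
  set R : ℝ := max (max Ra Rb) RT with hR
  have hRa' : Ra ≤ R := (le_max_left _ _).trans (le_max_left _ _)
  have hRb' : Rb ≤ R := (le_max_right _ _).trans (le_max_left _ _)
  have hRT' : RT ≤ R := le_max_right _ _
  have hR0 : 0 ≤ R := hRa0.le.trans hRa'
  have hlam : lam ≠ 0 := by
    rintro rfl
    simp at h3
  obtain ⟨x, hx, hxR⟩ := hU A t r n lam hlam hT R
  obtain ⟨x₁, K, hx1, hlate, hK, hKx⟩ := hRT R hRT' x hx hxR
  -- first exit
  obtain ⟨y, hy, k', hk'⟩ := hunb R
  have hex : ∃ k : ℕ, R < ‖lam (A.F^[k] y)‖ := ⟨k', hk'⟩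
  set k := Nat.find hex with hkdef
  have hk : R < ‖lam (A.F^[k] y)‖ := Nat.find_spec hex
  have hearly : ∀ j < k, ‖lam (A.F^[j] y)‖ ≤ R := fun j hj => not_lt.1 (Nat.find_min hex hj)
  set a := A.F^[k] y with ha
  obtain ⟨κ, hκ, hfar⟩ := exists_far A lam lam' v u₀ h2 hdec a
  set mu : E →L[ℂ] ℂ := lam' + κ • lam with hmudef
  set u : E := u₀ - κ • v with hudef
  have hlu' : lam u = 1 := hlu κ
  set r₁ : ℝ := (R + min ‖lam a‖ ‖lam x₁‖) / 2 with hr1
  have hmin : R < min ‖lam a‖ ‖lam x₁‖ := lt_min hk hx1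
  have hr1R : R < r₁ := by rw [hr1]; linarith
  have hr1m : r₁ < min ‖lam a‖ ‖lam x₁‖ := by rw [hr1]; linarith
  have hr1a : r₁ < ‖lam a‖ := hr1m.trans_le (min_le_left _ _)
  have hr1x : r₁ < ‖lam x₁‖ := hr1m.trans_le (min_le_right _ _)
  let N : Finset ℂ := (Finset.range k).image (fun j => lam (A.F^[j] y)) ∪
    (Finset.range K).image (fun j => lam (A.F^[j + 1] x₁))
  let N' : Finset ℂ := (Finset.range k).image (fun j => mu (A.F^[j + 1] y)) ∪
    (Finset.range K).image (fun j => mu (A.F^[j + 1] x₁))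
  have hN : ∀ z ∈ N, ‖z‖ ≤ R := by
    intro z hz
    rcases Finset.mem_union.1 hz with hz | hz
    · obtain ⟨j, hj, rfl⟩ := Finset.mem_image.1 hz
      exact hearly j (Finset.mem_range.1 hj)
    · obtain ⟨j, hj, rfl⟩ := Finset.mem_image.1 hz
      exact hlate (j + 1) (by omega)
  set r₂ : ℝ := R + ∑ z ∈ N', ‖z‖ with hr2
  have hr2R : R ≤ r₂ := by
    have : 0 ≤ ∑ z ∈ N', ‖z‖ := Finset.sum_nonneg fun _ _ => norm_nonneg _
    rw [hr2]; linarith
  have hN' : ∀ z ∈ N', ‖z‖ ≤ r₂ := by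
    intro z hz
    have h5 : ‖z‖ ≤ ∑ z ∈ N', ‖z‖ :=
      Finset.single_le_sum (f := fun z : ℂ => ‖z‖) (fun _ _ => norm_nonneg _) hz
    rw [hr2]; linarith
  obtain ⟨s, hs⟩ := hfar r₂
  set b := A.F (a + s • v) with hb
  -- the constant of the sandwich
  have hsand : ∃ ε : ℝ, 0 < ε ∧ ∀ φ ψ : ℂ → ℂ, Differentiable ℂ φ → Differentiable ℂ ψ →
      (∀ z, ‖z‖ ≤ r₁ → ‖φ z‖ < ε) → (∀ z, ‖z‖ ≤ r₂ → ‖ψ z‖ < ε) →
      ∃ B ∈ V, ∀ x, B.F x = A.F (x + φ (lam x) • v) +
        ψ (mu (A.F (x + φ (lam x) • v))) • u := by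
    have hzero : Differentiable ℂ (fun _ : ℂ => (0 : ℂ)) := differentiable_const _
    rcases hκ with rfl | rfl
    · obtain ⟨ε, hε, h⟩ := hRa r₁ r₂ (by linarith) (by linarith)
      refine ⟨ε, hε, fun φ ψ hφ hψ hφs hψs => ?_⟩
      obtain ⟨B, hB, hBx⟩ := h (fun _ => 0) φ (fun _ => 0) ψ hzero hφ hzero hψ
        (fun z hz => ⟨by simpa using hε, hφs z hz⟩) (fun z hz => ⟨by simpa using hε, hψs z hz⟩)
      refine ⟨B, hB, fun x => ?_⟩
      rw [hBx, osh_zero, osh_zero]
    · obtain ⟨ε, hε, h⟩ := hRb r₁ r₂ (by linarith) (by linarith)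
      refine ⟨ε, hε, fun φ ψ hφ hψ hφs hψs => ?_⟩
      obtain ⟨B, hB, hBx⟩ := h (fun _ => 0) φ (fun _ => 0) ψ hzero hφ hzero hψ
        (fun z hz => ⟨by simpa using hε, hφs z hz⟩) (fun z hz => ⟨by simpa using hε, hψs z hz⟩)
      refine ⟨B, hB, fun x => ?_⟩
      rw [hBx, osh_zero, osh_zero]
  obtain ⟨ε, hε, hsand⟩ := hsand
  have haN : lam a ∉ N := fun h => absurd (hN _ h) (not_le.2 hk)
  have hxN : lam x₁ ∉ N := fun h => absurd (hN _ h) (not_le.2 hx1)
  have hmb0 : mu b ≠ 0 := by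
    intro h
    have h' : ‖mu b‖ = 0 := by rw [h, norm_zero]
    linarith
  have hmb2 : r₂ < ‖2 * mu b‖ := by
    rw [norm_mul]
    have : ‖(2 : ℂ)‖ = 2 := by simp
    rw [this]
    have := norm_nonneg (mu b)
    linarith
  have hbN : mu b ∉ N' := fun h => absurd (hN' _ h) (not_le.2 hs)
  have hbN2 : 2 * mu b ∉ N' := fun h => absurd (hN' _ h) (not_le.2 hmb2)
  have hne2 : mu b ≠ 2 * mu b := by
    intro h
    apply hmb0
    linear_combination -h
  have memN : ∀ j < k, lam (A.F^[j] y) ∈ N := fun j hj =>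
    Finset.mem_union_left _ (Finset.mem_image.2 ⟨j, Finset.mem_range.2 hj, rfl⟩)
  have memN2 : ∀ j < K, lam (A.F^[j + 1] x₁) ∈ N := fun j hj =>
    Finset.mem_union_right _ (Finset.mem_image.2 ⟨j, Finset.mem_range.2 hj, rfl⟩)
  have memN' : ∀ j < k, mu (A.F^[j + 1] y) ∈ N' := fun j hj =>
    Finset.mem_union_left _ (Finset.mem_image.2 ⟨j, Finset.mem_range.2 hj, rfl⟩)
  have memN2' : ∀ j < K, mu (A.F^[j + 1] x₁) ∈ N' := fun j hj =>
    Finset.mem_union_right _ (Finset.mem_image.2 ⟨j, Finset.mem_range.2 hj, rfl⟩)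
  by_cases heq : lam a = lam x₁
  · -- direct jump
    obtain ⟨φ, hφd, hφa, -, hφN, hφs⟩ := hI N r₁ ε (lam a) (2 * lam a) (lam' (x₁ - a)) 0
      (by linarith) hε hr1a (by
        rw [norm_mul]
        have : ‖(2 : ℂ)‖ = 2 := by simp
        rw [this]
        have := norm_nonneg (lam a)
        linarith) (by
        intro h
        have h0 : lam a = 0 := by linear_combination -h
        rw [h0, norm_zero] at hk
        linarith) haN (by
        intro h
        have := hN _ h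
        rw [norm_mul] at this
        have h2 : ‖(2 : ℂ)‖ = 2 := by simp
        rw [h2] at this
        have := norm_nonneg (lam a)
        linarith)
    obtain ⟨B, hB, hBx⟩ := hsand φ (fun _ => 0) hφd (differentiable_const _) hφs
      (fun z hz => by simpa using hε)
    simp only [zero_smul, add_zero] at hBx
    refine ⟨B, hB, y, hy, K + k, ?_⟩
    have e1 : B.F^[k] y = a := by
      apply follow y k
      intro j hj
      rw [hBx, hφN _ (memN j hj), zero_smul, add_zero, Function.iterate_succ_apply']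
    have hx1a : a + φ (lam a) • v = x₁ := by
      rw [hφa]
      have := hdec (x₁ - a)
      rw [map_sub lam, heq, sub_self, zero_smul, zero_add] at this
      rw [← this]
      abel
    have e2 : B.F a = A.F x₁ := by rw [hBx, hx1a]
    obtain ⟨K', rfl⟩ : ∃ K', K = K' + 1 := ⟨K - 1, by omega⟩
    have e3 : B.F^[K'] (A.F x₁) = A.F^[K'] (A.F x₁) := by
      apply follow
      intro j hj
      rw [hBx]
      have : lam (A.F^[j] (A.F x₁)) ∈ N := by
        have := memN2 j (by omega)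
        rwa [Function.iterate_succ_apply] at this
      rw [hφN _ this, zero_smul, add_zero, Function.iterate_succ_apply']
    rw [Function.iterate_add_apply, e1, Function.iterate_succ_apply, e2, e3,
      ← Function.iterate_succ_apply]
    exact hKx
  · obtain ⟨ψ, hψd, hψb, -, hψN, hψs⟩ := hI N' r₂ ε (mu b) (2 * mu b) (lam x₁ - lam b) 0
      (by linarith) hε hs hmb2 hne2 hbN hbN2
    set b' := b + (lam x₁ - lam b) • u with hb'
    have hlb' : lam b' = lam x₁ := by
      rw [hb', map_add, map_smul, hlu', smul_eq_mul, mul_one]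
      ring
    obtain ⟨φ, hφd, hφa, hφx, hφN, hφs⟩ := hI N r₁ ε (lam a) (lam x₁) s (lam' (x₁ - b'))
      (by linarith) hε hr1a hr1x heq haN hxN
    obtain ⟨B, hB, hBx⟩ := hsand φ ψ hφd hψd hφs hψs
    refine ⟨B, hB, y, hy, K + (1 + k), ?_⟩
    have e1 : B.F^[k] y = a := by
      apply follow y k
      intro j hj
      rw [hBx, hφN _ (memN j hj), zero_smul, add_zero]
      have := memN' j hj
      rw [Function.iterate_succ_apply'] at this
      rw [hψN _ this, zero_smul, add_zero, Function.iterate_succ_apply']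
    have e2 : B.F a = b' := by
      rw [hBx, hφa, ← hb, hψb]
    have hx1b : b' + φ (lam b') • v = x₁ := by
      rw [hlb', hφx]
      have := hdec (x₁ - b')
      rw [map_sub lam, hlb', sub_self, zero_smul, zero_add] at this
      rw [← this]
      abel
    obtain ⟨K', rfl⟩ : ∃ K', K = K' + 1 := ⟨K - 1, by omega⟩
    have e4 : B.F b' = A.F x₁ := by
      rw [hBx, hx1b]
      have := memN2' 0 (by omega)
      rw [zero_add, Function.iterate_one] at this
      rw [hψN _ this, zero_smul, add_zero]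
    have e3 : B.F^[K'] (A.F x₁) = A.F^[K'] (A.F x₁) := by
      apply follow
      intro j hj
      rw [hBx]
      have m1 : lam (A.F^[j] (A.F x₁)) ∈ N := by
        have := memN2 j (by omega)
        rwa [Function.iterate_succ_apply] at this
      rw [hφN _ m1, zero_smul, add_zero]
      have m2 : mu (A.F (A.F^[j] (A.F x₁))) ∈ N' := by
        have := memN2' (j + 1) (by omega)
        rwa [Function.iterate_succ_apply, Function.iterate_succ_apply'] at this
      rw [hψN _ m2, zero_smul, add_zero, Function.iterate_succ_apply']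
    rw [show K' + 1 + (1 + k) = K' + (1 + (1 + k)) by ring, Function.iterate_add_apply,
      Function.iterate_add_apply, Function.iterate_add_apply, e1, Function.iterate_one, e2, e4, e3,
      ← Function.iterate_succ_apply]
    exact hKx

theorem s_Route (hS : S_Sand) (hI : S_Int) (hU : S_Unb) : S_Route := by
  intro A V hV hA t r n hT U hUo hunb
  by_cases hf : ∀ M : ℝ, ∃ y ∈ U, ∃ k : ℕ, M < ‖ContinuousLinearMap.fst ℂ ℂ ℂ (A.F^[k] y)‖
  · refine route_aux hS hI hU A V hV hA t r n hT U (ContinuousLinearMap.fst ℂ ℂ ℂ)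
      (ContinuousLinearMap.snd ℂ ℂ ℂ) (0, 1) (1, 0) (by simp) (by simp) (by simp) (by simp)
      (fun x => by ext <;> simp) hf
  · refine route_aux hS hI hU A V hV hA t r n hT U (ContinuousLinearMap.snd ℂ ℂ ℂ)
      (ContinuousLinearMap.fst ℂ ℂ ℂ) (1, 0) (0, 1) (by simp) (by simp) (by simp) (by simp)
      (fun x => by ext <;> simp) ?_
    push Not at hf
    obtain ⟨M₁, hM₁⟩ := hf
    intro M
    obtain ⟨y, hy, k, hk⟩ := hunb (max M M₁)
    refine ⟨y, hy, k, ?_⟩
    have h1 := hM₁ y hy k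
    simp only [ContinuousLinearMap.coe_fst', ContinuousLinearMap.coe_snd'] at h1 ⊢
    rw [Prod.norm_def] at hk
    rcases lt_max_iff.1 hk with h | h
    · exact absurd (lt_of_le_of_lt (le_max_right M M₁) h) (not_lt.2 h1)
    · exact lt_of_le_of_lt (le_max_left _ _) h

end Pool.Agent.Helper96.GB
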