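import Pool.Agent.Helper96.GB.Half

/-! Saddle points of maps near degenerate maps (MP_cd5a48_an). -/

set_option autoImplicit false

open Set Filter Metric Topology

namespace Pool.Agent.Helper96.GB

/-- contractions of closed balls have fixed points -/
theorem contr_fix {X : Type*} [NormedAddCommGroup X] [CompleteSpace X] (Φ : X → X) (a : X) (ρ : ℝ)
    (hρ : 0 ≤ ρ) (θ : ℝ) (h0 : 0 ≤ θ) (h1 : θ < 1) (hm : ∀ x ∈ closedBall a ρ, Φ x ∈ closedBall a ρ)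
    (hl : ∀ x ∈ closedBall a ρ, ∀ y ∈ closedBall a ρ, ‖Φ x - Φ y‖ ≤ θ * ‖x - y‖) :
    ∃ x ∈ closedBall a ρ, Φ x = x := by
  have hsf : MapsTo Φ (closedBall a ρ) (closedBall a ρ) := fun x hx => hm x hx
  have hcon : ContractingWith ⟨θ, h0⟩ (hsf.restrict Φ (closedBall a ρ) (closedBall a ρ)) := by
    refine ⟨?_, LipschitzWith.of_dist_le_mul fun x y => ?_⟩
    · exact_mod_cast h1
    · have h := hl x x.2 y y.2
      rw [← dist_eq_norm, ← dist_eq_norm] at h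
      exact h
  obtain ⟨y, hy, h1, _⟩ := hcon.exists_fixedPoint' isClosed_closedBall.isComplete hsf
    (mem_closedBall_self hρ) (edist_ne_top _ _)
  exact ⟨y, hy, h1⟩

/-- `q` is a fixed point near which `G` is close to `(z, w) ↦ (lam z, h z)`. -/
def Sad (G : E → E) (q : E) (lam : ℂ) (r η K : ℝ) : Prop :=
  G q = q ∧ ∀ x ∈ closedBall q r, ∀ y ∈ closedBall q r,
    ‖(G x).1 - (G y).1 - lam * (x.1 - y.1)‖ ≤ η * (‖x.1 - y.1‖ + ‖x.2 - y.2‖) ∧
    ‖(G x).2 - (G y).2‖ ≤ K * ‖x.1 - y.1‖ + η * ‖x.2 - y.2‖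

/-- the constants are suitable -/
structure Const (lam : ℂ) (r η K μ : ℝ) : Prop where
  hr : 0 < r
  hη : 0 < η
  hK : 0 ≤ K
  hμ : 1 < μ
  h1 : μ + η * (K + 2) ≤ ‖lam‖
  h2 : η * (K + 1) ≤ 1 / 2
  h3 : 2 * (K + 1) * η ≤ μ - 1

/-- a Lipschitz graph -/
def Gr (q : E) (r K : ℝ) (φ : ℂ → ℂ) (ρ : ℝ) : Prop :=
  (∀ z ∈ closedBall q.1 ρ, ∀ z' ∈ closedBall q.1 ρ, ‖φ z - φ z'‖ ≤ (K + 1) * ‖z - z'‖) ∧
    ∀ z ∈ closedBall q.1 ρ, ‖φ z - q.2‖ ≤ r

theorem mem_poly {q x : E} {r : ℝ} (h1 : ‖x.1 - q.1‖ ≤ r) (h2 : ‖x.2 - q.2‖ ≤ r) :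
    x ∈ closedBall q r := by
  rw [mem_closedBall, dist_eq_norm, Prod.norm_def]
  exact max_le h1 h2

theorem poly_fst {q x : E} {r : ℝ} (h : x ∈ closedBall q r) : ‖x.1 - q.1‖ ≤ r := by
  rw [mem_closedBall, dist_eq_norm] at h
  exact (norm_fst_le (x - q)).trans h

theorem poly_snd {q x : E} {r : ℝ} (h : x ∈ closedBall q r) : ‖x.2 - q.2‖ ≤ r := by
  rw [mem_closedBall, dist_eq_norm] at h
  exact (norm_snd_le (x - q)).trans h

section

variable {G : E → E} {q : E} {lam : ℂ} {r η K μ : ℝ}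

theorem graph_step (hG : Sad G q lam r η K) (hC : Const lam r η K μ) (φ : ℂ → ℂ) (ρ ρ' : ℝ)
    (hρ : 0 ≤ ρ) (hρr : ρ ≤ r / (2 * (K + 1))) (hφ : Gr q r K φ ρ) (hρ' : 0 ≤ ρ')
    (hsub : closedBall q.1 ρ' ⊆ closedBall (G (q.1, φ q.1)).1 (μ * ρ)) :
    ∃ ψ : ℂ → ℂ, Gr q r K ψ ρ' ∧
      (∀ ζ ∈ closedBall q.1 ρ', ∃ z ∈ closedBall q.1 ρ, G (z, φ z) = (ζ, ψ ζ)) ∧
      (φ q.1 = q.2 → ψ q.1 = q.2) := by
  obtain ⟨hr, hη, hK, hμ, h1, h2, h3⟩ := hC
  obtain ⟨hGq, hG⟩ := hG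
  obtain ⟨hφ1, hφ2⟩ := hφ
  have hK1 : 0 < K + 1 := by linarith
  have hρr' : ρ * (2 * (K + 1)) ≤ r := by
    rwa [le_div_iff₀ (by positivity)] at hρr
  have hρr2 : ρ ≤ r := by nlinarith
  have hlam : 0 < ‖lam‖ := by
    have : 0 < η * (K + 2) := by positivity
    linarith
  have hlam0 : lam ≠ 0 := norm_pos_iff.1 hlam
  set T : ℂ → ℂ := fun z => (G (z, φ z)).1 with hT
  have hmem : ∀ z ∈ closedBall q.1 ρ, ((z, φ z) : E) ∈ closedBall q r := by
    intro z hz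
    refine mem_poly ?_ (hφ2 z hz)
    rw [mem_closedBall, dist_eq_norm] at hz
    exact hz.trans hρr2
  have hT1 : ∀ z ∈ closedBall q.1 ρ, ∀ z' ∈ closedBall q.1 ρ,
      ‖T z - T z' - lam * (z - z')‖ ≤ η * (K + 2) * ‖z - z'‖ := by
    intro z hz z' hz'
    have h4 := (hG _ (hmem z hz) _ (hmem z' hz')).1
    have h5 := hφ1 z hz z' hz'
    have h6 : η * (‖z - z'‖ + ‖φ z - φ z'‖) ≤ η * (‖z - z'‖ + (K + 1) * ‖z - z'‖) := by
      gcongr
    calc ‖T z - T z' - lam * (z - z')‖ ≤ η * (‖z - z'‖ + ‖φ z - φ z'‖) := h4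
      _ ≤ _ := h6
      _ = η * (K + 2) * ‖z - z'‖ := by ring
  have hT2 : ∀ z ∈ closedBall q.1 ρ, ∀ z' ∈ closedBall q.1 ρ, μ * ‖z - z'‖ ≤ ‖T z - T z'‖ := by
    intro z hz z' hz'
    have h4 := hT1 z hz z' hz'
    have h5 : ‖lam * (z - z')‖ ≤ ‖T z - T z'‖ + ‖T z - T z' - lam * (z - z')‖ := by
      have := norm_sub_le (T z - T z') (T z - T z' - lam * (z - z'))
      rwa [sub_sub_cancel] at this
    rw [norm_mul] at h5
    nlinarith [norm_nonneg (z - z')]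
  have hsurj : ∀ ζ ∈ closedBall (T q.1) (μ * ρ), ∃ z ∈ closedBall q.1 ρ, T z = ζ := by
    intro ζ hζ
    rw [mem_closedBall, dist_eq_norm] at hζ
    have hq1 : q.1 ∈ closedBall q.1 ρ := mem_closedBall_self hρ
    obtain ⟨z, hz, hz'⟩ := contr_fix (fun z => z + (ζ - T z) / lam) q.1 ρ hρ
      (η * (K + 2) / ‖lam‖) (by positivity) (by
        rw [div_lt_one hlam]; linarith) (by
        intro z hz
        have h4 := hT1 z hz q.1 hq1
        have h5 := hz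
        rw [mem_closedBall, dist_eq_norm] at h5
        rw [mem_closedBall, dist_eq_norm]
        have e : z + (ζ - T z) / lam - q.1 = ((ζ - T q.1) - (T z - T q.1 - lam * (z - q.1))) / lam := by
          field_simp
          ring
        rw [e, norm_div, div_le_iff₀ hlam]
        have h6 := norm_sub_le (ζ - T q.1) (T z - T q.1 - lam * (z - q.1))
        have h7 : η * (K + 2) * ‖z - q.1‖ ≤ η * (K + 2) * ρ := by gcongr
        nlinarith) (by
        intro z hz z' hz'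
        have h4 := hT1 z hz z' hz'
        have e : z + (ζ - T z) / lam - (z' + (ζ - T z') / lam) =
            -(T z - T z' - lam * (z - z')) / lam := by
          field_simp
          ring
        rw [e, norm_div, norm_neg, div_mul_eq_mul_div]
        gcongr)
    refine ⟨z, hz, ?_⟩
    have h8 : (ζ - T z) / lam = 0 := by
      have := hz'
      simpa using this
    rw [div_eq_zero_iff] at h8
    rcases h8 with h8 | h8
    · exact (sub_eq_zero.1 h8).symm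
    · exact absurd h8 hlam0
  have hsurj' : ∀ ζ : ℂ, ∃ z : ℂ, ζ ∈ closedBall q.1 ρ' → z ∈ closedBall q.1 ρ ∧ T z = ζ := by
    intro ζ
    by_cases hζ : ζ ∈ closedBall q.1 ρ'
    · obtain ⟨z, h4, h5⟩ := hsurj ζ (hsub hζ)
      exact ⟨z, fun _ => ⟨h4, h5⟩⟩
    · exact ⟨0, fun h => absurd h hζ⟩
  choose g hg using hsurj'
  refine ⟨fun ζ => (G (g ζ, φ (g ζ))).2, ⟨?_, ?_⟩, ?_, ?_⟩
  · intro ζ hζ ζ' hζ'
    obtain ⟨m1, e1⟩ := hg ζ hζ
    obtain ⟨m2, e2⟩ := hg ζ' hζ'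
    have h4 := (hG _ (hmem _ m1) _ (hmem _ m2)).2
    have h5 := hφ1 _ m1 _ m2
    have h6 := hT2 _ m1 _ m2
    rw [e1, e2] at h6
    have h7 : ‖g ζ - g ζ'‖ ≤ ‖ζ - ζ'‖ := by nlinarith [norm_nonneg (g ζ - g ζ')]
    calc ‖(G (g ζ, φ (g ζ))).2 - (G (g ζ', φ (g ζ'))).2‖
        ≤ K * ‖g ζ - g ζ'‖ + η * ‖φ (g ζ) - φ (g ζ')‖ := h4
      _ ≤ K * ‖g ζ - g ζ'‖ + η * ((K + 1) * ‖g ζ - g ζ'‖) := by gcongr
      _ = (K + η * (K + 1)) * ‖g ζ - g ζ'‖ := by ring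
      _ ≤ (K + 1) * ‖g ζ - g ζ'‖ := by
          gcongr
          linarith
      _ ≤ (K + 1) * ‖ζ - ζ'‖ := by gcongr
  · intro ζ hζ
    obtain ⟨m1, e1⟩ := hg ζ hζ
    have h4 := (hG _ (hmem _ m1) q (mem_closedBall_self hr.le)).2
    rw [hGq] at h4
    have h5 := hφ2 _ m1
    have h6 := m1
    rw [mem_closedBall, dist_eq_norm] at h6
    calc ‖(G (g ζ, φ (g ζ))).2 - q.2‖ ≤ K * ‖g ζ - q.1‖ + η * ‖φ (g ζ) - q.2‖ := h4
      _ ≤ K * ρ + η * r := by gcongr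
      _ ≤ r := by nlinarith
  · intro ζ hζ
    obtain ⟨m1, e1⟩ := hg ζ hζ
    exact ⟨g ζ, m1, Prod.ext e1 rfl⟩
  · intro hφq
    obtain ⟨m1, e1⟩ := hg q.1 (mem_closedBall_self hρ')
    have hTq : T q.1 = q.1 := by
      show (G (q.1, φ q.1)).1 = q.1
      rw [hφq]
      exact congrArg Prod.fst hGq
    have h6 := hT2 _ m1 _ (mem_closedBall_self hρ)
    rw [e1, hTq, sub_self, norm_zero] at h6
    have h7 : ‖g q.1 - q.1‖ = 0 := by
      apply le_antisymm _ (norm_nonneg _)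
      nlinarith [norm_nonneg (g q.1 - q.1)]
    have h8 : g q.1 = q.1 := sub_eq_zero.1 (norm_eq_zero.1 h7)
    show (G (g q.1, φ (g q.1))).2 = q.2
    rw [h8, hφq]
    exact congrArg Prod.snd hGq

theorem gr_const (hC : Const lam r η K μ) (β : ℂ) (hβ : ‖β - q.2‖ ≤ r) (ρ : ℝ) :
    Gr q r K (fun _ => β) ρ := by
  refine ⟨fun z _ z' _ => ?_, fun z _ => hβ⟩
  rw [sub_self, norm_zero]
  have := hC.hK
  positivity

theorem graph_small (hG : Sad G q lam r η K) (hC : Const lam r η K μ) (ρ₀ : ℝ) (h0 : 0 < ρ₀) :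
    ∃ n, ∀ ζ ∈ closedBall q.1 (r / (2 * (K + 1))), ∃ z ∈ closedBall q.1 ρ₀, ∃ w, ‖w - q.2‖ ≤ r ∧
      G^[n] (z, q.2) = (ζ, w) := by
  set r₁ : ℝ := r / (2 * (K + 1)) with hr₁
  have hr := hC.hr
  have hK := hC.hK
  have hμ := hC.hμ
  have hr₁0 : 0 < r₁ := by positivity
  have key : ∀ n : ℕ, ∃ φ : ℂ → ℂ, Gr q r K φ (min r₁ (μ ^ n * ρ₀)) ∧ φ q.1 = q.2 ∧
      ∀ ζ ∈ closedBall q.1 (min r₁ (μ ^ n * ρ₀)), ∃ z ∈ closedBall q.1 ρ₀,
        G^[n] (z, q.2) = (ζ, φ ζ) := by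
    intro n
    induction n with
    | zero =>
      refine ⟨fun _ => q.2, gr_const hC q.2 (by rw [sub_self, norm_zero]; exact hr.le) _, rfl, ?_⟩
      intro ζ hζ
      refine ⟨ζ, closedBall_subset_closedBall ?_ hζ, rfl⟩
      rw [pow_zero, one_mul]
      exact min_le_right _ _
    | succ n ih =>
      obtain ⟨φ, h1, h2, h3⟩ := ih
      have hp : 0 < μ ^ n * ρ₀ := by positivity
      have hm : 0 < min r₁ (μ ^ n * ρ₀) := lt_min hr₁0 hp
      have hle : min r₁ (μ ^ (n + 1) * ρ₀) ≤ μ * min r₁ (μ ^ n * ρ₀) := by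
        rcases le_total r₁ (μ ^ n * ρ₀) with h | h
        · rw [min_eq_left h]
          refine (min_le_left _ _).trans ?_
          nlinarith
        · rw [min_eq_right h]
          refine (min_le_right _ _).trans ?_
          rw [pow_succ]
          apply le_of_eq
          ring
      have hTq : (G (q.1, φ q.1)).1 = q.1 := by
        rw [h2]
        exact congrArg Prod.fst hG.1
      obtain ⟨ψ, g1, g2, g3⟩ := graph_step hG hC φ (min r₁ (μ ^ n * ρ₀))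
        (min r₁ (μ ^ (n + 1) * ρ₀)) hm.le (min_le_left _ _) h1
        (lt_min hr₁0 (by positivity)).le (by
          rw [hTq]
          exact closedBall_subset_closedBall hle)
      refine ⟨ψ, g1, g3 h2, ?_⟩
      intro ζ hζ
      obtain ⟨z, hz, hz'⟩ := g2 ζ hζ
      obtain ⟨z₂, hz₂, hz₂'⟩ := h3 z hz
      exact ⟨z₂, hz₂, by rw [Function.iterate_succ_apply', hz₂', hz']⟩
  obtain ⟨n, hn⟩ := pow_unbounded_of_one_lt (r₁ / ρ₀) hμ
  obtain ⟨φ, h1, h2, h3⟩ := key n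
  have hle : r₁ ≤ μ ^ n * ρ₀ := by
    rw [div_lt_iff₀ h0] at hn
    exact hn.le
  rw [min_eq_left hle] at h1 h3
  refine ⟨n, fun ζ hζ => ?_⟩
  obtain ⟨z, hz, hz'⟩ := h3 ζ hζ
  exact ⟨z, hz, φ ζ, h1.2 ζ hζ, hz'⟩

theorem graph_full (hG : Sad G q lam r η K) (hC : Const lam r η K μ) (β : ℂ)
    (hβ : ‖β - q.2‖ ≤ r) (n : ℕ) :
    ∃ z ∈ closedBall q.1 (r / (2 * (K + 1))), ∀ j ≤ n, G^[j] (z, β) ∈ closedBall q r := by
  set r₁ : ℝ := r / (2 * (K + 1)) with hr₁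
  have hr := hC.hr
  have hK := hC.hK
  have hμ := hC.hμ
  have hr₁0 : 0 < r₁ := by positivity
  have hK1 : 0 < K + 1 := by linarith
  have hr₁r : r₁ ≤ r := by
    rw [hr₁, div_le_iff₀ (by positivity)]
    nlinarith
  have key : ∀ n : ℕ, ∃ φ : ℂ → ℂ, Gr q r K φ r₁ ∧
      ∀ ζ ∈ closedBall q.1 r₁, ∃ z ∈ closedBall q.1 r₁,
        G^[n] (z, β) = (ζ, φ ζ) ∧ ∀ j ≤ n, G^[j] (z, β) ∈ closedBall q r := by
    intro n
    induction n with
    | zero =>
      refine ⟨fun _ => β, gr_const hC β hβ _, ?_⟩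
      intro ζ hζ
      refine ⟨ζ, hζ, rfl, ?_⟩
      intro j hj
      obtain rfl : j = 0 := by omega
      refine mem_poly ?_ hβ
      rw [mem_closedBall, dist_eq_norm] at hζ
      exact hζ.trans hr₁r
    | succ n ih =>
      obtain ⟨φ, h1, h3⟩ := ih
      have hTa : ‖(G (q.1, φ q.1)).1 - q.1‖ ≤ (μ - 1) * r₁ := by
        have hm : ((q.1, φ q.1) : E) ∈ closedBall q r := by
          refine mem_poly ?_ (h1.2 _ (mem_closedBall_self hr₁0.le))
          rw [sub_self, norm_zero]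
          exact hr.le
        have h4 := (hG.2 _ hm q (mem_closedBall_self hr.le)).1
        rw [hG.1] at h4
        simp only [sub_self, mul_zero, sub_zero, norm_zero, zero_add] at h4
        have h5 := h1.2 _ (mem_closedBall_self hr₁0.le)
        have h6 : η * ‖φ q.1 - q.2‖ ≤ η * r := by
          have := hC.hη
          gcongr
        have h7 := hC.h3
        have h8 : η * r ≤ (μ - 1) * r₁ := by
          have e : r = 2 * (K + 1) * r₁ := by
            rw [hr₁]; field_simp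
          calc η * r = (2 * (K + 1) * η) * r₁ := by rw [e]; ring
            _ ≤ (μ - 1) * r₁ := by gcongr
        exact h4.trans (h6.trans h8)
      obtain ⟨ψ, g1, g2, g3⟩ := graph_step hG hC φ r₁ r₁ hr₁0.le le_rfl h1 hr₁0.le (by
        intro ζ hζ
        rw [mem_closedBall, dist_eq_norm] at hζ ⊢
        have h9 := norm_sub_le_norm_sub_add_norm_sub ζ q.1 (G (q.1, φ q.1)).1
        rw [norm_sub_rev q.1] at h9
        linarith)
      refine ⟨ψ, g1, ?_⟩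
      intro ζ hζ
      obtain ⟨z, hz, hz'⟩ := g2 ζ hζ
      obtain ⟨z₂, hz₂, hz₂', hz₂''⟩ := h3 z hz
      have e : G^[n + 1] (z₂, β) = (ζ, ψ ζ) := by rw [Function.iterate_succ_apply', hz₂', hz']
      refine ⟨z₂, hz₂, e, ?_⟩
      intro j hj
      rcases Nat.lt_or_ge j (n + 1) with h | h
      · exact hz₂'' j (by omega)
      · obtain rfl : j = n + 1 := by omega
        rw [e]
        refine mem_poly ?_ (g1.2 ζ hζ)
        rw [mem_closedBall, dist_eq_norm] at hζ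
        exact hζ.trans hr₁r
  obtain ⟨φ, -, h3⟩ := key n
  obtain ⟨z, hz, -, hz'⟩ := h3 q.1 (mem_closedBall_self hr₁0.le)
  exact ⟨z, hz, hz'⟩

theorem exists_stable (hG : Sad G q lam r η K) (hC : Const lam r η K μ) (hc : Continuous G) (β : ℂ)
    (hβ : ‖β - q.2‖ ≤ r) : ∃ z : ℂ, ∀ j, G^[j] (z, β) ∈ closedBall q r := by
  choose z hz hz' using graph_full hG hC β hβ
  obtain ⟨z₀, -, φ, hφ, hlim⟩ := (isCompact_closedBall q.1 (r / (2 * (K + 1)))).tendsto_subseq hz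
  refine ⟨z₀, fun j => ?_⟩
  have h1 : Continuous fun z : ℂ => G^[j] (z, β) :=
    (hc.iterate j).comp (continuous_id.prodMk continuous_const)
  have h2 : Tendsto (fun n => G^[j] (z (φ n), β)) atTop (𝓝 (G^[j] (z₀, β))) :=
    (h1.tendsto z₀).comp hlim
  refine isClosed_closedBall.mem_of_tendsto h2 ?_
  filter_upwards [eventually_ge_atTop j] with n hn
  exact hz' (φ n) j (hn.trans (hφ.id_le n))

theorem stable_cone (hG : Sad G q lam r η K) (θ ν : ℝ) (hη : 0 ≤ η) (hr : 0 ≤ r) (hK : 0 ≤ K)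
    (hθ : 0 < θ) (hν : 1 < ν) (h1 : ν * θ + η * (θ + 1) ≤ ‖lam‖ * θ) (h2 : θ * K + η ≤ 1) (x : E)
    (hx : ∀ j, G^[j] x ∈ closedBall q r) : ‖x.1 - q.1‖ ≤ θ * ‖x.2 - q.2‖ := by
  by_contra hcon
  push Not at hcon
  have key : ∀ j, θ * ‖(G^[j] x).2 - q.2‖ ≤ ‖(G^[j] x).1 - q.1‖ ∧
      ν ^ j * ‖x.1 - q.1‖ ≤ ‖(G^[j] x).1 - q.1‖ := by
    intro j
    induction j with
    | zero => exact ⟨hcon.le, by simp⟩
    | succ j ih =>
      obtain ⟨g1, g2⟩ := ih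
      rw [Function.iterate_succ_apply']
      set y := G^[j] x with hy
      obtain ⟨g3, g4⟩ := hG.2 y (hx j) q (mem_closedBall_self hr)
      rw [hG.1] at g3 g4
      have g5 : ‖lam‖ * ‖y.1 - q.1‖ ≤ ‖(G y).1 - q.1‖ + η * (‖y.1 - q.1‖ + ‖y.2 - q.2‖) := by
        have := norm_sub_le ((G y).1 - q.1) ((G y).1 - q.1 - lam * (y.1 - q.1))
        rw [sub_sub_cancel, norm_mul] at this
        linarith
      have n1 := norm_nonneg (y.1 - q.1)
      have n2 := norm_nonneg (y.2 - q.2)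
      have g6 : ν * ‖y.1 - q.1‖ ≤ ‖(G y).1 - q.1‖ := by
        have g7 : θ * (‖lam‖ * ‖y.1 - q.1‖) ≤
            θ * ‖(G y).1 - q.1‖ + η * (θ * ‖y.1 - q.1‖ + ‖y.1 - q.1‖) := by
          have : θ * (η * (‖y.1 - q.1‖ + ‖y.2 - q.2‖)) ≤
              η * (θ * ‖y.1 - q.1‖ + ‖y.1 - q.1‖) := by
            have e : θ * (η * (‖y.1 - q.1‖ + ‖y.2 - q.2‖)) =
                η * (θ * ‖y.1 - q.1‖ + θ * ‖y.2 - q.2‖) := by ring
            rw [e]
            gcongr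
          have g8 := mul_le_mul_of_nonneg_left g5 hθ.le
          linarith
        have g9 := mul_le_mul_of_nonneg_right h1 n1
        have g10 : θ * (ν * ‖y.1 - q.1‖) ≤ θ * ‖(G y).1 - q.1‖ := by nlinarith
        exact le_of_mul_le_mul_left g10 hθ
      refine ⟨?_, ?_⟩
      · have g11 : θ * ‖(G y).2 - q.2‖ ≤ ‖y.1 - q.1‖ := by
          have g12 := mul_le_mul_of_nonneg_left g4 hθ.le
          have g13 : θ * (K * ‖y.1 - q.1‖ + η * ‖y.2 - q.2‖) =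
              θ * K * ‖y.1 - q.1‖ + η * (θ * ‖y.2 - q.2‖) := by ring
          have g14 : η * (θ * ‖y.2 - q.2‖) ≤ η * ‖y.1 - q.1‖ := by gcongr
          have g15 := mul_le_mul_of_nonneg_right h2 n1
          linarith
        nlinarith
      · rw [pow_succ]
        calc ν ^ j * ν * ‖x.1 - q.1‖ = ν * (ν ^ j * ‖x.1 - q.1‖) := by ring
          _ ≤ ν * ‖y.1 - q.1‖ := by gcongr
          _ ≤ _ := g6
  have h0 : 0 < ‖x.1 - q.1‖ := by
    refine lt_of_le_of_lt ?_ hcon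
    positivity
  obtain ⟨j, hj⟩ := pow_unbounded_of_one_lt (r / ‖x.1 - q.1‖) hν
  have h3 := (key j).2
  have h4 := poly_fst (hx j)
  rw [div_lt_iff₀ h0] at hj
  linarith

end

end Pool.Agent.Helper96.GB
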