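import Pool.Agent.Helper96.GB.Adapt
import Pool.Agent.Helper96.GB.DegThm

/-! Basins bounded by `C^1` hypersurfaces near a periodic point (MP_cd5a48_an). -/

set_option autoImplicit false

open Set Filter Metric Topology

namespace Pool.Agent.Helper96.GB

theorem half_closure {B : Set E} {q : E} {ℓ : E →L[ℝ] ℝ} (hH : Half B q ℓ) :
    Half (closure B) q ℓ := by
  intro ε hε
  obtain ⟨δ, hδ, h⟩ := Metric.eventually_nhds_iff.1 (hH ε hε)
  filter_upwards [ball_mem_nhds q hδ] with y hy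
  refine ⟨fun h1 => subset_closure ((h hy).1 h1), fun h1 h2 => ?_⟩
  have hO : IsOpen {y : E | ε * ‖y - q‖ < ℓ (y - q)} :=
    isOpen_lt (by fun_prop) (by fun_prop)
  obtain ⟨z, hz1, hz2⟩ := mem_closure_iff.1 h2 _ (hO.inter isOpen_ball) ⟨h1, hy⟩
  exact (h hz1.2).2 hz1.1 hz2

theorem slice (G : E → E) (B : Set E) (hB : ∀ x, G x ∈ B ↔ x ∈ B) (q : E) (ℓ : E →L[ℝ] ℝ)
    (hH : Half B q ℓ) (l : E →L[ℂ] ℂ) (hℓ : ∀ x, ℓ x = (l x).re) (c : ℝ) (hc : 1 < c)
    (Ψ : ℂ → E) (h0 : Ψ 0 = q) (v : E) (hv : l v = 1) (hd : HasDerivAt Ψ v 0)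
    (hG : ∀ ζ, G (Ψ ζ) = Ψ (c * ζ)) (ζ : ℂ) :
    (ζ.re < 0 → Ψ ζ ∈ B) ∧ (0 < ζ.re → Ψ ζ ∉ B) := by
  have hc0 : (c : ℂ) ≠ 0 := by
    have : c ≠ 0 := by linarith
    exact_mod_cast this
  have hk : ∀ (k : ℕ), Ψ ζ ∈ B ↔ Ψ ((((c ^ k)⁻¹ : ℝ) : ℂ) * ζ) ∈ B := by
    intro k
    induction k with
    | zero => simp
    | succ k ih =>
      have e : (c : ℂ) * ((((c ^ (k + 1))⁻¹ : ℝ) : ℂ) * ζ) = (((c ^ k)⁻¹ : ℝ) : ℂ) * ζ := by
        push_cast
        field_simp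
        ring
      rw [ih, ← hB (Ψ ((((c ^ (k + 1))⁻¹ : ℝ) : ℂ) * ζ)), hG, e]
  have hcurve : HasDerivAt (fun s : ℝ => Ψ ((s : ℂ) * ζ)) (ζ • v) 0 := by
    have h1 : HasDerivAt (fun s : ℝ => (s : ℂ) * ζ) ζ 0 := by
      simpa using (Complex.ofRealCLM.hasDerivAt (x := (0 : ℝ))).mul_const ζ
    have h2 : HasDerivAt Ψ v (((0 : ℝ) : ℂ) * ζ) := by
      rw [Complex.ofReal_zero, zero_mul]
      exact hd
    exact h2.scomp (0 : ℝ) h1
  have hw : ℓ (ζ • v) = ζ.re := by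
    rw [hℓ, map_smul, hv, smul_eq_mul, mul_one]
  obtain ⟨g1, g2⟩ := half_curve hH (c := fun s : ℝ => Ψ ((s : ℂ) * ζ)) (by simp [h0]) hcurve
  rw [hw] at g1 g2
  have hseq : Tendsto (fun k : ℕ => (c ^ k)⁻¹) atTop (𝓝[>] (0 : ℝ)) :=
    tendsto_inv_atTop_nhdsGT_zero.comp (tendsto_pow_atTop_atTop_of_one_lt hc)
  constructor
  · intro h
    obtain ⟨k, hk'⟩ := (hseq.eventually (g1 h)).exists
    exact (hk k).2 hk'
  · intro h h'
    obtain ⟨k, hk'⟩ := (hseq.eventually (g2 h)).exists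
    exact hk' ((hk k).1 h')

theorem curve_injective (G : E → E) (hGi : Function.Injective G) (l : E →L[ℂ] ℂ) (c : ℝ)
    (hc : 1 < c) (Ψ : ℂ → E) (hΨ : Differentiable ℂ Ψ) (v : E) (hv : l v = 1)
    (hd : HasDerivAt Ψ v 0) (hG : ∀ ζ, G (Ψ ζ) = Ψ (c * ζ)) : Function.Injective Ψ := by
  intro a b hab
  have hc0 : (c : ℂ) ≠ 0 := by
    have : c ≠ 0 := by linarith
    exact_mod_cast this
  have hk : ∀ k : ℕ, Ψ ((((c ^ k)⁻¹ : ℝ) : ℂ) * a) = Ψ ((((c ^ k)⁻¹ : ℝ) : ℂ) * b) := by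
    intro k
    induction k with
    | zero => simpa using hab
    | succ k ih =>
      apply hGi
      rw [hG, hG]
      have e : ∀ ζ : ℂ, (c : ℂ) * ((((c ^ (k + 1))⁻¹ : ℝ) : ℂ) * ζ) =
          (((c ^ k)⁻¹ : ℝ) : ℂ) * ζ := by
        intro ζ
        push_cast
        field_simp
        ring
      rw [e, e, ih]
  have hg : Differentiable ℂ (fun ζ => l (Ψ ζ)) := fun ζ =>
    l.differentiableAt.comp ζ (hΨ ζ)
  have hg' : deriv (fun ζ => l (Ψ ζ)) 0 = 1 := by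
    have := (l.hasFDerivAt.comp_hasDerivAt (0 : ℂ) hd).deriv
    rw [hv] at this
    exact this
  have hst := (hg.analyticAt 0).hasStrictDerivAt
  rw [hg'] at hst
  have h1 := (HasStrictDerivAt.hasStrictFDerivAt hst).isLittleO.def
    (show (0 : ℝ) < 1 / 2 by norm_num)
  have hseq : Tendsto (fun k : ℕ => (((c ^ k)⁻¹ : ℝ) : ℂ)) atTop (𝓝 0) := by
    have h2 : Tendsto (fun k : ℕ => (c ^ k)⁻¹) atTop (𝓝 (0 : ℝ)) :=
      tendsto_inv_atTop_zero.comp (tendsto_pow_atTop_atTop_of_one_lt hc)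
    have h3 := (Complex.continuous_ofReal.tendsto 0).comp h2
    rw [Complex.ofReal_zero] at h3
    exact h3
  have hpair : Tendsto (fun k : ℕ => ((((c ^ k)⁻¹ : ℝ) : ℂ) * a, (((c ^ k)⁻¹ : ℝ) : ℂ) * b))
      atTop (𝓝 ((0 : ℂ), (0 : ℂ))) := by
    have h2 := (hseq.mul_const a).prodMk_nhds (hseq.mul_const b)
    simpa using h2
  obtain ⟨k, hk'⟩ := (hpair.eventually h1).exists
  simp only [hk k, sub_self, zero_sub, norm_neg] at hk'
  set t : ℂ := (((c ^ k)⁻¹ : ℝ) : ℂ) with ht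
  have ht0 : t ≠ 0 := by
    rw [ht]
    have : (c ^ k)⁻¹ ≠ 0 := inv_ne_zero (pow_ne_zero _ (by linarith))
    exact_mod_cast this
  have h4 : ‖t * a - t * b‖ ≤ 1 / 2 * ‖t * a - t * b‖ := by
    simpa using hk'
  have h5 : ‖t * a - t * b‖ ≤ 0 := by linarith
  have h6 : t * a = t * b := sub_eq_zero.1 (norm_le_zero_iff.1 h5)
  exact mul_left_cancel₀ ht0 h6

/-- the main statement for a fixed point -/
theorem slice_main (G : Aut2) (B : Set E) (hBo : IsOpen B) (hB : ∀ x, G.F x ∈ B ↔ x ∈ B)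
    (p : E) (hpB : p ∈ B) (hBp : ∀ x ∈ B, Tendsto (fun k => G.F^[k] x) atTop (𝓝 p)) (q : E)
    (hq : G.F q = q) (hqf : q ∈ frontier B) (ℓ : E →L[ℝ] ℝ) (hℓ : ℓ ≠ 0) (hH : Half B q ℓ) :
    ∃ (c : ℝ) (μ : ℂ) (l : E →L[ℂ] ℂ), (∀ x, ℓ x = (l x).re) ∧ 1 ≤ c ∧
      (∀ v, l (fderiv ℂ G.F q v) = c * l v) ∧
      (∀ u, l u = 0 → fderiv ℂ G.F q u = μ • u) ∧
      (1 < c → μ ≠ c → ‖μ‖ < c ^ 2 → ∃ Ψ : ℂ → E, Differentiable ℂ Ψ ∧
        Function.Injective Ψ ∧ Ψ 0 = q ∧ l (deriv Ψ 0) = 1 ∧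
        (∀ ζ, G.F (Ψ ζ) = Ψ (c * ζ)) ∧
        ∀ ζ, (Ψ ζ ∈ B ↔ ζ.re < 0) ∧ (Ψ ζ ∈ frontier B ↔ ζ.re = 0)) := by
  have hqB : q ∉ B := by
    intro h
    rw [hBo.frontier_eq] at hqf
    exact hqf.2 h
  have hpq : p ≠ q := by
    rintro rfl
    exact hqB hpB
  set D := fderiv ℂ G.F q with hDdef
  have hD : HasFDerivAt G.F D q := (G.diff q).hasFDerivAt
  obtain ⟨c, hc0, hc⟩ := exists_factor G.F B hB q hq D hD ℓ hℓ hH
  obtain ⟨l₁, l₂, hl12⟩ := exists_re ℓ
  set l : E →L[ℂ] ℂ := l₁ • ContinuousLinearMap.fst ℂ ℂ ℂ + l₂ • ContinuousLinearMap.snd ℂ ℂ ℂ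
    with hldef
  have hlx : ∀ x : E, l x = l₁ * x.1 + l₂ * x.2 := fun x => rfl
  have hℓl : ∀ x : E, ℓ x = (l x).re := fun x => by rw [hl12, hlx]
  have hl : l ≠ 0 := by
    intro h
    apply hℓ
    ext x
    · simp [hℓl, h]
    · simp [hℓl, h]
  have hlD : ∀ v, l (D v) = c * l v := fun v => by
    rw [hlx, hlx]
    exact eig_eq ℓ l₁ l₂ hl12 D c hc v
  obtain ⟨μ, hμ⟩ := exists_mu D l hl c hlD
  obtain ⟨i1, i2⟩ := comp_deriv G q
  rw [hq, ← hDdef] at i1 i2
  set D' := fderiv ℂ G.F.symm q with hD'def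
  have j1 : ∀ x, D (D' x) = x := fun x => by
    have := congrArg (fun f : E →L[ℂ] E => f x) i1
    exact this
  have j2 : ∀ x, D' (D x) = x := fun x => by
    have := congrArg (fun f : E →L[ℂ] E => f x) i2
    exact this
  have hqs : G.F.symm q = q := by
    conv_lhs => rw [← hq]
    rw [Equiv.symm_apply_apply]
  have hcne : (c : ℂ) ≠ 0 := by
    intro h
    apply hl
    refine ContinuousLinearMap.ext fun x => ?_
    have h1 := hlD (D' x)
    rw [j1, h, zero_mul] at h1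
    rw [h1]
    rfl
  have hcR : c ≠ 0 := by exact_mod_cast hcne
  have hcpos : 0 < c := lt_of_le_of_ne hc0 (Ne.symm hcR)
  have hcn : ‖(c : ℂ)‖ = c := by rw [Complex.norm_real, Real.norm_of_nonneg hc0]
  have hc1 : 1 ≤ c := by
    by_contra hcon
    push Not at hcon
    rcases lt_or_ge ‖μ‖ 1 with hμ1 | hμ1
    · -- attracting
      have h1 := attr_near G.F G.diff q hq l hl c μ hlD hμ (by rw [hcn]; exact hcon) hμ1
      obtain ⟨x, hx1, hx2⟩ := mem_closure_iff_nhds.1 hqf.1 _ h1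
      exact hpq (tendsto_nhds_unique (hBp x hx2) hx1)
    · -- the strongly stable curve
      have hμ0 : μ ≠ 0 := by
        rintro rfl
        rw [norm_zero] at hμ1
        linarith
      have e1 : ∀ x, l (D' x) = (c : ℂ)⁻¹ * l x := by
        intro x
        have h1 := hlD (D' x)
        rw [j1] at h1
        rw [h1]
        field_simp
      have e2 : ∀ u, l u = 0 → D' u = μ⁻¹ • u := by
        intro u hu
        have h1 : D (μ⁻¹ • u) = u := by
          rw [map_smul, hμ u hu, smul_smul, inv_mul_cancel₀ hμ0, one_smul]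
        calc D' u = D' (D (μ⁻¹ • u)) := by rw [h1]
          _ = μ⁻¹ • u := j2 _
      have hcinv : 1 < c⁻¹ := (one_lt_inv₀ hcpos).2 hcon
      have hn1 : ‖(c : ℂ)⁻¹‖ = c⁻¹ := by rw [norm_inv, hcn]
      have hn2 : ‖μ⁻¹‖ ≤ 1 := by
        rw [norm_inv]
        exact inv_le_one_of_one_le₀ hμ1
      obtain ⟨Ψ, -, g2, ⟨v, g3, g4⟩, g5⟩ := exists_curve' G.F.symm G.diff_symm q hqs l hl
        (c : ℂ)⁻¹ μ⁻¹ e1 e2 (by
          intro h
          rw [h, hn1] at hn2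
          linarith) (by rw [hn1]; exact hcinv) (by rw [hn1]; nlinarith)
      have g6 : ∀ ζ, G.F (Ψ ζ) = Ψ (c * ζ) := by
        intro ζ
        have h1 := g5 (c * ζ)
        rw [← mul_assoc, inv_mul_cancel₀ hcne, one_mul] at h1
        rw [← h1, Equiv.apply_symm_apply]
      have g7 : ∀ (k : ℕ) ζ, G.F^[k] (Ψ ζ) = Ψ ((c : ℂ) ^ k * ζ) := by
        intro k ζ
        induction k with
        | zero => simp
        | succ k ih => rw [Function.iterate_succ_apply', ih, g6, pow_succ', mul_assoc]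
      have hcurve : HasDerivAt (fun s : ℝ => Ψ ((s : ℂ) * (-1))) (-v) 0 := by
        have h1 : HasDerivAt (fun s : ℝ => (s : ℂ) * (-1)) (-1) 0 := by
          simpa using (Complex.ofRealCLM.hasDerivAt (x := (0 : ℝ))).mul_const (-1)
        have h2 : HasDerivAt Ψ v (((0 : ℝ) : ℂ) * (-1)) := by
          rw [Complex.ofReal_zero, zero_mul]
          exact g4
        have h3 := h2.scomp (0 : ℝ) h1
        rw [neg_one_smul] at h3
        exact h3
      have hneg : ℓ (-v) < 0 := by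
        rw [hℓl, map_neg, g3]
        simp
      obtain ⟨s, hs⟩ := ((half_curve hH (c := fun s : ℝ => Ψ ((s : ℂ) * (-1)))
        (by simp [g2]) hcurve).1 hneg).exists
      have hlim1 := hBp _ hs
      have hlim2 : Tendsto (fun k => G.F^[k] (Ψ ((s : ℂ) * (-1)))) atTop (𝓝 q) := by
        simp only [g7]
        have h1 : Tendsto (fun k : ℕ => (c : ℂ) ^ k * ((s : ℂ) * (-1))) atTop (𝓝 0) := by
          have := (tendsto_pow_atTop_nhds_zero_of_norm_lt_one
            (by rw [hcn]; exact hcon)).mul_const ((s : ℂ) * (-1))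
          simpa using this
        have h2 := (g4.continuousAt.tendsto).comp h1
        rw [g2] at h2
        exact h2
      exact hpq (tendsto_nhds_unique hlim1 hlim2)
  refine ⟨c, μ, l, hℓl, hc1, hlD, hμ, fun h1 h2 h3 => ?_⟩
  · obtain ⟨Ψ, g1, g2, ⟨v, g3, g4⟩, g5⟩ := exists_curve' G.F G.diff q hq l hl c μ hlD hμ h2
      (by rw [hcn]; exact h1) (by rw [hcn]; exact h3)
    have hBc : ∀ x, G.F x ∈ closure B ↔ x ∈ closure B := by
      intro x
      constructor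
      · intro h
        have h4 := map_mem_closure (t := B) G.diff_symm.continuous h (fun y hy => by
          rw [← hB, Equiv.apply_symm_apply]
          exact hy)
        rwa [Equiv.symm_apply_apply] at h4
      · intro h
        exact map_mem_closure G.diff.continuous h (fun y hy => (hB y).2 hy)
    have s1 := slice G.F B hB q ℓ hH l hℓl c h1 Ψ g2 v g3 g4 g5
    have s2 := slice G.F (closure B) hBc q ℓ (half_closure hH) l hℓl c h1 Ψ g2 v g3 g4 g5
    have hzero : ∀ ζ : ℂ, ζ.re = 0 → Ψ ζ ∉ B := by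
      intro ζ hζ h
      have h4 : ∀ᶠ t : ℝ in 𝓝[>] (0 : ℝ), Ψ (ζ + (t : ℂ)) ∈ B := by
        have h5 : Tendsto (fun t : ℝ => Ψ (ζ + (t : ℂ))) (𝓝[>] 0) (𝓝 (Ψ ζ)) := by
          have h6 : Continuous fun t : ℝ => Ψ (ζ + (t : ℂ)) :=
            g1.continuous.comp (continuous_const.add Complex.continuous_ofReal)
          have h7 := h6.tendsto 0
          rw [Complex.ofReal_zero, add_zero] at h7
          exact h7.mono_left nhdsWithin_le_nhds
        exact h5.eventually (hBo.mem_nhds h)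
      obtain ⟨t, ht1, ht2⟩ := (h4.and self_mem_nhdsWithin).exists
      refine (s1 (ζ + t)).2 ?_ ht1
      rw [Complex.add_re, hζ, zero_add, Complex.ofReal_re]
      exact ht2
    have hiff : ∀ ζ, Ψ ζ ∈ B ↔ ζ.re < 0 := by
      intro ζ
      refine ⟨fun h => ?_, (s1 ζ).1⟩
      by_contra hcon
      push Not at hcon
      rcases hcon.lt_or_eq with h4 | h4
      · exact (s1 ζ).2 h4 h
      · exact hzero ζ h4.symm h
    refine ⟨Ψ, g1, curve_injective G.F G.F.injective l c h1 Ψ g1 v g3 g4 g5, g2, ?_, g5,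
      fun ζ => ⟨hiff ζ, ?_⟩⟩
    · rw [g4.deriv, g3]
    · rw [hBo.frontier_eq]
      constructor
      · rintro ⟨h4, h5⟩
        rw [hiff, not_lt] at h5
        refine le_antisymm ?_ h5
        by_contra hcon
        push Not at hcon
        exact (s2 ζ).2 hcon h4
      · intro h
        refine ⟨?_, hzero ζ h⟩
        have h5 : Tendsto (fun t : ℝ => Ψ (ζ + (t : ℂ))) (𝓝[<] 0) (𝓝 (Ψ ζ)) := by
          have h6 : Continuous fun t : ℝ => Ψ (ζ + (t : ℂ)) :=
            g1.continuous.comp (continuous_const.add Complex.continuous_ofReal)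
          have h7 := h6.tendsto 0
          rw [Complex.ofReal_zero, add_zero] at h7
          exact h7.mono_left nhdsWithin_le_nhds
        refine mem_closure_of_tendsto h5 ?_
        filter_upwards [self_mem_nhdsWithin] with t ht
        rw [hiff, Complex.add_re, h, zero_add, Complex.ofReal_re]
        exact ht

end Pool.Agent.Helper96.GB
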