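import Pool.Agent.Helper96.GB.Only

/-! The attracting fixed points of `(z, w) ↦ (a z exp z - δ w, z)`, `δ` small (MP_cd5a48_an). -/

set_option autoImplicit false

open Set Filter Metric Topology

namespace Pool.Agent.Helper96.GB

theorem only_attr_small (a : ℂ) (ha0 : a ≠ 0) (ha : ‖a‖ < 1) : ∃ ε : ℝ, 0 < ε ∧ ∀ δ : ℂ,
    ‖δ‖ < ε → ∀ p : E, IsAttr (hmap δ (fam a)) p → p = 0 := by
  have han : 0 < ‖a‖ := norm_pos_iff.2 ha0
  have hlog : Real.log ‖a‖ < 0 := Real.log_neg han ha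
  -- the choice of the bound
  have hcont : ContinuousAt (fun d : ℝ => (1 - d) * (1 + (Real.log (1 - d) - Real.log ‖a‖)) -
      (1 + d)) 0 := by
    refine ContinuousAt.sub (ContinuousAt.mul (by fun_prop) (continuousAt_const.add
      (ContinuousAt.sub (ContinuousAt.log (by fun_prop) (by norm_num)) continuousAt_const)))
      (by fun_prop)
  have hpos : 0 < (1 - (0 : ℝ)) * (1 + (Real.log (1 - 0) - Real.log ‖a‖)) - (1 + 0) := by
    simp
    linarith
  obtain ⟨ε, hε, hball⟩ := Metric.eventually_nhds_iff.1 (hcont.eventually (lt_mem_nhds hpos))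
  refine ⟨min ε 1, lt_min hε one_pos, fun δ hδ p hp => ?_⟩
  have hδε : ‖δ‖ < ε := lt_of_lt_of_le hδ (min_le_left _ _)
  have hδ1 : ‖δ‖ < 1 := lt_of_lt_of_le hδ (min_le_right _ _)
  have hkey : 0 < (1 - ‖δ‖) * (1 + (Real.log (1 - ‖δ‖) - Real.log ‖a‖)) - (1 + ‖δ‖) := by
    refine hball ?_
    rw [Real.dist_eq, sub_zero, abs_of_nonneg (norm_nonneg δ)]
    exact hδε
  obtain ⟨hfix, n, hn⟩ := hp
  have h1 : p.1 = p.2 := congrArg Prod.snd hfix
  have h2 : fam a p.1 - δ * p.2 = p.1 := congrArg Prod.fst hfix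
  rw [← h1, fam] at h2
  set t : ℂ := p.1 with ht
  by_cases ht0 : t = 0
  · exact Prod.ext ht0 (h1.symm.trans ht0)
  exfalso
  have hat : a * Complex.exp t = 1 + δ := by
    have h3 : (a * Complex.exp t - (1 + δ)) * t = 0 := by linear_combination h2
    rcases mul_eq_zero.1 h3 with h4 | h4
    · exact sub_eq_zero.1 h4
    · exact absurd h4 ht0
  have h1d : 1 - ‖δ‖ ≤ ‖1 + δ‖ := by
    have := norm_sub_norm_le (1 : ℂ) (-δ)
    rwa [norm_one, norm_neg, sub_neg_eq_add] at this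
  have hre : Real.log (1 - ‖δ‖) - Real.log ‖a‖ ≤ t.re := by
    have h3 := congrArg norm hat
    rw [norm_mul, Complex.norm_exp] at h3
    have h4 : 1 - ‖δ‖ ≤ ‖a‖ * Real.exp t.re := by rw [h3]; exact h1d
    have h5 := Real.log_le_log (by linarith) h4
    rw [Real.log_mul han.ne' (Real.exp_pos _).ne', Real.log_exp] at h5
    linarith
  have hder : deriv (fam a) t = (1 + δ) * (1 + t) := by
    rw [fam_deriv]
    linear_combination (1 + t) * hat
  rw [(hmap_hasFDerivAt δ (fam_diff a) p).fderiv, ← ht, hder] at hn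
  set b : ℂ := (1 + δ) * (1 + t) with hb
  obtain ⟨s, hs⟩ := IsAlgClosed.exists_pow_nat_eq (b ^ 2 - 4 * δ) (n := 2) (by norm_num)
  have key : ∀ lam : ℂ, lam ^ 2 = b * lam - δ → ‖lam‖ < 1 := by
    intro lam hlam
    refine eig_lt_one hn (v := ((lam, 1) : E)) (fun h => ?_) ?_
    · have := congrArg Prod.snd h
      exact one_ne_zero this
    · ext
      · simp
        rw [← pow_two, hlam]
      · simp
  have hx := key ((b + s) / 2) (by linear_combination hs / 4)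
  have hy := key ((b - s) / 2) (by linear_combination hs / 4)
  have hxy : (b + s) / 2 * ((b - s) / 2) = δ := by linear_combination -hs / 4
  have hnn : ‖(b + s) / 2‖ * ‖(b - s) / 2‖ = ‖δ‖ := by rw [← norm_mul, hxy]
  have h3 : ‖b‖ ≤ ‖(b + s) / 2‖ + ‖(b - s) / 2‖ := by
    have h4 := norm_add_le ((b + s) / 2) ((b - s) / 2)
    have h5 : (b + s) / 2 + (b - s) / 2 = b := by ring
    rwa [h5] at h4
  have h4 : ‖b‖ < 1 + ‖δ‖ := by nlinarith
  have h5 : (1 - ‖δ‖) * (1 + (Real.log (1 - ‖δ‖) - Real.log ‖a‖)) ≤ ‖b‖ := by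
    rw [hb, norm_mul]
    have h6 : 1 + t.re ≤ ‖1 + t‖ := by
      have := Complex.re_le_norm (1 + t)
      simpa using this
    have h7 : 1 + (Real.log (1 - ‖δ‖) - Real.log ‖a‖) ≤ ‖1 + t‖ := by linarith
    have h8 : 0 ≤ 1 - ‖δ‖ := by linarith
    calc (1 - ‖δ‖) * (1 + (Real.log (1 - ‖δ‖) - Real.log ‖a‖)) ≤ (1 - ‖δ‖) * ‖1 + t‖ :=
          mul_le_mul_of_nonneg_left h7 h8
      _ ≤ ‖1 + δ‖ * ‖1 + t‖ := mul_le_mul_of_nonneg_right h1d (norm_nonneg _)
  linarith

end Pool.Agent.Helper96.GB
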