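import Pool.Agent.Helper96.GB.DenseThm
import Pool.Agent.Helper96.GB.Half

/-! Tangent half spaces and cones (MP_cd5a48_an). -/

set_option autoImplicit false

open Set Filter Metric Topology

namespace Pool.Agent.Helper96.GB

/-- `B` has a tangent half space at `q`. -/
def HasTangent (B : Set E) (q : E) : Prop := ∃ ℓ : E →L[ℝ] ℝ, ℓ ≠ 0 ∧ Half B q ℓ

theorem cone_of_half {B : Set E} {q : E} {ℓ : E →L[ℝ] ℝ} (hℓ : ℓ ≠ 0) (h : Half B q ℓ) :
    ConeAt (1 / 2) B q := by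
  have hn : 0 < ‖ℓ‖ := norm_pos_iff.2 hℓ
  -- a direction
  obtain ⟨v, hv1, hv⟩ : ∃ v : E, ‖v‖ = 1 ∧ ℓ v < -(9 / 10 * ‖ℓ‖) := by
    obtain ⟨x, hx⟩ : ∃ x : E, 9 / 10 * ‖ℓ‖ * ‖x‖ < ‖ℓ x‖ := by
      by_contra hc
      push Not at hc
      have := ℓ.opNorm_le_bound (by positivity) hc
      linarith
    have hx0 : 0 < ‖x‖ := by
      rw [norm_pos_iff]
      rintro rfl
      simp at hx
    rw [Real.norm_eq_abs] at hx
    rcases lt_abs.1 hx with h1 | h1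
    · refine ⟨-(‖x‖⁻¹ • x), ?_, ?_⟩
      · rw [norm_neg, norm_smul, norm_inv, norm_norm, inv_mul_cancel₀ hx0.ne']
      · rw [map_neg, map_smul, smul_eq_mul, neg_lt_neg_iff, inv_mul_eq_div, lt_div_iff₀ hx0]
        exact h1
    · refine ⟨‖x‖⁻¹ • x, ?_, ?_⟩
      · rw [norm_smul, norm_inv, norm_norm, inv_mul_cancel₀ hx0.ne']
      · rw [map_smul, smul_eq_mul, inv_mul_eq_div, div_lt_iff₀ hx0]
        linarith
  refine ⟨v, hv1, ?_⟩
  have h1 := h (‖ℓ‖ / 5) (by positivity)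
  obtain ⟨r, hr, hball⟩ := Metric.eventually_nhds_iff.1 h1
  have h2 : ∀ᶠ s : ℝ in 𝓝[>] (0 : ℝ), s < r / 2 :=
    nhdsWithin_le_nhds (gt_mem_nhds (by positivity))
  filter_upwards [h2, self_mem_nhdsWithin] with s hs hs0 w hw
  have hs0' : 0 < s := hs0
  have hwn : ‖w‖ < 3 / 2 := by
    have := norm_add_le (w - v) v
    rw [sub_add_cancel, hv1] at this
    linarith
  have hlw : ℓ w < -(2 / 5 * ‖ℓ‖) := by
    have h3 : ℓ w = ℓ (w - v) + ℓ v := by rw [map_sub]; ring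
    have h4 : ℓ (w - v) ≤ ‖ℓ‖ * (1 / 2) := by
      refine (Real.le_norm_self _).trans ((ℓ.le_opNorm _).trans ?_)
      exact mul_le_mul_of_nonneg_left hw.le hn.le
    rw [h3]
    linarith
  have hsw : ‖s • w‖ = s * ‖w‖ := by rw [norm_smul, Real.norm_of_nonneg hs0'.le]
  have hswr : ‖s • w‖ < r := by
    rw [hsw]
    nlinarith [norm_nonneg w]
  have hkey : ℓ (s • w) < -(‖ℓ‖ / 5 * ‖s • w‖) := by
    rw [hsw, map_smul, smul_eq_mul]
    have h5 : ‖ℓ‖ / 5 * ‖w‖ < 2 / 5 * ‖ℓ‖ := by nlinarith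
    nlinarith
  constructor
  · have h6 := (hball (y := q + s • w) (by rw [dist_eq_norm, add_sub_cancel_left]; exact hswr)).1
    rw [add_sub_cancel_left] at h6
    exact h6 hkey
  · have h6 := (hball (y := q - s • w) (by rw [dist_eq_norm, sub_sub_cancel_left, norm_neg]; exact hswr)).2
    rw [sub_sub_cancel_left, norm_neg, map_neg] at h6
    exact h6 (by linarith)

theorem dense_tangent (M : ℝ) : Dense (interior {z : Pairs | ∃ q, M < ‖q‖ ∧
    IsAttr z.1.1.F.symm q ∧ q ∈ frontier (basin z.1.1.F z.1.2) ∧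
    ¬ HasTangent (basin z.1.1.F z.1.2) q}) := by
  refine (dense_pairs M (1 / 2) (by norm_num)).mono (interior_mono ?_)
  rintro z ⟨q, h1, h2, h3, -, h4⟩
  exact ⟨q, h1, h2, h3, fun ⟨ℓ, hℓ, hH⟩ => h4 (cone_of_half hℓ hH)⟩

end Pool.Agent.Helper96.GB
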