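import Pool.Agent.Helper96.GB.Final
import Pool.Agent.Helper1.GB.Wada
import Pool.Agent.Helper18.GB.Sand
import Pool.Agent.Helper33.GB.Open
import Pool.Agent.Helper47.GB.PolyGrow
import Pool.Agent.Helper78.GB.Osh
import Pool.Agent.Helper78.GB.Unb
import Pool.Agent.Helper89.GB.Baire
import Pool.Agent.Helper98.GB.X

/-! The theorem (MP_cd5a48_an). -/

set_option autoImplicit false

open Set Filter Metric Topology

namespace Pool.Agent.Helper96.GB

theorem sand : S_Sand := Pool.Agent.Helper18.GB.s_Sand s_Nbhd Pool.Agent.Helper78.GB.s_Osh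

theorem unb : S_Unb := Pool.Agent.Helper78.GB.s_Unb Pool.Agent.Helper98.GB.s_TrapFix

theorem thm : BaireSpace Aut2 ∧ ∀ᶠ A in residual Aut2,
    ¬ IsPoly A.F ∧ (∀ M : ℝ, ∃ p, M < ‖p‖ ∧ IsAttr A.F p) ∧
      ∀ p, IsAttr A.F p → (frontier (basin A.F p)).Nonempty ∧
        (∀ x ∈ frontier (basin A.F p), ¬ IsC1At (basin A.F p) x) ∧
        ∀ q, IsAttr A.F q → frontier (basin A.F q) = frontier (basin A.F p) :=
  ⟨s_Baire, main (s_Route sand Pool.Agent.Helper78.GB.s_Int unb) Pool.Agent.Helper78.GB.s_Front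
    Pool.Agent.Helper33.GB.s_OpenEnter Pool.Agent.Helper33.GB.s_OpenTrap
    Pool.Agent.Helper33.GB.s_OpenGrow Pool.Agent.Helper98.GB.s_TrapFix
    Pool.Agent.Helper98.GB.s_AttrTrap Pool.Agent.Helper98.GB.s_BasinOm
    (s_Create sand Pool.Agent.Helper78.GB.s_IntD) Pool.Agent.Helper47.GB.polyGrow
    (s_Grow sand Pool.Agent.Helper78.GB.s_IntD) s_Wada⟩

end Pool.Agent.Helper96.GB
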